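import Pool.Agent.W5h11.TZ.Iface2

set_option autoImplicit false

namespace Pool.Agent.W5h11.TZ.MS

open Finset Filter Topology Real

/-- `u(t) = t e^(-xt)` -/
noncomputable def u (x : ℝ) (t : ℕ) : ℝ := t * exp (-(x * t))

theorem u_nonneg (x : ℝ) (t : ℕ) : 0 ≤ u x t := by unfold u; positivity

theorem u_pos (x : ℝ) {t : ℕ} (ht : 0 < t) : 0 < u x t := by
  unfold u
  have : (0 : ℝ) < t := by exact_mod_cast ht
  positivity

theorem u_succ (x : ℝ) {t : ℕ} (ht : 0 < t) :
    u x (t + 1) = u x t * ((1 + 1 / (t : ℝ)) * exp (-x)) := by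
  unfold u
  have h : (0 : ℝ) < t := by exact_mod_cast ht
  have e : exp (-(x * ((t + 1 : ℕ) : ℝ))) = exp (-(x * t)) * exp (-x) := by
    rw [← exp_add]; congr 1; push_cast; ring
  rw [e]
  push_cast
  field_simp

theorem u_succ_ge (x : ℝ) {t : ℕ} (ht : 0 < t) : u x t * exp (-x) ≤ u x (t + 1) := by
  rw [u_succ x ht]
  have h : (0 : ℝ) < t := by exact_mod_cast ht
  have h1 : 1 * exp (-x) ≤ (1 + 1 / (t : ℝ)) * exp (-x) := by
    apply mul_le_mul_of_nonneg_right _ (exp_pos _).le
    have : 0 < 1 / (t : ℝ) := by positivity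
    linarith
  rw [one_mul] at h1
  exact mul_le_mul_of_nonneg_left h1 (u_nonneg _ _)

theorem u_succ_le {x : ℝ} {t : ℕ} (hx : 0 < x) (ht : 1 / x ≤ t) : u x (t + 1) ≤ u x t := by
  have h : (0 : ℝ) < t := lt_of_lt_of_le (by positivity) ht
  have ht0 : 0 < t := by exact_mod_cast h
  rw [u_succ x ht0]
  have h1 : (1 + 1 / (t : ℝ)) * exp (-x) ≤ 1 := by
    have h2 : 1 + 1 / (t : ℝ) ≤ exp (1 / t) := by
      have := add_one_le_exp (1 / (t : ℝ)); linarith
    have h3 : 1 / (t : ℝ) ≤ x := by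
      rw [div_le_iff₀ hx] at ht
      rw [div_le_iff₀ h]; linarith
    calc (1 + 1 / (t : ℝ)) * exp (-x) ≤ exp (1 / t) * exp (-x) := by gcongr
      _ = exp (1 / t - x) := by rw [← exp_add, sub_eq_add_neg]
      _ ≤ 1 := by rw [exp_le_one_iff]; linarith
  calc u x t * _ ≤ u x t * 1 := mul_le_mul_of_nonneg_left h1 (u_nonneg _ _)
    _ = u x t := mul_one _

theorem u_anti {x : ℝ} (hx : 0 < x) {M t : ℕ} (hM : 1 / x ≤ M) (h : M ≤ t) : u x t ≤ u x M := by
  induction t, h using Nat.le_induction with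
  | base => exact le_rfl
  | succ t ht ih =>
    refine (u_succ_le hx (hM.trans ?_)).trans ih
    exact_mod_cast ht

theorem exp_neg_le {x : ℝ} (hx : 0 ≤ x) : exp (-x) ≤ 1 - x + x ^ 2 := by
  rw [exp_neg, inv_le_comm₀ (exp_pos _) (by nlinarith)]
  calc (1 - x + x ^ 2)⁻¹ ≤ 1 + x := by
        rw [inv_le_iff_one_le_mul₀ (by nlinarith)]
        nlinarith [pow_nonneg hx 3]
    _ ≤ exp x := by linarith [add_one_le_exp x]

/-- the decrement from below -/
theorem dec_ge {x : ℝ} (hx : 0 < x) {M t : ℕ} (hM : 1 / x ≤ M) (h : M ≤ t) :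
    u x t * (x * (1 - x - 1 / (x * M))) ≤ u x t - u x (t + 1) := by
  have hM0 : (0 : ℝ) < M := lt_of_lt_of_le (by positivity) hM
  have hMt : (M : ℝ) ≤ t := by exact_mod_cast h
  have ht : (0 : ℝ) < t := hM0.trans_le hMt
  have ht0 : 0 < t := by exact_mod_cast ht
  rw [u_succ x ht0]
  have h1 : (1 + 1 / (t : ℝ)) * exp (-x) ≤ 1 - x * (1 - x - 1 / (x * M)) := by
    have h2 : 1 / (t : ℝ) ≤ 1 / M := one_div_le_one_div_of_le hM0 hMt
    have h3 : x * (1 - x - 1 / (x * M)) = x - x ^ 2 - 1 / M := by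
      field_simp
    rw [h3]
    have h4 := exp_neg_le hx.le
    have h5 : 0 < exp (-x) := exp_pos _
    have h6 : exp (-x) ≤ 1 := by rw [exp_le_one_iff]; linarith
    have h7 : 1 / (t : ℝ) * exp (-x) ≤ 1 / M * 1 := by
      apply mul_le_mul h2 h6 h5.le (by positivity)
    nlinarith
  nlinarith [u_nonneg x t]

/-- the decrement from above -/
theorem dec_le {x : ℝ} {t : ℕ} (ht : 0 < t) : u x t - u x (t + 1) ≤ x * u x t := by
  have h := u_succ_ge x ht
  have h1 : 1 - x ≤ exp (-x) := one_sub_le_exp_neg x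
  nlinarith [u_nonneg x t]

theorem tel (f : ℕ → ℝ) {M N : ℕ} (h : M ≤ N) :
    ∑ t ∈ Ico M N, (f (t + 1) - f t) = f N - f M := by
  induction N, h using Nat.le_induction with
  | base => simp
  | succ N hN ih => rw [sum_Ico_succ_top hN, ih]; ring

/-- upper bound of the sum -/
theorem sum_le {x : ℝ} (hx : 0 < x) {M N : ℕ} (hM : 1 / x ≤ M) (h : M ≤ N)
    (hk : 0 < 1 - x - 1 / (x * M)) :
    ∑ t ∈ Ico M N, exp (-(u x t)) * exp (-(x * t)) ≤ 1 / (x * M) / (1 - x - 1 / (x * M)) := by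
  have hM0 : (0 : ℝ) < M := lt_of_lt_of_le (by positivity) hM
  set κ := 1 - x - 1 / (x * M) with hκ
  have h1 : ∀ t ∈ Ico M N, exp (-(u x t)) * exp (-(x * t)) ≤
      1 / (x * M) / κ * (exp (-(u x (t + 1))) - exp (-(u x t))) := by
    intro t ht
    rw [mem_Ico] at ht
    have hMt : (M : ℝ) ≤ t := by exact_mod_cast ht.1
    have ht0 : (0 : ℝ) < t := hM0.trans_le hMt
    have h2 := dec_ge hx hM ht.1
    rw [← hκ] at h2
    have h3 : exp (-(x * t)) = u x t / t := by unfold u; field_simp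
    have h4 : exp (-(x * t)) ≤ u x t / M := by
      rw [h3]
      exact div_le_div_of_nonneg_left (u_nonneg _ _) hM0 hMt
    have h5 : exp (-(u x t)) * (u x t - u x (t + 1)) ≤
        exp (-(u x (t + 1))) - exp (-(u x t)) := by
      have e : exp (-(u x (t + 1))) = exp (-(u x t)) * exp (u x t - u x (t + 1)) := by
        rw [← exp_add]; congr 1; ring
      rw [e]
      have := add_one_le_exp (u x t - u x (t + 1))
      nlinarith [exp_pos (-(u x t))]
    have h6 : exp (-(u x t)) * (u x t * (x * κ)) ≤ exp (-(u x (t + 1))) - exp (-(u x t)) :=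
      (mul_le_mul_of_nonneg_left h2 (exp_pos _).le).trans h5
    calc exp (-(u x t)) * exp (-(x * t)) ≤ exp (-(u x t)) * (u x t / M) := by gcongr
      _ = 1 / (x * M) / κ * (exp (-(u x t)) * (u x t * (x * κ))) := by field_simp
      _ ≤ _ := by gcongr
  calc _ ≤ ∑ t ∈ Ico M N, 1 / (x * M) / κ * (exp (-(u x (t + 1))) - exp (-(u x t))) :=
        sum_le_sum h1
    _ = 1 / (x * M) / κ * (exp (-(u x N)) - exp (-(u x M))) := by
        rw [← mul_sum, tel (fun t => exp (-(u x t))) h]
    _ ≤ 1 / (x * M) / κ * 1 := by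
        gcongr
        have h2 : exp (-(u x N)) ≤ 1 := by
          rw [exp_le_one_iff]; linarith [u_nonneg x N]
        linarith [exp_pos (-(u x M))]
    _ = _ := mul_one _

/-- lower bound of the sum -/
theorem sum_ge {x U a : ℝ} (hx : 0 < x) {M N : ℕ} (hM : 0 < M) (h : M ≤ N)
    (hU : ∀ t, M ≤ t → u x t ≤ U) (hUM : U * exp (-x) ≤ u x M) (ha : u x N ≤ a) :
    1 / (x * N) * ((exp (-a) - exp (-(U * exp (-x)))) / exp (U * x)) ≤
      ∑ t ∈ Ico M N, exp (-(u x t)) * exp (-(x * t)) := by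
  have hN0 : (0 : ℝ) < N := by exact_mod_cast lt_of_lt_of_le hM h
  have h1 : ∀ t ∈ Ico M N, 1 / (x * N) / exp (U * x) *
      (exp (-(u x (t + 1))) - exp (-(u x t))) ≤ exp (-(u x t)) * exp (-(x * t)) := by
    intro t ht
    rw [mem_Ico] at ht
    have ht0 : 0 < t := lt_of_lt_of_le hM ht.1
    have ht1 : (0 : ℝ) < t := by exact_mod_cast ht0
    have htN : (t : ℝ) ≤ N := by exact_mod_cast ht.2.le
    have h2 := dec_le (x := x) ht0
    have h3 : exp (-(x * t)) = u x t / t := by unfold u; field_simp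
    have h4 : u x t / N ≤ exp (-(x * t)) := by
      rw [h3]
      exact div_le_div_of_nonneg_left (u_nonneg _ _) ht1 htN
    have h5 : exp (-(u x (t + 1))) - exp (-(u x t)) ≤
        exp (-(u x t)) * (exp (U * x) * (x * u x t)) := by
      rcases le_or_gt 0 (u x t - u x (t + 1)) with hd | hd
      · have e : exp (-(u x t)) = exp (-(u x (t + 1))) * exp (-(u x t - u x (t + 1))) := by
          rw [← exp_add]; congr 1; ring
        have e2 : exp (-(u x (t + 1))) = exp (-(u x t)) * exp (u x t - u x (t + 1)) := by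
          rw [← exp_add]; congr 1; ring
        have h6 : 1 - (u x t - u x (t + 1)) ≤ exp (-(u x t - u x (t + 1))) :=
          one_sub_le_exp_neg _
        have h7 : exp (-(u x (t + 1))) - exp (-(u x t)) ≤
            exp (-(u x (t + 1))) * (u x t - u x (t + 1)) := by
          rw [e]
          nlinarith [exp_pos (-(u x (t + 1)))]
        have h8 : exp (u x t - u x (t + 1)) ≤ exp (U * x) := by
          apply exp_le_exp.2
          have := hU t ht.1
          nlinarith
        calc _ ≤ exp (-(u x (t + 1))) * (u x t - u x (t + 1)) := h7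
          _ ≤ exp (-(u x (t + 1))) * (x * u x t) := by gcongr
          _ = exp (-(u x t)) * (exp (u x t - u x (t + 1)) * (x * u x t)) := by
              rw [e2]; ring
          _ ≤ _ := by
              have := u_nonneg x t
              gcongr
      · have h6 : exp (-(u x (t + 1))) ≤ exp (-(u x t)) := exp_le_exp.2 (by linarith)
        have h7 : 0 ≤ exp (-(u x t)) * (exp (U * x) * (x * u x t)) := by
          have := u_nonneg x t
          positivity
        linarith
    calc 1 / (x * N) / exp (U * x) * (exp (-(u x (t + 1))) - exp (-(u x t)))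
        ≤ 1 / (x * N) / exp (U * x) * (exp (-(u x t)) * (exp (U * x) * (x * u x t))) := by
          gcongr
      _ = exp (-(u x t)) * (u x t / N) := by field_simp
      _ ≤ _ := by gcongr
  have h9 : exp (-a) - exp (-(U * exp (-x))) ≤ exp (-(u x N)) - exp (-(u x M)) := by
    have h10 : exp (-a) ≤ exp (-(u x N)) := exp_le_exp.2 (by linarith)
    have h11 : exp (-(u x M)) ≤ exp (-(U * exp (-x))) := exp_le_exp.2 (by linarith)
    linarith
  calc 1 / (x * N) * ((exp (-a) - exp (-(U * exp (-x)))) / exp (U * x))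
      = 1 / (x * N) / exp (U * x) * (exp (-a) - exp (-(U * exp (-x)))) := by ring
    _ ≤ 1 / (x * N) / exp (U * x) * (exp (-(u x N)) - exp (-(u x M))) :=
        mul_le_mul_of_nonneg_left h9 (by positivity)
    _ = ∑ t ∈ Ico M N, 1 / (x * N) / exp (U * x) *
        (exp (-(u x (t + 1))) - exp (-(u x t))) := by
        rw [← mul_sum, tel (fun t => exp (-(u x t))) h]
    _ ≤ _ := sum_le_sum h1


/-- the choice of `M` and `N` -/
theorem choose_MN {a U s L x : ℝ} (ha : 0 < a) (ha1 : a < 1) (hU : 1 < U) (hs : 0 < s)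
    (hL : 52 ≤ L) (hsL : exp (L / 2) = s)
    (hx1 : 1 / (4 * s) ≤ x) (hx2 : x ≤ 13 / s)
    (e1 : 13 / s ≤ 1 / 2) (e2 : 13 / s < 1 - a) (e3 : U * exp 2 < s / 13)
    (e4 : (4 * s * L + 1) / s ^ 2 ≤ a) :
    ∃ M N : ℕ, 1 / x ≤ M ∧ M ≤ N ∧ (N : ℝ) ≤ 4 * s * L + 1 ∧
      L / 2 - Real.log (13 * U) ≤ x * M ∧
      x * N ≤ L / 2 + Real.log (4 * L + 1) - Real.log a + x ∧
      (∀ t : ℕ, M ≤ t → u x t ≤ U) ∧ U * exp (-x) ≤ u x M ∧ u x N ≤ a := by
  have hx : 0 < x := lt_of_lt_of_le (by positivity) hx1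
  have hxh : x ≤ 1 / 2 := hx2.trans e1
  -- a point where `u ≤ a`
  set t0 : ℕ := ⌈4 * s * L⌉₊ with ht0
  have h40 : 0 ≤ 4 * s * L := by positivity
  have ht1 : 4 * s * L ≤ t0 := Nat.le_ceil _
  have ht2 : (t0 : ℝ) ≤ 4 * s * L + 1 := (Nat.ceil_lt_add_one h40).le
  have hxt : L ≤ x * t0 := by
    calc L = 1 / (4 * s) * (4 * s * L) := by field_simp
      _ ≤ x * t0 := by gcongr
  have hx1' : 1 / x ≤ 4 * s := by
    rw [div_le_iff₀ hx]
    rw [div_le_iff₀ (by positivity)] at hx1
    linarith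
  have hxt0 : 1 / x ≤ t0 := by
    refine hx1'.trans (le_trans ?_ ht1)
    nlinarith
  have hexpL : exp (-L) = 1 / s ^ 2 := by
    rw [← hsL, ← exp_nat_mul, exp_neg, one_div]
    congr 2
    push_cast
    ring
  have hu0 : u x t0 ≤ a := by
    unfold u
    calc (t0 : ℝ) * exp (-(x * t0)) ≤ (4 * s * L + 1) * exp (-L) := by
          apply mul_le_mul ht2 (exp_le_exp.2 (by linarith)) (exp_pos _).le (by positivity)
      _ = (4 * s * L + 1) / s ^ 2 := by rw [hexpL]; ring
      _ ≤ a := e4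
  classical
  have hexM : ∃ t : ℕ, 1 / x ≤ (t : ℝ) ∧ u x t ≤ U := ⟨t0, hxt0, by linarith⟩
  set M := Nat.find hexM with hMdef
  have hM := Nat.find_spec hexM
  rw [← hMdef] at hM
  obtain ⟨hM1, hM2⟩ := hM
  have hM0 : (0 : ℝ) < M := lt_of_lt_of_le (by positivity) hM1
  have hMt0 : M ≤ t0 := Nat.find_min' hexM ⟨hxt0, by linarith⟩
  -- `M` is not at the left end
  have hlt : 1 / x + 1 < M := by
    by_contra hcon
    push Not at hcon
    have h1 : x * M ≤ 1 + x := by
      calc x * M ≤ x * (1 / x + 1) := by gcongr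
        _ = 1 + x := by field_simp
    have h2 : s / 13 ≤ M := by
      refine le_trans ?_ hM1
      rw [le_div_iff₀ hx]
      rw [le_div_iff₀ hs] at hx2
      linarith
    have h3 : s / 13 * exp (-2) ≤ u x M := by
      unfold u
      have : exp (-2) ≤ exp (-(x * M)) := exp_le_exp.2 (by linarith)
      gcongr
    have h4 : s / 13 * exp (-2) ≤ U := h3.trans hM2
    have h5 : U < s / 13 * exp (-2) := by
      rw [exp_neg, ← div_eq_mul_inv, lt_div_iff₀ (exp_pos _)]
      exact e3
    linarith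
  have hMpos : 0 < M := by exact_mod_cast hM0
  have hcast : ((M - 1 : ℕ) : ℝ) = (M : ℝ) - 1 := by
    rw [Nat.cast_sub hMpos, Nat.cast_one]
  have hpred : U < u x (M - 1) := by
    have := Nat.find_min hexM (m := M - 1) (by omega)
    rw [not_and_or] at this
    rcases this with h | h
    · exfalso
      apply h
      rw [hcast]
      linarith
    · exact not_le.1 h
  have hMm : 0 < M - 1 := by
    have : (0 : ℝ) < ((M - 1 : ℕ) : ℝ) := by
      rw [hcast]
      have : 0 < 1 / x := by positivity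
      linarith
    exact_mod_cast this
  have hUM : U * exp (-x) ≤ u x M := by
    have h1 := u_succ_ge x hMm
    rw [Nat.sub_add_cancel hMpos] at h1
    refine le_trans ?_ h1
    gcongr
  have hall : ∀ t : ℕ, M ≤ t → u x t ≤ U := fun t ht => (u_anti hx hM1 ht).trans hM2
  -- the choice of `N`
  have hexN : ∃ t : ℕ, M ≤ t ∧ u x t ≤ a := ⟨t0, hMt0, hu0⟩
  set N := Nat.find hexN with hNdef
  have hN := Nat.find_spec hexN
  rw [← hNdef] at hN
  obtain ⟨hN1, hN2⟩ := hN
  have hNt0 : N ≤ t0 := Nat.find_min' hexN ⟨hMt0, hu0⟩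
  have hNt0' : (N : ℝ) ≤ t0 := by exact_mod_cast hNt0
  have hMN : M ≠ N := by
    intro h
    rw [← h] at hN2
    have h1 : 1 - x ≤ exp (-x) := one_sub_le_exp_neg x
    have h2 : 1 * (1 - x) ≤ U * exp (-x) := by
      apply mul_le_mul hU.le h1 (by linarith) (by linarith)
    linarith
  have hMN' : M < N := lt_of_le_of_ne hN1 hMN
  have hpredN : a < u x (N - 1) := by
    have := Nat.find_min hexN (m := N - 1) (by omega)
    rw [not_and_or] at this
    rcases this with h | h
    · exact absurd (by omega) h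
    · exact not_le.1 h
  refine ⟨M, N, hM1, hN1, hNt0'.trans ht2, ?_, ?_, hall, hUM, hN2⟩
  · -- lower bound of `x M`
    have h1 : exp (-(x * M)) ≤ 13 * U / s := by
      have h2 : (M : ℝ) * exp (-(x * M)) ≤ U := hM2
      have h3 : s / 13 ≤ M := by
        refine le_trans ?_ hM1
        rw [le_div_iff₀ hx]
        rw [le_div_iff₀ hs] at hx2
        linarith
      rw [le_div_iff₀ hs]
      have h4 : s / 13 * exp (-(x * M)) ≤ M * exp (-(x * M)) := by gcongr
      linarith
    have h2 : -(x * M) ≤ Real.log (13 * U / s) := by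
      rw [← Real.log_exp (-(x * M))]
      exact Real.log_le_log (exp_pos _) h1
    rw [Real.log_div (by positivity) hs.ne', ← hsL, Real.log_exp] at h2
    linarith
  · -- upper bound of `x N`
    have hNpos : 0 < N := by omega
    have hN1pos : 0 < N - 1 := by omega
    have hcastN : ((N - 1 : ℕ) : ℝ) = (N : ℝ) - 1 := by
      rw [Nat.cast_sub hNpos, Nat.cast_one]
    have hN1' : (0 : ℝ) < ((N - 1 : ℕ) : ℝ) := by exact_mod_cast hN1pos
    have h1 : a < ((N - 1 : ℕ) : ℝ) * exp (-(x * ((N - 1 : ℕ) : ℝ))) := hpredN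
    have h2 : ((N - 1 : ℕ) : ℝ) ≤ s * (4 * L + 1) := by
      rw [hcastN]
      have h3 : (1 : ℝ) ≤ s := by
        rw [← hsL]
        apply one_le_exp
        linarith
      nlinarith [hNt0'.trans ht2]
    have h3 : a ≤ s * (4 * L + 1) * exp (-(x * ((N - 1 : ℕ) : ℝ))) := by
      refine h1.le.trans ?_
      gcongr
    have h4 : Real.log a ≤ Real.log (s * (4 * L + 1) * exp (-(x * ((N - 1 : ℕ) : ℝ)))) :=
      Real.log_le_log ha h3
    rw [Real.log_mul (by positivity) (exp_pos _).ne', Real.log_exp,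
      Real.log_mul hs.ne' (by positivity), ← hsL, Real.log_exp, hcastN] at h4
    linarith


theorem lim_inv : Tendsto (fun L : ℝ => 13 / exp (L / 2)) atTop (𝓝 0) := by
  apply Tendsto.div_atTop tendsto_const_nhds
  exact tendsto_exp_atTop.comp (tendsto_id.atTop_div_const (by norm_num))

theorem lim_four : Tendsto (fun L : ℝ => 4 / L) atTop (𝓝 0) :=
  tendsto_const_nhds.div_atTop tendsto_id

theorem lim_small : Tendsto (fun L : ℝ => (4 * exp (L / 2) * L + 1) / exp (L / 2) ^ 2) atTop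
    (𝓝 0) := by
  have h1 : Tendsto (fun L : ℝ => (L / 2) ^ 1 * exp (-(L / 2))) atTop (𝓝 0) :=
    (Real.tendsto_pow_mul_exp_neg_atTop_nhds_zero 1).comp
      (tendsto_id.atTop_div_const (by norm_num))
  have h2 : Tendsto (fun L : ℝ => exp (-L)) atTop (𝓝 0) := tendsto_exp_neg_atTop_nhds_zero
  have h3 : Tendsto (fun L : ℝ => 8 * ((L / 2) ^ 1 * exp (-(L / 2))) + exp (-L)) atTop
      (𝓝 (8 * 0 + 0)) := (h1.const_mul 8).add h2
  rw [mul_zero, add_zero] at h3
  refine h3.congr fun L => ?_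
  have e1 : exp (-(L / 2)) = (exp (L / 2))⁻¹ := exp_neg _
  have e2 : exp (-L) = (exp (L / 2) ^ 2)⁻¹ := by
    rw [exp_neg, ← exp_nat_mul]
    congr 2
    push_cast
    ring
  rw [e1, e2]
  field_simp
  ring

theorem lim_log : Tendsto (fun L : ℝ => Real.log (4 * L + 1) / L) atTop (𝓝 0) := by
  have h1 : Tendsto (fun y : ℝ => Real.log y / y) atTop (𝓝 0) :=
    Real.isLittleO_log_id_atTop.tendsto_div_nhds_zero
  have h2 : Tendsto (fun L : ℝ => 4 * L + 1) atTop atTop :=
    tendsto_atTop_add_const_right _ _ (tendsto_id.const_mul_atTop (by norm_num))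
  have h3 := h1.comp h2
  have h4 : Tendsto (fun L : ℝ => 4 + 1 / L) atTop (𝓝 (4 + 0)) :=
    tendsto_const_nhds.add (tendsto_const_nhds.div_atTop tendsto_id)
  have h5 := h3.mul h4
  rw [zero_mul] at h5
  refine h5.congr' ?_
  filter_upwards [eventually_gt_atTop 0] with L hL
  have : 4 * L + 1 ≠ 0 := by positivity
  simp only [Function.comp]
  field_simp

theorem lim_up (c : ℝ) : Tendsto (fun L : ℝ => L * (1 / (L / 2 - c) /
    (1 - 13 / exp (L / 2) - 4 / L))) atTop (𝓝 2) := by
  have h1 : Tendsto (fun L : ℝ => 1 / (1 / 2 - c / L) / (1 - 13 / exp (L / 2) - 4 / L)) atTop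
      (𝓝 (1 / (1 / 2 - 0) / (1 - 0 - 0))) := by
    apply Tendsto.div
    · apply Tendsto.div tendsto_const_nhds
      · exact tendsto_const_nhds.sub (tendsto_const_nhds.div_atTop tendsto_id)
      · norm_num
    · exact (tendsto_const_nhds.sub lim_inv).sub lim_four
    · norm_num
  have h2 : (1 / (1 / 2 - 0) / (1 - 0 - 0) : ℝ) = 2 := by norm_num
  rw [h2] at h1
  refine h1.congr' ?_
  filter_upwards [eventually_gt_atTop 0] with L hL
  have e : 1 / 2 - c / L = (L / 2 - c) / L := by field_simp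
  rw [e, one_div_div]
  ring

theorem lim_low (a U : ℝ) : Tendsto (fun L : ℝ => L * (1 / (L / 2 + Real.log (4 * L + 1) -
    Real.log a + 13 / exp (L / 2)) * ((exp (-a) - exp (-(U * exp (-(13 / exp (L / 2)))))) /
      exp (U * (13 / exp (L / 2)))))) atTop (𝓝 (2 * (exp (-a) - exp (-U)))) := by
  have hA : Tendsto (fun L : ℝ => 1 / (1 / 2 + Real.log (4 * L + 1) / L - Real.log a / L +
      13 / exp (L / 2) / L)) atTop (𝓝 (1 / (1 / 2 + 0 - 0 + 0))) := by
    apply Tendsto.div tendsto_const_nhds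
    · refine ((tendsto_const_nhds.add lim_log).sub
        (tendsto_const_nhds.div_atTop tendsto_id)).add ?_
      have := lim_inv.mul (tendsto_inv_atTop_zero (𝕜 := ℝ))
      simpa [div_eq_mul_inv] using this
    · norm_num
  have hB : Tendsto (fun L : ℝ => (exp (-a) - exp (-(U * exp (-(13 / exp (L / 2)))))) /
      exp (U * (13 / exp (L / 2)))) atTop
      (𝓝 ((exp (-a) - exp (-(U * exp (-0)))) / exp (U * 0))) := by
    apply Tendsto.div
    · apply tendsto_const_nhds.sub
      exact (Real.continuous_exp.tendsto _).comp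
        (((Real.continuous_exp.tendsto _).comp lim_inv.neg).const_mul U).neg
    · exact (Real.continuous_exp.tendsto _).comp (lim_inv.const_mul U)
    · exact (exp_pos _).ne'
  have h := hA.mul hB
  have e0 : (1 / (1 / 2 + 0 - 0 + 0) * ((exp (-a) - exp (-(U * exp (-0)))) / exp (U * 0)) : ℝ) =
      2 * (exp (-a) - exp (-U)) := by
    simp
  rw [e0] at h
  refine h.congr' ?_
  filter_upwards [eventually_gt_atTop 0] with L hL
  have e : 1 / 2 + Real.log (4 * L + 1) / L - Real.log a / L + 13 / exp (L / 2) / L =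
      (L / 2 + Real.log (4 * L + 1) - Real.log a + 13 / exp (L / 2)) / L := by
    field_simp
  rw [e, one_div_div]
  ring

end Pool.Agent.W5h11.TZ.MS

namespace Pool.Agent.W5h11.TZ

open Finset Filter Topology Real

open MS in
theorem msum : S_SUM := by
  intro a U η ha ha1 hU hη
  have hpos : 0 < exp (-a) - exp (-U) := by
    have : exp (-U) < exp (-a) := exp_lt_exp.2 (by linarith)
    linarith
  have ev : ∀ᶠ L : ℝ in atTop, 52 ≤ L ∧ 13 / exp (L / 2) ≤ 1 / 2 ∧ 13 / exp (L / 2) < 1 - a ∧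
      U * exp 2 < exp (L / 2) / 13 ∧ (4 * exp (L / 2) * L + 1) / exp (L / 2) ^ 2 ≤ a ∧
      (4 * exp (L / 2) * L + 1) / exp (L / 2) ^ 2 ≤ 1 / 4 ∧ 4 * Real.log (13 * U) ≤ L ∧
      L * (1 / (L / 2 - Real.log (13 * U)) / (1 - 13 / exp (L / 2) - 4 / L)) ≤ (1 + η) * 2 ∧
      (1 - η) * (2 * (exp (-a) - exp (-U))) ≤ L * (1 / (L / 2 + Real.log (4 * L + 1) -
        Real.log a + 13 / exp (L / 2)) * ((exp (-a) - exp (-(U * exp (-(13 / exp (L / 2)))))) /
          exp (U * (13 / exp (L / 2))))) := by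
    have hexp : Tendsto (fun L : ℝ => exp (L / 2) / 13) atTop atTop :=
      (tendsto_exp_atTop.comp (tendsto_id.atTop_div_const (by norm_num))).atTop_div_const
        (by norm_num)
    filter_upwards [eventually_ge_atTop 52, lim_inv.eventually_le_const (show (0 : ℝ) < 1 / 2 by norm_num),
      lim_inv.eventually_lt_const (show (0 : ℝ) < 1 - a by linarith),
      hexp.eventually_gt_atTop (U * exp 2), lim_small.eventually_le_const ha,
      lim_small.eventually_le_const (show (0 : ℝ) < 1 / 4 by norm_num),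
      eventually_ge_atTop (4 * Real.log (13 * U)),
      (lim_up (Real.log (13 * U))).eventually_le_const (show (2 : ℝ) < (1 + η) * 2 by linarith),
      (lim_low a U).eventually_const_le
        (show (1 - η) * (2 * (exp (-a) - exp (-U))) < 2 * (exp (-a) - exp (-U)) by nlinarith)]
      with L h1 h2 h3 h4 h5 h6 h7 h8 h9
    exact ⟨h1, h2, h3, h4, h5, h6, h7, h8, h9⟩
  have hlog : Tendsto (fun n : ℕ => Real.log (n : ℝ)) atTop atTop :=
    Real.tendsto_log_atTop.comp tendsto_natCast_atTop_atTop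
  have ev2 := (hlog.eventually ev).and (eventually_ge_atTop 1)
  obtain ⟨n₁, hn₁⟩ := eventually_atTop.1 ev2
  refine ⟨n₁, fun n hn x hx1 hx2 => ?_⟩
  obtain ⟨⟨e0, e1, e2, e3, e4, e5, e6, e7, e8⟩, hn1⟩ := hn₁ n hn
  have hn0 : (0 : ℝ) < n := by exact_mod_cast hn1
  set L := Real.log (n : ℝ) with hL
  have hsL : exp (L / 2) = √(n : ℝ) := by
    rw [Real.exp_half, hL, Real.exp_log hn0]
  have hs2 : √(n : ℝ) ^ 2 = n := Real.sq_sqrt hn0.le
  rw [hsL] at e1 e2 e3 e4 e5 e7 e8
  set s := √(n : ℝ) with hs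
  have hs0 : 0 < s := Real.sqrt_pos.2 hn0
  have hs1 : 1 ≤ s := by
    rw [← hsL]
    apply one_le_exp
    linarith
  have hx : 0 < x := lt_of_lt_of_le (by positivity) hx1
  obtain ⟨M, N, hM1, hMN, hN, hxM, hxN, hall, hUM, hNa⟩ :=
    choose_MN ha ha1 hU hs0 e0 hsL hx1 hx2 e1 e2 e3 e4
  have hM0 : (0 : ℝ) < M := lt_of_lt_of_le (by positivity) hM1
  have hMpos : 0 < M := by exact_mod_cast hM0
  have hNpos : 0 < N := by omega
  have hN0 : (0 : ℝ) < N := by exact_mod_cast hNpos
  have hLM : L / 4 ≤ x * M := by linarith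
  have hxX : x ≤ 13 / s := hx2
  have hX0 : 0 < 13 / s := by positivity
  refine ⟨M, N, ?_, hMN, ?_, ?_, hLM, hall, ?_, hNa, ?_, ?_⟩
  · -- √n ≤ M
    have h1 : x * M ≤ 13 / s * M := by gcongr
    have h2 : 13 ≤ 13 / s * M := by linarith
    rw [div_mul_eq_mul_div, le_div_iff₀ hs0] at h2
    linarith
  · refine hN.trans ?_
    nlinarith [mul_nonneg hs0.le (sub_nonneg.2 e0), mul_nonneg (mul_nonneg hs0.le
      (sub_nonneg.2 e0)) (sub_nonneg.2 e0)]
  · have h1 : (4 * s * L + 1) * 4 ≤ s ^ 2 := by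
      rw [div_le_div_iff₀ (by positivity) (by norm_num)] at e5
      linarith
    have h2 : (4 : ℝ) * N ≤ n := by rw [← hs2]; linarith
    exact_mod_cast h2
  · have h1 : 1 - x ≤ exp (-x) := one_sub_le_exp_neg x
    have h2 : U * (1 / 2) ≤ U * exp (-x) := by
      apply mul_le_mul_of_nonneg_left _ (by linarith)
      linarith
    calc U / 2 = U * (1 / 2) := by ring
      _ ≤ U * exp (-x) := h2
      _ ≤ M * exp (-(x * M)) := hUM
  · -- the lower bound
    refine e8.trans ?_
    have h1 := sum_ge hx hMpos hMN hall hUM hNa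
    have h2 : exp (-(13 / s)) ≤ exp (-x) := exp_le_exp.2 (by linarith)
    have h3 : exp (-(U * exp (-x))) ≤ exp (-(U * exp (-(13 / s)))) := by
      apply exp_le_exp.2
      nlinarith
    have h4 : 0 ≤ exp (-a) - exp (-(U * exp (-(13 / s)))) := by
      have h5 : 1 - 13 / s ≤ exp (-(13 / s)) := one_sub_le_exp_neg _
      have h6 : a ≤ U * exp (-(13 / s)) := by nlinarith [exp_pos (-(13 / s))]
      have := exp_le_exp.2 (neg_le_neg h6)
      linarith
    have h5 : exp (U * x) ≤ exp (U * (13 / s)) := exp_le_exp.2 (by nlinarith)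
    have h6 : (exp (-a) - exp (-(U * exp (-(13 / s))))) / exp (U * (13 / s)) ≤
        (exp (-a) - exp (-(U * exp (-x)))) / exp (U * x) :=
      div_le_div₀ (by linarith) (by linarith) (exp_pos _) h5
    have h7 : 1 / (L / 2 + Real.log (4 * L + 1) - Real.log a + 13 / s) ≤ 1 / (x * N) :=
      one_div_le_one_div_of_le (by positivity) (by linarith)
    have h8 : 0 ≤ (exp (-a) - exp (-(U * exp (-(13 / s))))) / exp (U * (13 / s)) :=
      div_nonneg h4 (exp_pos _).le
    apply mul_le_mul_of_nonneg_left _ (by linarith)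
    refine le_trans ?_ h1
    exact mul_le_mul h7 h6 h8 (by positivity)
  · -- the upper bound
    refine le_trans ?_ e7
    have hxM4 : 1 / (x * M) ≤ 4 / L := by
      rw [div_le_div_iff₀ (by positivity) (by linarith)]
      linarith
    have h4L : 4 / L ≤ 4 / 52 := div_le_div_of_nonneg_left (by norm_num) (by norm_num) e0
    have hk : 0 < 1 - 13 / s - 4 / L := by
      have : (4 : ℝ) / 52 < 1 / 2 := by norm_num
      linarith
    have h1 := sum_le hx hM1 hMN (by linarith)
    apply mul_le_mul_of_nonneg_left _ (by linarith)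
    refine h1.trans ?_
    have h2 : 1 / (x * M) ≤ 1 / (L / 2 - Real.log (13 * U)) :=
      one_div_le_one_div_of_le (by linarith) hxM
    exact div_le_div₀ (by apply one_div_nonneg.2; linarith) h2 hk (by linarith)

end Pool.Agent.W5h11.TZ
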