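import Pool.Agent.W5h11.TZ.Iface5
import Pool.Agent.W5h11.TZ.MSum

set_option autoImplicit false

namespace Pool.Agent.W5h11.TZ.AJ

open Finset Filter Topology Real
open Pool.Agent.W5h11.TZ.MS (u u_nonneg u_pos u_succ_le dec_ge tel)

theorem tail_tele {x k : ℝ} (hx : 0 < x) (hk : 0 < k) (n : ℕ) :
    ∑ t ∈ (Icc 1 n).filter (fun t : ℕ => 4 ≤ x * t),
      (exp (-(k * u x (t + 1))) - exp (-(k * u x t))) ≤ 1 := by
  set M := ⌈4 / x⌉₊ with hM
  have hM1 : 4 / x ≤ M := Nat.le_ceil _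
  have hM2 : 1 / x ≤ M := le_trans (by gcongr; norm_num) hM1
  have hsub : (Icc 1 n).filter (fun t : ℕ => 4 ≤ x * t) ⊆ Ico M (max M (n + 1)) := by
    intro t ht
    rw [mem_filter, mem_Icc] at ht
    rw [mem_Ico]
    refine ⟨?_, ?_⟩
    · rw [hM, Nat.ceil_le, div_le_iff₀ hx]; linarith [ht.2]
    · have := ht.1.2
      omega
  have hnn : ∀ t ∈ Ico M (max M (n+1)),
      0 ≤ exp (-(k * u x (t + 1))) - exp (-(k * u x t)) := by
    intro t ht
    rw [mem_Ico] at ht
    have h1 : u x (t+1) ≤ u x t := u_succ_le hx (hM2.trans (by exact_mod_cast ht.1))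
    have h2 : exp (-(k * u x t)) ≤ exp (-(k * u x (t+1))) := by
      apply exp_le_exp.2; nlinarith
    linarith
  calc _ ≤ ∑ t ∈ Ico M (max M (n+1)), (exp (-(k * u x (t + 1))) - exp (-(k * u x t))) := 
        sum_le_sum_of_subset_of_nonneg hsub (fun t ht _ => hnn t ht)
    _ = exp (-(k * u x (max M (n+1)))) - exp (-(k * u x M)) :=
        tel (fun t => exp (-(k * u x t))) (le_max_left _ _)
    _ ≤ 1 := by
      have h3 : exp (-(k * u x (max M (n+1)))) ≤ 1 := by
        rw [exp_le_one_iff]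
        have := mul_nonneg hk.le (u_nonneg x (max M (n+1)))
        linarith
      linarith [exp_pos (-(k * u x M))]

theorem term_le {x k ε L : ℝ} (hx : 0 < x) (hx4 : x ≤ 1 / 4) (hk : 0 < k)
    (hεL : 4 ≤ ε / 2 * L) {t : ℕ} (ht : ε / 2 * L ≤ x * t) :
    exp (-(x * t)) * exp (-(k * u x t)) ≤
      4 / (ε * L * k) * (exp (-(k * u x (t + 1))) - exp (-(k * u x t))) := by
  have hxt : 4 ≤ x * t := hεL.trans ht
  have ht0 : (0:ℝ) < t := by
    by_contra h
    push Not at h
    nlinarith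
  have h1t : 1 / x ≤ t := by rw [div_le_iff₀ hx]; nlinarith
  have hd := dec_ge hx h1t (le_refl t)
  have hq : 1 / 2 ≤ 1 - x - 1 / (x * t) := by
    have : 1 / (x * t) ≤ 1 / 4 := one_div_le_one_div_of_le (by norm_num) hxt
    linarith
  have hu := u_nonneg x t
  have hd2 : x * u x t / 2 ≤ u x t - u x (t+1) := by
    have h1 : u x t * (x * (1/2)) ≤ u x t * (x * (1 - x - 1/(x*t))) := by gcongr
    linarith
  have hεL0 : 0 < ε * L := by linarith
  have e1 : exp (-(x*t)) = u x t / t := by unfold u; field_simp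
  have e2 : exp (-(x*t)) ≤ 2 * x * u x t / (ε * L) := by
    rw [e1, div_le_div_iff₀ ht0 hεL0]
    nlinarith
  have e3 : exp (-(x*t)) ≤ 4 / (ε*L) * (u x t - u x (t+1)) := by
    calc _ ≤ 2 * x * u x t / (ε * L) := e2
      _ = 4 / (ε * L) * (x * u x t / 2) := by ring
      _ ≤ _ := by gcongr
  have h5 : (k * (u x t - u x (t+1))) * exp (-(k * u x t)) ≤
      exp (-(k * u x (t+1))) - exp (-(k * u x t)) := by
    have e : exp (-(k * u x (t+1))) =
        exp (-(k * u x t)) * exp (k * (u x t - u x (t+1))) := by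
      rw [← exp_add]; congr 1; ring
    rw [e]
    have := add_one_le_exp (k * (u x t - u x (t+1)))
    nlinarith [exp_pos (-(k * u x t))]
  calc _ ≤ 4 / (ε*L) * (u x t - u x (t+1)) * exp (-(k * u x t)) := by gcongr
    _ = 4 / (ε*L*k) * ((k * (u x t - u x (t+1))) * exp (-(k * u x t))) := by
        field_simp
    _ ≤ _ := by gcongr

theorem big (ε c : ℝ) (hε : 0 < ε) (hc : 0 < c) : ∃ n₁ : ℕ, ∀ n : ℕ, n₁ ≤ n →
    (n:ℝ)^2 * exp (-(c * (n:ℝ)^(ε/2))) ≤ 1 ∧ Real.log n ^ 2 ≤ (n:ℝ)^(ε/2) ∧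
    4 ≤ ε/2 * Real.log n ∧ 1 ≤ Real.log n ∧ 2704 ≤ n := by
  have hcast : Tendsto (fun n : ℕ => (n:ℝ)) atTop atTop := tendsto_natCast_atTop_atTop
  have hy : Tendsto (fun n : ℕ => (n:ℝ)^(ε/2)) atTop atTop :=
    (tendsto_rpow_atTop (by positivity)).comp hcast
  have h1 : ∀ᶠ n : ℕ in atTop, (n:ℝ)^2 * exp (-(c * (n:ℝ)^(ε/2))) ≤ 1 := by
    have := (tendsto_rpow_mul_exp_neg_mul_atTop_nhds_zero (4/ε) c hc).comp hy
    filter_upwards [this.eventually (ge_mem_nhds (show (0:ℝ) < 1 by norm_num)),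
      eventually_ge_atTop 1] with n hn hn1
    have e : ((n:ℝ)^(ε/2))^(4/ε) = (n:ℝ)^2 := by
      rw [← rpow_mul (by positivity), ← rpow_natCast]
      congr 1
      field_simp
      norm_num
    simp only [Function.comp_apply, e, neg_mul] at hn
    exact hn
  have h2 : ∀ᶠ n : ℕ in atTop, Real.log n ^ 2 ≤ (n:ℝ)^(ε/2) := by
    have h := (isLittleO_log_rpow_atTop (show 0 < ε/4 by positivity)).bound
      (show (0:ℝ) < 1 by norm_num)
    filter_upwards [hcast.eventually h, eventually_ge_atTop 1] with n hn hn1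
    have hn0 : (0:ℝ) < n := by exact_mod_cast hn1
    rw [one_mul, Real.norm_eq_abs, Real.norm_eq_abs, abs_of_nonneg (rpow_nonneg hn0.le (ε/4))] at hn
    calc Real.log n ^ 2 = |Real.log n| ^ 2 := (sq_abs _).symm
      _ ≤ ((n:ℝ)^(ε/4))^2 := by gcongr
      _ = (n:ℝ)^(ε/2) := by
        rw [← rpow_natCast, ← rpow_mul hn0.le]; congr 1; push_cast; ring
  have h3 : ∀ᶠ n : ℕ in atTop, 4 ≤ ε/2 * Real.log n := by
    have := (tendsto_log_atTop.comp hcast).const_mul_atTop (show 0 < ε/2 by positivity)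
    exact this.eventually_ge_atTop 4
  have h4 : ∀ᶠ n : ℕ in atTop, 1 ≤ Real.log n :=
    (tendsto_log_atTop.comp hcast).eventually_ge_atTop 1
  obtain ⟨N, hN⟩ := eventually_atTop.1
    (h1.and (h2.and (h3.and (h4.and (eventually_ge_atTop 2704)))))
  exact ⟨N, fun n hn => hN n hn⟩

end Pool.Agent.W5h11.TZ.AJ

namespace Pool.Agent.W5h11.TZ

open Finset Filter Topology Real Pool.Agent.H581R3.Core Pool.Agent.R721.PN
open Pool.Agent.W5h11.TZ.MS (u u_nonneg)

theorem aj : S_X3 := by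
  intro xs C n0 h ε c hε hε2 hc
  obtain ⟨n₁, hn₁⟩ := AJ.big ε c hε hc
  refine ⟨1 + 4 / (ε * c), by positivity, max n₁ n0, ?_⟩
  intro n j hn hj hjn
  obtain ⟨b1, b2, b3, b4, b5⟩ := hn₁ n ((le_max_left _ _).trans hn)
  have hn0 : n0 ≤ n := (le_max_right _ _).trans hn
  have hx := h.pos n hn0
  have hx13 := h.hi n hn0
  set x := xs n with hxdef
  set L := Real.log n with hL
  have hnpos : (0:ℝ) < n := by
    have : (2704:ℝ) ≤ n := by exact_mod_cast b5
    linarith
  have hn1 : (1:ℝ) ≤ n := by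
    have : (2704:ℝ) ≤ n := by exact_mod_cast b5
    linarith
  have hsq : 52 ≤ √(n:ℝ) := by
    apply Real.le_sqrt_of_sq_le
    have : (2704:ℝ) ≤ n := by exact_mod_cast b5
    linarith
  have hx4 : x ≤ 1/4 := by
    refine hx13.trans ?_
    rw [div_le_iff₀ (by linarith)]
    linarith
  have hj0 : (0:ℝ) < j := by exact_mod_cast hj
  have hj1 : (1:ℝ) ≤ j := by exact_mod_cast hj
  have hLpos : 0 < L := by linarith
  have hLn : L ≤ n := by
    rw [hL]
    linarith [Real.log_le_sub_one_of_pos hnpos]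
  have hjs : (j:ℝ) * (n:ℝ)^(ε/2) ≤ (n:ℝ)^(1/2 - ε/2) := by
    calc (j:ℝ) * (n:ℝ)^(ε/2) ≤ (n:ℝ)^(1/2-ε) * (n:ℝ)^(ε/2) := by gcongr
      _ = (n:ℝ)^(1/2 - ε/2) := by rw [← rpow_add hnpos]; congr 1; ring
  have hsqle : (n:ℝ)^(1/2 - ε/2) ≤ √(n:ℝ) := by
    rw [Real.sqrt_eq_rpow]
    apply rpow_le_rpow_of_exponent_le hn1
    linarith
  have hq : ∀ q : ℝ, (n:ℝ)^(1/2 - ε/2) ≤ q → exp (-(c * q / j)) ≤ exp (-(c * (n:ℝ)^(ε/2))) := by
    intro q hq
    apply exp_le_exp.2
    apply neg_le_neg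
    rw [le_div_iff₀ hj0]
    calc c * (n:ℝ)^(ε/2) * j = c * (j * (n:ℝ)^(ε/2)) := by ring
      _ ≤ c * q := by gcongr; exact hjs.trans hq
  have key : ∀ t ∈ Icc 1 n, exp (-(x * t)) * exp (-(c * qq xs n t / j)) ≤
      exp (-(c * (n:ℝ)^(ε/2))) ∨ (ε/2 * L ≤ x * t ∧ qq xs n t = u x t ∧
        exp (-(x * t)) ≤ (n:ℝ)^(-(ε/2))) := by
    intro t ht
    rw [mem_Icc] at ht
    have ht0 : (0:ℝ) < t := by exact_mod_cast ht.1
    have hle1 : exp (-(x * t)) ≤ 1 := by
      rw [exp_le_one_iff]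
      have := mul_pos hx ht0
      linarith
    have hmul : ∀ y : ℝ, 0 ≤ y → exp (-(x * t)) * y ≤ y := fun y hy => by
      calc exp (-(x * t)) * y ≤ 1 * y := by gcongr
        _ = y := one_mul _
    by_cases h1 : (t:ℝ) < √(n:ℝ)
    · left
      have hqq : qq xs n t = √(n:ℝ) := by unfold qq; rw [if_pos h1]
      rw [hqq]
      exact (hmul _ (exp_pos _).le).trans (hq _ hsqle)
    · have hqq : qq xs n t = u x t := by unfold qq; rw [if_neg h1]; rfl
      by_cases h2 : (n:ℝ)^(1/2 - ε/2) ≤ u x t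
      · left
        rw [hqq]
        exact (hmul _ (exp_pos _).le).trans (hq _ h2)
      · right
        push Not at h1 h2
        have h3 : exp (-(x * t)) ≤ (n:ℝ)^(-(ε/2)) := by
          have h4 : √(n:ℝ) * exp (-(x * t)) ≤ √(n:ℝ) * (n:ℝ)^(-(ε/2)) := by
            calc √(n:ℝ) * exp (-(x * t)) ≤ t * exp (-(x * t)) := by gcongr
              _ ≤ (n:ℝ)^(1/2 - ε/2) := h2.le
              _ = √(n:ℝ) * (n:ℝ)^(-(ε/2)) := by
                rw [Real.sqrt_eq_rpow, ← rpow_add hnpos]; congr 1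
          exact le_of_mul_le_mul_left h4 (by linarith)
        refine ⟨?_, hqq, h3⟩
        have h5 := Real.log_le_log (exp_pos _) h3
        rw [Real.log_exp, Real.log_rpow hnpos] at h5
        linarith
  have hexp2 : exp (-(c * (n:ℝ)^(ε/2))) ≤ 1 / (n:ℝ)^2 := by
    rw [le_div_iff₀ (by positivity)]
    linarith
  constructor
  · intro t ht
    rcases key t ht with h1 | ⟨h1, h2, h3⟩
    · refine h1.trans (hexp2.trans ?_)
      apply one_div_le_one_div_of_le (by positivity)
      gcongr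
    · have ht0 : (0:ℝ) < t := by exact_mod_cast (mem_Icc.1 ht).1
      have hle1 : exp (-(c * qq xs n t / j)) ≤ 1 := by
        rw [exp_le_one_iff, h2]
        have : 0 ≤ c * u x t / j := by
          have := u_nonneg x t
          positivity
        linarith
      calc exp (-(x * t)) * exp (-(c * qq xs n t / j)) ≤ (n:ℝ)^(-(ε/2)) * 1 := by
            apply mul_le_mul h3 hle1 (exp_pos _).le (by positivity)
        _ ≤ 1 / L^2 := by
          rw [mul_one, rpow_neg hnpos.le, ← one_div]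
          exact one_div_le_one_div_of_le (by positivity) b2
  · have hb : ∀ t ∈ Icc 1 n, exp (-(x * t)) * exp (-(c * qq xs n t / j)) ≤
        exp (-(c * (n:ℝ)^(ε/2))) + (if 4 ≤ x * t then
          4 / (ε * L * (c / j)) * (exp (-(c / j * u x (t + 1))) - exp (-(c / j * u x t))) else 0) := by
      intro t ht
      have ht0 : (0:ℝ) < t := by exact_mod_cast (mem_Icc.1 ht).1
      rcases key t ht with h1 | ⟨h1, h2, h3⟩
      · refine h1.trans ?_
        have : 0 ≤ (if 4 ≤ x * t then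
          4 / (ε * L * (c / j)) * (exp (-(c / j * u x (t + 1))) - exp (-(c / j * u x t))) else 0) := by
          split_ifs with h4
          · apply mul_nonneg (by positivity)
            have h5 : u x (t+1) ≤ u x t := MS.u_succ_le hx (by
              rw [div_le_iff₀ hx]; nlinarith)
            have h6 : exp (-(c / j * u x t)) ≤ exp (-(c / j * u x (t+1))) := by
              apply exp_le_exp.2
              apply neg_le_neg
              gcongr
            linarith
          · exact le_rfl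
        linarith
      · rw [if_pos (b3.trans h1)]
        have h7 := AJ.term_le hx hx4 (show 0 < c / j by positivity) b3 h1
        have e : c * qq xs n t / j = c / j * u x t := by rw [h2]; ring
        rw [e]
        have := exp_pos (-(c * (n:ℝ)^(ε/2)))
        linarith
    calc ∑ t ∈ Icc 1 n, exp (-(x * t)) * exp (-(c * qq xs n t / j))
        ≤ ∑ t ∈ Icc 1 n, (exp (-(c * (n:ℝ)^(ε/2))) + (if 4 ≤ x * t then
          4 / (ε * L * (c / j)) * (exp (-(c / j * u x (t + 1))) - exp (-(c / j * u x t)))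
            else 0)) := sum_le_sum hb
      _ = n * exp (-(c * (n:ℝ)^(ε/2))) + 4 / (ε * L * (c / j)) *
          ∑ t ∈ (Icc 1 n).filter (fun t : ℕ => 4 ≤ x * t),
            (exp (-(c / j * u x (t + 1))) - exp (-(c / j * u x t))) := by
          rw [sum_add_distrib, sum_const, Nat.card_Icc, nsmul_eq_mul, ← sum_filter, mul_sum]
          simp
      _ ≤ n * (1 / (n:ℝ)^2) + 4 / (ε * L * (c / j)) * 1 := by
          gcongr
          exact AJ.tail_tele hx (by positivity) n
      _ ≤ j / L + 4 / (ε * L * (c / j)) * 1 := by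
          gcongr
          calc n * (1 / (n:ℝ)^2) = 1 / n := by field_simp
            _ ≤ 1 / L := one_div_le_one_div_of_le hLpos hLn
            _ ≤ j / L := by gcongr
      _ = (1 + 4 / (ε * c)) * j / L := by field_simp

end Pool.Agent.W5h11.TZ
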