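import Pool.Agent.W5h11.TZ.Iface6
import Pool.Agent.W5h11.TZ.AJ

set_option autoImplicit false

namespace Pool.Agent.W5h11.TZ.AJ2

open Finset Filter Topology Real

theorem big (c η κ : ℝ) (hc : 0 < c) (hη : 0 < η) (hκ : 0 < κ) : ∃ n₁ : ℕ, ∀ n : ℕ, n₁ ≤ n →
    (n:ℝ) * exp (-(κ * Real.log n ^ 2)) ≤ η / 2 ∧ 1 / (c * Real.log n ^ 2) ≤ η ∧
    1 ≤ Real.log n ∧ 2704 ≤ n := by
  have hlog : Tendsto (fun n : ℕ => Real.log n) atTop atTop :=
    tendsto_log_atTop.comp tendsto_natCast_atTop_atTop
  obtain ⟨N, hN⟩ := eventually_atTop.1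
    ((hlog.eventually_ge_atTop (2 / κ)).and ((hlog.eventually_ge_atTop (-Real.log (η / 2))).and
      ((hlog.eventually_ge_atTop (1 / (c * η))).and
        ((hlog.eventually_ge_atTop 1).and (eventually_ge_atTop 2704)))))
  refine ⟨N, fun n hn => ?_⟩
  obtain ⟨h1, h2, h3, h4, h5⟩ := hN n hn
  have hn0 : (0:ℝ) < n := by
    have : (2704:ℝ) ≤ n := by exact_mod_cast h5
    linarith
  refine ⟨?_, ?_, h4, h5⟩
  · have e : (n:ℝ) * exp (-(κ * Real.log n ^ 2)) =
        exp (Real.log n - κ * Real.log n ^ 2) := by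
      conv_lhs => rw [← Real.exp_log hn0, Real.log_exp]
      rw [← Real.exp_add]
      congr 1
    rw [e, ← Real.le_log_iff_exp_le (by positivity)]
    rw [div_le_iff₀ hκ] at h1
    nlinarith
  · rw [div_le_iff₀ (by positivity)]
    rw [div_le_iff₀ (by positivity)] at h3
    have : Real.log n ≤ Real.log n ^ 2 := by nlinarith
    have h6 : 0 < c * η := by positivity
    nlinarith

theorem zexp (z : ℝ) : z * exp (-z) ≤ 1 := by
  have h1 := Real.add_one_le_exp z
  have h2 : exp z * exp (-z) = 1 := by rw [← Real.exp_add]; simp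
  have h3 := Real.exp_pos (-z)
  nlinarith

end Pool.Agent.W5h11.TZ.AJ2

namespace Pool.Agent.W5h11.TZ

open Finset Filter Topology Real Pool.Agent.H581R3.Core Pool.Agent.R721.PN
open Pool.Agent.W5h11.TZ.MS (u u_nonneg)

theorem aj2 : S_Y1 := by
  intro xs C n0 h c η hc hη
  obtain ⟨S, hS4, hSc⟩ : ∃ S : ℝ, 4 ≤ S ∧ 4 / (c * η) ≤ S :=
    ⟨max 4 (4 / (c * η)), le_max_left _ _, le_max_right _ _⟩
  have hS0 : 0 < S := by linarith
  obtain ⟨n₁, hn₁⟩ := AJ2.big c η (c * exp (-S)) hc hη (by positivity)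
  refine ⟨max n₁ n0, ?_⟩
  intro n j hn hj hjn
  obtain ⟨b1, b2, b4, b5⟩ := hn₁ n ((le_max_left _ _).trans hn)
  have hn0 : n0 ≤ n := (le_max_right _ _).trans hn
  have hx := h.pos n hn0
  have hx13 := h.hi n hn0
  set x := xs n with hxdef
  set L := Real.log n with hL
  have hn2704 : (2704:ℝ) ≤ n := by exact_mod_cast b5
  have hnpos : (0:ℝ) < n := by linarith
  have hsq : 52 ≤ √(n:ℝ) := by
    apply Real.le_sqrt_of_sq_le
    linarith
  have hx4 : x ≤ 1/4 := by
    refine hx13.trans ?_
    rw [div_le_iff₀ (by linarith)]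
    linarith
  have hj0 : (0:ℝ) < j := by exact_mod_cast hj
  have hj1 : (1:ℝ) ≤ j := by exact_mod_cast hj
  have hLpos : 0 < L := by linarith
  have hjL : (j:ℝ) * L ^ 2 ≤ √(n:ℝ) := by
    rw [le_div_iff₀ (by positivity)] at hjn
    exact hjn
  -- the basic bound
  have hq : ∀ y q : ℝ, 0 ≤ y → y * √(n:ℝ) ≤ q →
      exp (-(c * q / j)) ≤ exp (-(c * L ^ 2 * y)) := by
    intro y q hy hq
    apply exp_le_exp.2
    apply neg_le_neg
    rw [le_div_iff₀ hj0]
    calc c * L ^ 2 * y * j = c * (y * (j * L ^ 2)) := by ring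
      _ ≤ c * (y * √(n:ℝ)) := by gcongr
      _ ≤ c * q := by gcongr
  have hmul : ∀ t : ℕ, ∀ y : ℝ, 0 ≤ y → exp (-(x * t)) * y ≤ y := by
    intro t y hy
    have hle1 : exp (-(x * t)) ≤ 1 := by
      rw [exp_le_one_iff]
      have : 0 ≤ x * t := by positivity
      linarith
    calc exp (-(x * t)) * y ≤ 1 * y := by gcongr
      _ = y := one_mul _
  have hu : ∀ t : ℕ, ¬ (t:ℝ) < √(n:ℝ) → qq xs n t = u x t := by
    intro t ht
    unfold qq
    rw [if_neg ht]
    rfl
  have huge : ∀ t : ℕ, ¬ (t:ℝ) < √(n:ℝ) → exp (-(x * t)) * √(n:ℝ) ≤ u x t := by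
    intro t ht
    push Not at ht
    have : u x t = exp (-(x * t)) * t := by unfold u; ring
    rw [this]
    gcongr
  constructor
  · intro t ht
    by_cases h1 : (t:ℝ) < √(n:ℝ)
    · have hqq : qq xs n t = √(n:ℝ) := by unfold qq; rw [if_pos h1]
      rw [hqq]
      refine (hmul t _ (exp_pos _).le).trans ((hq 1 _ zero_le_one (by rw [one_mul])).trans ?_)
      refine le_trans ?_ b2
      rw [mul_one, le_div_iff₀ (by positivity), mul_comm]
      exact AJ2.zexp _
    · rw [hu t h1]
      have h2 := hq (exp (-(x * t))) (u x t) (exp_pos _).le (huge t h1)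
      refine le_trans ?_ b2
      rw [le_div_iff₀ (by positivity)]
      calc exp (-(x * t)) * exp (-(c * u x t / j)) * (c * L ^ 2)
          ≤ exp (-(x * t)) * exp (-(c * L ^ 2 * exp (-(x * t)))) * (c * L ^ 2) := by gcongr
        _ = (c * L ^ 2 * exp (-(x * t))) * exp (-(c * L ^ 2 * exp (-(x * t)))) := by ring
        _ ≤ 1 := AJ2.zexp _
  · have hb : ∀ t ∈ Icc 1 n, exp (-(x * t)) * exp (-(c * qq xs n t / j)) ≤
        exp (-(c * exp (-S) * L ^ 2)) + (if 4 ≤ x * t then
          4 / (2 * S * 1 * (c / j)) *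
            (exp (-(c / j * u x (t + 1))) - exp (-(c / j * u x t))) else 0) := by
      intro t ht
      have ht0 : (0:ℝ) < t := by exact_mod_cast (mem_Icc.1 ht).1
      have hnn : 0 ≤ (if 4 ≤ x * t then
          4 / (2 * S * 1 * (c / j)) *
            (exp (-(c / j * u x (t + 1))) - exp (-(c / j * u x t))) else 0) := by
        split_ifs with h4
        · apply mul_nonneg (by positivity)
          have h5 : u x (t+1) ≤ u x t := MS.u_succ_le hx (by
            rw [div_le_iff₀ hx]; nlinarith)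
          have h6 : exp (-(c / j * u x t)) ≤ exp (-(c / j * u x (t+1))) := by
            apply exp_le_exp.2
            apply neg_le_neg
            gcongr
          linarith
        · exact le_rfl
      by_cases h1 : (t:ℝ) < √(n:ℝ)
      · have hqq : qq xs n t = √(n:ℝ) := by unfold qq; rw [if_pos h1]
        rw [hqq]
        have h2 := (hmul t _ (exp_pos _).le).trans (hq (exp (-S)) (√(n:ℝ)) (exp_pos _).le (by
          have : exp (-S) ≤ 1 := by rw [exp_le_one_iff]; linarith
          nlinarith))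
        have e : c * L ^ 2 * exp (-S) = c * exp (-S) * L ^ 2 := by ring
        rw [e] at h2
        linarith
      · rw [hu t h1]
        by_cases h3 : S ≤ x * t
        · rw [if_pos (hS4.trans h3)]
          have h7 := AJ.term_le (ε := 2 * S) (L := 1) hx hx4 (show 0 < c / j by positivity)
            (by linarith) (show 2 * S / 2 * 1 ≤ x * t by linarith)
          have e : c * u x t / j = c / j * u x t := by ring
          rw [e]
          have := exp_pos (-(c * exp (-S) * L ^ 2))
          linarith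
        · push Not at h3
          have h4 : exp (-S) * √(n:ℝ) ≤ u x t := by
            refine le_trans ?_ (huge t h1)
            gcongr
          have h2 := (hmul t _ (exp_pos _).le).trans (hq (exp (-S)) (u x t) (exp_pos _).le h4)
          have e : c * L ^ 2 * exp (-S) = c * exp (-S) * L ^ 2 := by ring
          rw [e] at h2
          linarith
    calc ∑ t ∈ Icc 1 n, exp (-(x * t)) * exp (-(c * qq xs n t / j))
        ≤ ∑ t ∈ Icc 1 n, (exp (-(c * exp (-S) * L ^ 2)) + (if 4 ≤ x * t then
          4 / (2 * S * 1 * (c / j)) *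
            (exp (-(c / j * u x (t + 1))) - exp (-(c / j * u x t))) else 0)) := sum_le_sum hb
      _ = n * exp (-(c * exp (-S) * L ^ 2)) + 4 / (2 * S * 1 * (c / j)) *
          ∑ t ∈ (Icc 1 n).filter (fun t : ℕ => 4 ≤ x * t),
            (exp (-(c / j * u x (t + 1))) - exp (-(c / j * u x t))) := by
          rw [sum_add_distrib, sum_const, Nat.card_Icc, nsmul_eq_mul, ← sum_filter, mul_sum]
          simp
      _ ≤ η / 2 + 4 / (2 * S * 1 * (c / j)) * 1 := by
          gcongr
          exact AJ.tail_tele hx (by positivity) n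
      _ = η / 2 + 2 / (c * S) * j := by field_simp; ring
      _ ≤ η / 2 + η / 2 * j := by
          have : 2 / (c * S) ≤ η / 2 := by
            rw [div_le_iff₀ (by positivity)]
            rw [div_le_iff₀ (by positivity)] at hSc
            linarith
          gcongr
      _ ≤ η * j := by nlinarith

end Pool.Agent.W5h11.TZ
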