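import Pool.Agent.W5h11.TZ.Iface5

/-! (X5): partitions with prescribed multiplicities. -/

set_option autoImplicit false

namespace Pool.Agent.W5h11.TZ

open Finset Filter Topology Real Pool.Agent.H581R3.Core Pool.Agent.R721.PN

theorem hasParts_of_list (u : ℕ → ℕ) (p : List ℕ) (hn : p.Nodup) (h0 : ∀ x ∈ p.map u, x ≠ 0) :
    HasParts u (p.map u) := by
  refine ⟨fun j => p.get (j.cast (by simp)), fun j k hjk => ?_, fun j => ⟨?_, ?_⟩⟩
  · have h1 := hn.injective_get hjk
    exact Fin.ext (by simpa using congrArg Fin.val h1)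
  · simp
  · exact h0 _ (List.get_mem _ _)

/-- the list of the parts -/
def mlist {n : ℕ} (v : Fin n → ℕ) : List ℕ :=
  (List.finRange n).flatMap fun i => List.replicate (v i) ((i : ℕ) + 1)

theorem mlist_sum {n : ℕ} (v : Fin n → ℕ) : (mlist v).sum = ∑ i, v i * ((i : ℕ) + 1) := by
  rw [mlist, List.flatMap, List.sum_flatten, List.map_map, Fin.sum_univ_def]
  congr 1
  apply List.map_congr_left
  intro i _
  simp

theorem um_hasParts {n : ℕ} {v : Fin n → ℕ} {u : ℕ → ℕ} (hu : u ∈ UM n v) :
    HasParts u (mlist v) := by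
  classical
  obtain ⟨-, h⟩ := hu
  choose S hS hS' using h
  choose T hT hT' using fun i => Finset.exists_subset_card_eq (hS i)
  have hTu : ∀ i, ∀ r ∈ T i, u r = (i : ℕ) + 1 := fun i r hr => hS' i r (hT i hr)
  have h1 : ((List.finRange n).flatMap fun i => (T i).toList).map u = mlist v := by
    rw [List.map_flatMap, mlist]
    congr 1
    funext i
    rw [List.eq_replicate_iff]
    refine ⟨by rw [List.length_map, Finset.length_toList, hT' i], fun x hx => ?_⟩
    obtain ⟨r, hr, rfl⟩ := List.mem_map.1 hx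
    exact hTu i r (Finset.mem_toList.1 hr)
  have h2 : ((List.finRange n).flatMap fun i => (T i).toList).Nodup := by
    rw [List.nodup_flatMap]
    refine ⟨fun i _ => Finset.nodup_toList _, ?_⟩
    refine (List.nodup_finRange n).imp fun {i j} hij => ?_
    intro r hr hr'
    have h3 := hTu i r (Finset.mem_toList.1 hr)
    have h4 := hTu j r (Finset.mem_toList.1 hr')
    exact hij (Fin.ext (by omega))
  rw [← h1]
  apply hasParts_of_list u _ h2
  rw [h1]
  intro x hx
  rw [mlist, List.mem_flatMap] at hx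
  obtain ⟨i, -, hi⟩ := hx
  rw [List.eq_of_mem_replicate hi]
  exact Nat.succ_ne_zero _

theorem cntm (h : S_PARTS) : S_CNTM := by
  intro n v
  have hsub : UM n v ⊆ {u : ℕ → ℕ | IsPartition n u ∧ HasParts u (mlist v)} := by
    intro u hu
    exact ⟨hu.1, um_hasParts hu⟩
  obtain ⟨h1, h2⟩ := h n (mlist v)
  rw [mlist_sum] at h1 h2
  refine ⟨fun hle => ?_, fun hlt => ?_⟩
  · refine le_trans (Set.ncard_le_ncard hsub ?_) (h1 hle)
    refine (finite_partitions n).subset ?_
    intro u hu
    exact hu.1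
  · rw [h2 hlt] at hsub
    exact Set.subset_empty_iff.1 hsub

end Pool.Agent.W5h11.TZ
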