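import Pool.Agent.W5h11.TZ.Iface

/-! Task T2: the zeros of type II which are not of type I. -/

set_option autoImplicit false

namespace Pool.Agent.W5h11.TZ

open Finset Pool.Agent.H581R3.Core Pool.Agent.R721.PN

/-- The partitions of `n` with first part `s` and a further part `t`. -/
theorem first_part_count (n s t : ℕ) (ht : 1 ≤ t) :
    {g : ℕ → ℕ | IsPartition n g ∧ g 0 = s ∧ ∃ k, 1 ≤ k ∧ g k = t}.ncard ≤
      numPartitions (n - t - s) := by
  rw [Nat.sub_right_comm]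
  refine le_trans ?_ (part_count (n - s) t ht)
  refine Set.ncard_le_ncard_of_injOn (fun f i => f (i + 1)) ?_ ?_
    ((finite_partitions (n - s)).subset fun _ hf => hf.1)
  · rintro g ⟨hg, rfl, k, hk, hkt⟩
    refine ⟨hg.shift, k - 1, ?_⟩
    change g (k - 1 + 1) = t
    rw [Nat.sub_add_cancel hk]
    exact hkt
  · rintro f ⟨_, hf0, _⟩ g ⟨_, hg0, _⟩ hfg
    funext i
    cases i with
    | zero => rw [hf0, hg0]
    | succ i => exact congrFun hfg i

theorem first_part_finite (n s t : ℕ) :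
    {g : ℕ → ℕ | IsPartition n g ∧ g 0 = s ∧ ∃ k, 1 ≤ k ∧ g k = t}.Finite :=
  (finite_partitions n).subset fun _ hf => hf.1

/-- Task T2. -/
theorem diff : S_DIFF := by
  intro n
  let B : Set ((ℕ → ℕ) × (ℕ → ℕ)) := ⋃ t ∈ Icc 1 n, ⋃ s ∈ Ioc t (n - t),
    ({f : ℕ → ℕ | IsPartition n f ∧ IsCore t f} ×ˢ
      {g : ℕ → ℕ | IsPartition n g ∧ g 0 = s ∧ ∃ k, 1 ≤ k ∧ g k = t})
  have hfin1 : ∀ t s : ℕ, ({f : ℕ → ℕ | IsPartition n f ∧ IsCore t f} ×ˢ
      {g : ℕ → ℕ | IsPartition n g ∧ g 0 = s ∧ ∃ k, 1 ≤ k ∧ g k = t}).Finite := fun t s =>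
    (finite_cores t n).prod (first_part_finite n s t)
  have hfin2 : ∀ t : ℕ, (⋃ s ∈ Ioc t (n - t),
    ({f : ℕ → ℕ | IsPartition n f ∧ IsCore t f} ×ˢ
      {g : ℕ → ℕ | IsPartition n g ∧ g 0 = s ∧ ∃ k, 1 ≤ k ∧ g k = t})).Finite := fun t =>
    Set.Finite.biUnion (finite_toSet _) fun s _ => hfin1 t s
  have hfinB : B.Finite := Set.Finite.biUnion (finite_toSet _) fun t _ => hfin2 t
  have hfinI : (typeIZeros n).Finite :=
    ((finite_partitions n).prod (finite_partitions n)).subset fun _ hx => ⟨hx.1, hx.2.1⟩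
  have hsub : typeIIZeros n ⊆ typeIZeros n ∪ B := by
    rintro ⟨f, g⟩ ⟨hf, hg, k, hk, hc⟩
    change g k ≠ 0 at hk
    change IsCore (g k) f at hc
    have hle : g k ≤ g 0 := hg.1 (Nat.zero_le k)
    rcases hle.eq_or_lt with h | h
    · left
      refine ⟨hf, hg, ?_⟩
      change IsCore (g 0) f
      rw [← h]
      exact hc
    · right
      have hk1 : 1 ≤ k := by
        rcases Nat.eq_zero_or_pos k with h0 | h0
        · rw [h0] at h
          omega
        · exact h0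
      have h2 : g k ≤ n - g 0 := by
        have h3 := hg.shift.le (k - 1)
        change g (k - 1 + 1) ≤ n - g 0 at h3
        rwa [Nat.sub_add_cancel hk1] at h3
      have h4 : g 0 ≤ n := hg.le 0
      have h5 : g k ≤ n := hg.le k
      simp only [B, Set.mem_iUnion, mem_Icc, mem_Ioc, Set.mem_prod, Set.mem_ofPred_eq]
      exact ⟨g k, ⟨by omega, h5⟩, g 0, ⟨h, by omega⟩, ⟨hf, hc⟩, hg, rfl, k, hk1, rfl⟩
  refine (Set.ncard_le_ncard hsub (hfinI.union hfinB)).trans ?_
  refine (Set.ncard_union_le _ _).trans ?_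
  refine Nat.add_le_add_left ?_ _
  refine (Finset.set_ncard_biUnion_le _ _).trans ?_
  refine sum_le_sum fun t ht => ?_
  refine (Finset.set_ncard_biUnion_le _ _).trans ?_
  refine sum_le_sum fun s _ => ?_
  rw [Set.ncard_prod]
  exact Nat.mul_le_mul le_rfl (first_part_count n s t (mem_Icc.mp ht).1)

end Pool.Agent.W5h11.TZ
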