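import Pool.Agent.W5h11.TZ.Iface

/-! (T5): the part of the sum with `t ≤ t₀`. -/

set_option autoImplicit false

namespace Pool.Agent.W5h11.TZ

open Finset Filter Topology Pool.Agent.H581R3.Core Pool.Agent.R721.PN

namespace LT

lemma geo {x : ℝ} (hx : 0 < x) (t N : ℕ) :
    ∑ s ∈ Ioc t N, Real.exp (-(x * s)) ≤ Real.exp (-(x * t)) / x := by
  rcases le_or_gt N t with h | h
  · rw [Ioc_eq_empty_of_le h, sum_empty]
    positivity
  · have key : ∀ M : ℕ, t ≤ M → ∑ s ∈ Ioc t M, Real.exp (-(x * s)) ≤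
        (Real.exp (-(x * t)) - Real.exp (-(x * M))) / x := by
      intro M hM
      induction M, hM using Nat.le_induction with
      | base => simp
      | succ M hM ih =>
        rw [sum_Ioc_succ_top (by omega)]
        have h1 : Real.exp (-(x * ((M + 1 : ℕ) : ℝ))) ≤
            (Real.exp (-(x * M)) - Real.exp (-(x * ((M + 1 : ℕ) : ℝ)))) / x := by
          rw [le_div_iff₀ hx]
          have h2 : Real.exp (-(x * M)) = Real.exp (-(x * ((M + 1 : ℕ) : ℝ))) * Real.exp x := by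
            rw [← Real.exp_add]
            congr 1
            push_cast
            ring
          rw [h2]
          have h3 := Real.add_one_le_exp x
          have h4 := Real.exp_pos (-(x * ((M + 1 : ℕ) : ℝ)))
          nlinarith
        calc _ ≤ (Real.exp (-(x * t)) - Real.exp (-(x * M))) / x +
              (Real.exp (-(x * M)) - Real.exp (-(x * ((M + 1 : ℕ) : ℝ)))) / x := add_le_add ih h1
          _ = _ := by ring
    refine (key N h.le).trans ?_
    apply div_le_div_of_nonneg_right _ hx.le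
    have := Real.exp_pos (-(x * N))
    linarith

lemma geo_up {x : ℝ} (hx : 0 < x) (M : ℕ) :
    ∑ t ∈ Icc 1 M, Real.exp (x * t) ≤ Real.exp (x * M) * (1 + 1 / x) := by
  induction M with
  | zero =>
    simp only [Nat.lt_one_iff, Icc_eq_empty_of_lt, sum_empty, CharP.cast_eq_zero, mul_zero,
      Real.exp_zero]
    positivity
  | succ M ih =>
    rw [sum_Icc_succ_top (by omega)]
    have h2 : Real.exp (x * ((M + 1 : ℕ) : ℝ)) = Real.exp (x * M) * Real.exp x := by
      rw [← Real.exp_add]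
      congr 1
      push_cast
      ring
    have h3 := Real.add_one_le_exp x
    have h4 := Real.exp_pos (x * M)
    have h5 : Real.exp (x * M) * (1 + 1 / x) ≤ Real.exp (x * ((M + 1 : ℕ) : ℝ)) * (1 / x) := by
      rw [h2, mul_assoc]
      apply mul_le_mul_of_nonneg_left _ h4.le
      rw [mul_one_div, le_div_iff₀ hx]
      have : (1 + 1 / x) * x = x + 1 := by field_simp
      rw [this]
      exact h3
    calc _ ≤ Real.exp (x * M) * (1 + 1 / x) + Real.exp (x * ((M + 1 : ℕ) : ℝ)) := by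
          gcongr
      _ ≤ Real.exp (x * ((M + 1 : ℕ) : ℝ)) * (1 / x) + Real.exp (x * ((M + 1 : ℕ) : ℝ)) := by
          gcongr
      _ = _ := by ring

lemma choose_three {t : ℕ} (ht : 6 ≤ t) : (t : ℝ) ^ 3 / 27 ≤ (t.choose 3 : ℝ) := by
  have h := Nat.pow_le_choose (α := ℝ) 3 t
  have h1 : (((t + 1 - 3 : ℕ) : ℝ)) = (t : ℝ) - 2 := by
    rw [Nat.cast_sub (by omega)]
    push_cast
    ring
  have h2 : (6 : ℝ) ≤ t := by exact_mod_cast ht
  have h3 : ((3 : ℕ).factorial : ℝ) = 6 := by norm_num [Nat.factorial]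
  rw [h1, h3] at h
  have h4 : (2 / 3 * (t : ℝ)) ^ 3 ≤ ((t : ℝ) - 2) ^ 3 :=
    pow_le_pow_left₀ (by positivity) (by linarith) 3
  have h5 : (2 / 3 * (t : ℝ)) ^ 3 = 8 / 27 * (t : ℝ) ^ 3 := by ring
  rw [h5] at h4
  have h6 : (0 : ℝ) ≤ (t : ℝ) ^ 3 := by positivity
  nlinarith

lemma choose_four {t : ℕ} (ht : 6 ≤ t) : (t : ℝ) ^ 4 / 384 ≤ (t.choose 4 : ℝ) := by
  have h := Nat.pow_le_choose (α := ℝ) 4 t
  have h1 : (((t + 1 - 4 : ℕ) : ℝ)) = (t : ℝ) - 3 := by
    rw [Nat.cast_sub (by omega)]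
    push_cast
    ring
  have h2 : (6 : ℝ) ≤ t := by exact_mod_cast ht
  have h3 : ((4 : ℕ).factorial : ℝ) = 24 := by norm_num [Nat.factorial]
  rw [h1, h3] at h
  have h4 : (1 / 2 * (t : ℝ)) ^ 4 ≤ ((t : ℝ) - 3) ^ 4 :=
    pow_le_pow_left₀ (by positivity) (by linarith) 4
  have h5 : (1 / 2 * (t : ℝ)) ^ 4 = 1 / 16 * (t : ℝ) ^ 4 := by ring
  rw [h5] at h4
  have h6 : (0 : ℝ) ≤ (t : ℝ) ^ 4 := by positivity
  nlinarith

/-- For `t ≤ t₀ / 2` a multiple of `t` lies between `t₀ / 4` and `t₀ / 2`. -/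
lemma exists_mult {t t₀ : ℕ} (ht : 1 ≤ t) (h : 2 * t ≤ t₀) :
    ∃ l : ℕ, t₀ ≤ 4 * (l * t) ∧ 2 * (l * t) ≤ t₀ := by
  -- `l` is the largest number with `2 l t ≤ t₀`
  refine ⟨t₀ / (2 * t), ?_, ?_⟩
  · have h1 := Nat.div_add_mod t₀ (2 * t)
    have h2 := Nat.mod_lt t₀ (show 0 < 2 * t by omega)
    have h3 : 1 ≤ t₀ / (2 * t) := (Nat.one_le_div_iff (by omega)).2 h
    have h4 : 2 * t * (t₀ / (2 * t)) = 2 * (t₀ / (2 * t) * t) := by ring
    have h5 : t ≤ t₀ / (2 * t) * t := Nat.le_mul_of_pos_left t h3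
    omega
  · have h1 := Nat.div_mul_le_self t₀ (2 * t)
    have h4 : t₀ / (2 * t) * (2 * t) = 2 * (t₀ / (2 * t) * t) := by ring
    omega

section main

variable {C x : ℝ} {n t₀ : ℕ}

lemma inner_le (hC : 0 < C) (hx : 0 < x)
    (hreg : ∀ m : ℕ, m ≤ 3 * n →
      (numPartitions m : ℝ) ≤ C * Real.exp (x * ((m : ℝ) - n)) * numPartitions n) (t : ℕ) :
    ∑ s ∈ Ioc t (n - t), (numPartitions (n - t - s) : ℝ) ≤
      C * numPartitions n * (Real.exp (-(2 * x * t)) / x) := by
  calc ∑ s ∈ Ioc t (n - t), (numPartitions (n - t - s) : ℝ)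
      ≤ ∑ s ∈ Ioc t (n - t), C * numPartitions n * Real.exp (-(x * t)) * Real.exp (-(x * s)) := by
        apply sum_le_sum
        intro s hs
        rw [mem_Ioc] at hs
        refine (hreg (n - t - s) (by omega)).trans (le_of_eq ?_)
        have h1 : (((n - t - s : ℕ) : ℝ)) = (n : ℝ) - t - s := by
          rw [Nat.cast_sub (by omega), Nat.cast_sub (by omega)]
        rw [h1]
        have h2 : Real.exp (x * ((n : ℝ) - t - s - n)) =
            Real.exp (-(x * t)) * Real.exp (-(x * s)) := by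
          rw [← Real.exp_add]
          congr 1
          ring
        rw [h2]
        ring
    _ = C * numPartitions n * Real.exp (-(x * t)) * ∑ s ∈ Ioc t (n - t), Real.exp (-(x * s)) := by
        rw [mul_sum]
    _ ≤ C * numPartitions n * Real.exp (-(x * t)) * (Real.exp (-(x * t)) / x) := by
        gcongr
        exact geo hx t (n - t)
    _ = _ := by
        have h2 : Real.exp (-(2 * x * t)) = Real.exp (-(x * t)) * Real.exp (-(x * t)) := by
          rw [← Real.exp_add]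
          congr 1
          ring
        rw [h2]
        ring

lemma cores_le
    (hreg : ∀ m : ℕ, m ≤ 3 * n →
      (numPartitions m : ℝ) ≤ C * Real.exp (x * ((m : ℝ) - n)) * numPartitions n) {t w : ℕ}
    (ht : 0 < t) (hw : w * t ≤ 2 * n) :
    (t.choose w : ℝ) * numCores t n ≤ C * Real.exp (w * (x * t)) * numPartitions n := by
  have h1 : ((t.choose w * numCores t n : ℕ) : ℝ) ≤ (numPartitions (n + w * t) : ℝ) := by
    exact_mod_cast cores_choose_le t n w ht
  push_cast at h1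
  refine h1.trans ((hreg (n + w * t) (by omega)).trans (le_of_eq ?_))
  congr 3
  push_cast
  ring

/-- the bound for one `t` -/
lemma term_le (hC : 1 ≤ C) (hx : 0 < x)
    (hreg : ∀ m : ℕ, m ≤ 3 * n →
      (numPartitions m : ℝ) ≤ C * Real.exp (x * ((m : ℝ) - n)) * numPartitions n)
    (h4 : 4 * t₀ ≤ n) (h24 : 24 ≤ t₀) (hbig : Real.exp (x * t₀) ≤ 4 * C * t₀) {t : ℕ}
    (ht1 : 1 ≤ t) (ht2 : t ≤ t₀) :
    ∑ s ∈ Ioc t (n - t), (numCores t n : ℝ) * numPartitions (n - t - s) ≤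
      1572864 * C ^ 4 * (numPartitions n : ℝ) ^ 2 / (x * t₀ ^ 2) * Real.exp (-(x * t)) +
      216 * C ^ 2 * (numPartitions n : ℝ) ^ 2 / (x * t₀ ^ 3) * Real.exp (x * t) := by
  have hP : (0 : ℝ) < numPartitions n := by exact_mod_cast numPartitions_pos n
  have hC0 : 0 < C := by linarith
  have ht₀ : (24 : ℝ) ≤ t₀ := by exact_mod_cast h24
  have htr : (1 : ℝ) ≤ t := by exact_mod_cast ht1
  have ht0 : (0 : ℝ) < t₀ := by linarith
  rw [← mul_sum]
  have hin := inner_le hC0 hx hreg t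
  have hc0 : (0 : ℝ) ≤ numCores t n := Nat.cast_nonneg _
  have hX : (0 : ℝ) ≤ 1572864 * C ^ 4 * (numPartitions n : ℝ) ^ 2 / (x * t₀ ^ 2) *
      Real.exp (-(x * t)) := by positivity
  have hY : (0 : ℝ) ≤ 216 * C ^ 2 * (numPartitions n : ℝ) ^ 2 / (x * t₀ ^ 3) *
      Real.exp (x * t) := by positivity
  refine (mul_le_mul_of_nonneg_left hin hc0).trans ?_
  by_cases hs : 2 * t ≤ t₀
  · refine le_trans ?_ (le_add_of_nonneg_right hY)
    obtain ⟨l, hl1, hl2⟩ := exists_mult ht1 hs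
    set m : ℕ := l * t with hm
    have hm6 : 6 ≤ m := by omega
    have h1 : (numCores t n : ℝ) ≤ numCores m n := by exact_mod_cast numCores_mul t l n
    have h2 := cores_le (w := 4) hreg (show 0 < m by omega) (by omega)
    have h3 := choose_four hm6
    have hmr : (t₀ : ℝ) ≤ 4 * m := by exact_mod_cast hl1
    have hmr2 : 2 * (m : ℝ) ≤ t₀ := by exact_mod_cast hl2
    have h5 : Real.exp (((4 : ℕ) : ℝ) * (x * m)) ≤ (4 * C * t₀) ^ 2 := by
      calc Real.exp (((4 : ℕ) : ℝ) * (x * m)) ≤ Real.exp (x * t₀ + x * t₀) := by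
            apply Real.exp_le_exp.mpr
            push_cast
            nlinarith
        _ = Real.exp (x * t₀) ^ 2 := by rw [Real.exp_add, sq]
        _ ≤ _ := pow_le_pow_left₀ (Real.exp_nonneg _) hbig 2
    have h6 : (t₀ : ℝ) ^ 4 / 98304 ≤ (m.choose 4 : ℝ) := by
      have h7 : ((t₀ : ℝ) / 4) ^ 4 ≤ (m : ℝ) ^ 4 := pow_le_pow_left₀ (by positivity) (by linarith) 4
      have h8 : ((t₀ : ℝ) / 4) ^ 4 = (t₀ : ℝ) ^ 4 / 256 := by ring
      rw [h8] at h7
      linarith
    have h7 : (t₀ : ℝ) ^ 4 / 98304 * numCores m n ≤ C * (4 * C * t₀) ^ 2 * numPartitions n := by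
      calc _ ≤ (m.choose 4 : ℝ) * numCores m n := by gcongr
        _ ≤ _ := h2
        _ ≤ _ := by gcongr
    have h8 : (numCores m n : ℝ) ≤ 1572864 * C ^ 3 * numPartitions n / t₀ ^ 2 := by
      rw [le_div_iff₀ (by positivity)]
      have h9 : (t₀ : ℝ) ^ 2 * ((numCores m n : ℝ) * t₀ ^ 2) ≤
          (t₀ : ℝ) ^ 2 * (1572864 * C ^ 3 * numPartitions n) := by
        calc (t₀ : ℝ) ^ 2 * ((numCores m n : ℝ) * t₀ ^ 2) =
              98304 * ((t₀ : ℝ) ^ 4 / 98304 * numCores m n) := by ring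
          _ ≤ 98304 * (C * (4 * C * t₀) ^ 2 * numPartitions n) := by gcongr
          _ = _ := by ring
      exact le_of_mul_le_mul_left h9 (by positivity)
    calc (numCores t n : ℝ) * (C * numPartitions n * (Real.exp (-(2 * x * t)) / x))
        ≤ (1572864 * C ^ 3 * numPartitions n / t₀ ^ 2) *
            (C * numPartitions n * (Real.exp (-(x * t)) / x)) := by
          apply mul_le_mul (h1.trans h8) _ (by positivity) (by positivity)
          apply mul_le_mul_of_nonneg_left _ (by positivity)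
          apply div_le_div_of_nonneg_right _ hx.le
          apply Real.exp_le_exp.mpr
          have : 0 < x * t := by positivity
          linarith
      _ = _ := by
          field_simp
  · push Not at hs
    refine le_trans ?_ (le_add_of_nonneg_left hX)
    have ht6 : 6 ≤ t := by omega
    have h2 := cores_le (w := 3) hreg (show 0 < t by omega) (by omega)
    have h3 := choose_three ht6
    have hmr : (t₀ : ℝ) ≤ 2 * t := by exact_mod_cast hs.le
    have h6 : (t₀ : ℝ) ^ 3 / 216 ≤ (t.choose 3 : ℝ) := by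
      have h7 : ((t₀ : ℝ) / 2) ^ 3 ≤ (t : ℝ) ^ 3 := pow_le_pow_left₀ (by positivity) (by linarith) 3
      have h8 : ((t₀ : ℝ) / 2) ^ 3 = (t₀ : ℝ) ^ 3 / 8 := by ring
      rw [h8] at h7
      linarith
    have h7 : (t₀ : ℝ) ^ 3 / 216 * numCores t n ≤
        C * Real.exp (((3 : ℕ) : ℝ) * (x * t)) * numPartitions n := by
      calc _ ≤ (t.choose 3 : ℝ) * numCores t n := by gcongr
        _ ≤ _ := h2
    have h8 : (numCores t n : ℝ) ≤
        216 * C * Real.exp (((3 : ℕ) : ℝ) * (x * t)) * numPartitions n / t₀ ^ 3 := by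
      rw [le_div_iff₀ (by positivity)]
      calc (numCores t n : ℝ) * t₀ ^ 3 = 216 * ((t₀ : ℝ) ^ 3 / 216 * numCores t n) := by ring
        _ ≤ 216 * (C * Real.exp (((3 : ℕ) : ℝ) * (x * t)) * numPartitions n) := by gcongr
        _ = _ := by ring
    calc (numCores t n : ℝ) * (C * numPartitions n * (Real.exp (-(2 * x * t)) / x))
        ≤ (216 * C * Real.exp (((3 : ℕ) : ℝ) * (x * t)) * numPartitions n / t₀ ^ 3) *
            (C * numPartitions n * (Real.exp (-(2 * x * t)) / x)) := by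
          gcongr
      _ = 216 * C ^ 2 * (numPartitions n : ℝ) ^ 2 / (x * t₀ ^ 3) *
            (Real.exp (((3 : ℕ) : ℝ) * (x * t)) * Real.exp (-(2 * x * t))) := by
          field_simp
      _ = _ := by
          rw [← Real.exp_add]
          congr 2
          push_cast
          ring

end main

end LT

/-- **(T5)** -/
theorem lowt : S_LOWT := by
  obtain ⟨C, hC0, n0, hreg⟩ := regularity
  intro K₀ hK₀
  refine ⟨(1572864 * C ^ 4 + 1728 * C ^ 3) * 16 * K₀ ^ 2, max (max n0 169) ⌈(24 * K₀) ^ 2⌉₊, ?_⟩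
  intro n t₀ hn hT
  have hn0 : n0 ≤ n := (le_max_left _ _).trans ((le_max_left _ _).trans hn)
  have hn169 : 169 ≤ n := (le_max_right _ _).trans ((le_max_left _ _).trans hn)
  have hnK : (24 * K₀) ^ 2 ≤ (n : ℝ) := by
    refine (Nat.le_ceil _).trans ?_
    exact_mod_cast (le_max_right _ _).trans hn
  have hnr : (169 : ℝ) ≤ n := by exact_mod_cast hn169
  obtain ⟨x, hx, hxlo, hxhi, hr⟩ := hreg n hn0
  have hP : (0 : ℝ) < numPartitions n := by exact_mod_cast numPartitions_pos n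
  have hsq : 0 < √(n : ℝ) := Real.sqrt_pos.mpr (by linarith)
  have hsqsq : √(n : ℝ) * √(n : ℝ) = n := Real.mul_self_sqrt (by linarith)
  have hsq13 : (13 : ℝ) ≤ √(n : ℝ) := by
    rw [show (13 : ℝ) = √(169 : ℝ) by
      rw [show (169 : ℝ) = 13 ^ 2 by norm_num, Real.sqrt_sq (by norm_num)]]
    exact Real.sqrt_le_sqrt hnr
  have hx1 : x ≤ 1 := hxhi.trans ((div_le_one hsq).mpr hsq13)
  have hC1 : 1 ≤ C := by
    have h1 := hr n (by omega)
    rw [sub_self, mul_zero, Real.exp_zero, mul_one] at h1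
    by_contra hlt
    push Not at hlt
    nlinarith
  have hlog : 1 ≤ Real.log n := by
    rw [Real.le_log_iff_exp_le (by linarith)]
    have := Real.exp_one_lt_d9
    linarith
  have ht24 : 24 ≤ t₀ := by
    have h1 : (24 : ℝ) ≤ t₀ := by
      refine le_trans ?_ hT.lo
      rw [le_div_iff₀ (by linarith)]
      have h2 : 24 * K₀ ≤ √(n : ℝ) := Real.le_sqrt_of_sq_le hnK
      nlinarith
    exact_mod_cast h1
  have ht₀ : (24 : ℝ) ≤ t₀ := by exact_mod_cast ht24
  have hbig : Real.exp (x * t₀) ≤ 4 * C * t₀ := by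
    have h1 := hT.big
    have h4 := hT.le
    have h2 := hr (n - t₀) (by omega)
    have h3 : (((n - t₀ : ℕ) : ℝ)) - n = -(t₀ : ℝ) := by
      rw [Nat.cast_sub (by omega)]
      ring
    rw [h3, mul_neg, Real.exp_neg] at h2
    have h5 : (numPartitions n : ℝ) ≤
        4 * (t₀ : ℝ) * (C * (Real.exp (x * t₀))⁻¹ * numPartitions n) :=
      h1.trans (mul_le_mul_of_nonneg_left h2 (by positivity))
    have h6 := Real.exp_pos (x * t₀)
    have h7 : (numPartitions n : ℝ) * Real.exp (x * t₀) ≤ (numPartitions n : ℝ) * (4 * C * t₀) := by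
      calc (numPartitions n : ℝ) * Real.exp (x * t₀)
          ≤ 4 * (t₀ : ℝ) * (C * (Real.exp (x * t₀))⁻¹ * numPartitions n) * Real.exp (x * t₀) := by
            gcongr
        _ = _ := by
            field_simp
    exact le_of_mul_le_mul_left h7 hP
  have hA : 1 / x ≤ 4 * √(n : ℝ) := by
    rw [div_le_iff₀ hx]
    rw [div_le_iff₀ (by positivity)] at hxlo
    linarith
  have hA1 : 1 ≤ 1 / x := by
    rw [le_div_iff₀ hx]
    linarith
  have hA2 : (1 / x) ^ 2 ≤ 16 * n := by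
    calc (1 / x) ^ 2 ≤ (4 * √(n : ℝ)) ^ 2 := pow_le_pow_left₀ (by positivity) hA 2
      _ = 16 * (√(n : ℝ) * √(n : ℝ)) := by ring
      _ = 16 * n := by rw [hsqsq]
  calc ∑ t ∈ Icc 1 t₀, ∑ s ∈ Ioc t (n - t), (numCores t n : ℝ) * numPartitions (n - t - s)
      ≤ ∑ t ∈ Icc 1 t₀,
          (1572864 * C ^ 4 * (numPartitions n : ℝ) ^ 2 / (x * t₀ ^ 2) * Real.exp (-(x * t)) +
          216 * C ^ 2 * (numPartitions n : ℝ) ^ 2 / (x * t₀ ^ 3) * Real.exp (x * t)) := by
        apply sum_le_sum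
        intro t ht
        rw [mem_Icc] at ht
        exact LT.term_le hC1 hx hr hT.le ht24 hbig ht.1 ht.2
    _ = 1572864 * C ^ 4 * (numPartitions n : ℝ) ^ 2 / (x * t₀ ^ 2) *
          ∑ t ∈ Icc 1 t₀, Real.exp (-(x * t)) +
        216 * C ^ 2 * (numPartitions n : ℝ) ^ 2 / (x * t₀ ^ 3) *
          ∑ t ∈ Icc 1 t₀, Real.exp (x * t) := by
        rw [sum_add_distrib, mul_sum, mul_sum]
    _ ≤ 1572864 * C ^ 4 * (numPartitions n : ℝ) ^ 2 / (x * t₀ ^ 2) * (1 / x) +
        216 * C ^ 2 * (numPartitions n : ℝ) ^ 2 / (x * t₀ ^ 3) *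
          (4 * C * t₀ * (1 / x + 1 / x)) := by
        gcongr
        · have h := LT.geo hx 0 t₀
          rw [Nat.cast_zero, mul_zero, neg_zero, Real.exp_zero] at h
          exact h
        · refine (LT.geo_up hx t₀).trans ?_
          apply mul_le_mul hbig _ (by positivity) (by positivity)
          linarith
    _ = (1572864 * C ^ 4 + 1728 * C ^ 3) * (numPartitions n : ℝ) ^ 2 * ((1 / x) ^ 2 / t₀ ^ 2) := by
        field_simp
        ring
    _ ≤ (1572864 * C ^ 4 + 1728 * C ^ 3) * (numPartitions n : ℝ) ^ 2 *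
          (16 * K₀ ^ 2 / Real.log n ^ 2) := by
        apply mul_le_mul_of_nonneg_left _ (by positivity)
        rw [div_le_div_iff₀ (by positivity) (by positivity)]
        have h1 := hT.lo
        rw [div_le_iff₀ (by linarith)] at h1
        have h2 : (√(n : ℝ) * Real.log n) ^ 2 ≤ (t₀ * K₀) ^ 2 :=
          pow_le_pow_left₀ (by positivity) h1 2
        have h3 : (√(n : ℝ) * Real.log n) ^ 2 = n * Real.log n ^ 2 := by
          rw [mul_pow, sq (√(n : ℝ)), hsqsq]
        rw [h3] at h2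
        calc (1 / x) ^ 2 * Real.log n ^ 2 ≤ 16 * n * Real.log n ^ 2 := by gcongr
          _ = 16 * (n * Real.log n ^ 2) := by ring
          _ ≤ 16 * (t₀ * K₀) ^ 2 := by gcongr
          _ = _ := by ring
    _ = _ := by ring

end Pool.Agent.W5h11.TZ
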