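import Pool.Agent.W5h11.TZ.Step
import Pool.Agent.W5h11.TZ.LowT

/-! The base of the induction (R3). -/

set_option autoImplicit false

namespace Pool.Agent.W5h11.TZ

open Finset Filter Topology Real Pool.Agent.H581R3.Core Pool.Agent.R721.PN

namespace BS

lemma choose_ge {t w : ℕ} (h : 2 * w ≤ t) :
    ((t : ℝ) / 2) ^ w / (w.factorial : ℝ) ≤ (t.choose w : ℝ) := by
  refine le_trans ?_ (Nat.pow_le_choose (α := ℝ) w t)
  have h1 : (t : ℝ) / 2 ≤ ((t + 1 - w : ℕ) : ℝ) := by
    have h2 : t ≤ 2 * (t + 1 - w) := by omega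
    have h3 : (t : ℝ) ≤ 2 * ((t + 1 - w : ℕ) : ℝ) := by exact_mod_cast h2
    linarith
  gcongr

lemma cores_bd {C x : ℝ} {n t w : ℕ}
    (hreg : ∀ m : ℕ, m ≤ 3 * n →
      (numPartitions m : ℝ) ≤ C * exp (x * ((m : ℝ) - n)) * numPartitions n)
    (h2w : 2 * w ≤ t) (ht : 0 < t) (hw : w * t ≤ 2 * n) :
    (numCores t n : ℝ) ≤ C * ((w.factorial : ℝ) * 2 ^ w) * (exp (x * t) / t) ^ w *
      numPartitions n := by
  have h1 := LT.cores_le (w := w) hreg ht hw
  have h2 := choose_ge h2w
  have ht' : (0 : ℝ) < t := by exact_mod_cast ht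
  have h3 : ((t : ℝ) / 2) ^ w / (w.factorial : ℝ) * numCores t n ≤
      C * exp (w * (x * t)) * numPartitions n :=
    (mul_le_mul_of_nonneg_right h2 (Nat.cast_nonneg _)).trans h1
  have h4 : exp (w * (x * t)) = exp (x * t) ^ w := Real.exp_nat_mul (x * t) w
  rw [h4] at h3
  have hf : (0 : ℝ) < (w.factorial : ℝ) := by exact_mod_cast w.factorial_pos
  calc (numCores t n : ℝ) = ((w.factorial : ℝ) * 2 ^ w / (t : ℝ) ^ w) *
        (((t : ℝ) / 2) ^ w / (w.factorial : ℝ) * numCores t n) := by
        rw [div_pow]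
        field_simp
    _ ≤ ((w.factorial : ℝ) * 2 ^ w / (t : ℝ) ^ w) * (C * exp (x * t) ^ w * numPartitions n) := by
        gcongr
    _ = _ := by
        rw [div_pow]
        ring

end BS

/-- the pointwise bounds -/
theorem base_pt {xs : ℕ → ℝ} {C : ℝ} {n0 : ℕ} (h : Sad xs C n0) (m w : ℕ) (hw : w = 2 * (m + 2)) :
    ∀ᶠ n : ℕ in atTop, ∀ T t : ℕ, t ∈ Icc 1 (min T n) →
      (numCores t n : ℝ) * numPartitions (n - t) ≤ (numPartitions n : ℝ) ^ 2 * vv xs n T ^ m *
        (C ^ 2 * ((w.factorial : ℝ) * 2 ^ w) * (16 * exp 26) ^ (m + 2) / (n * Real.log n) +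
          (C ^ 2 * ((w.factorial : ℝ) * 2 ^ w) * 2704 ^ (m + 2) + C) / (√(n : ℝ) * Real.log n) *
            mn (xs n) (√(n : ℝ) * Real.log n) t) := by
  have hC := h.C1
  have hC0 : 0 < C := by linarith
  have hcast : Tendsto (fun n : ℕ => (n : ℝ)) atTop atTop := tendsto_natCast_atTop_atTop
  have hlit : ∀ᶠ n : ℕ in atTop, (4 * w : ℝ) * (√(n : ℝ) * Real.log n) ≤ n := by
    have hw4 : 4 ≤ w := by omega
    have hwr : (0 : ℝ) < 4 * w := by
      have : (4 : ℝ) ≤ w := by exact_mod_cast hw4
      linarith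
    have h1 : (fun x : ℝ => Real.log x) =o[atTop] fun x : ℝ => x ^ (1 / 2 : ℝ) :=
      isLittleO_log_rpow_atTop (by norm_num)
    have h2 := (h1.bound (show (0 : ℝ) < 1 / (4 * w) by positivity))
    have h3 := hcast.eventually h2
    filter_upwards [h3, eventually_ge_atTop 1] with n hn hn1
    have hn1' : (1 : ℝ) ≤ n := by exact_mod_cast hn1
    rw [Real.norm_of_nonneg (Real.log_nonneg hn1'), Real.norm_of_nonneg (by positivity),
      ← Real.sqrt_eq_rpow] at hn
    have h4 : √(n : ℝ) * √(n : ℝ) = n := Real.mul_self_sqrt (by positivity)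
    have h5 : 0 ≤ √(n : ℝ) := Real.sqrt_nonneg _
    calc (4 * w : ℝ) * (√(n : ℝ) * Real.log n)
        ≤ (4 * w : ℝ) * (√(n : ℝ) * (1 / (4 * w) * √(n : ℝ))) := by gcongr
      _ = √(n : ℝ) * √(n : ℝ) := by field_simp
      _ = n := h4
  filter_upwards [eventually_ge_atTop n0, eventually_ge_atTop ((16 * w) ^ 2),
    eventually_ge_atTop 100, log_tendsto.eventually_ge_atTop 64, hlit] with n e1 e2 e3 e4 e5 T t ht
  rw [mem_Icc, le_min_iff] at ht
  obtain ⟨ht1, htT, htn⟩ := ht
  have hw4 : 4 ≤ w := by omega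
  have hw4' : (4 : ℝ) ≤ w := by exact_mod_cast hw4
  have hn100 : (100 : ℝ) ≤ n := by exact_mod_cast e3
  have hn0 : (0 : ℝ) < n := by linarith
  have hP : ∀ m, (0 : ℝ) < numPartitions m := fun m => by exact_mod_cast numPartitions_pos m
  have hP0 := hP n
  have hs2 : √(n : ℝ) * √(n : ℝ) = n := Real.mul_self_sqrt (by positivity)
  have hs : 10 ≤ √(n : ℝ) := by
    rw [Real.le_sqrt (by norm_num) (by positivity)]; linarith
  have hsw : (16 * w : ℝ) ≤ √(n : ℝ) := by
    rw [Real.le_sqrt (by positivity) (by positivity)]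
    exact_mod_cast e2
  have hs0 : 0 < √(n : ℝ) := by linarith
  have hx0 : 0 < xs n := h.pos n (by omega)
  have hxlo := h.lo n (by omega)
  have hxhi := h.hi n (by omega)
  have hLn : Real.log n ≤ n := by
    have := Real.log_le_sub_one_of_pos hn0
    linarith
  have hexpL : exp (Real.log n) = n := Real.exp_log hn0
  have ht1' : (1 : ℝ) ≤ t := by exact_mod_cast ht1
  have ht0 : (0 : ℝ) < t := by linarith
  have htT' : (t : ℝ) ≤ T := by exact_mod_cast htT
  have htn' : (t : ℝ) ≤ n := by exact_mod_cast htn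
  have hvn := vv_nonneg xs (n := n) (by omega) T
  have hreg : ∀ m : ℕ, m ≤ 3 * n → (numPartitions m : ℝ) ≤
      C * exp (xs n * ((m : ℝ) - n)) * numPartitions n := fun m hm => h.up n m (by omega) hm
  have hup := h.up n (n - t) (by omega) (by omega)
  have hupe : xs n * (((n - t : ℕ) : ℝ) - n) = -(xs n * t) := by
    rw [Nat.cast_sub htn]; ring
  rw [hupe] at hup
  generalize hLdef : Real.log n = L at *
  have hL0 : 0 < L := by linarith
  obtain ⟨R, hRdef⟩ : ∃ R, R = √(n : ℝ) * L := ⟨_, rfl⟩
  rw [← hRdef] at e5 ⊢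
  have hR0 : 0 < R := by rw [hRdef]; positivity
  have hR1 : 1 ≤ R := by rw [hRdef]; nlinarith
  have hRn : R ≤ n := by nlinarith
  have hvR : 1 / R ≤ vv xs n T := by
    unfold vv
    rw [hLdef, ← hRdef]
    apply le_min
    · rw [div_le_one hR0]; exact hR1
    · gcongr
      exact Real.one_le_exp (by positivity)
  have hmn := mn_nonneg (x := xs n) hR0 t
  have hc0 : (0 : ℝ) ≤ numCores t n := Nat.cast_nonneg _
  obtain ⟨D, hD⟩ : ∃ D : ℝ, D = (w.factorial : ℝ) * 2 ^ w := ⟨_, rfl⟩
  have hD0 : 0 < D := by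
    have : (0 : ℝ) < (w.factorial : ℝ) := by exact_mod_cast w.factorial_pos
    rw [hD]; positivity
  rw [← hD]
  have hA0 : 0 ≤ C ^ 2 * D * (16 * exp 26) ^ (m + 2) / (n * L) := by positivity
  have hB0 : 0 ≤ C ^ 2 * D * 2704 ^ (m + 2) / R * mn (xs n) R t := by positivity
  have hB1 : 0 ≤ C / R * mn (xs n) R t := by positivity
  have hBs : (C ^ 2 * D * 2704 ^ (m + 2) + C) / R * mn (xs n) R t =
      C ^ 2 * D * 2704 ^ (m + 2) / R * mn (xs n) R t + C / R * mn (xs n) R t := by ring
  rw [hBs]
  obtain ⟨y, hy⟩ : ∃ y, y = exp (xs n * t) / R := ⟨_, rfl⟩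
  have hy0 : 0 < y := by rw [hy]; positivity
  have hyR : exp (-(xs n * t)) = 1 / (y * R) := by
    rw [hy, Real.exp_neg]; field_simp
  have hyR' : exp (xs n * t) = y * R := by
    rw [hy]; field_simp
  have hmny : mn (xs n) R t = min y (1 / y) := by
    unfold mn
    rw [hy, one_div_div]
  rcases le_or_gt 1 y with h1y | hy1
  · -- case `1 ≤ y`
    have hv1 : vv xs n T = 1 := by
      unfold vv
      rw [hLdef, ← hRdef]
      apply min_eq_left
      refine h1y.trans ?_
      rw [hy]
      gcongr
    have h2 : (numCores t n : ℝ) ≤ numPartitions n := by exact_mod_cast numCores_le t n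
    have hmy : mn (xs n) R t = 1 / y := by
      rw [hmny, min_eq_right (by rw [div_le_iff₀ hy0]; nlinarith)]
    rw [hv1, one_pow, mul_one]
    calc (numCores t n : ℝ) * numPartitions (n - t)
        ≤ numPartitions n * (C * exp (-(xs n * t)) * numPartitions n) := by gcongr
      _ = (numPartitions n : ℝ) ^ 2 * (C / R * mn (xs n) R t) := by
          rw [hyR, hmy]; field_simp
      _ ≤ _ := by
          apply mul_le_mul_of_nonneg_left _ (by positivity)
          linarith
  · have hmy : mn (xs n) R t = y := by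
      rw [hmny, min_eq_left (by rw [le_div_iff₀ hy0]; nlinarith)]
    have hvy : y ≤ vv xs n T := by
      unfold vv
      rw [hLdef, ← hRdef]
      apply le_min hy1.le
      rw [hy]
      gcongr
    rcases le_or_gt (t : ℝ) (√(n : ℝ)) with hA | hA
    · -- case A
      have hts : t ≤ Nat.sqrt n := by
        rw [Nat.le_sqrt]
        have h1 : (t : ℝ) * t ≤ n := by
          calc (t : ℝ) * t ≤ √(n : ℝ) * √(n : ℝ) := by gcongr
            _ = n := hs2
        exact_mod_cast h1
      obtain ⟨l, hl1, hl2⟩ := LT.exists_mult ht1 (show 2 * t ≤ 2 * Nat.sqrt n by omega)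
      obtain ⟨k, hk⟩ : ∃ k, k = l * t := ⟨_, rfl⟩
      rw [← hk] at hl1 hl2
      have hk1 : Nat.sqrt n ≤ 2 * k := by omega
      have hk2 : k ≤ Nat.sqrt n := by omega
      have hk2' : (k : ℝ) ≤ √(n : ℝ) := by
        apply Real.le_sqrt_of_sq_le
        have h1 : k * k ≤ n := (Nat.mul_le_mul hk2 hk2).trans (Nat.sqrt_le n)
        rw [sq]
        exact_mod_cast h1
      have hk1' : √(n : ℝ) / 4 ≤ k := by
        have h1 : √(n : ℝ) ≤ (Nat.sqrt n : ℝ) + 1 := by
          rw [Real.sqrt_le_left (by positivity)]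
          have h2 : n ≤ (Nat.sqrt n + 1) ^ 2 := by
            rw [sq]
            exact (Nat.lt_succ_sqrt n).le
          exact_mod_cast h2
        have h2 : (Nat.sqrt n : ℝ) ≤ 2 * k := by exact_mod_cast hk1
        linarith
      have hk0 : (0 : ℝ) < k := by linarith
      have hk0' : 0 < k := by exact_mod_cast hk0
      have hkw : 2 * w ≤ k := by
        have h1 : (2 : ℝ) * w ≤ k := by linarith
        exact_mod_cast h1
      have hkn : w * k ≤ 2 * n := by
        have h1 : (w : ℝ) * k ≤ 2 * n := by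
          calc (w : ℝ) * k ≤ √(n : ℝ) * √(n : ℝ) := by
                gcongr
                linarith
            _ = n := hs2
            _ ≤ 2 * n := by linarith
        exact_mod_cast h1
      have h1 : (numCores t n : ℝ) ≤ numCores k n := by
        rw [hk]
        exact_mod_cast numCores_mul t l n
      have h2 := BS.cores_bd hreg hkw hk0' hkn
      rw [← hD] at h2
      have h3 : exp (xs n * k) / k ≤ 4 * exp 13 / √(n : ℝ) := by
        have h4 : xs n * k ≤ 13 := by
          calc xs n * k ≤ 13 / √(n : ℝ) * √(n : ℝ) := by gcongr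
            _ = 13 := by field_simp
        calc exp (xs n * k) / k ≤ exp 13 / (√(n : ℝ) / 4) := by gcongr
          _ = _ := by field_simp
      have h4 : (4 * exp 13 / √(n : ℝ)) ^ w = (16 * exp 26) ^ (m + 2) / (n : ℝ) ^ (m + 2) := by
        rw [hw, pow_mul, div_pow, mul_pow, ← div_pow]
        congr 1
        have h5 : √(n : ℝ) ^ 2 = n := by rw [sq, hs2]
        have h6 : exp 13 ^ 2 = exp 26 := by
          rw [sq, ← Real.exp_add]; norm_num
        rw [h5, h6]
        norm_num
      have h5 : (numPartitions (n - t) : ℝ) ≤ C * numPartitions n := by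
        refine hup.trans ?_
        have : exp (-(xs n * t)) ≤ 1 := by
          rw [Real.exp_le_one_iff]
          have : 0 < xs n * t := by positivity
          linarith
        calc C * exp (-(xs n * t)) * numPartitions n ≤ C * 1 * numPartitions n := by gcongr
          _ = _ := by ring
      have h6 : (numCores t n : ℝ) ≤
          C * D * ((16 * exp 26) ^ (m + 2) / (n : ℝ) ^ (m + 2)) * numPartitions n := by
        rw [← h4]
        refine (h1.trans h2).trans ?_
        gcongr
      have h7 : 1 / (n : ℝ) ^ (m + 2) ≤ vv xs n T ^ m * (1 / (n * L)) := by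
        calc 1 / (n : ℝ) ^ (m + 2) = (1 / n) ^ m * (1 / (n * n)) := by
              rw [one_div_pow, pow_add]; field_simp
          _ ≤ (1 / R) ^ m * (1 / (n * L)) := by gcongr
          _ ≤ _ := by gcongr
      calc (numCores t n : ℝ) * numPartitions (n - t)
          ≤ (C * D * ((16 * exp 26) ^ (m + 2) / (n : ℝ) ^ (m + 2)) * numPartitions n) *
              (C * numPartitions n) := by
            apply mul_le_mul h6 h5 (hP _).le (by positivity)
        _ = (numPartitions n : ℝ) ^ 2 * (C ^ 2 * D * (16 * exp 26) ^ (m + 2)) *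
              (1 / (n : ℝ) ^ (m + 2)) := by ring
        _ ≤ (numPartitions n : ℝ) ^ 2 * (C ^ 2 * D * (16 * exp 26) ^ (m + 2)) *
              (vv xs n T ^ m * (1 / (n * L))) := by gcongr
        _ = (numPartitions n : ℝ) ^ 2 * vv xs n T ^ m *
              (C ^ 2 * D * (16 * exp 26) ^ (m + 2) / (n * L)) := by ring
        _ ≤ _ := by
          apply mul_le_mul_of_nonneg_left _ (by positivity)
          linarith
    · -- case B
      have hxt : xs n * t ≤ L := by
        have h1 : exp (xs n * t) ≤ exp L := by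
          rw [hyR', hexpL]
          calc y * R ≤ 1 * R := by gcongr
            _ ≤ n := by linarith
        exact Real.exp_le_exp.1 h1
      have ht4 : (t : ℝ) ≤ 4 * R := by
        have h1 : (t : ℝ) ≤ L / xs n := by
          rw [le_div_iff₀ hx0]; linarith
        calc (t : ℝ) ≤ L / xs n := h1
          _ ≤ L / (1 / (4 * √(n : ℝ))) := by gcongr
          _ = 4 * R := by rw [hRdef]; field_simp
      have hwt : w * t ≤ 2 * n := by
        have h1 : (w : ℝ) * t ≤ 2 * n := by
          calc (w : ℝ) * t ≤ w * (4 * R) := by gcongr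
            _ = 4 * w * R := by ring
            _ ≤ 2 * n := by linarith
        exact_mod_cast h1
      have h2w : 2 * w ≤ t := by
        have h1 : (2 : ℝ) * w ≤ t := by linarith
        exact_mod_cast h1
      have h2 := BS.cores_bd hreg h2w (by omega) hwt
      rw [← hD] at h2
      have hkey : y * (R / t) ^ 2 ≤ 2704 := by
        rcases le_or_gt (L / 4) (xs n * t) with h3 | h3
        · have h4 : R ≤ 52 * t := by
            have h5 : L / 4 ≤ 13 / √(n : ℝ) * t := h3.trans (by gcongr)
            have h6 : L / 4 * √(n : ℝ) ≤ 13 * t := by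
              calc L / 4 * √(n : ℝ) ≤ 13 / √(n : ℝ) * t * √(n : ℝ) := by gcongr
                _ = 13 * t := by field_simp
            rw [hRdef]
            linarith
          have h5 : R / t ≤ 52 := by
            rw [div_le_iff₀ ht0]; exact h4
          calc y * (R / t) ^ 2 ≤ 1 * 52 ^ 2 := by gcongr
            _ = 2704 := by norm_num
        · obtain ⟨g, hg⟩ : ∃ g, g = exp (L / 4) := ⟨_, rfl⟩
          have hg0 : 0 < g := by rw [hg]; positivity
          have hg4 : g ^ 2 * g ^ 2 = n := by
            rw [hg, ← hexpL, sq, ← Real.exp_add, ← Real.exp_add]; congr 1; ring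
          have hg2 : √(n : ℝ) = g ^ 2 := by
            rw [← hg4]
            exact Real.sqrt_mul_self (by positivity)
          have hLg : L ≤ g := by
            have h4 : g = exp (L / 8) ^ 2 := by
              rw [hg, sq, ← Real.exp_add]; congr 1; ring
            have h5 := Real.add_one_le_exp (L / 8)
            rw [h4]
            have h6 : (L / 8) ^ 2 ≤ exp (L / 8) ^ 2 :=
              pow_le_pow_left₀ (by positivity) (by linarith) 2
            nlinarith
          have h5 : y * R ≤ g := by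
            rw [← hyR', hg]
            exact Real.exp_le_exp.2 h3.le
          have h6 : y * (R / t) ^ 2 ≤ 1 := by
            have h7 : (n : ℝ) ≤ (t : ℝ) ^ 2 := by
              rw [← hs2, sq]
              gcongr
            calc y * (R / t) ^ 2 = (y * R) * R / (t : ℝ) ^ 2 := by
                  rw [div_pow]; ring
              _ ≤ g * R / n := by gcongr
              _ = L / g := by
                  rw [hRdef, hg2, ← hg4]; field_simp
              _ ≤ 1 := by rw [div_le_one hg0]; exact hLg
          linarith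
      have h3 : (exp (xs n * t) / t) ^ w ≤ 2704 ^ (m + 2) * y ^ (m + 2) := by
        have h4 : exp (xs n * t) / t = y * (R / t) := by rw [hyR']; ring
        rw [h4, hw, pow_mul, ← mul_pow]
        gcongr
        calc (y * (R / t)) ^ 2 = (y * (R / t) ^ 2) * y := by ring
          _ ≤ 2704 * y := by gcongr
      have h4 : (numCores t n : ℝ) ≤
          C * D * (2704 ^ (m + 2) * y ^ (m + 2)) * numPartitions n := by
        refine h2.trans ?_
        gcongr
      have h5 : (numPartitions (n - t) : ℝ) ≤ C * (1 / (y * R)) * numPartitions n := by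
        rw [← hyR]; exact hup
      calc (numCores t n : ℝ) * numPartitions (n - t)
          ≤ (C * D * (2704 ^ (m + 2) * y ^ (m + 2)) * numPartitions n) *
              (C * (1 / (y * R)) * numPartitions n) :=
            mul_le_mul h4 h5 (hP _).le (by positivity)
        _ = (numPartitions n : ℝ) ^ 2 * y ^ m * (C ^ 2 * D * 2704 ^ (m + 2) / R * y) := by
            rw [pow_add y m 2]
            field_simp
        _ ≤ (numPartitions n : ℝ) ^ 2 * vv xs n T ^ m *
              (C ^ 2 * D * 2704 ^ (m + 2) / R * y) := by gcongr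
        _ = (numPartitions n : ℝ) ^ 2 * vv xs n T ^ m *
              (C ^ 2 * D * 2704 ^ (m + 2) / R * mn (xs n) R t) := by rw [hmy]
        _ ≤ _ := by
          apply mul_le_mul_of_nonneg_left _ (by positivity)
          linarith

/-- **(R3)** -/
theorem base : S_R3 := by
  intro xs C n0 h m
  obtain ⟨w, hw⟩ : ∃ w, w = 2 * (m + 2) := ⟨_, rfl⟩
  have hpt := base_pt h m w hw
  have hC := h.C1
  obtain ⟨A, hA⟩ : ∃ A : ℝ, A = C ^ 2 * ((w.factorial : ℝ) * 2 ^ w) * (16 * exp 26) ^ (m + 2) :=
    ⟨_, rfl⟩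
  obtain ⟨B, hB⟩ : ∃ B : ℝ, B = C ^ 2 * ((w.factorial : ℝ) * 2 ^ w) * 2704 ^ (m + 2) + C :=
    ⟨_, rfl⟩
  have hf : (0 : ℝ) < (w.factorial : ℝ) := by exact_mod_cast w.factorial_pos
  have hA0 : 0 < A := by rw [hA]; positivity
  have hB0 : 0 < B := by rw [hB]; positivity
  rw [← hA, ← hB] at hpt
  have hev : ∀ᶠ n : ℕ in atTop, ∀ T : ℕ,
      ∑ t ∈ Icc 1 (min T n), (numCores t n : ℝ) * numPartitions (n - t) ≤
      (A + 10 * B) / Real.log n * vv xs n T ^ m * (numPartitions n : ℝ) ^ 2 := by
    filter_upwards [hpt, eventually_ge_atTop n0, eventually_ge_atTop 1,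
      log_tendsto.eventually_ge_atTop 1] with n h1 h2 h3 h4 T
    have hn1 : (1 : ℝ) ≤ n := by exact_mod_cast h3
    have hs1 : 1 ≤ √(n : ℝ) := Real.one_le_sqrt.2 hn1
    have hx0 := h.pos n h2
    have hxlo := h.lo n h2
    have hvn := vv_nonneg xs (n := n) h3 T
    have hL0 : 0 < Real.log n := by linarith
    have hR0 : 0 < √(n : ℝ) * Real.log n := by positivity
    refine (sum_le_sum (h1 T)).trans ?_
    rw [← mul_sum, sum_add_distrib, sum_const, ← mul_sum, nsmul_eq_mul, Nat.card_Icc,
      Nat.add_sub_cancel]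
    have h5 : 2 * (1 + 1 / xs n) ≤ 10 * √(n : ℝ) := by
      have h6 : 1 / xs n ≤ 4 * √(n : ℝ) := by
        rw [one_div, inv_le_comm₀ hx0 (by positivity), ← one_div]; exact hxlo
      linarith
    have h7 := (sum_mn hx0 hR0 (Icc 1 (min T n))).trans h5
    have h8 : ((min T n : ℕ) : ℝ) ≤ n := by exact_mod_cast min_le_right T n
    calc (numPartitions n : ℝ) ^ 2 * vv xs n T ^ m *
        (((min T n : ℕ) : ℝ) * (A / (n * Real.log n)) + B / (√(n : ℝ) * Real.log n) *
            ∑ t ∈ Icc 1 (min T n), mn (xs n) (√(n : ℝ) * Real.log n) t)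
        ≤ (numPartitions n : ℝ) ^ 2 * vv xs n T ^ m *
        ((n : ℝ) * (A / (n * Real.log n)) + B / (√(n : ℝ) * Real.log n) *
            (10 * √(n : ℝ))) := by gcongr
      _ = _ := by field_simp
  obtain ⟨n₁, hn₁⟩ := eventually_atTop.1 hev
  exact ⟨A + 10 * B, by positivity, n₁, fun n T hn => hn₁ n hn T⟩

end Pool.Agent.W5h11.TZ
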