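import Pool.Agent.W5h11.TZ.Iface4
import Pool.Agent.W5h11.TZ.Base

/-! (V5): the sum. -/

set_option autoImplicit false

namespace Pool.Agent.W5h11.TZ

open Finset Filter Topology Real Pool.Agent.H581R3.Core Pool.Agent.R721.PN

namespace FS

lemma fewCount_le (K t n : ℕ) : fewCount K t n ≤ numPartitions n :=
  Set.ncard_le_ncard (fun _ hf => hf.1) (finite_partitions n)

lemma root_le {k : ℕ} (hk : 1 ≤ k) {a b : ℝ} (ha : 0 ≤ a) (hb : 0 ≤ b) (h : a ≤ b ^ k) :
    a ^ (1 / k : ℝ) ≤ b := by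
  rw [one_div]
  calc a ^ ((k : ℝ)⁻¹) ≤ (b ^ k) ^ ((k : ℝ)⁻¹) := Real.rpow_le_rpow ha h (by positivity)
    _ = b := Real.pow_rpow_inv_natCast hb (by omega)

lemma root_le' {k : ℕ} (hk : 1 ≤ k) {a A b : ℝ} (ha : 0 ≤ a) (hA : 1 ≤ A) (hb : 0 ≤ b)
    (h : a ≤ A * b ^ k) : a ^ (1 / k : ℝ) ≤ A * b := by
  apply root_le hk ha (by positivity)
  rw [mul_pow]
  refine h.trans ?_
  have : A ≤ A ^ k := le_self_pow₀ hA (by omega)
  gcongr

lemma few_bd (hF : S_FEW) {C x : ℝ} {n t w : ℕ} (K : ℕ)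
    (hreg : ∀ m : ℕ, m ≤ 3 * n →
      (numPartitions m : ℝ) ≤ C * exp (x * ((m : ℝ) - n)) * numPartitions n)
    (h2w : 2 * w ≤ t) (ht : 0 < t) (hw : w * t ≤ 2 * n) :
    (fewCount K t n : ℝ) ≤ C * (((K + w).choose w : ℝ) * ((w.factorial : ℝ) * 2 ^ w)) *
      (exp (x * t) / t) ^ w * numPartitions n := by
  have h1 : (t.choose w : ℝ) * fewCount K t n ≤
      ((K + w).choose w : ℝ) * numPartitions (n + w * t) := by
    exact_mod_cast hF K t n w ht
  have h1' := hreg (n + w * t) (by omega)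
  have h1'' : x * (((n + w * t : ℕ) : ℝ) - n) = w * (x * t) := by push_cast; ring
  rw [h1''] at h1'
  have h2 := BS.choose_ge h2w
  have ht' : (0 : ℝ) < t := by exact_mod_cast ht
  have h4 : exp (w * (x * t)) = exp (x * t) ^ w := Real.exp_nat_mul (x * t) w
  rw [h4] at h1'
  have h3 : ((t : ℝ) / 2) ^ w / (w.factorial : ℝ) * fewCount K t n ≤
      ((K + w).choose w : ℝ) * (C * exp (x * t) ^ w * numPartitions n) :=
    (mul_le_mul_of_nonneg_right h2 (Nat.cast_nonneg _)).trans (h1.trans (by gcongr))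
  have hf : (0 : ℝ) < (w.factorial : ℝ) := by exact_mod_cast w.factorial_pos
  calc (fewCount K t n : ℝ) = ((w.factorial : ℝ) * 2 ^ w / (t : ℝ) ^ w) *
        (((t : ℝ) / 2) ^ w / (w.factorial : ℝ) * fewCount K t n) := by
        rw [div_pow]
        field_simp
    _ ≤ ((w.factorial : ℝ) * 2 ^ w / (t : ℝ) ^ w) *
        (((K + w).choose w : ℝ) * (C * exp (x * t) ^ w * numPartitions n)) := by
        gcongr
    _ = _ := by
        rw [div_pow]
        ring

lemma cores_bd' {C x : ℝ} {n m t w : ℕ} (hC : 0 < C) (hx : 0 < x) (hmn : m ≤ n)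
    (hreg : ∀ m : ℕ, m ≤ 3 * n →
      (numPartitions m : ℝ) ≤ C * exp (x * ((m : ℝ) - n)) * numPartitions n)
    (h2w : 2 * w ≤ t) (ht : 0 < t) (hw : w * t ≤ 2 * n) :
    (numCores t m : ℝ) ≤ C * ((w.factorial : ℝ) * 2 ^ w) * (exp (x * t) / t) ^ w *
      numPartitions n := by
  have h1 : (t.choose w : ℝ) * numCores t m ≤ (numPartitions (m + w * t) : ℝ) := by
    exact_mod_cast cores_choose_le t m w ht
  have h1' := hreg (m + w * t) (by omega)
  have hmn' : (m : ℝ) ≤ n := by exact_mod_cast hmn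
  have h1'' : x * (((m + w * t : ℕ) : ℝ) - n) ≤ w * (x * t) := by
    push_cast
    have : x * m ≤ x * n := by gcongr
    nlinarith
  have h2 := BS.choose_ge h2w
  have ht' : (0 : ℝ) < t := by exact_mod_cast ht
  have h4 : exp (w * (x * t)) = exp (x * t) ^ w := Real.exp_nat_mul (x * t) w
  have h5 : (numPartitions (m + w * t) : ℝ) ≤ C * exp (x * t) ^ w * numPartitions n := by
    refine h1'.trans ?_
    rw [← h4]
    have := Real.exp_le_exp.2 h1''
    gcongr
  have h3 : ((t : ℝ) / 2) ^ w / (w.factorial : ℝ) * numCores t m ≤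
      C * exp (x * t) ^ w * numPartitions n :=
    (mul_le_mul_of_nonneg_right h2 (Nat.cast_nonneg _)).trans (h1.trans h5)
  have hf : (0 : ℝ) < (w.factorial : ℝ) := by exact_mod_cast w.factorial_pos
  calc (numCores t m : ℝ) = ((w.factorial : ℝ) * 2 ^ w / (t : ℝ) ^ w) *
        (((t : ℝ) / 2) ^ w / (w.factorial : ℝ) * numCores t m) := by
        rw [div_pow]
        field_simp
    _ ≤ ((w.factorial : ℝ) * 2 ^ w / (t : ℝ) ^ w) * (C * exp (x * t) ^ w * numPartitions n) := by
        gcongr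
    _ = _ := by
        rw [div_pow]
        ring

end FS

/-- the pointwise bounds -/
theorem fsum_pt (hF : S_FEW) (hG : S_FEWC) {xs : ℕ → ℝ} {C : ℝ} {n0 : ℕ} (h : Sad xs C n0)
    (k K w v : ℕ) (hk : 1 ≤ k) (hw : w = 4 * k) (hv : v = 2 * (4 * K + 4 + 2 * k)) :
    ∀ᶠ n : ℕ in atTop, ∀ t : ℕ, t ∈ Icc 1 n →
      exp (-(xs n * t)) * ((fewCount K t n : ℝ) / numPartitions n) ^ (1 / k : ℝ) ≤
        8 ^ (4 * K + 4) * (C * ((v.factorial : ℝ) * 2 ^ v)) *
            (16 * exp 26) ^ (4 * K + 4 + 2 * k) / (n * Real.log n) +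
          (C * (((K + w).choose w : ℝ) * ((w.factorial : ℝ) * 2 ^ w)) * 2704 ^ 2 + 1) /
            (√(n : ℝ) * Real.log n) * mn (xs n) (√(n : ℝ) * Real.log n) t := by
  have hC := h.C1
  have hC0 : 0 < C := by linarith
  have hcast : Tendsto (fun n : ℕ => (n : ℝ)) atTop atTop := tendsto_natCast_atTop_atTop
  have hlit : ∀ᶠ n : ℕ in atTop, (4 * w : ℝ) * (√(n : ℝ) * Real.log n) ≤ n := by
    have hw4 : 4 ≤ w := by omega
    have hwr : (0 : ℝ) < 4 * w := by
      have : (4 : ℝ) ≤ w := by exact_mod_cast hw4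
      linarith
    have h1 : (fun x : ℝ => Real.log x) =o[atTop] fun x : ℝ => x ^ (1 / 2 : ℝ) :=
      isLittleO_log_rpow_atTop (by norm_num)
    have h2 := (h1.bound (show (0 : ℝ) < 1 / (4 * w) by positivity))
    have h3 := hcast.eventually h2
    filter_upwards [h3, eventually_ge_atTop 1] with n hn hn1
    have hn1' : (1 : ℝ) ≤ n := by exact_mod_cast hn1
    rw [Real.norm_of_nonneg (Real.log_nonneg hn1'), Real.norm_of_nonneg (by positivity),
      ← Real.sqrt_eq_rpow] at hn
    have h4 : √(n : ℝ) * √(n : ℝ) = n := Real.mul_self_sqrt (by positivity)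
    have h5 : 0 ≤ √(n : ℝ) := Real.sqrt_nonneg _
    calc (4 * w : ℝ) * (√(n : ℝ) * Real.log n)
        ≤ (4 * w : ℝ) * (√(n : ℝ) * (1 / (4 * w) * √(n : ℝ))) := by gcongr
      _ = √(n : ℝ) * √(n : ℝ) := by field_simp
      _ = n := h4
  filter_upwards [eventually_ge_atTop n0, eventually_ge_atTop ((16 * w) ^ 2),
    eventually_ge_atTop ((16 * v) ^ 2),
    eventually_ge_atTop 100, log_tendsto.eventually_ge_atTop 64, hlit] with n e1 e2 e2' e3 e4 e5 t ht
  rw [mem_Icc] at ht
  obtain ⟨ht1, htn⟩ := ht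
  have hw4 : 4 ≤ w := by omega
  have hw4' : (4 : ℝ) ≤ w := by exact_mod_cast hw4
  have hn100 : (100 : ℝ) ≤ n := by exact_mod_cast e3
  have hn0 : (0 : ℝ) < n := by linarith
  have hP : ∀ m, (0 : ℝ) < numPartitions m := fun m => by exact_mod_cast numPartitions_pos m
  have hP0 := hP n
  have hs2 : √(n : ℝ) * √(n : ℝ) = n := Real.mul_self_sqrt (by positivity)
  have hs : 10 ≤ √(n : ℝ) := by
    rw [Real.le_sqrt (by norm_num) (by positivity)]; linarith
  have hsw : (16 * w : ℝ) ≤ √(n : ℝ) := by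
    rw [Real.le_sqrt (by positivity) (by positivity)]
    exact_mod_cast e2
  have hsv : (16 * v : ℝ) ≤ √(n : ℝ) := by
    rw [Real.le_sqrt (by positivity) (by positivity)]
    exact_mod_cast e2'
  have hs0 : 0 < √(n : ℝ) := by linarith
  have hx0 : 0 < xs n := h.pos n (by omega)
  have hxlo := h.lo n (by omega)
  have hxhi := h.hi n (by omega)
  have hLn : Real.log n ≤ n := by
    have := Real.log_le_sub_one_of_pos hn0
    linarith
  have hexpL : exp (Real.log n) = n := Real.exp_log hn0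
  have ht1' : (1 : ℝ) ≤ t := by exact_mod_cast ht1
  have ht0 : (0 : ℝ) < t := by linarith
  have htn' : (t : ℝ) ≤ n := by exact_mod_cast htn
  have hreg : ∀ m : ℕ, m ≤ 3 * n → (numPartitions m : ℝ) ≤
      C * exp (xs n * ((m : ℝ) - n)) * numPartitions n := fun m hm => h.up n m (by omega) hm
  generalize hLdef : Real.log n = L at *
  have hL0 : 0 < L := by linarith
  obtain ⟨R, hRdef⟩ : ∃ R, R = √(n : ℝ) * L := ⟨_, rfl⟩
  rw [← hRdef] at e5 ⊢
  have hR0 : 0 < R := by rw [hRdef]; positivity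
  have hR1 : 1 ≤ R := by rw [hRdef]; nlinarith
  have hRn : R ≤ n := by nlinarith
  have hmn := mn_nonneg (x := xs n) hR0 t
  have hf0 : (0 : ℝ) ≤ fewCount K t n := Nat.cast_nonneg _
  obtain ⟨ρ, hρ⟩ : ∃ ρ : ℝ, ρ = (fewCount K t n : ℝ) / numPartitions n := ⟨_, rfl⟩
  rw [← hρ]
  have hρ0 : 0 ≤ ρ := by rw [hρ]; positivity
  have hρ1 : ρ ≤ 1 := by
    rw [hρ, div_le_one hP0]
    exact_mod_cast FS.fewCount_le K t n
  obtain ⟨D, hD⟩ : ∃ D : ℝ, D = C * (((K + w).choose w : ℝ) * ((w.factorial : ℝ) * 2 ^ w)) :=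
    ⟨_, rfl⟩
  obtain ⟨E, hE⟩ : ∃ E : ℝ, E = C * ((v.factorial : ℝ) * 2 ^ v) := ⟨_, rfl⟩
  have hfac : ∀ i : ℕ, (1 : ℝ) ≤ (i.factorial : ℝ) * 2 ^ i := by
    intro i
    have h1 : (1 : ℝ) ≤ (i.factorial : ℝ) := by exact_mod_cast i.factorial_pos
    have h2 : (1 : ℝ) ≤ 2 ^ i := one_le_pow₀ (by norm_num)
    nlinarith
  have hD1 : 1 ≤ D := by
    have h1 : (1 : ℝ) ≤ ((K + w).choose w : ℝ) := by
      exact_mod_cast Nat.choose_pos (Nat.le_add_left w K)
    have h2 := hfac w
    have h3 : (1 : ℝ) ≤ ((K + w).choose w : ℝ) * ((w.factorial : ℝ) * 2 ^ w) :=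
      one_le_mul_of_one_le_of_one_le h1 h2
    rw [hD]
    exact one_le_mul_of_one_le_of_one_le hC h3
  have hE1 : 1 ≤ E := by
    rw [hE]
    exact one_le_mul_of_one_le_of_one_le hC (hfac v)
  rw [← hD, ← hE]
  have hA0 : 0 ≤ 8 ^ (4 * K + 4) * E * (16 * exp 26) ^ (4 * K + 4 + 2 * k) / (n * L) := by
    positivity
  have hB0 : 0 ≤ D * 2704 ^ 2 / R * mn (xs n) R t := by positivity
  have hB1 : 0 ≤ 1 / R * mn (xs n) R t := by positivity
  have hBs : (D * 2704 ^ 2 + 1) / R * mn (xs n) R t =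
      D * 2704 ^ 2 / R * mn (xs n) R t + 1 / R * mn (xs n) R t := by ring
  rw [hBs]
  obtain ⟨y, hy⟩ : ∃ y, y = exp (xs n * t) / R := ⟨_, rfl⟩
  have hy0 : 0 < y := by rw [hy]; positivity
  have hyR : exp (-(xs n * t)) = 1 / (y * R) := by
    rw [hy, Real.exp_neg]; field_simp
  have hyR' : exp (xs n * t) = y * R := by
    rw [hy]; field_simp
  have hmny : mn (xs n) R t = min y (1 / y) := by
    unfold mn
    rw [hy, one_div_div]
  rcases le_or_gt 1 y with h1y | hy1
  · -- case `1 ≤ y`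
    have hmy : mn (xs n) R t = 1 / y := by
      rw [hmny, min_eq_right (by rw [div_le_iff₀ hy0]; nlinarith)]
    have h2 : ρ ^ (1 / k : ℝ) ≤ 1 := Real.rpow_le_one hρ0 hρ1 (by positivity)
    calc exp (-(xs n * t)) * ρ ^ (1 / k : ℝ) ≤ exp (-(xs n * t)) * 1 := by gcongr
      _ = 1 / R * mn (xs n) R t := by
          rw [hyR, hmy]; field_simp
      _ ≤ _ := by linarith
  · have hmy : mn (xs n) R t = y := by
      rw [hmny, min_eq_left (by rw [le_div_iff₀ hy0]; nlinarith)]
    rcases le_or_gt (t : ℝ) (√(n : ℝ)) with hA | hA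
    · -- case A
      have hts : t ≤ Nat.sqrt n := by
        rw [Nat.le_sqrt]
        have h1 : (t : ℝ) * t ≤ n := by
          calc (t : ℝ) * t ≤ √(n : ℝ) * √(n : ℝ) := by gcongr
            _ = n := hs2
        exact_mod_cast h1
      obtain ⟨l, hl1, hl2⟩ := LT.exists_mult ht1 (show 2 * t ≤ 2 * Nat.sqrt n by omega)
      obtain ⟨j, hj⟩ : ∃ j, j = l * t := ⟨_, rfl⟩
      rw [← hj] at hl1 hl2
      have hk1 : Nat.sqrt n ≤ 2 * j := by omega
      have hk2 : j ≤ Nat.sqrt n := by omega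
      have hk2' : (j : ℝ) ≤ √(n : ℝ) := by
        apply Real.le_sqrt_of_sq_le
        have h1 : j * j ≤ n := (Nat.mul_le_mul hk2 hk2).trans (Nat.sqrt_le n)
        rw [sq]
        exact_mod_cast h1
      have hk1' : √(n : ℝ) / 4 ≤ j := by
        have h1 : √(n : ℝ) ≤ (Nat.sqrt n : ℝ) + 1 := by
          rw [Real.sqrt_le_left (by positivity)]
          have h2 : n ≤ (Nat.sqrt n + 1) ^ 2 := by
            rw [sq]
            exact (Nat.lt_succ_sqrt n).le
          exact_mod_cast h2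
        have h2 : (Nat.sqrt n : ℝ) ≤ 2 * j := by exact_mod_cast hk1
        linarith
      have hk0 : (0 : ℝ) < j := by linarith
      have hk0' : 0 < j := by exact_mod_cast hk0
      have hkw : 2 * v ≤ j := by
        have h1 : (2 : ℝ) * v ≤ j := by linarith
        exact_mod_cast h1
      have hkn : v * j ≤ 2 * n := by
        have h1 : (v : ℝ) * j ≤ 2 * n := by
          calc (v : ℝ) * j ≤ √(n : ℝ) * √(n : ℝ) := by
                gcongr
                have : (0 : ℝ) ≤ v := Nat.cast_nonneg _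
                linarith
            _ = n := hs2
            _ ≤ 2 * n := by linarith
        exact_mod_cast h1
      obtain ⟨m, hmn', hG'⟩ := hG K t n ht1
      have h0 : (fewCount K t n : ℝ) ≤ (4 * n + 4 : ℝ) ^ (4 * K + 4) * numCores t m := by
        exact_mod_cast hG'
      have h1 : (numCores t m : ℝ) ≤ numCores j m := by
        rw [hj]
        exact_mod_cast numCores_mul t l m
      have h2 := FS.cores_bd' hC0 hx0 hmn' hreg hkw hk0' hkn
      rw [← hE] at h2
      have h3 : exp (xs n * j) / j ≤ 4 * exp 13 / √(n : ℝ) := by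
        have h4 : xs n * j ≤ 13 := by
          calc xs n * j ≤ 13 / √(n : ℝ) * √(n : ℝ) := by gcongr
            _ = 13 := by field_simp
        calc exp (xs n * j) / j ≤ exp 13 / (√(n : ℝ) / 4) := by gcongr
          _ = _ := by field_simp
      have h4 : (4 * exp 13 / √(n : ℝ)) ^ v =
          (16 * exp 26) ^ (4 * K + 4 + 2 * k) / (n : ℝ) ^ (4 * K + 4 + 2 * k) := by
        rw [hv, pow_mul, div_pow, mul_pow, ← div_pow]
        congr 1
        have h5 : √(n : ℝ) ^ 2 = n := by rw [sq, hs2]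
        have h6 : exp 13 ^ 2 = exp 26 := by
          rw [sq, ← Real.exp_add]; norm_num
        rw [h5, h6]
        norm_num
      have h6 : ρ ≤ (8 ^ (4 * K + 4) * E * (16 * exp 26) ^ (4 * K + 4 + 2 * k)) *
          (1 / (n : ℝ) ^ 2) ^ k := by
        rw [hρ, div_le_iff₀ hP0]
        calc (fewCount K t n : ℝ) ≤ (4 * n + 4 : ℝ) ^ (4 * K + 4) * numCores t m := h0
          _ ≤ (8 * n : ℝ) ^ (4 * K + 4) * (E * (4 * exp 13 / √(n : ℝ)) ^ v * numPartitions n) := by
              have h7 : (4 * n + 4 : ℝ) ≤ 8 * n := by linarith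
              have h8 : (numCores t m : ℝ) ≤ E * (4 * exp 13 / √(n : ℝ)) ^ v * numPartitions n := by
                refine (h1.trans h2).trans ?_
                gcongr
              gcongr
          _ = _ := by
              rw [h4, one_div_pow, ← pow_mul, pow_add (n : ℝ) (4 * K + 4) (2 * k), mul_pow]
              field_simp
      have h7 : ρ ^ (1 / k : ℝ) ≤ (8 ^ (4 * K + 4) * E *
          (16 * exp 26) ^ (4 * K + 4 + 2 * k)) * (1 / (n : ℝ) ^ 2) := by
        apply FS.root_le' hk hρ0 _ (by positivity) h6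
        have h8 : (1 : ℝ) ≤ 8 ^ (4 * K + 4) := one_le_pow₀ (by norm_num)
        have h9 : (1 : ℝ) ≤ (16 * exp 26) ^ (4 * K + 4 + 2 * k) := by
          apply one_le_pow₀
          have : (1 : ℝ) ≤ exp 26 := Real.one_le_exp (by norm_num)
          linarith
        exact one_le_mul_of_one_le_of_one_le (one_le_mul_of_one_le_of_one_le h8 hE1) h9
      have h8 : exp (-(xs n * t)) ≤ 1 := by
        rw [Real.exp_le_one_iff]
        have : 0 < xs n * t := by positivity
        linarith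
      have h9 : 0 ≤ ρ ^ (1 / k : ℝ) := Real.rpow_nonneg hρ0 _
      calc exp (-(xs n * t)) * ρ ^ (1 / k : ℝ) ≤ 1 * ((8 ^ (4 * K + 4) * E *
          (16 * exp 26) ^ (4 * K + 4 + 2 * k)) * (1 / (n : ℝ) ^ 2)) := by gcongr
        _ = 8 ^ (4 * K + 4) * E * (16 * exp 26) ^ (4 * K + 4 + 2 * k) / (n * n) := by
            rw [sq]; ring
        _ ≤ 8 ^ (4 * K + 4) * E * (16 * exp 26) ^ (4 * K + 4 + 2 * k) / (n * L) := by gcongr
        _ ≤ _ := by linarith
    · -- case B
      have hxt : xs n * t ≤ L := by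
        have h1 : exp (xs n * t) ≤ exp L := by
          rw [hyR', hexpL]
          calc y * R ≤ 1 * R := by gcongr
            _ ≤ n := by linarith
        exact Real.exp_le_exp.1 h1
      have ht4 : (t : ℝ) ≤ 4 * R := by
        have h1 : (t : ℝ) ≤ L / xs n := by
          rw [le_div_iff₀ hx0]; linarith
        calc (t : ℝ) ≤ L / xs n := h1
          _ ≤ L / (1 / (4 * √(n : ℝ))) := by gcongr
          _ = 4 * R := by rw [hRdef]; field_simp
      have hwt : w * t ≤ 2 * n := by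
        have h1 : (w : ℝ) * t ≤ 2 * n := by
          calc (w : ℝ) * t ≤ w * (4 * R) := by gcongr
            _ = 4 * w * R := by ring
            _ ≤ 2 * n := by linarith
        exact_mod_cast h1
      have h2w : 2 * w ≤ t := by
        have h1 : (2 : ℝ) * w ≤ t := by linarith
        exact_mod_cast h1
      have h2 := FS.few_bd hF K hreg h2w (by omega) hwt
      rw [← hD] at h2
      have hkey : y * (R / t) ^ 2 ≤ 2704 := by
        rcases le_or_gt (L / 4) (xs n * t) with h3 | h3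
        · have h4 : R ≤ 52 * t := by
            have h5 : L / 4 ≤ 13 / √(n : ℝ) * t := h3.trans (by gcongr)
            have h6 : L / 4 * √(n : ℝ) ≤ 13 * t := by
              calc L / 4 * √(n : ℝ) ≤ 13 / √(n : ℝ) * t * √(n : ℝ) := by gcongr
                _ = 13 * t := by field_simp
            rw [hRdef]
            linarith
          have h5 : R / t ≤ 52 := by
            rw [div_le_iff₀ ht0]; exact h4
          calc y * (R / t) ^ 2 ≤ 1 * 52 ^ 2 := by gcongr
            _ = 2704 := by norm_num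
        · obtain ⟨g, hg⟩ : ∃ g, g = exp (L / 4) := ⟨_, rfl⟩
          have hg0 : 0 < g := by rw [hg]; positivity
          have hg4 : g ^ 2 * g ^ 2 = n := by
            rw [hg, ← hexpL, sq, ← Real.exp_add, ← Real.exp_add]; congr 1; ring
          have hg2 : √(n : ℝ) = g ^ 2 := by
            rw [← hg4]
            exact Real.sqrt_mul_self (by positivity)
          have hLg : L ≤ g := by
            have h4 : g = exp (L / 8) ^ 2 := by
              rw [hg, sq, ← Real.exp_add]; congr 1; ring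
            have h5 := Real.add_one_le_exp (L / 8)
            rw [h4]
            have h6 : (L / 8) ^ 2 ≤ exp (L / 8) ^ 2 :=
              pow_le_pow_left₀ (by positivity) (by linarith) 2
            nlinarith
          have h5 : y * R ≤ g := by
            rw [← hyR', hg]
            exact Real.exp_le_exp.2 h3.le
          have h6 : y * (R / t) ^ 2 ≤ 1 := by
            have h7 : (n : ℝ) ≤ (t : ℝ) ^ 2 := by
              rw [← hs2, sq]
              gcongr
            calc y * (R / t) ^ 2 = (y * R) * R / (t : ℝ) ^ 2 := by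
                  rw [div_pow]; ring
              _ ≤ g * R / n := by gcongr
              _ = L / g := by
                  rw [hRdef, hg2, ← hg4]; field_simp
              _ ≤ 1 := by rw [div_le_one hg0]; exact hLg
          linarith
      have h3 : (exp (xs n * t) / t) ^ w ≤ (2704 ^ 2 * y ^ 2) ^ k := by
        have h4 : exp (xs n * t) / t = y * (R / t) := by rw [hyR']; ring
        rw [h4, hw, pow_mul]
        gcongr
        calc (y * (R / t)) ^ 4 = ((y * (R / t) ^ 2) * y) ^ 2 := by ring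
          _ ≤ (2704 * y) ^ 2 := by gcongr
          _ = _ := by ring
      have h4 : ρ ≤ D * (2704 ^ 2 * y ^ 2) ^ k := by
        rw [hρ, div_le_iff₀ hP0]
        refine h2.trans ?_
        gcongr
      have h5 := FS.root_le' hk hρ0 hD1 (by positivity) h4
      calc exp (-(xs n * t)) * ρ ^ (1 / k : ℝ)
          ≤ (1 / (y * R)) * (D * (2704 ^ 2 * y ^ 2)) := by
            rw [hyR]; gcongr
        _ = D * 2704 ^ 2 / R * mn (xs n) R t := by
            rw [hmy]; field_simp
        _ ≤ _ := by linarith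

/-- **(V5)** -/
theorem fsum : S_V5 := by
  intro hF hG xs C n0 h k K hk
  obtain ⟨w, hw⟩ : ∃ w, w = 4 * k := ⟨_, rfl⟩
  obtain ⟨v, hv⟩ : ∃ v, v = 2 * (4 * K + 4 + 2 * k) := ⟨_, rfl⟩
  have hpt := fsum_pt hF hG h k K w v hk hw hv
  have hC := h.C1
  obtain ⟨A, hA⟩ : ∃ A : ℝ, A = 8 ^ (4 * K + 4) * (C * ((v.factorial : ℝ) * 2 ^ v)) *
            (16 * exp 26) ^ (4 * K + 4 + 2 * k) := ⟨_, rfl⟩
  obtain ⟨B, hB⟩ : ∃ B : ℝ, B = C * (((K + w).choose w : ℝ) * ((w.factorial : ℝ) * 2 ^ w)) *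
      2704 ^ 2 + 1 := ⟨_, rfl⟩
  have hf : (0 : ℝ) < (v.factorial : ℝ) := by exact_mod_cast v.factorial_pos
  have hA0 : 0 < A := by rw [hA]; positivity
  have hB0 : 0 < B := by rw [hB]; positivity
  rw [← hA, ← hB] at hpt
  have hev : ∀ᶠ n : ℕ in atTop,
      ∑ t ∈ Icc 1 n, exp (-(xs n * t)) *
        ((fewCount K t n : ℝ) / numPartitions n) ^ (1 / k : ℝ) ≤ (A + 10 * B) / Real.log n := by
    filter_upwards [hpt, eventually_ge_atTop n0, eventually_ge_atTop 1,
      log_tendsto.eventually_ge_atTop 1] with n h1 h2 h3 h4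
    have hn1 : (1 : ℝ) ≤ n := by exact_mod_cast h3
    have hs1 : 1 ≤ √(n : ℝ) := Real.one_le_sqrt.2 hn1
    have hx0 := h.pos n h2
    have hxlo := h.lo n h2
    have hL0 : 0 < Real.log n := by linarith
    have hR0 : 0 < √(n : ℝ) * Real.log n := by positivity
    refine (sum_le_sum h1).trans ?_
    rw [sum_add_distrib, sum_const, ← mul_sum, nsmul_eq_mul, Nat.card_Icc, Nat.add_sub_cancel]
    have h5 : 2 * (1 + 1 / xs n) ≤ 10 * √(n : ℝ) := by
      have h6 : 1 / xs n ≤ 4 * √(n : ℝ) := by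
        rw [one_div, inv_le_comm₀ hx0 (by positivity), ← one_div]; exact hxlo
      linarith
    have h7 := (sum_mn hx0 hR0 (Icc 1 n)).trans h5
    calc (n : ℝ) * (A / (n * Real.log n)) + B / (√(n : ℝ) * Real.log n) *
            ∑ t ∈ Icc 1 n, mn (xs n) (√(n : ℝ) * Real.log n) t
        ≤ (n : ℝ) * (A / (n * Real.log n)) + B / (√(n : ℝ) * Real.log n) *
            (10 * √(n : ℝ)) := by gcongr
      _ = _ := by field_simp
  obtain ⟨n₁, hn₁⟩ := eventually_atTop.1 hev
  exact ⟨A + 10 * B, by positivity, n₁, fun n hn => hn₁ n hn⟩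

end Pool.Agent.W5h11.TZ
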