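import Pool.Agent.W5h11.TZ.Iface5
import Pool.Agent.W5h11.TZ.FSum

/-! (X2) partitions with few removable rim hooks, exponential bounds. -/

set_option autoImplicit false

namespace Pool.Agent.W5h11.TZ

open Finset Filter Topology Real Pool.Agent.H581R3.Core Pool.Agent.R721.PN

theorem ge_pow {t w : ℕ} {a : ℝ} (ha : 0 ≤ a) (h2w : 2 * w ≤ t) (h : a * w ≤ t / 2) :
    a ^ w ≤ (t.choose w : ℝ) := by
  have h1 := BS.choose_ge h2w
  refine le_trans ?_ h1
  have hf : (0 : ℝ) < (w.factorial : ℝ) := by exact_mod_cast w.factorial_pos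
  rw [le_div_iff₀ hf]
  have h2 : (w.factorial : ℝ) ≤ (w : ℝ) ^ w := by exact_mod_cast Nat.factorial_le_pow w
  calc a ^ w * (w.factorial : ℝ) ≤ a ^ w * (w : ℝ) ^ w := by gcongr
    _ = (a * w) ^ w := by rw [mul_pow]
    _ ≤ ((t : ℝ) / 2) ^ w := by gcongr

theorem sq_le_exp {y : ℝ} (hy : 0 ≤ y) : y ^ 2 ≤ exp y := by
  have h1 := Real.add_one_le_exp (y / 2 - 1)
  have h2 : exp (y / 2) = exp (y / 2 - 1) * exp 1 := by rw [← Real.exp_add]; ring_nf
  have h3 : (2 : ℝ) ≤ exp 1 := by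
    have := Real.add_one_le_exp 1
    linarith
  have h4 : y ≤ exp (y / 2) := by
    rw [h2]
    have h5 : 0 ≤ exp (y / 2 - 1) := (Real.exp_pos _).le
    nlinarith
  calc y ^ 2 ≤ exp (y / 2) ^ 2 := pow_le_pow_left₀ hy h4 2
    _ = exp y := by rw [sq, ← Real.exp_add]; ring_nf

theorem half_pow (w : ℕ) {s : ℝ} (h : s < w + 1) : (1 / 2 : ℝ) ^ w ≤ exp (1 / 2) * exp (-(s / 2)) := by
  have h1 := Real.add_one_le_exp (-(1 / 2) : ℝ)
  calc (1 / 2 : ℝ) ^ w ≤ exp (-(1 / 2)) ^ w := by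
        apply pow_le_pow_left₀ (by norm_num)
        linarith
    _ = exp (w * (-(1 / 2))) := (Real.exp_nat_mul _ _).symm
    _ ≤ exp (1 / 2 + -(s / 2)) := by
        apply Real.exp_le_exp.2
        linarith
    _ = _ := Real.exp_add _ _

theorem few_A (hF : S_FEW) {C x : ℝ} {n t j : ℕ} (hC : 0 < C) (hx : 0 < x) (hn : 1 ≤ n)
    (hxlo : 1 / (4 * √(n : ℝ)) ≤ x)
    (hreg : ∀ m : ℕ, m ≤ 3 * n →
      (numPartitions m : ℝ) ≤ C * exp (x * ((m : ℝ) - n)) * numPartitions n) (ht : 1 ≤ t) :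
    (fewCount (4 * j) t n : ℝ) ≤ C * exp (1 / 2) * 16 ^ j *
      exp (-(1 / 20 * (t * exp (-(x * t))))) * numPartitions n := by
  have hn0 : (0 : ℝ) < n := by exact_mod_cast hn
  have ht0 : (0 : ℝ) < t := by exact_mod_cast ht
  have hs0 : 0 < √(n : ℝ) := Real.sqrt_pos.2 hn0
  have hP : (0 : ℝ) < numPartitions n := by exact_mod_cast numPartitions_pos n
  obtain ⟨u, hu⟩ : ∃ u : ℝ, u = t * exp (-(x * t)) := ⟨_, rfl⟩
  rw [← hu]
  have hu0 : 0 < u := by rw [hu]; positivity
  have hut : u ≤ t := by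
    rw [hu]
    have : exp (-(x * t)) ≤ 1 := by
      rw [Real.exp_le_one_iff]
      have : 0 < x * t := by positivity
      linarith
    nlinarith
  have heu : exp (x * t) * u = t := by
    rw [hu, mul_comm, mul_assoc, ← Real.exp_add]; simp
  have htu : t * u ≤ 16 * n := by
    have h1 := sq_le_exp (y := x * t) (by positivity)
    have h2 : (x * t) ^ 2 * exp (-(x * t)) ≤ 1 := by
      rw [Real.exp_neg]
      rw [mul_inv_le_iff₀ (Real.exp_pos _)]
      linarith
    have h3 : x ^ 2 * (t * u) ≤ 1 := by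
      rw [hu]
      calc x ^ 2 * (t * (t * exp (-(x * t)))) = (x * t) ^ 2 * exp (-(x * t)) := by ring
        _ ≤ 1 := h2
    have h4 : 1 / (16 * n) ≤ x ^ 2 := by
      calc 1 / (16 * (n : ℝ)) = (1 / (4 * √(n : ℝ))) ^ 2 := by
            rw [div_pow, mul_pow, Real.sq_sqrt hn0.le]; norm_num
        _ ≤ x ^ 2 := pow_le_pow_left₀ (by positivity) hxlo 2
    have h5 : 1 / (16 * n) * (t * u) ≤ 1 := le_trans (by gcongr) h3
    rw [one_div, inv_mul_le_iff₀ (by positivity)] at h5
    linarith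
  obtain ⟨w, hw⟩ : ∃ w : ℕ, w = ⌊u / 10⌋₊ := ⟨_, rfl⟩
  have hw1 : (w : ℝ) ≤ u / 10 := by rw [hw]; exact Nat.floor_le (by positivity)
  have hw2 : u / 10 < w + 1 := by rw [hw]; exact Nat.lt_floor_add_one _
  have h2w : 2 * w ≤ t := by
    have : (2 : ℝ) * w ≤ t := by linarith
    exact_mod_cast this
  have hwt : w * t ≤ 2 * n := by
    have : (w : ℝ) * t ≤ 2 * n := by
      calc (w : ℝ) * t ≤ u / 10 * t := by gcongr
        _ = t * u / 10 := by ring
        _ ≤ 2 * n := by linarith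
    exact_mod_cast this
  have h1 : (t.choose w : ℝ) * fewCount (4 * j) t n ≤
      ((4 * j + w).choose w : ℝ) * numPartitions (n + w * t) := by
    exact_mod_cast hF (4 * j) t n w ht
  have h1' := hreg (n + w * t) (by omega)
  have h1'' : x * (((n + w * t : ℕ) : ℝ) - n) = w * (x * t) := by push_cast; ring
  rw [h1'', Real.exp_nat_mul] at h1'
  have h2 : (5 * exp (x * t)) ^ w ≤ (t.choose w : ℝ) := by
    apply ge_pow (by positivity) h2w
    calc 5 * exp (x * t) * w ≤ 5 * exp (x * t) * (u / 10) := by gcongr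
      _ = exp (x * t) * u / 2 := by ring
      _ = t / 2 := by rw [heu]
  have h3 : ((4 * j + w).choose w : ℝ) ≤ 2 ^ (4 * j + w) := by
    exact_mod_cast Nat.choose_le_two_pow (4 * j + w) w
  have h4 : (5 * exp (x * t)) ^ w * fewCount (4 * j) t n ≤
      2 ^ (4 * j + w) * (C * exp (x * t) ^ w * numPartitions n) := by
    calc (5 * exp (x * t)) ^ w * fewCount (4 * j) t n
        ≤ (t.choose w : ℝ) * fewCount (4 * j) t n := by gcongr
      _ ≤ ((4 * j + w).choose w : ℝ) * numPartitions (n + w * t) := h1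
      _ ≤ 2 ^ (4 * j + w) * (C * exp (x * t) ^ w * numPartitions n) := by gcongr
  have h5 : (fewCount (4 * j) t n : ℝ) ≤ C * 16 ^ j * (2 / 5) ^ w * numPartitions n := by
    have h6 : 0 < (5 * exp (x * t)) ^ w := by positivity
    have h7 : (fewCount (4 * j) t n : ℝ) ≤
        2 ^ (4 * j + w) * (C * exp (x * t) ^ w * numPartitions n) / (5 * exp (x * t)) ^ w := by
      rw [le_div_iff₀ h6]
      linarith
    refine h7.trans (le_of_eq ?_)
    rw [pow_add, pow_mul, mul_pow, div_pow]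
    have h8 : exp (x * t) ^ w ≠ 0 := by positivity
    norm_num
    field_simp
  have h6 : (2 / 5 : ℝ) ^ w ≤ exp (1 / 2) * exp (-(1 / 20 * u)) := by
    calc (2 / 5 : ℝ) ^ w ≤ (1 / 2) ^ w := by
          apply pow_le_pow_left₀ (by norm_num) (by norm_num)
      _ ≤ exp (1 / 2) * exp (-(u / 10 / 2)) := half_pow w hw2
      _ = _ := by ring_nf
  calc (fewCount (4 * j) t n : ℝ) ≤ C * 16 ^ j * (2 / 5) ^ w * numPartitions n := h5
    _ ≤ C * 16 ^ j * (exp (1 / 2) * exp (-(1 / 20 * u))) * numPartitions n := by gcongr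
    _ = _ := by ring

theorem cores_B {C x : ℝ} {n m t : ℕ} (hC : 0 < C) (hx : 0 < x) (hxhi : x ≤ 13 / √(n : ℝ))
    (hmn : m ≤ n) (hn : 100 ≤ n)
    (hreg : ∀ m : ℕ, m ≤ 3 * n →
      (numPartitions m : ℝ) ≤ C * exp (x * ((m : ℝ) - n)) * numPartitions n) (ht : 1 ≤ t)
    (hts : (t : ℝ) < √(n : ℝ)) :
    (numCores t m : ℝ) ≤ C * exp (1 / 2) * exp (-(√(n : ℝ) / (32 * exp 13))) *
      numPartitions n := by
  have hn100 : (100 : ℝ) ≤ n := by exact_mod_cast hn
  have hn0 : (0 : ℝ) < n := by linarith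
  have hs2 : √(n : ℝ) * √(n : ℝ) = n := Real.mul_self_sqrt (by positivity)
  have hs : 10 ≤ √(n : ℝ) := by
    rw [Real.le_sqrt (by norm_num) (by positivity)]; linarith
  have hs0 : 0 < √(n : ℝ) := by linarith
  have hP : (0 : ℝ) < numPartitions n := by exact_mod_cast numPartitions_pos n
  have hts' : t ≤ Nat.sqrt n := by
    rw [Nat.le_sqrt]
    have h1 : (t : ℝ) * t ≤ n := by
      calc (t : ℝ) * t ≤ √(n : ℝ) * √(n : ℝ) := by gcongr
        _ = n := hs2
    exact_mod_cast h1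
  obtain ⟨l, hl1, hl2⟩ := LT.exists_mult ht (show 2 * t ≤ 2 * Nat.sqrt n by omega)
  obtain ⟨j, hj⟩ : ∃ j, j = l * t := ⟨_, rfl⟩
  rw [← hj] at hl1 hl2
  have hk1 : Nat.sqrt n ≤ 2 * j := by omega
  have hk2 : j ≤ Nat.sqrt n := by omega
  have hk2' : (j : ℝ) ≤ √(n : ℝ) := by
    apply Real.le_sqrt_of_sq_le
    have h1 : j * j ≤ n := (Nat.mul_le_mul hk2 hk2).trans (Nat.sqrt_le n)
    rw [sq]
    exact_mod_cast h1
  have hk1' : √(n : ℝ) / 4 ≤ j := by
    have h1 : √(n : ℝ) ≤ (Nat.sqrt n : ℝ) + 1 := by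
      rw [Real.sqrt_le_left (by positivity)]
      have h2 : n ≤ (Nat.sqrt n + 1) ^ 2 := by
        rw [sq]
        exact (Nat.lt_succ_sqrt n).le
      exact_mod_cast h2
    have h2 : (Nat.sqrt n : ℝ) ≤ 2 * j := by exact_mod_cast hk1
    linarith
  have hk0 : (0 : ℝ) < j := by linarith
  have hk0' : 0 < j := by exact_mod_cast hk0
  have he1 : (1 : ℝ) ≤ exp 13 := Real.one_le_exp (by norm_num)
  have he0 : (0 : ℝ) < exp 13 := Real.exp_pos _
  obtain ⟨w, hw⟩ : ∃ w : ℕ, w = ⌊(j : ℝ) / (4 * exp 13)⌋₊ := ⟨_, rfl⟩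
  have hw1 : (w : ℝ) ≤ j / (4 * exp 13) := by rw [hw]; exact Nat.floor_le (by positivity)
  have hw2 : (j : ℝ) / (4 * exp 13) < w + 1 := by rw [hw]; exact Nat.lt_floor_add_one _
  have hw3 : (w : ℝ) ≤ j / 4 := by
    refine hw1.trans ?_
    gcongr
    linarith
  have h2w : 2 * w ≤ j := by
    have : (2 : ℝ) * w ≤ j := by linarith
    exact_mod_cast this
  have hwt : w * j ≤ 2 * n := by
    have : (w : ℝ) * j ≤ 2 * n := by
      calc (w : ℝ) * j ≤ √(n : ℝ) * √(n : ℝ) := by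
            gcongr
            linarith
        _ = n := hs2
        _ ≤ 2 * n := by linarith
    exact_mod_cast this
  have h0 : (numCores t m : ℝ) ≤ numCores j m := by
    rw [hj]
    exact_mod_cast numCores_mul t l m
  have h1 : (j.choose w : ℝ) * numCores j m ≤ (numPartitions (m + w * j) : ℝ) := by
    exact_mod_cast cores_choose_le j m w hk0'
  have h1' := hreg (m + w * j) (by omega)
  have hmn' : (m : ℝ) ≤ n := by exact_mod_cast hmn
  have h1'' : x * (((m + w * j : ℕ) : ℝ) - n) ≤ w * 13 := by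
    push_cast
    have g1 : x * m ≤ x * n := by gcongr
    have g2 : x * j ≤ 13 := by
      calc x * j ≤ 13 / √(n : ℝ) * √(n : ℝ) := by gcongr
        _ = 13 := by field_simp
    have g3 : (w : ℝ) * (x * j) ≤ w * 13 := by gcongr
    nlinarith
  have h5 : (numPartitions (m + w * j) : ℝ) ≤ C * exp 13 ^ w * numPartitions n := by
    refine h1'.trans ?_
    rw [← Real.exp_nat_mul]
    have := Real.exp_le_exp.2 h1''
    gcongr
  have h2 : (2 * exp 13) ^ w ≤ (j.choose w : ℝ) := by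
    apply ge_pow (by positivity) h2w
    calc 2 * exp 13 * w ≤ 2 * exp 13 * (j / (4 * exp 13)) := by gcongr
      _ = j / 2 := by field_simp; norm_num
  have h3 : (2 * exp 13) ^ w * numCores j m ≤ C * exp 13 ^ w * numPartitions n :=
    (mul_le_mul_of_nonneg_right h2 (Nat.cast_nonneg _)).trans (h1.trans h5)
  have h4 : (numCores j m : ℝ) ≤ C * (1 / 2) ^ w * numPartitions n := by
    have h6 : 0 < (2 * exp 13) ^ w := by positivity
    have h7 : (numCores j m : ℝ) ≤ C * exp 13 ^ w * numPartitions n / (2 * exp 13) ^ w := by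
      rw [le_div_iff₀ h6]
      linarith
    refine h7.trans (le_of_eq ?_)
    rw [mul_pow, one_div_pow]
    have h8 : exp 13 ^ w ≠ 0 := by positivity
    field_simp
  have h6 : (1 / 2 : ℝ) ^ w ≤ exp (1 / 2) * exp (-(√(n : ℝ) / (32 * exp 13))) := by
    refine (half_pow w hw2).trans ?_
    have h9 : √(n : ℝ) / (32 * exp 13) ≤ j / (4 * exp 13) / 2 := by
      calc √(n : ℝ) / (32 * exp 13) = √(n : ℝ) / 4 / (4 * exp 13) / 2 := by
            field_simp; norm_num
        _ ≤ j / (4 * exp 13) / 2 := by gcongr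
    exact mul_le_mul_of_nonneg_left (Real.exp_le_exp.2 (neg_le_neg h9)) (Real.exp_pos _).le
  calc (numCores t m : ℝ) ≤ C * (1 / 2) ^ w * numPartitions n := h0.trans h4
    _ ≤ C * (exp (1 / 2) * exp (-(√(n : ℝ) / (32 * exp 13)))) * numPartitions n := by gcongr
    _ = _ := by ring

/-- **(X2)** -/
theorem fexp : S_X2 := by
  intro hF hG xs C n0 h ε hε hε'
  have hC := h.C1
  have hC0 : 0 < C := by linarith
  have he0 : (0 : ℝ) < exp 13 := Real.exp_pos _
  have he1 : (1 : ℝ) ≤ exp 13 := Real.one_le_exp (by norm_num)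
  have hh1 : (1 : ℝ) ≤ exp (1 / 2) := Real.one_le_exp (by norm_num)
  have hev : ∀ᶠ n : ℕ in atTop, Real.log n ≤ 1 / (2560 * exp 13) * (n : ℝ) ^ ε := by
    have h1 : (fun x : ℝ => Real.log x) =o[atTop] fun x : ℝ => x ^ ε :=
      isLittleO_log_rpow_atTop hε
    have h2 := (h1.bound (show (0 : ℝ) < 1 / (2560 * exp 13) by positivity))
    have h3 := (tendsto_natCast_atTop_atTop (R := ℝ)).eventually h2
    filter_upwards [h3, eventually_ge_atTop 1] with n hn hn1
    have hn1' : (1 : ℝ) ≤ n := by exact_mod_cast hn1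
    rw [Real.norm_of_nonneg (Real.log_nonneg hn1'), Real.norm_of_nonneg (by positivity)] at hn
    exact hn
  obtain ⟨n₂, hn₂⟩ := eventually_atTop.1 hev
  refine ⟨1 / (64 * exp 13), 16, C * exp (1 / 2), by positivity, by norm_num,
    one_le_mul_of_one_le_of_one_le hC hh1, max n0 (max n₂ 100), ?_⟩
  intro n j t hn hj hjn ht1 htn
  have e1 : n0 ≤ n := le_trans (le_max_left _ _) hn
  have e2 : n₂ ≤ n := le_trans (le_trans (le_max_left _ _) (le_max_right _ _)) hn
  have e3 : 100 ≤ n := le_trans (le_trans (le_max_right _ _) (le_max_right _ _)) hn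
  have hn100 : (100 : ℝ) ≤ n := by exact_mod_cast e3
  have hn0 : (0 : ℝ) < n := by linarith
  have hP : (0 : ℝ) < numPartitions n := by exact_mod_cast numPartitions_pos n
  have hs0 : 0 < √(n : ℝ) := Real.sqrt_pos.2 hn0
  have hreg : ∀ m : ℕ, m ≤ 3 * n → (numPartitions m : ℝ) ≤
      C * exp (xs n * ((m : ℝ) - n)) * numPartitions n := fun m hm => h.up n m e1 hm
  have hj1 : (1 : ℝ) ≤ j := by exact_mod_cast hj
  unfold qq
  split_ifs with hts
  · -- small `t`
    obtain ⟨m, hmn, hG'⟩ := hG (4 * j) t n ht1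
    have h0 : (fewCount (4 * j) t n : ℝ) ≤ (4 * n + 4 : ℝ) ^ (4 * (4 * j) + 4) * numCores t m := by
      exact_mod_cast hG'
    have h1 := cores_B hC0 (h.pos n e1) (h.hi n e1) hmn e3 hreg ht1 hts
    have h2 : (4 * n + 4 : ℝ) ^ (4 * (4 * j) + 4) ≤ exp (√(n : ℝ) / (64 * exp 13)) := by
      have g1 : (4 * n + 4 : ℝ) ≤ (n : ℝ) ^ 2 := by nlinarith
      have g2 : (n : ℝ) ^ 2 = exp (2 * Real.log n) := by
        rw [two_mul, Real.exp_add, Real.exp_log hn0]; ring
      calc (4 * n + 4 : ℝ) ^ (4 * (4 * j) + 4) ≤ ((n : ℝ) ^ 2) ^ (4 * (4 * j) + 4) :=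
            pow_le_pow_left₀ (by positivity) g1 _
        _ ≤ ((n : ℝ) ^ 2) ^ (20 * j) := by
            apply pow_le_pow_right₀ _ (by omega)
            nlinarith
        _ = exp (((20 * j : ℕ) : ℝ) * (2 * Real.log n)) := by
            rw [g2, ← Real.exp_nat_mul]
        _ ≤ exp (√(n : ℝ) / (64 * exp 13)) := by
            apply Real.exp_le_exp.2
            have g3 := hn₂ n e2
            have g4 : 0 ≤ Real.log n := Real.log_nonneg (by linarith)
            have g5 : (n : ℝ) ^ (1 / 2 - ε) * (n : ℝ) ^ ε = √(n : ℝ) := by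
              rw [← Real.rpow_add hn0, Real.sqrt_eq_rpow]
              congr 1; ring
            push_cast
            calc (20 * (j : ℝ)) * (2 * Real.log n)
                ≤ (20 * (n : ℝ) ^ (1 / 2 - ε)) * (2 * (1 / (2560 * exp 13) * (n : ℝ) ^ ε)) := by
                  gcongr
              _ = ((n : ℝ) ^ (1 / 2 - ε) * (n : ℝ) ^ ε) / (64 * exp 13) := by
                  field_simp; norm_num
              _ = √(n : ℝ) / (64 * exp 13) := by rw [g5]
    calc (fewCount (4 * j) t n : ℝ) ≤ (4 * n + 4 : ℝ) ^ (4 * (4 * j) + 4) * numCores t m := h0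
      _ ≤ exp (√(n : ℝ) / (64 * exp 13)) * (C * exp (1 / 2) *
          exp (-(√(n : ℝ) / (32 * exp 13))) * numPartitions n) := by gcongr
      _ = C * exp (1 / 2) * (exp (√(n : ℝ) / (64 * exp 13)) *
          exp (-(√(n : ℝ) / (32 * exp 13)))) * numPartitions n := by ring
      _ = C * exp (1 / 2) * exp (-(1 / (64 * exp 13) * √(n : ℝ))) * numPartitions n := by
          rw [← Real.exp_add]
          congr 3
          field_simp
          ring
      _ = C * exp (1 / 2) * 1 * exp (-(1 / (64 * exp 13) * √(n : ℝ))) * numPartitions n := by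
          ring
      _ ≤ _ := by
          gcongr
          exact one_le_pow₀ (by norm_num)
  · -- large `t`
    have h1 := few_A hF (j := j) hC0 (h.pos n e1) (by omega) (h.lo n e1) hreg ht1
    refine h1.trans ?_
    have h2 : (1 : ℝ) / (64 * exp 13) ≤ 1 / 20 := by
      apply one_div_le_one_div_of_le (by norm_num)
      linarith
    gcongr

end Pool.Agent.W5h11.TZ
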