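import Pool.Agent.W5h11.TZ.Iface6
import Pool.Agent.W5h11.TZ.FExp

/-! (Y0) partitions with few removable rim hooks, exponential bounds, larger range. -/

set_option autoImplicit false

namespace Pool.Agent.W5h11.TZ

open Finset Filter Topology Real Pool.Agent.H581R3.Core Pool.Agent.R721.PN

/-- **(Y0)** -/
theorem fexp2 : S_Y0 := by
  intro hF hG xs C n0 h
  have hC := h.C1
  have hC0 : 0 < C := by linarith
  have he0 : (0 : ℝ) < exp 13 := Real.exp_pos _
  have he1 : (1 : ℝ) ≤ exp 13 := Real.one_le_exp (by norm_num)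
  have hh1 : (1 : ℝ) ≤ exp (1 / 2) := Real.one_le_exp (by norm_num)
  obtain ⟨n₂, hn₂⟩ := eventually_atTop.1 (log_tendsto.eventually_ge_atTop (2560 * exp 13))
  refine ⟨1 / (64 * exp 13), 16, C * exp (1 / 2), by positivity, by norm_num,
    one_le_mul_of_one_le_of_one_le hC hh1, max n0 (max n₂ 100), ?_⟩
  intro n j t hn hj hjn ht1 htn
  have e1 : n0 ≤ n := le_trans (le_max_left _ _) hn
  have e2 : n₂ ≤ n := le_trans (le_trans (le_max_left _ _) (le_max_right _ _)) hn
  have e3 : 100 ≤ n := le_trans (le_trans (le_max_right _ _) (le_max_right _ _)) hn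
  have hn100 : (100 : ℝ) ≤ n := by exact_mod_cast e3
  have hn0 : (0 : ℝ) < n := by linarith
  have hP : (0 : ℝ) < numPartitions n := by exact_mod_cast numPartitions_pos n
  have hs0 : 0 < √(n : ℝ) := Real.sqrt_pos.2 hn0
  have hreg : ∀ m : ℕ, m ≤ 3 * n → (numPartitions m : ℝ) ≤
      C * exp (xs n * ((m : ℝ) - n)) * numPartitions n := fun m hm => h.up n m e1 hm
  have hj1 : (1 : ℝ) ≤ j := by exact_mod_cast hj
  have hL := hn₂ n e2
  have hL0 : 0 < Real.log n := lt_of_lt_of_le (by positivity) hL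
  unfold qq
  split_ifs with hts
  · -- small `t`
    obtain ⟨m, hmn, hG'⟩ := hG (4 * j) t n ht1
    have h0 : (fewCount (4 * j) t n : ℝ) ≤ (4 * n + 4 : ℝ) ^ (4 * (4 * j) + 4) * numCores t m := by
      exact_mod_cast hG'
    have h1 := cores_B hC0 (h.pos n e1) (h.hi n e1) hmn e3 hreg ht1 hts
    have h2 : (4 * n + 4 : ℝ) ^ (4 * (4 * j) + 4) ≤ exp (√(n : ℝ) / (64 * exp 13)) := by
      have g1 : (4 * n + 4 : ℝ) ≤ (n : ℝ) ^ 2 := by nlinarith
      have g2 : (n : ℝ) ^ 2 = exp (2 * Real.log n) := by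
        rw [two_mul, Real.exp_add, Real.exp_log hn0]; ring
      calc (4 * n + 4 : ℝ) ^ (4 * (4 * j) + 4) ≤ ((n : ℝ) ^ 2) ^ (4 * (4 * j) + 4) :=
            pow_le_pow_left₀ (by positivity) g1 _
        _ ≤ ((n : ℝ) ^ 2) ^ (20 * j) := by
            apply pow_le_pow_right₀ _ (by omega)
            nlinarith
        _ = exp (((20 * j : ℕ) : ℝ) * (2 * Real.log n)) := by
            rw [g2, ← Real.exp_nat_mul]
        _ ≤ exp (√(n : ℝ) / (64 * exp 13)) := by
            apply Real.exp_le_exp.2
            push_cast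
            calc (20 * (j : ℝ)) * (2 * Real.log n)
                ≤ (20 * (√(n : ℝ) / Real.log n ^ 2)) * (2 * Real.log n) := by gcongr
              _ = √(n : ℝ) * (40 / Real.log n) := by field_simp; norm_num
              _ ≤ √(n : ℝ) * (1 / (64 * exp 13)) := by
                  gcongr ?_ * ?_
                  rw [div_le_div_iff₀ hL0 (by positivity)]
                  linarith
              _ = √(n : ℝ) / (64 * exp 13) := by ring
    calc (fewCount (4 * j) t n : ℝ) ≤ (4 * n + 4 : ℝ) ^ (4 * (4 * j) + 4) * numCores t m := h0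
      _ ≤ exp (√(n : ℝ) / (64 * exp 13)) * (C * exp (1 / 2) *
          exp (-(√(n : ℝ) / (32 * exp 13))) * numPartitions n) := by gcongr
      _ = C * exp (1 / 2) * (exp (√(n : ℝ) / (64 * exp 13)) *
          exp (-(√(n : ℝ) / (32 * exp 13)))) * numPartitions n := by ring
      _ = C * exp (1 / 2) * exp (-(1 / (64 * exp 13) * √(n : ℝ))) * numPartitions n := by
          rw [← Real.exp_add]
          congr 3
          field_simp
          ring
      _ = C * exp (1 / 2) * 1 * exp (-(1 / (64 * exp 13) * √(n : ℝ))) * numPartitions n := by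
          ring
      _ ≤ _ := by
          gcongr
          exact one_le_pow₀ (by norm_num)
  · -- large `t`
    have h1 := few_A hF (j := j) hC0 (h.pos n e1) (by omega) (h.lo n e1) hreg ht1
    refine h1.trans ?_
    have h2 : (1 : ℝ) / (64 * exp 13) ≤ 1 / 20 := by
      apply one_div_le_one_div_of_le (by norm_num)
      linarith
    gcongr

end Pool.Agent.W5h11.TZ
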