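import Pool.Agent.W5h11.TZ.Iface

/-!
# There are not many partitions which are not `t`-cores (task T1)
-/

set_option autoImplicit false

namespace Pool.Agent.W5h11.TZ

open Finset Pool.Agent.H581R3.Core Pool.Agent.R721.PN

/-- A finite set of `k` natural numbers has sum at least `0 + 1 + … + (k - 1)`. -/
theorem sum_range_card_le (S : Finset ℕ) : ∑ i ∈ range S.card, i ≤ ∑ x ∈ S, x := by
  classical
  obtain ⟨k, hk⟩ : ∃ k, k = S.card := ⟨_, rfl⟩
  induction k generalizing S with
  | zero => rw [← hk]; simp
  | succ k ih =>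
    have hne : S.Nonempty := by
      rw [← Finset.card_pos]; omega
    have hm := S.max'_mem hne
    have hc : (S.erase (S.max' hne)).card = k := by
      rw [card_erase_of_mem hm]; omega
    have h1 := ih (S.erase (S.max' hne)) hc.symm
    have h2 : S.max' hne + ∑ x ∈ S.erase (S.max' hne), x = ∑ x ∈ S, x :=
      add_sum_erase S (fun x => x) hm
    have h3 : S.card ≤ S.max' hne + 1 := by
      have h4 : S ⊆ range (S.max' hne + 1) := by
        intro x hx
        have := S.le_max' x hx
        exact mem_range.mpr (by omega)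
      have h5 := card_le_card h4
      rwa [card_range] at h5
    rw [← hk, sum_range_succ]
    rw [hc] at h1
    omega

/-- The beads which can be moved up. -/
def addB (t : ℕ) (B : Finset ℕ) : Finset ℕ := B.filter fun a => a + t ∉ B

/-- The beads which can be moved down. -/
def remB (t : ℕ) (B : Finset ℕ) : Finset ℕ := B.filter fun c => t ≤ c ∧ c - t ∉ B

theorem addB_le (t : ℕ) (B : Finset ℕ) : (addB t B).card ≤ (remB t B).card + t := by
  classical
  have h1 : (addB t B).card + (B.filter fun a => a + t ∈ B).card = B.card := by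
    have := card_filter_add_card_filter_not (s := B) (fun a => a + t ∈ B)
    unfold addB
    omega
  have h2 : B ⊆ (range t ∪ remB t B) ∪ B.filter fun c => t ≤ c ∧ c - t ∈ B := by
    intro x hx
    rw [mem_union, mem_union, mem_range]
    unfold remB
    rw [mem_filter, mem_filter]
    by_cases h3 : x < t
    · exact Or.inl (Or.inl h3)
    · by_cases h4 : x - t ∈ B
      · exact Or.inr ⟨hx, by omega, h4⟩
      · exact Or.inl (Or.inr ⟨hx, by omega, h4⟩)
  have h3 : B.card ≤ t + (remB t B).card + (B.filter fun c => t ≤ c ∧ c - t ∈ B).card := by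
    refine (card_le_card h2).trans ((card_union_le _ _).trans ?_)
    have := card_union_le (range t) (remB t B)
    rw [card_range] at this
    omega
  have h4 : (B.filter fun c => t ≤ c ∧ c - t ∈ B).card ≤ (B.filter fun a => a + t ∈ B).card := by
    refine card_le_card_of_injOn (fun c => c - t) ?_ ?_
    · intro c hc
      rw [mem_coe, mem_filter] at hc
      rw [mem_coe, mem_filter]
      simp only
      rw [Nat.sub_add_cancel hc.2.1]
      exact ⟨hc.2.2, hc.1⟩
    · intro c hc d hd hcd
      rw [mem_coe, mem_filter] at hc hd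
      simp only at hcd
      omega
  omega

theorem remB_le {t m N : ℕ} {B : Finset ℕ} (hc : B.card = N)
    (hs : ∑ x ∈ B, x = m + ∑ i ∈ range N, i) : t * (remB t B).card ≤ m := by
  classical
  have hsub : remB t B ⊆ B := filter_subset _ _
  have hinj : Set.InjOn (fun c => c - t) (remB t B : Set ℕ) := by
    intro c hc d hd hcd
    unfold remB at hc hd
    rw [mem_coe, mem_filter] at hc hd
    simp only at hcd
    omega
  have hdisj : Disjoint (B \ remB t B) ((remB t B).image fun c => c - t) := by
    rw [Finset.disjoint_left]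
    intro z hz hz2
    obtain ⟨c, hc, rfl⟩ := mem_image.mp hz2
    unfold remB at hc
    rw [mem_filter] at hc
    exact hc.2.2 (mem_sdiff.mp hz).1
  have h1 := sum_range_card_le ((B \ remB t B) ∪ (remB t B).image fun c => c - t)
  rw [card_union_of_disjoint hdisj, card_sdiff_of_subset hsub, card_image_of_injOn hinj,
    Nat.sub_add_cancel (card_le_card hsub), hc, sum_union hdisj, sum_image hinj] at h1
  have h2 : ∑ x ∈ B \ remB t B, x + ∑ x ∈ remB t B, x = ∑ x ∈ B, x := sum_sdiff hsub
  have h3 : ∑ x ∈ remB t B, x = ∑ x ∈ remB t B, (x - t) + t * (remB t B).card := by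
    have h4 : ∑ x ∈ remB t B, x = ∑ x ∈ remB t B, ((x - t) + t) := by
      refine sum_congr rfl fun x hx => ?_
      unfold remB at hx
      rw [mem_filter] at hx
      omega
    rw [h4, sum_add_distrib, sum_const, smul_eq_mul, mul_comm t]
  omega

/-- A partition which is not a `t`-core has a bead which can be moved down. -/
theorem exists_rem {n N t : ℕ} {f : ℕ → ℕ} (hf : IsPartition n f) (hN : n ≤ N)
    (hc : ¬ IsCore t f) : ∃ b, t ≤ b ∧ b ∈ beads N f ∧ b - t ∉ beads N f := by
  classical
  unfold IsCore at hc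
  push Not at hc
  obtain ⟨i, j, hj1, hj2, k, hk⟩ := hc
  have hin : i < n := by
    by_contra h
    rw [hf.2.1 i (by omega)] at hj2
    omega
  -- the column length
  have hex : ∃ s, f s < j := ⟨n, by rw [hf.2.1 n le_rfl]; omega⟩
  obtain ⟨c, hc1, hc2⟩ : ∃ c, f c < j ∧ ∀ s, s < c → j ≤ f s :=
    ⟨Nat.find hex, Nat.find_spec hex, fun s hs => by
      have := Nat.find_min hex hs
      omega⟩
  have hcn : c ≤ n := by
    by_contra h
    have := hc2 n (by omega)
    rw [hf.2.1 n le_rfl] at this
    omega
  have hc3 : ∀ s, c ≤ s → f s < j := fun s hs => lt_of_le_of_lt (hf.1 hs) hc1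
  have hic : i < c := by
    by_contra h
    have := hc3 i (by omega)
    omega
  have hset : {s : ℕ | i ≤ s ∧ j ≤ f s} = (Finset.Ico i c : Finset ℕ) := by
    ext s
    simp only [Set.mem_ofPred_eq, coe_Ico, Set.mem_Ico]
    constructor
    · rintro ⟨h1, h2⟩
      refine ⟨h1, ?_⟩
      by_contra h3
      have := hc3 s (by omega)
      omega
    · rintro ⟨h1, h2⟩
      exact ⟨h1, hc2 s h2⟩
  have hhook : hook f i j = f i - j + (c - i) := by
    unfold hook
    rw [hset, Set.ncard_coe_finset, Nat.card_Ico]
  obtain ⟨g, hg⟩ : ∃ g, g = N - 1 + j - c := ⟨_, rfl⟩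
  have hbg : beta N f i = g + t * k := by
    rw [← hk, hhook]
    unfold beta
    omega
  have hgn : g ∉ beads N f := by
    unfold beads
    rw [mem_image]
    rintro ⟨s, hs, hs2⟩
    rw [mem_range] at hs
    unfold beta at hs2
    by_cases h : s < c
    · have := hc2 s h
      omega
    · have := hc3 s (by omega)
      omega
  have hbm : beta N f i ∈ beads N f := by
    unfold beads
    exact mem_image_of_mem _ (mem_range.mpr (by omega))
  -- go down
  have hex2 : ∃ l, g + t * l ∈ beads N f := ⟨k, by rw [← hbg]; exact hbm⟩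
  obtain ⟨l, hl1, hl2⟩ : ∃ l, g + t * l ∈ beads N f ∧ ∀ m, m < l → g + t * m ∉ beads N f :=
    ⟨Nat.find hex2, Nat.find_spec hex2, fun m hm => Nat.find_min hex2 hm⟩
  have hl0 : l ≠ 0 := by
    rintro rfl
    rw [Nat.mul_zero, Nat.add_zero] at hl1
    exact hgn hl1
  obtain ⟨m, rfl⟩ : ∃ m, l = m + 1 := ⟨l - 1, by omega⟩
  refine ⟨g + t * (m + 1), by rw [Nat.mul_succ]; omega, hl1, ?_⟩
  have h1 : g + t * (m + 1) - t = g + t * m := by rw [Nat.mul_succ]; omega
  rw [h1]
  exact hl2 m (by omega)

theorem nc : S_NC := by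
  classical
  intro n t ht htn hnt
  obtain ⟨N, hN⟩ : ∃ N, N = n := ⟨_, rfl⟩
  have hfinn := finite_partitions n
  let P : Finset (ℕ → ℕ) := (finite_partitions (n - t)).toFinset
  have hP : P.card = numPartitions (n - t) := by
    unfold numPartitions
    rw [Set.ncard_eq_toFinset_card _ (finite_partitions (n - t))]
  have hPm : ∀ g, g ∈ P ↔ IsPartition (n - t) g := fun g => by
    rw [Set.Finite.mem_toFinset]
    rfl
  let T : Finset (Σ _ : ℕ → ℕ, ℕ) := P.sigma fun g => addB t (beads N g)
  have hT : T.card ≤ 2 * t * numPartitions (n - t) := by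
    change (P.sigma fun g => addB t (beads N g)).card ≤ _
    rw [card_sigma, ← hP]
    calc ∑ g ∈ P, (addB t (beads N g)).card ≤ ∑ _g ∈ P, 2 * t := by
          refine sum_le_sum fun g hg => ?_
          have hg' := (hPm g).mp hg
          have h1 := addB_le t (beads N g)
          have h2 : t * (remB t (beads N g)).card ≤ n - t :=
            remB_le (card_beads hg'.1) (sum_beads hg' (by omega))
          have h3 : (remB t (beads N g)).card ≤ t := by
            by_contra h
            push Not at h
            have h4 : t * (t + 1) ≤ t * (remB t (beads N g)).card := Nat.mul_le_mul_left _ h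
            have h5 : t * (t + 1) = t ^ 2 + t := by ring
            omega
          omega
      _ = 2 * t * P.card := by rw [sum_const, smul_eq_mul, mul_comm]
  let H : (Σ _ : ℕ → ℕ, ℕ) → Finset ℕ := fun x => insert (x.2 + t) ((beads N x.1).erase x.2)
  let NCs : Set (ℕ → ℕ) := {f | IsPartition n f ∧ ¬ IsCore t f}
  have hNCfin : NCs.Finite := hfinn.subset fun f hf => hf.1
  have hinj : Set.InjOn (beads N) NCs := fun f hf g hg h =>
    beads_inj (by omega) hf.1 hg.1 h
  have hsub : beads N '' NCs ⊆ H '' (T : Set (Σ _ : ℕ → ℕ, ℕ)) := by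
    rintro _ ⟨f, ⟨hf, hfc⟩, rfl⟩
    obtain ⟨b, hb1, hb2, hb3⟩ := exists_rem hf (show n ≤ N by omega) hfc
    have hne : b - t ≠ b := by omega
    have h1 : b - t ∉ (beads N f).erase b := fun h => hb3 (mem_of_mem_erase h)
    obtain ⟨g, hg1, hg2⟩ := exists_partition (m := n - t) (N := N)
      (insert (b - t) ((beads N f).erase b))
      (by
        rw [card_insert_of_notMem h1, card_erase_add_one hb2]
        exact card_beads hf.1)
      (by
        rw [sum_insert h1]
        have h5 : b + ∑ x ∈ (beads N f).erase b, x = ∑ x ∈ beads N f, x :=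
          add_sum_erase (beads N f) (fun x => x) hb2
        have h6 := sum_beads hf (show n ≤ N by omega)
        omega)
    refine ⟨⟨g, b - t⟩, ?_, ?_⟩
    · rw [mem_coe]
      change (⟨g, b - t⟩ : Σ _ : ℕ → ℕ, ℕ) ∈ P.sigma fun g => addB t (beads N g)
      rw [mem_sigma]
      refine ⟨(hPm g).mpr hg1, ?_⟩
      unfold addB
      simp only
      rw [mem_filter, hg2, Nat.sub_add_cancel hb1]
      refine ⟨mem_insert_self _ _, ?_⟩
      rw [mem_insert, mem_erase]
      rintro (h | h)
      · exact hne h.symm
      · exact h.1 rfl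
    · change insert (b - t + t) ((beads N g).erase (b - t)) = beads N f
      rw [hg2, erase_insert h1, Nat.sub_add_cancel hb1, insert_erase hb2]
  have hNC : NCs.ncard ≤ 2 * t * numPartitions (n - t) := by
    rw [← hinj.ncard_image]
    refine (Set.ncard_le_ncard hsub (T.finite_toSet.image _)).trans ?_
    refine (Set.ncard_image_le T.finite_toSet).trans ?_
    rw [Set.ncard_coe_finset]
    exact hT
  have hunion : {f : ℕ → ℕ | IsPartition n f} ⊆
      {f | IsPartition n f ∧ IsCore t f} ∪ NCs := by
    intro f hf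
    by_cases h : IsCore t f
    · exact Or.inl ⟨hf, h⟩
    · exact Or.inr ⟨hf, h⟩
  have hcf : ({f | IsPartition n f ∧ IsCore t f} : Set (ℕ → ℕ)).Finite :=
    hfinn.subset fun f hf => hf.1
  calc numPartitions n = {f : ℕ → ℕ | IsPartition n f}.ncard := rfl
    _ ≤ ({f | IsPartition n f ∧ IsCore t f} ∪ NCs).ncard :=
        Set.ncard_le_ncard hunion (hcf.union hNCfin)
    _ ≤ numCores t n + NCs.ncard := Set.ncard_union_le _ _
    _ ≤ numCores t n + 2 * t * numPartitions (n - t) := Nat.add_le_add_left hNC _

end Pool.Agent.W5h11.TZ
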