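import Pool.Agent.W5h11.TZ.Iface2
import Pool.Agent.W5h11.TZ.NC

/-!
# Factorial moments of the number of removable `t`-hooks and Bonferroni inequalities (task Q2)
-/

set_option autoImplicit false

namespace Pool.Agent.W5h11.TZ

open Finset Pool.Agent.H581R3.Core Pool.Agent.R721.PN

/-- Move the beads of `J` down. -/
def dn (t : ℕ) (B J : Finset ℕ) : Finset ℕ := (B \ J) ∪ J.image fun c => c - t

/-- Move the beads of `A` up. -/
def up (t : ℕ) (B A : Finset ℕ) : Finset ℕ := (B \ A) ∪ A.image fun a => a + t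

theorem mem_dn {t : ℕ} {B J : Finset ℕ} {z : ℕ} :
    z ∈ dn t B J ↔ (z ∈ B ∧ z ∉ J) ∨ ∃ c ∈ J, c - t = z := by
  unfold dn
  rw [mem_union, mem_sdiff, mem_image]

theorem mem_up {t : ℕ} {B A : Finset ℕ} {z : ℕ} :
    z ∈ up t B A ↔ (z ∈ B ∧ z ∉ A) ∨ ∃ a ∈ A, a + t = z := by
  unfold up
  rw [mem_union, mem_sdiff, mem_image]

theorem mem_remB {t : ℕ} {B : Finset ℕ} {c : ℕ} : c ∈ remB t B ↔ c ∈ B ∧ t ≤ c ∧ c - t ∉ B := by
  unfold remB
  rw [mem_filter]

theorem mem_addB {t : ℕ} {B : Finset ℕ} {a : ℕ} : a ∈ addB t B ↔ a ∈ B ∧ a + t ∉ B := by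
  unfold addB
  rw [mem_filter]

section dn

variable {t : ℕ} {B J : Finset ℕ}

theorem dn_inj (hJ : J ⊆ remB t B) : Set.InjOn (fun c => c - t) (J : Set ℕ) := by
  intro c hc d hd hcd
  have h1 := (mem_remB.mp (hJ hc)).2.1
  have h2 := (mem_remB.mp (hJ hd)).2.1
  simp only at hcd
  omega

theorem dn_disj (hJ : J ⊆ remB t B) : Disjoint (B \ J) (J.image fun c => c - t) := by
  rw [Finset.disjoint_left]
  intro z hz hz2
  obtain ⟨c, hc, rfl⟩ := mem_image.mp hz2
  exact (mem_remB.mp (hJ hc)).2.2 (mem_sdiff.mp hz).1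

theorem dn_sub (hJ : J ⊆ remB t B) : J ⊆ B := fun _ hc => (mem_remB.mp (hJ hc)).1

theorem dn_card (hJ : J ⊆ remB t B) : (dn t B J).card = B.card := by
  unfold dn
  rw [card_union_of_disjoint (dn_disj hJ), card_sdiff_of_subset (dn_sub hJ),
    card_image_of_injOn (dn_inj hJ), Nat.sub_add_cancel (card_le_card (dn_sub hJ))]

theorem dn_sum (hJ : J ⊆ remB t B) : ∑ x ∈ dn t B J, x + J.card * t = ∑ x ∈ B, x := by
  unfold dn
  rw [sum_union (dn_disj hJ), sum_image (dn_inj hJ)]
  have h2 : ∑ x ∈ B \ J, x + ∑ x ∈ J, x = ∑ x ∈ B, x := sum_sdiff (dn_sub hJ)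
  have h3 : ∑ x ∈ J, x = ∑ x ∈ J, (x - t) + J.card * t := by
    have h4 : ∑ x ∈ J, x = ∑ x ∈ J, ((x - t) + t) := by
      refine sum_congr rfl fun x hx => ?_
      have := (mem_remB.mp (hJ hx)).2.1
      omega
    rw [h4, sum_add_distrib, sum_const, smul_eq_mul]
  omega

theorem dn_add (hJ : J ⊆ remB t B) : (J.image fun c => c - t) ⊆ addB t (dn t B J) := by
  intro a ha
  rw [mem_addB, mem_dn, mem_dn]
  obtain ⟨c, hc, rfl⟩ := mem_image.mp ha
  have h1 := mem_remB.mp (hJ hc)
  refine ⟨Or.inr ⟨c, hc, rfl⟩, ?_⟩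
  rw [Nat.sub_add_cancel h1.2.1]
  rintro (h | ⟨d, hd, h⟩)
  · exact h.2 hc
  · have h2 := mem_remB.mp (hJ hd)
    rw [h] at h2
    exact h2.2.2 h1.1

theorem dn_image (hJ : J ⊆ remB t B) : (J.image fun c => c - t).image (fun a => a + t) = J := by
  rw [image_image]
  ext z
  rw [mem_image]
  constructor
  · rintro ⟨c, hc, rfl⟩
    have h1 := mem_remB.mp (hJ hc)
    simp only [Function.comp_apply]
    rwa [Nat.sub_add_cancel h1.2.1]
  · intro hz
    have h1 := mem_remB.mp (hJ hz)
    exact ⟨z, hz, by simp only [Function.comp_apply]; exact Nat.sub_add_cancel h1.2.1⟩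

theorem up_dn (hJ : J ⊆ remB t B) : up t (dn t B J) (J.image fun c => c - t) = B := by
  unfold up
  rw [dn_image hJ]
  unfold dn
  rw [union_sdiff_cancel_right (dn_disj hJ), sdiff_union_of_subset (dn_sub hJ)]

end dn

section up

variable {t : ℕ} {B A : Finset ℕ}

theorem up_inj : Set.InjOn (fun a => a + t) (A : Set ℕ) := by
  intro c _ d _ hcd
  simp only at hcd
  omega

theorem up_disj (hA : A ⊆ addB t B) : Disjoint (B \ A) (A.image fun a => a + t) := by
  rw [Finset.disjoint_left]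
  intro z hz hz2
  obtain ⟨c, hc, rfl⟩ := mem_image.mp hz2
  exact (mem_addB.mp (hA hc)).2 (mem_sdiff.mp hz).1

theorem up_sub (hA : A ⊆ addB t B) : A ⊆ B := fun _ hc => (mem_addB.mp (hA hc)).1

theorem up_card (hA : A ⊆ addB t B) : (up t B A).card = B.card := by
  unfold up
  rw [card_union_of_disjoint (up_disj hA), card_sdiff_of_subset (up_sub hA),
    card_image_of_injOn up_inj, Nat.sub_add_cancel (card_le_card (up_sub hA))]

theorem up_sum (hA : A ⊆ addB t B) : ∑ x ∈ up t B A, x = ∑ x ∈ B, x + A.card * t := by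
  unfold up
  rw [sum_union (up_disj hA), sum_image up_inj, sum_add_distrib, sum_const, smul_eq_mul]
  have h2 : ∑ x ∈ B \ A, x + ∑ x ∈ A, x = ∑ x ∈ B, x := sum_sdiff (up_sub hA)
  omega

theorem up_rem (hA : A ⊆ addB t B) : (A.image fun a => a + t) ⊆ remB t (up t B A) := by
  intro c hc
  rw [mem_remB, mem_up, mem_up]
  obtain ⟨a, ha, rfl⟩ := mem_image.mp hc
  have h1 := mem_addB.mp (hA ha)
  refine ⟨Or.inr ⟨a, ha, rfl⟩, by omega, ?_⟩
  rw [Nat.add_sub_cancel]
  rintro (h | ⟨d, hd, h⟩)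
  · exact h.2 ha
  · have h2 := mem_addB.mp (hA hd)
    rw [h] at h2
    exact h2.2 h1.1

theorem up_image : (A.image fun a => a + t).image (fun c => c - t) = A := by
  rw [image_image]
  ext z
  rw [mem_image]
  constructor
  · rintro ⟨c, hc, rfl⟩
    simp only [Function.comp_apply]
    rwa [Nat.add_sub_cancel]
  · intro hz
    exact ⟨z, hz, by simp only [Function.comp_apply]; exact Nat.add_sub_cancel _ _⟩

theorem dn_up (hA : A ⊆ addB t B) : dn t (up t B A) (A.image fun a => a + t) = B := by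
  unfold dn
  rw [up_image]
  unfold up
  rw [union_sdiff_cancel_right (up_disj hA), sdiff_union_of_subset (up_sub hA)]

end up

/-- The bead sets of the partitions of `m`. -/
noncomputable def BS (N m : ℕ) : Finset (Finset ℕ) :=
  (finite_partitions m).toFinset.image (beads N)

theorem mem_BS {N m : ℕ} (hm : m ≤ N) {B : Finset ℕ} :
    B ∈ BS N m ↔ B.card = N ∧ ∑ x ∈ B, x = m + ∑ i ∈ range N, i := by
  unfold BS
  rw [mem_image]
  constructor
  · rintro ⟨f, hf, rfl⟩
    rw [Set.Finite.mem_toFinset] at hf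
    exact ⟨card_beads hf.1, sum_beads hf hm⟩
  · rintro ⟨h1, h2⟩
    obtain ⟨g, hg1, hg2⟩ := exists_partition B h1 h2
    exact ⟨g, (Set.Finite.mem_toFinset _).mpr hg1, hg2⟩

theorem sum_BS {N m : ℕ} (hm : m ≤ N) {M : Type} [AddCommMonoid M] (F : Finset ℕ → M) :
    ∑ B ∈ BS N m, F B = ∑ f ∈ (finite_partitions m).toFinset, F (beads N f) := by
  unfold BS
  rw [sum_image]
  intro f hf g hg h
  rw [mem_coe, Set.Finite.mem_toFinset] at hf hg
  exact beads_inj hm hf hg h

theorem card_BS {N m : ℕ} (hm : m ≤ N) : (BS N m).card = numPartitions m := by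
  have h1 := sum_BS hm (fun _ => (1 : ℕ))
  rw [sum_const, smul_eq_mul, mul_one, sum_const, smul_eq_mul, mul_one] at h1
  rw [h1]
  unfold numPartitions
  rw [Set.ncard_eq_toFinset_card _ (finite_partitions m)]

theorem moment_eq {N n t i : ℕ} (hN : n ≤ N) (hi : i * t ≤ n) :
    ∑ B ∈ BS N n, (remB t B).card.choose i =
      ∑ B ∈ BS N (n - i * t), (addB t B).card.choose i := by
  classical
  have h1 : ∑ B ∈ BS N n, (remB t B).card.choose i =
      ((BS N n).sigma fun B => (remB t B).powersetCard i).card := by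
    rw [card_sigma]
    exact sum_congr rfl fun B _ => (card_powersetCard _ _).symm
  have h2 : ∑ B ∈ BS N (n - i * t), (addB t B).card.choose i =
      ((BS N (n - i * t)).sigma fun B => (addB t B).powersetCard i).card := by
    rw [card_sigma]
    exact sum_congr rfl fun B _ => (card_powersetCard _ _).symm
  rw [h1, h2]
  refine card_nbij' (fun x => ⟨dn t x.1 x.2, x.2.image fun c => c - t⟩)
    (fun x => ⟨up t x.1 x.2, x.2.image fun a => a + t⟩) ?_ ?_ ?_ ?_
  · rintro ⟨B, J⟩ hx
    rw [mem_coe, mem_sigma, mem_powersetCard, mem_BS hN] at hx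
    simp only at hx
    obtain ⟨⟨a1, a2⟩, a3, a4⟩ := hx
    rw [mem_coe, mem_sigma, mem_powersetCard, mem_BS (by omega)]
    simp only
    refine ⟨⟨by rw [dn_card a3, a1], ?_⟩, dn_add a3, ?_⟩
    · have := dn_sum a3
      rw [a4] at this
      omega
    · rw [card_image_of_injOn (dn_inj a3), a4]
  · rintro ⟨B, A⟩ hx
    rw [mem_coe, mem_sigma, mem_powersetCard, mem_BS (by omega)] at hx
    simp only at hx
    obtain ⟨⟨a1, a2⟩, a3, a4⟩ := hx
    rw [mem_coe, mem_sigma, mem_powersetCard, mem_BS hN]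
    simp only
    refine ⟨⟨by rw [up_card a3, a1], ?_⟩, up_rem a3, ?_⟩
    · have := up_sum a3
      rw [a4] at this
      omega
    · rw [card_image_of_injOn up_inj, a4]
  · rintro ⟨B, J⟩ hx
    rw [mem_coe, mem_sigma, mem_powersetCard] at hx
    simp only
    rw [up_dn hx.2.1, dn_image hx.2.1]
  · rintro ⟨B, A⟩ hx
    rw [mem_coe, mem_sigma, mem_powersetCard] at hx
    simp only
    rw [dn_up hx.2.1, up_image]

/-- There are at least `t` beads which can be moved up. -/
theorem le_addB {t : ℕ} {B : Finset ℕ} (hB : ∀ r, r < t → r ∈ B) : t ≤ (addB t B).card := by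
  classical
  have h1 : (addB t B).card + (B.filter fun a => a + t ∈ B).card = B.card := by
    have := card_filter_add_card_filter_not (s := B) (fun a => a + t ∈ B)
    unfold addB
    omega
  have h2 : (B.filter fun a => a + t ∈ B).card ≤ (B \ range t).card := by
    refine card_le_card_of_injOn (fun a => a + t) ?_ up_inj
    intro a ha
    rw [mem_coe, mem_filter] at ha
    rw [mem_coe, mem_sdiff, mem_range]
    refine ⟨ha.2, ?_⟩
    simp only
    omega
  have h3 : range t ⊆ B := fun r hr => hB r (mem_range.mp hr)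
  rw [card_sdiff_of_subset h3, card_range] at h2
  have h4 := card_le_card h3
  rw [card_range] at h4
  omega

theorem small_mem {N m t : ℕ} {f : ℕ → ℕ} (hf : IsPartition m f) (hN : m + t ≤ N) {r : ℕ}
    (hr : r < t) : r ∈ beads N f := by
  unfold beads
  rw [mem_image]
  refine ⟨N - 1 - r, mem_range.mpr (by omega), ?_⟩
  unfold beta
  rw [hf.2.1 _ (by omega)]
  omega

theorem core_iff {N n t : ℕ} {f : ℕ → ℕ} (hf : IsPartition n f) (hN : n ≤ N) :
    IsCore t f ↔ (remB t (beads N f)).card = 0 := by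
  rw [card_eq_zero]
  constructor
  · intro hc
    rw [eq_empty_iff_forall_notMem]
    intro c hc2
    obtain ⟨h1, h2, h3⟩ := mem_remB.mp hc2
    exact h3 (push_down hf hN hc h1 h2)
  · intro h
    by_contra hc
    obtain ⟨b, h1, h2, h3⟩ := exists_rem hf hN hc
    have : b ∈ remB t (beads N f) := mem_remB.mpr ⟨h2, h1, h3⟩
    rw [h] at this
    exact notMem_empty _ this

theorem bonf (X k : ℕ) :
    ((if X = 0 then 1 else 0 : ℤ) ≤ ∑ i ∈ range (2 * k + 1), (-1) ^ i * (X.choose i : ℤ)) ∧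
    (∑ i ∈ range (2 * k + 2), (-1) ^ i * (X.choose i : ℤ)) ≤ (if X = 0 then 1 else 0 : ℤ) := by
  rcases Nat.eq_zero_or_pos X with rfl | hX
  · rw [if_pos rfl]
    have h : ∀ m : ℕ, ∑ i ∈ range (m + 1), (-1) ^ i * ((0 : ℕ).choose i : ℤ) = 1 := by
      intro m
      rw [sum_range_succ']
      simp
    exact ⟨(h (2 * k)).ge, (h (2 * k + 1)).le⟩
  · rw [if_neg (by omega)]
    obtain ⟨Y, rfl⟩ : ∃ Y, X = Y + 1 := ⟨X - 1, by omega⟩
    have h : ∀ m : ℕ, ∑ i ∈ range (m + 1), (-1) ^ i * ((Y + 1).choose i : ℤ) =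
        (-1) ^ m * (Y.choose m : ℤ) := fun m => Int.alternating_sum_range_choose_eq_choose
    refine ⟨?_, ?_⟩
    · rw [h (2 * k), pow_mul]
      simp
    · rw [show 2 * k + 2 = (2 * k + 1) + 1 by ring, h (2 * k + 1), pow_succ, pow_mul]
      simp

/-- Task Q2. -/
theorem mom : S_MOM := by
  classical
  intro n t ht htn
  obtain ⟨N, hN⟩ : ∃ N, N = n + t := ⟨_, rfl⟩
  refine ⟨fun i => ∑ B ∈ BS N n, (remB t B).card.choose i, ?_, ?_, ?_⟩
  · simp only [Nat.choose_zero_right]
    rw [sum_const, smul_eq_mul, mul_one, card_BS (by omega)]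
  · intro i hi
    simp only
    rw [moment_eq (by omega) hi]
    have hb : ∀ B ∈ BS N (n - i * t), t ≤ (addB t B).card ∧ (addB t B).card ≤ t + n / t := by
      intro B hB
      refine ⟨?_, ?_⟩
      · unfold BS at hB
        obtain ⟨f, hf, rfl⟩ := mem_image.mp hB
        rw [Set.Finite.mem_toFinset] at hf
        exact le_addB fun r hr => small_mem hf (by omega) hr
      · obtain ⟨h1, h2⟩ := (mem_BS (by omega)).mp hB
        have h3 := addB_le t B
        have h4 := remB_le (t := t) h1 h2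
        have h5 : (remB t B).card ≤ n / t := by
          rw [Nat.le_div_iff_mul_le (by omega), mul_comm]
          omega
        omega
    rw [← card_BS (N := N) (m := n - i * t) (by omega)]
    constructor
    · calc t.choose i * (BS N (n - i * t)).card = ∑ _B ∈ BS N (n - i * t), t.choose i := by
            rw [sum_const, smul_eq_mul, mul_comm]
        _ ≤ _ := sum_le_sum fun B hB => Nat.choose_le_choose i (hb B hB).1
    · calc _ ≤ ∑ _B ∈ BS N (n - i * t), (t + n / t).choose i :=
            sum_le_sum fun B hB => Nat.choose_le_choose i (hb B hB).2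
        _ = (t + n / t).choose i * (BS N (n - i * t)).card := by
            rw [sum_const, smul_eq_mul, mul_comm]
  · intro k
    have hcores : (numCores t n : ℤ) =
        ∑ B ∈ BS N n, (if (remB t B).card = 0 then 1 else 0 : ℤ) := by
      rw [sum_BS (by omega), sum_boole]
      have h1 : {f : ℕ → ℕ | IsPartition n f ∧ IsCore t f} =
          (((finite_partitions n).toFinset.filter
            fun f => (remB t (beads N f)).card = 0 : Finset (ℕ → ℕ)) : Set (ℕ → ℕ)) := by
        ext f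
        rw [mem_coe, mem_filter, Set.Finite.mem_toFinset]
        constructor
        · rintro ⟨hf, hc⟩
          exact ⟨hf, (core_iff hf (by omega)).mp hc⟩
        · rintro ⟨hf, hc⟩
          exact ⟨hf, (core_iff hf (by omega)).mpr hc⟩
      unfold numCores
      rw [h1, Set.ncard_coe_finset]
    have hswap : ∀ m : ℕ, ∑ i ∈ range m, (-1) ^ i *
        ((∑ B ∈ BS N n, (remB t B).card.choose i : ℕ) : ℤ) =
        ∑ B ∈ BS N n, ∑ i ∈ range m, (-1) ^ i * ((remB t B).card.choose i : ℤ) := by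
      intro m
      rw [sum_comm]
      refine sum_congr rfl fun i _ => ?_
      push_cast
      rw [mul_sum]
    rw [hcores, hswap, hswap]
    exact ⟨sum_le_sum fun B _ => (bonf _ k).1, sum_le_sum fun B _ => (bonf _ k).2⟩

end Pool.Agent.W5h11.TZ
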