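import Pool.Agent.W5h11.TZ.Iface4
import Pool.Agent.W5h11.TZ.Mom

/-!
# Partitions with few removable `t`-hooks (task V2)
-/

set_option autoImplicit false

namespace Pool.Agent.W5h11.TZ

open Finset Pool.Agent.H581R3.Core Pool.Agent.R721.PN

/-- The removable beads after moving the beads of `A` up are the moved beads, or were removable
before. -/
theorem remB_up_sub {t : ℕ} {B A : Finset ℕ} (hA : A ⊆ addB t B) :
    remB t (up t B A) ⊆ (A.image fun a => a + t) ∪ remB t B := by
  intro c hc
  rw [mem_remB, mem_up, mem_up] at hc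
  rw [mem_union, mem_image, mem_remB]
  obtain ⟨h1, h2, h3⟩ := hc
  rcases h1 with h1 | h1
  · refine Or.inr ⟨h1.1, h2, fun h4 => ?_⟩
    by_cases h5 : c - t ∈ A
    · have h6 := (mem_addB.mp (hA h5)).2
      rw [Nat.sub_add_cancel h2] at h6
      exact h6 h1.1
    · exact h3 (Or.inl ⟨h4, h5⟩)
  · exact Or.inl h1

theorem remB_up_card {t : ℕ} {B A : Finset ℕ} (hA : A ⊆ addB t B) :
    (remB t (up t B A)).card ≤ (remB t B).card + A.card := by
  have h1 := card_le_card (remB_up_sub hA)
  have h2 := card_union_le (A.image fun a => a + t) (remB t B)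
  have h3 : (A.image fun a => a + t).card ≤ A.card := card_image_le
  omega

/-- Task V2. -/
theorem few : S_FEW := by
  classical
  intro K t n w ht
  obtain ⟨N, hN⟩ : ∃ N, N = n + w * t + t := ⟨_, rfl⟩
  have hF : fewCount K t n ≤ ((BS N n).filter fun B => (remB t B).card ≤ K).card := by
    unfold fewCount
    rw [← Set.ncard_coe_finset]
    refine Set.ncard_le_ncard_of_injOn (beads N) ?_ ?_ (Finset.finite_toSet _)
    · rintro f ⟨hf1, hf2⟩
      rw [mem_coe, mem_filter]
      refine ⟨?_, hf2 N (by omega)⟩
      unfold BS
      rw [mem_image]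
      exact ⟨f, (Set.Finite.mem_toFinset _).mpr hf1, rfl⟩
    · rintro f ⟨hf1, _⟩ g ⟨hg1, _⟩ h
      exact beads_inj (by omega) hf1 hg1 h
  have hb : ∀ B ∈ (BS N n).filter (fun B => (remB t B).card ≤ K), t ≤ (addB t B).card := by
    intro B hB
    rw [mem_filter] at hB
    have hB1 := hB.1
    unfold BS at hB1
    obtain ⟨f, hf, rfl⟩ := mem_image.mp hB1
    rw [Set.Finite.mem_toFinset] at hf
    exact le_addB fun r hr => small_mem hf (by omega) hr
  have h1 : t.choose w * ((BS N n).filter fun B => (remB t B).card ≤ K).card ≤
      (((BS N n).filter fun B => (remB t B).card ≤ K).sigma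
        fun B => (addB t B).powersetCard w).card := by
    rw [card_sigma]
    calc t.choose w * ((BS N n).filter fun B => (remB t B).card ≤ K).card
        = ∑ _B ∈ (BS N n).filter (fun B => (remB t B).card ≤ K), t.choose w := by
          rw [sum_const, smul_eq_mul, mul_comm]
      _ ≤ _ := sum_le_sum fun B hB => by
          rw [card_powersetCard]
          exact Nat.choose_le_choose w (hb B hB)
  have h2 : (((BS N n).filter fun B => (remB t B).card ≤ K).sigma
        fun B => (addB t B).powersetCard w).card ≤
      (((BS N (n + w * t)).filter fun B => (remB t B).card ≤ K + w).sigma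
        fun B => (remB t B).powersetCard w).card := by
    refine card_le_card_of_injOn
      (fun x => (⟨up t x.1 x.2, x.2.image fun a => a + t⟩ : Σ _ : Finset ℕ, Finset ℕ)) ?_ ?_
    · rintro ⟨B, A⟩ hx
      rw [mem_coe, mem_sigma, mem_powersetCard, mem_filter, mem_BS (by omega)] at hx
      simp only at hx
      obtain ⟨⟨⟨a1, a2⟩, a5⟩, a3, a4⟩ := hx
      rw [mem_coe, mem_sigma, mem_powersetCard, mem_filter, mem_BS (by omega)]
      simp only
      refine ⟨⟨⟨by rw [up_card a3, a1], ?_⟩, ?_⟩, up_rem a3, ?_⟩
      · have := up_sum a3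
        rw [a4] at this
        omega
      · have := remB_up_card a3
        omega
      · rw [card_image_of_injOn up_inj, a4]
    · rintro ⟨B, A⟩ hx ⟨B', A'⟩ hx' h
      rw [mem_coe, mem_sigma, mem_powersetCard] at hx hx'
      simp only at hx hx'
      simp only [Sigma.mk.injEq, heq_eq_eq] at h
      have e1 : A = A' := by
        rw [← up_image (t := t) (A := A), h.2, up_image]
      have e2 : B = B' := by
        rw [← dn_up hx.2.1, ← dn_up hx'.2.1, h.1, h.2]
      rw [e1, e2]
  have h3 : (((BS N (n + w * t)).filter fun B => (remB t B).card ≤ K + w).sigma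
        fun B => (remB t B).powersetCard w).card ≤
      (K + w).choose w * numPartitions (n + w * t) := by
    rw [card_sigma, ← card_BS (N := N) (m := n + w * t) (by omega)]
    calc ∑ B ∈ (BS N (n + w * t)).filter (fun B => (remB t B).card ≤ K + w),
          ((remB t B).powersetCard w).card
        ≤ ∑ _B ∈ (BS N (n + w * t)).filter (fun B => (remB t B).card ≤ K + w),
          (K + w).choose w := sum_le_sum fun B hB => by
            rw [card_powersetCard]
            exact Nat.choose_le_choose w (mem_filter.mp hB).2
      _ = (K + w).choose w *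
          ((BS N (n + w * t)).filter (fun B => (remB t B).card ≤ K + w)).card := by
            rw [sum_const, smul_eq_mul, mul_comm]
      _ ≤ _ := Nat.mul_le_mul_left _ (card_le_card (filter_subset _ _))
  exact (Nat.mul_le_mul_left _ hF).trans (h1.trans (h2.trans h3))

end Pool.Agent.W5h11.TZ
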