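import Pool.Agent.W5h11.TZ.Iface4

/-!
# Partitions with few removable hooks of length `t` are encoded by `t`-cores (task V3)
-/

set_option autoImplicit false

namespace Pool.Agent.W5h11.TZ

open Finset Pool.Agent.H581R3.Core Pool.Agent.R721.PN

namespace FC

/-- the number of the smaller elements in the same residue class -/
def cnt (t : ℕ) (B : Finset ℕ) (x : ℕ) : ℕ := (B.filter fun b => b % t = x % t ∧ b < x).card

/-- pushing down -/
def phi (t : ℕ) (B : Finset ℕ) (x : ℕ) : ℕ := x % t + t * cnt t B x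

theorem phi_mod (t : ℕ) (B : Finset ℕ) (x : ℕ) : phi t B x % t = x % t := by
  unfold phi
  rw [Nat.add_mul_mod_self_left, Nat.mod_mod]

theorem lt_div {t b x : ℕ} (h : b % t = x % t) (hlt : b < x) : b / t < x / t := by
  have h1 := Nat.div_add_mod b t
  have h2 := Nat.div_add_mod x t
  by_contra hc
  push Not at hc
  have := Nat.mul_le_mul_left t hc
  omega

theorem cnt_le (t : ℕ) (B : Finset ℕ) (x : ℕ) : cnt t B x ≤ x / t := by
  unfold cnt
  rw [← card_range (x / t)]
  refine card_le_card_of_injOn (fun b => b / t) ?_ ?_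
  · intro b hb
    rw [mem_coe, mem_filter] at hb
    rw [mem_coe, mem_range]
    exact lt_div hb.2.1 hb.2.2
  · intro a ha b hb hab
    rw [mem_coe, mem_filter] at ha hb
    simp only at hab
    have h1 := Nat.div_add_mod a t
    have h2 := Nat.div_add_mod b t
    rw [hab, ha.2.1, ← hb.2.1] at h1
    omega

theorem phi_le (t : ℕ) (B : Finset ℕ) (x : ℕ) : phi t B x ≤ x := by
  unfold phi
  have h1 := Nat.mul_le_mul_left t (cnt_le t B x)
  have h2 := Nat.mod_add_div x t
  omega

theorem cnt_lt {t : ℕ} {B : Finset ℕ} {x y : ℕ} (hx : x ∈ B) (hxy : x < y)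
    (hr : x % t = y % t) : cnt t B x < cnt t B y := by
  unfold cnt
  apply card_lt_card
  rw [ssubset_iff_of_subset]
  · refine ⟨x, ?_, ?_⟩
    · rw [mem_filter]; exact ⟨hx, hr, hxy⟩
    · rw [mem_filter]; rintro ⟨-, -, h⟩; exact lt_irrefl _ h
  · intro b hb
    rw [mem_filter] at hb ⊢
    exact ⟨hb.1, hb.2.1.trans hr, hb.2.2.trans hxy⟩

theorem phi_injOn {t : ℕ} (ht : 1 ≤ t) (B : Finset ℕ) : Set.InjOn (phi t B) (B : Set ℕ) := by
  intro x hx y hy hxy
  rw [mem_coe] at hx hy
  have hr : x % t = y % t := by rw [← phi_mod t B x, ← phi_mod t B y, hxy]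
  have hc : cnt t B x = cnt t B y := by
    unfold phi at hxy
    rw [hr] at hxy
    have : t * cnt t B x = t * cnt t B y := by omega
    exact Nat.eq_of_mul_eq_mul_left ht this
  rcases lt_trichotomy x y with h | h | h
  · have := cnt_lt hx h hr; omega
  · exact h
  · have := cnt_lt hy h hr.symm; omega

theorem phi_full {t : ℕ} (ht : 1 ≤ t) {B : Finset ℕ} {x : ℕ}
    (h : ∀ y, y % t = x % t → y < x → y ∈ B) : phi t B x = x := by
  have h1 : x / t ≤ cnt t B x := by
    unfold cnt
    rw [← card_range (x / t)]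
    refine card_le_card_of_injOn (fun j => x % t + t * j) ?_ ?_
    · intro j hj
      rw [mem_coe, mem_range] at hj
      rw [mem_coe, mem_filter]
      have h2 := Nat.mod_add_div x t
      have h3 : t * j < t * (x / t) := Nat.mul_lt_mul_of_pos_left hj ht
      have h4 : (x % t + t * j) % t = x % t := by
        rw [Nat.add_mul_mod_self_left, Nat.mod_mod]
      have h5 : x % t + t * j < x := by omega
      exact ⟨h _ h4 h5, h4, h5⟩
    · intro a _ b _ hab
      simp only at hab
      have : t * a = t * b := by omega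
      exact Nat.eq_of_mul_eq_mul_left ht this
  have h2 := cnt_le t B x
  have h3 := Nat.mod_add_div x t
  unfold phi
  have h4 : cnt t B x = x / t := le_antisymm h2 h1
  rw [h4]
  exact h3

theorem closed {t : ℕ} (ht : 1 ≤ t) {B : Finset ℕ} {c : ℕ} (hc : c ∈ B.image (phi t B))
    (htc : t ≤ c) : c - t ∈ B.image (phi t B) := by
  classical
  obtain ⟨b, hb, rfl⟩ := mem_image.mp hc
  have hmod : b % t < t := Nat.mod_lt _ ht
  have hc1 : 1 ≤ cnt t B b := by
    by_contra h
    have h0 : cnt t B b = 0 := by omega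
    unfold phi at htc
    rw [h0] at htc
    omega
  obtain ⟨T, hT⟩ : ∃ T, T = B.filter fun b' => b' % t = b % t ∧ b' < b := ⟨_, rfl⟩
  have hTc : T.card = cnt t B b := by rw [hT]; rfl
  have hne : T.Nonempty := by
    rw [← card_pos]; omega
  have hm := T.max'_mem hne
  obtain ⟨m, hmdef⟩ : ∃ m, m = T.max' hne := ⟨_, rfl⟩
  rw [← hmdef] at hm
  have hm' := hm
  rw [hT, mem_filter] at hm'
  have hmax : ∀ x ∈ T, x ≤ m := fun x hx => by rw [hmdef]; exact T.le_max' x hx
  have hcm : cnt t B m = cnt t B b - 1 := by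
    rw [← hTc, ← card_erase_of_mem hm]
    unfold cnt
    congr 1
    ext x
    rw [mem_filter, mem_erase]
    constructor
    · rintro ⟨h1, h2, h3⟩
      refine ⟨by omega, ?_⟩
      rw [hT, mem_filter]
      exact ⟨h1, h2.trans hm'.2.1, h3.trans hm'.2.2⟩
    · rintro ⟨h1, h2⟩
      have h3 := hmax x h2
      rw [hT, mem_filter] at h2
      exact ⟨h2.1, h2.2.1.trans hm'.2.1.symm, by omega⟩
  rw [mem_image]
  refine ⟨m, hm'.1, ?_⟩
  unfold phi
  rw [hm'.2.1, hcm]
  have : t * cnt t B b = t * (cnt t B b - 1) + t := by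
    obtain ⟨k, hk⟩ : ∃ k, cnt t B b = k + 1 := ⟨cnt t B b - 1, by omega⟩
    rw [hk, Nat.add_sub_cancel, Nat.mul_succ]
  omega

theorem to_core {n t : ℕ} {f : ℕ → ℕ} (hf : IsPartition n f) (ht : 1 ≤ t) :
    ∃ g : ℕ → ℕ, (∃ m, m ≤ n ∧ IsPartition m g) ∧ IsCore t g ∧
      beads n g = (beads n f).image (phi t (beads n f)) := by
  classical
  obtain ⟨B, hB⟩ : ∃ B, B = beads n f := ⟨_, rfl⟩
  have hBc : B.card = n := by rw [hB]; exact card_beads hf.1
  have hBs : ∑ x ∈ B, x = n + ∑ i ∈ range n, i := by rw [hB]; exact sum_beads hf le_rfl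
  rw [← hB]
  have hc : (B.image (phi t B)).card = n := by
    rw [card_image_of_injOn (phi_injOn ht B), hBc]
  have hs1 : ∑ x ∈ B.image (phi t B), x ≤ ∑ x ∈ B, x := by
    rw [sum_image (phi_injOn ht B)]
    exact sum_le_sum fun x _ => phi_le t B x
  have hs2 := sum_range_card_le (B.image (phi t B))
  rw [hc] at hs2
  obtain ⟨g, hg1, hg2⟩ := exists_partition
    (m := ∑ x ∈ B.image (phi t B), x - ∑ i ∈ range n, i) (N := n) (B.image (phi t B)) hc
    (by omega)
  refine ⟨g, ⟨_, by omega, hg1⟩, ?_, hg2⟩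
  by_contra hcore
  obtain ⟨b, h1, h2, h3⟩ := exists_rem hg1 (show _ ≤ n by omega) hcore
  rw [hg2] at h2 h3
  exact h3 (closed ht h2 h1)

theorem sub_mod_self {t c : ℕ} (h : t ≤ c) : (c - t) % t = c % t :=
  (Nat.mod_eq_sub_mod h).symm

/-- a set is determined by its removable and its addable elements -/
theorem mem_iff {t : ℕ} (ht : 1 ≤ t) (B : Finset ℕ) (x : ℕ) :
    x ∈ B ↔ ∃ e ∈ addB t B, x ≤ e ∧ e % t = x % t ∧
      ∀ s ∈ remB t B, s % t = x % t → ¬ (x < s ∧ s ≤ e) := by
  classical
  constructor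
  · intro hx
    have hex : ∃ k, x + t * (k + 1) ∉ B := by
      by_contra hcon
      push Not at hcon
      have hinj : Set.InjOn (fun k => x + t * (k + 1)) (range (B.card + 1) : Set ℕ) := by
        intro a _ b _ hab
        simp only at hab
        have : t * (a + 1) = t * (b + 1) := by omega
        have := Nat.eq_of_mul_eq_mul_left ht this
        omega
      have := card_le_card_of_injOn (fun k => x + t * (k + 1))
        (fun k _ => hcon k) hinj
      rw [card_range] at this
      omega
    obtain ⟨k, hk, hkmin⟩ : ∃ k, x + t * (k + 1) ∉ B ∧ ∀ j, j < k → x + t * (j + 1) ∈ B :=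
      ⟨Nat.find hex, Nat.find_spec hex, fun j hj => by
        have := Nat.find_min hex hj
        push Not at this
        exact this⟩
    have hall : ∀ j, j ≤ k → x + t * j ∈ B := by
      intro j hj
      rcases Nat.eq_zero_or_pos j with h | h
      · subst h; simpa using hx
      · obtain ⟨i, rfl⟩ : ∃ i, j = i + 1 := ⟨j - 1, by omega⟩
        exact hkmin i (by omega)
    refine ⟨x + t * k, ?_, by omega, ?_, ?_⟩
    · unfold addB
      rw [mem_filter]
      refine ⟨hall k le_rfl, ?_⟩
      have : x + t * k + t = x + t * (k + 1) := by ring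
      rw [this]
      exact hk
    · rw [Nat.add_mul_mod_self_left]
    · intro s hs hsx ⟨h1, h2⟩
      unfold remB at hs
      rw [mem_filter] at hs
      have hdvd : t ∣ s - x := (Nat.modEq_iff_dvd' h1.le).mp hsx.symm
      obtain ⟨j, hj⟩ := hdvd
      have hj0 : 0 < j := by
        rcases Nat.eq_zero_or_pos j with h | h
        · subst h; omega
        · exact h
      have hjk : j ≤ k := by
        have : t * j ≤ t * k := by omega
        exact Nat.le_of_mul_le_mul_left this ht
      obtain ⟨i, rfl⟩ : ∃ i, j = i + 1 := ⟨j - 1, by omega⟩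
      apply hs.2.2
      have : s - t = x + t * i := by
        rw [Nat.mul_succ] at hj
        omega
      rw [this]
      exact hall i (by omega)
  · rintro ⟨e, he, hxe, hmod, hno⟩
    unfold addB at he
    rw [mem_filter] at he
    have hdvd : t ∣ e - x := (Nat.modEq_iff_dvd' hxe).mp hmod.symm
    obtain ⟨k, hk⟩ := hdvd
    have key : ∀ j, j ≤ k → x + t * (k - j) ∈ B := by
      intro j
      induction j with
      | zero =>
        intro _
        have : x + t * (k - 0) = e := by
          rw [Nat.sub_zero]; omega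
        rw [this]
        exact he.1
      | succ j ih =>
        intro hj
        have h1 := ih (by omega)
        obtain ⟨i, hi⟩ : ∃ i, k - j = i + 1 := ⟨k - j - 1, by omega⟩
        have hi' : k - (j + 1) = i := by omega
        rw [hi] at h1
        rw [hi']
        have hik : t * (i + 1) ≤ t * k := Nat.mul_le_mul_left t (by omega)
        have e1 : t * (i + 1) = t * i + t := Nat.mul_succ t i
        by_contra hcon
        have hrem : x + t * (i + 1) ∈ remB t B := by
          unfold remB
          rw [mem_filter]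
          refine ⟨h1, by omega, ?_⟩
          have : x + t * (i + 1) - t = x + t * i := by omega
          rw [this]
          exact hcon
        refine hno _ hrem ?_ ⟨by omega, by omega⟩
        rw [Nat.add_mul_mod_self_left]
    have := key k le_rfl
    simpa using this

theorem addB_le' (t : ℕ) (B R : Finset ℕ) (hR : ∀ b ∈ B, b % t ∈ R) :
    (addB t B).card ≤ (remB t B).card + R.card := by
  classical
  have h1 : (addB t B).card + (B.filter fun a => a + t ∈ B).card = B.card := by
    have := card_filter_add_card_filter_not (s := B) (fun a => a + t ∈ B)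
    unfold addB
    omega
  have h2 : B ⊆ (R ∪ remB t B) ∪ B.filter fun c => t ≤ c ∧ c - t ∈ B := by
    intro x hx
    rw [mem_union, mem_union]
    unfold remB
    rw [mem_filter, mem_filter]
    by_cases h3 : x < t
    · left; left
      have := hR x hx
      rwa [Nat.mod_eq_of_lt h3] at this
    · by_cases h4 : x - t ∈ B
      · exact Or.inr ⟨hx, by omega, h4⟩
      · exact Or.inl (Or.inr ⟨hx, by omega, h4⟩)
  have h3 : B.card ≤ R.card + (remB t B).card + (B.filter fun c => t ≤ c ∧ c - t ∈ B).card := by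
    refine (card_le_card h2).trans ((card_union_le _ _).trans ?_)
    have := card_union_le R (remB t B)
    omega
  have h4 : (B.filter fun c => t ≤ c ∧ c - t ∈ B).card ≤ (B.filter fun a => a + t ∈ B).card := by
    refine card_le_card_of_injOn (fun c => c - t) ?_ ?_
    · intro c hc
      rw [mem_coe, mem_filter] at hc
      rw [mem_coe, mem_filter]
      simp only
      rw [Nat.sub_add_cancel hc.2.1]
      exact ⟨hc.2.2, hc.1⟩
    · intro c hc d hd hcd
      rw [mem_coe, mem_filter] at hc hd
      simp only at hcd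
      omega
  omega

/-- the part of `B` on the runners with a removable element -/
def act (t : ℕ) (B : Finset ℕ) : Finset ℕ := B.filter fun b => b % t ∈ (remB t B).image (· % t)

theorem rem_act {t : ℕ} (B : Finset ℕ) : remB t (act t B) = remB t B := by
  classical
  ext c
  unfold remB act
  rw [mem_filter, mem_filter, mem_filter, mem_filter]
  constructor
  · rintro ⟨⟨h1, h2⟩, h3, h4⟩
    refine ⟨h1, h3, fun h5 => h4 ⟨h5, ?_⟩⟩
    rw [sub_mod_self h3]
    exact h2
  · rintro ⟨h1, h2, h3⟩
    refine ⟨⟨h1, ?_⟩, h2, fun h5 => h3 h5.1⟩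
    rw [mem_image]
    exact ⟨c, by unfold remB; rw [mem_filter]; exact ⟨h1, h2, h3⟩, rfl⟩

theorem add_act_card (t : ℕ) (B : Finset ℕ) : (addB t (act t B)).card ≤ 2 * (remB t B).card := by
  classical
  have h1 := addB_le' t (act t B) ((remB t B).image (· % t)) (by
    intro b hb
    unfold act at hb
    exact (mem_filter.mp hb).2)
  rw [rem_act] at h1
  have h2 : ((remB t B).image (· % t)).card ≤ (remB t B).card := card_image_le
  omega

/-- off the active runners nothing is pushed -/
theorem mem_inactive {t : ℕ} (ht : 1 ≤ t) {B : Finset ℕ} {x : ℕ}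
    (hx : x % t ∉ (remB t B).image (· % t)) : x ∈ B ↔ x ∈ B.image (phi t B) := by
  classical
  have hdown : ∀ b ∈ B, b % t ∉ (remB t B).image (· % t) → ∀ y, y % t = b % t → y < b → y ∈ B := by
    intro b hb hbr y hy hyb
    rw [mem_iff ht]
    obtain ⟨e, he, hbe, hmod, hno⟩ := (mem_iff ht B b).mp hb
    refine ⟨e, he, by omega, by omega, ?_⟩
    intro s hs hsy _
    apply hbr
    rw [mem_image]
    exact ⟨s, hs, by omega⟩
  constructor
  · intro h
    rw [mem_image]
    exact ⟨x, h, phi_full ht (hdown x h hx)⟩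
  · intro h
    obtain ⟨b, hb, hbx⟩ := mem_image.mp h
    have hr : b % t = x % t := by rw [← hbx, phi_mod]
    have : phi t B b = b := phi_full ht (hdown b hb (by rw [hr]; exact hx))
    rw [← hbx, this]
    exact hb

/-- `B` is determined by the pushed set and the data on the active runners -/
theorem determined {t : ℕ} (ht : 1 ≤ t) {B C : Finset ℕ}
    (h1 : B.image (phi t B) = C.image (phi t C)) (h2 : remB t B = remB t C)
    (h3 : addB t (act t B) = addB t (act t C)) : B = C := by
  classical
  have hact : act t B = act t C := by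
    ext x
    rw [mem_iff ht, mem_iff ht (act t C), h3, rem_act, rem_act, h2]
  ext x
  by_cases hx : x % t ∈ (remB t B).image (· % t)
  · have e1 : x ∈ B ↔ x ∈ act t B := by
      unfold act
      rw [mem_filter]
      exact ⟨fun h => ⟨h, hx⟩, fun h => h.1⟩
    have e2 : x ∈ C ↔ x ∈ act t C := by
      unfold act
      rw [mem_filter]
      exact ⟨fun h => ⟨h, by rw [← h2]; exact hx⟩, fun h => h.1⟩
    rw [e1, e2, hact]
  · rw [mem_inactive ht hx, h1, ← mem_inactive ht (by rw [← h2]; exact hx)]

/-- small sets are coded by functions -/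
theorem code {M K : ℕ} (S : Finset ℕ) (hS : ∀ x ∈ S, x < M) (hK : S.card ≤ K) :
    ∃ h : Fin K → Fin (M + 1), (univ.image fun i => (h i : ℕ)).erase M = S := by
  classical
  let e := S.equivFin.symm
  refine ⟨fun i => if hi : (i : ℕ) < S.card then ⟨(e ⟨i, hi⟩ : ℕ), by
    have := hS _ (e ⟨i, hi⟩).2; omega⟩ else ⟨M, by omega⟩, ?_⟩
  ext x
  rw [mem_erase, mem_image]
  constructor
  · rintro ⟨hx, i, _, hi⟩
    dsimp only at hi
    by_cases hc : (i : ℕ) < S.card
    · rw [dif_pos hc] at hi
      rw [← hi]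
      exact (e ⟨i, hc⟩).2
    · rw [dif_neg hc] at hi
      exact absurd hi.symm hx
  · intro hx
    refine ⟨by have := hS x hx; omega, ?_⟩
    obtain ⟨j, hj⟩ := e.surjective ⟨x, hx⟩
    have hjK : (j : ℕ) < K := lt_of_lt_of_le j.2 hK
    refine ⟨⟨j, hjK⟩, mem_univ _, ?_⟩
    dsimp only
    rw [dif_pos (show ((⟨j, hjK⟩ : Fin K) : ℕ) < S.card from j.2)]
    have : (⟨((⟨j, hjK⟩ : Fin K) : ℕ), j.2⟩ : Fin S.card) = j := rfl
    simp only [this, hj]

theorem beads_lt {n : ℕ} {f : ℕ → ℕ} (hf : IsPartition n f) {x : ℕ} (hx : x ∈ beads n f) :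
    x < 2 * n := by
  unfold beads at hx
  rw [mem_image] at hx
  obtain ⟨i, hi, rfl⟩ := hx
  rw [mem_range] at hi
  have := hf.le i
  unfold beta
  omega

end FC

open FC in
theorem fewc : S_FEWC := by
  classical
  intro K t n ht
  obtain ⟨m, hm, hmax⟩ := exists_max_image (range (n + 1)) (fun m => numCores t m) ⟨0, by simp⟩
  rw [mem_range] at hm
  refine ⟨m, by omega, ?_⟩
  let D : Set (ℕ → ℕ) := {f | IsPartition n f ∧ XLe n t f K}
  let Cr : Set (ℕ → ℕ) := ⋃ i ∈ range (n + 1), {g | IsPartition i g ∧ IsCore t g}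
  have hCrf : Cr.Finite := by
    apply Set.Finite.biUnion (range (n + 1)).finite_toSet
    intro i _
    exact (finite_partitions i).subset fun g hg => hg.1
  have hCr : Cr.ncard ≤ (n + 1) * numCores t m := by
    calc Cr.ncard ≤ ∑ i ∈ range (n + 1), {g : ℕ → ℕ | IsPartition i g ∧ IsCore t g}.ncard :=
          Finset.set_ncard_biUnion_le _ _
      _ ≤ ∑ _i ∈ range (n + 1), numCores t m := sum_le_sum fun i hi => hmax i hi
      _ = (n + 1) * numCores t m := by rw [sum_const, card_range, smul_eq_mul]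
  have hch : ∀ f : ℕ → ℕ, f ∈ D → ∃ x : (ℕ → ℕ) × (Fin K → Fin (2 * n + 1)) ×
      (Fin (2 * K) → Fin (2 * n + 1)), x.1 ∈ Cr ∧
      beads n x.1 = (beads n f).image (phi t (beads n f)) ∧
      (univ.image fun i => (x.2.1 i : ℕ)).erase (2 * n) = remB t (beads n f) ∧
      (univ.image fun i => (x.2.2 i : ℕ)).erase (2 * n) = addB t (act t (beads n f)) := by
    rintro f ⟨hf, hX⟩
    obtain ⟨g, ⟨m', hm', hg1⟩, hg2, hg3⟩ := to_core hf ht
    have hK1 : (remB t (beads n f)).card ≤ K := hX n le_rfl
    obtain ⟨h1, hh1⟩ := code (M := 2 * n) (K := K) (remB t (beads n f))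
      (fun x hx => beads_lt hf (mem_filter.mp hx).1) hK1
    obtain ⟨h2, hh2⟩ := code (M := 2 * n) (K := 2 * K) (addB t (act t (beads n f)))
      (fun x hx => beads_lt hf (mem_filter.mp (mem_filter.mp hx).1).1)
      ((add_act_card t _).trans (by omega))
    refine ⟨(g, h1, h2), ?_, hg3, hh1, hh2⟩
    simp only [Cr, Set.mem_iUnion]
    exact ⟨m', mem_range.mpr (by omega), hg1, hg2⟩
  choose! F hF using hch
  have hinj : Set.InjOn F D := by
    intro f hf g hg hfg
    obtain ⟨-, a2, a3, a4⟩ := hF f hf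
    obtain ⟨-, b2, b3, b4⟩ := hF g hg
    rw [hfg] at a2 a3 a4
    have := determined ht (a2.symm.trans b2) (a3.symm.trans b3) (a4.symm.trans b4)
    exact beads_inj le_rfl hf.1 hg.1 this
  have hmaps : ∀ f ∈ D, F f ∈ Cr ×ˢ (Set.univ : Set ((Fin K → Fin (2 * n + 1)) ×
      (Fin (2 * K) → Fin (2 * n + 1)))) := fun f hf => ⟨(hF f hf).1, Set.mem_univ _⟩
  have h1 : D.ncard ≤ (Cr ×ˢ (Set.univ : Set ((Fin K → Fin (2 * n + 1)) ×
      (Fin (2 * K) → Fin (2 * n + 1))))).ncard :=
    Set.ncard_le_ncard_of_injOn F hmaps hinj (hCrf.prod Set.finite_univ)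
  rw [Set.ncard_prod, Set.ncard_univ, Nat.card_eq_fintype_card] at h1
  simp only [Fintype.card_prod, Fintype.card_fun, Fintype.card_fin] at h1
  have h2 : fewCount K t n = D.ncard := rfl
  rw [h2]
  refine h1.trans ?_
  have h3 : (2 * n + 1) ^ K * (2 * n + 1) ^ (2 * K) ≤ (4 * n + 4) ^ (3 * K) := by
    rw [← pow_add]
    have : K + 2 * K = 3 * K := by ring
    rw [this]
    exact Nat.pow_le_pow_left (by omega) _
  calc Cr.ncard * ((2 * n + 1) ^ K * (2 * n + 1) ^ (2 * K))
      ≤ ((n + 1) * numCores t m) * (4 * n + 4) ^ (3 * K) := Nat.mul_le_mul hCr h3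
    _ ≤ ((4 * n + 4) * numCores t m) * (4 * n + 4) ^ (3 * K) := by
        apply Nat.mul_le_mul_right
        apply Nat.mul_le_mul_right
        omega
    _ = (4 * n + 4) ^ (3 * K + 1) * numCores t m := by ring
    _ ≤ (4 * n + 4) ^ (4 * K + 4) * numCores t m := by
        apply Nat.mul_le_mul_right
        exact Nat.pow_le_pow_right (by omega) (by omega)

end Pool.Agent.W5h11.TZ
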