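import Pool.Agent.W5h11.TZ.Iface5

/-! (X4) the generating function of the multiplicity vectors. -/

set_option autoImplicit false

namespace Pool.Agent.W5h11.TZ

open Finset Filter Topology Real Pool.Agent.H581R3.Core Pool.Agent.R721.PN

theorem geo_exp {y : ℝ} (h0 : 0 ≤ y) (h1 : y ≤ 1 / 2) (j : ℕ) :
    ∑ m ∈ range (j + 1), y ^ m ≤ exp (2 * y) := by
  have h2 : ∑ m ∈ range (j + 1), y ^ m ≤ 1 / (1 - y) := by
    have h3 := geom_sum_Ico_le_of_lt_one (m := 0) (n := j + 1) h0 (by linarith)
    rw [pow_zero, ← Finset.range_eq_Ico] at h3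
    exact h3
  refine h2.trans ?_
  rw [div_le_iff₀ (by linarith)]
  have h4 : 2 * y + 1 ≤ exp (2 * y) := Real.add_one_le_exp (2 * y)
  calc (1 : ℝ) ≤ (2 * y + 1) * (1 - y) := by nlinarith
    _ ≤ exp (2 * y) * (1 - y) := mul_le_mul_of_nonneg_right h4 (by linarith)

theorem hsum : S_HSUM := by
  classical
  intro n j a z hz ha haz
  rw [le_div_iff₀ (by positivity), sum_mul]
  have h1 : ∀ v ∈ MV n j, (∏ i, a i ^ v i) * z ^ j = ∏ i, (a i * z) ^ v i := by
    intro v hv
    have hs : ∑ i, v i = j := (mem_filter.1 hv).2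
    rw [← hs, ← Finset.prod_pow_eq_pow_sum, ← prod_mul_distrib]
    apply prod_congr rfl
    intro i _
    rw [mul_pow]
  rw [sum_congr rfl h1]
  have hy : ∀ i, 0 ≤ a i * z := fun i => mul_nonneg (ha i) hz.le
  calc ∑ v ∈ MV n j, ∏ i, (a i * z) ^ v i
      ≤ ∑ v ∈ Fintype.piFinset (fun _ : Fin n => range (j + 1)), ∏ i, (a i * z) ^ v i := by
        apply sum_le_sum_of_subset_of_nonneg (filter_subset _ _)
        intro v _ _
        exact prod_nonneg fun i _ => pow_nonneg (hy i) _
    _ = ∏ i, ∑ m ∈ range (j + 1), (a i * z) ^ m :=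
        (Finset.prod_univ_sum (fun _ : Fin n => range (j + 1)) (fun i m => (a i * z) ^ m)).symm
    _ ≤ ∏ i, exp (2 * (a i * z)) := by
        apply Finset.prod_le_prod
        · intro i _
          exact sum_nonneg fun m _ => pow_nonneg (hy i) _
        · intro i _
          exact geo_exp (hy i) (haz i) j
    _ = exp (2 * z * ∑ i, a i) := by
        rw [← Real.exp_sum, mul_sum]
        congr 1
        apply sum_congr rfl
        intro i _
        ring

end Pool.Agent.W5h11.TZ
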