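import Pool.Agent.W5h11.TZ.Iface3
import Pool.Agent.W5h11.TZ.NC

/-! Task R1: rim hooks by rows and beads. -/

set_option autoImplicit false

namespace Pool.Agent.W5h11.TZ

open Finset Pool.Agent.H581R3.Core Pool.Agent.R721.PN

/-- The number of the cells of a rim hook. -/
theorem rim_sum {t a b : ℕ} {f g : ℕ → ℕ} (hab : a ≤ b) (h1 : ∀ i, i < a → g i = f i)
    (h2 : ∀ i, b < i → g i = f i) (h3 : ∀ i, a ≤ i → i < b → g i + 1 = f (i + 1))
    (h5 : f a + (b - a) = g b + t) {m : ℕ} (hm : b < m) :
    ∑ i ∈ range m, f i = ∑ i ∈ range m, g i + t := by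
  have e1 : ∀ m, a ≤ m → m ≤ b → ∑ i ∈ range (m + 1), f i = ∑ i ∈ range m, g i + f a + (m - a) := by
    intro m ham
    induction m, ham using Nat.le_induction with
    | base =>
      intro _
      rw [sum_range_succ, Nat.sub_self, Nat.add_zero]
      congr 1
      exact sum_congr rfl fun i hi => (h1 i (mem_range.mp hi)).symm
    | succ m ham ih =>
      intro hmb
      have h4 := ih (by omega)
      have h6 := h3 m ham (by omega)
      rw [sum_range_succ, h4, sum_range_succ (fun i => g i) m]
      omega
  have e2 : ∑ i ∈ range (b + 1), f i = ∑ i ∈ range (b + 1), g i + t := by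
    rw [e1 b hab le_rfl, sum_range_succ (fun i => g i) b]
    omega
  induction m, (show b + 1 ≤ m from hm) using Nat.le_induction with
  | base => exact e2
  | succ m hm' ih =>
    rw [sum_range_succ, sum_range_succ (fun i => g i) m, ih (by omega), h2 m (by omega)]
    omega

/-- From the rows to the beads. -/
theorem rim_beads {n t : ℕ} {f g : ℕ → ℕ} (hf : IsPartition n f)
    (hg : Antitone g) (hr : RimHook t f g) : t ≤ n ∧ ∀ N, n ≤ N →
    ∃ b, t ≤ b ∧ b ∈ beads N f ∧ b - t ∉ beads N f ∧
      beads N g = insert (b - t) ((beads N f).erase b) := by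
  classical
  obtain ⟨a, b, hab, h1, h2, h3, h4, h5⟩ := hr
  have hbn : b < n := by
    by_contra h
    rw [hf.2.1 b (by omega)] at h4
    omega
  refine ⟨?_, fun N hN => ?_⟩
  · have h6 := rim_sum hab h1 h2 h3 h5 hbn
    rw [hf.2.2] at h6
    omega
  · have haN : a < N := by omega
    have hbN : b < N := by omega
    have hb1 : beta N f a - t = beta N g b := by
      unfold beta
      omega
    have hnot : beta N f a - t ∉ beads N f := by
      rw [hb1]
      unfold beads
      rw [mem_image]
      rintro ⟨i, hi, hi2⟩
      rw [mem_range] at hi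
      rcases Nat.lt_or_ge b i with h | h
      · have h6 := beta_lt hg h hi
        have h7 : beta N g i = beta N f i := by unfold beta; rw [h2 i h]
        omega
      · have h6 : beta N f b ≤ beta N f i := by
          rcases Nat.eq_or_lt_of_le h with h8 | h8
          · rw [h8]
          · exact (beta_lt hf.1 h8 hbN).le
        unfold beta at h6 hi2
        omega
    have hmem : beta N f a ∈ beads N f := mem_image_of_mem _ (mem_range.mpr haN)
    refine ⟨beta N f a, ?_, hmem, hnot, ?_⟩
    · unfold beta
      omega
    · refine eq_of_subset_of_card_le ?_ ?_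
      · intro y hy
        unfold beads at hy
        rw [mem_image] at hy
        obtain ⟨i, hi, rfl⟩ := hy
        rw [mem_range] at hi
        rw [mem_insert, mem_erase]
        rcases lt_trichotomy i b with h | h | h
        · right
          rcases Nat.lt_or_ge i a with h6 | h6
          · have h7 : beta N g i = beta N f i := by unfold beta; rw [h1 i h6]
            rw [h7]
            exact ⟨(beta_lt hf.1 h6 haN).ne', mem_image_of_mem _ (mem_range.mpr hi)⟩
          · have h7 : beta N g i = beta N f (i + 1) := by
              have := h3 i h6 h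
              unfold beta
              omega
            rw [h7]
            exact ⟨(beta_lt hf.1 (by omega) (by omega)).ne,
              mem_image_of_mem _ (mem_range.mpr (by omega))⟩
        · left
          rw [h, hb1]
        · right
          have h7 : beta N g i = beta N f i := by unfold beta; rw [h2 i h]
          rw [h7]
          exact ⟨(beta_lt hf.1 (by omega) hi).ne, mem_image_of_mem _ (mem_range.mpr hi)⟩
      · rw [card_insert_of_notMem (fun h => hnot (mem_of_mem_erase h)), card_erase_add_one hmem,
          card_beads hf.1, card_beads hg]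

/-- From the beads to the rows. -/
theorem rim_exists {n t : ℕ} {f : ℕ → ℕ} (ht : 1 ≤ t) (hf : IsPartition n f) {x : ℕ}
    (htx : t ≤ x) (hx : x ∈ beads n f) (hxt : x - t ∉ beads n f) :
    ∃ g : ℕ → ℕ, IsPartition (n - t) g ∧ RimHook t f g := by
  classical
  unfold beads at hx
  rw [mem_image] at hx
  obtain ⟨a, ha, rfl⟩ := hx
  rw [mem_range] at ha
  have hne : ((range n).filter fun i => beta n f a - t < beta n f i).Nonempty :=
    ⟨a, mem_filter.mpr ⟨mem_range.mpr ha, by omega⟩⟩
  obtain ⟨b, hb⟩ : ∃ b, b = ((range n).filter fun i => beta n f a - t < beta n f i).max' hne :=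
    ⟨_, rfl⟩
  have hbm := max'_mem _ hne
  rw [← hb, mem_filter, mem_range] at hbm
  obtain ⟨hbn, hbt⟩ := hbm
  have hab : a ≤ b := by
    rw [hb]
    exact le_max' _ _ (mem_filter.mpr ⟨mem_range.mpr ha, by omega⟩)
  have hlast : ∀ i, b < i → i < n → beta n f i < beta n f a - t := by
    intro i hbi hin
    have h1 : ¬ (beta n f a - t < beta n f i) := by
      intro h
      have h2 : i ≤ b := by
        rw [hb]
        exact le_max' _ _ (mem_filter.mpr ⟨mem_range.mpr hin, h⟩)
      omega
    have h2 : beta n f i ≠ beta n f a - t := by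
      intro h
      apply hxt
      rw [← h]
      exact mem_image_of_mem _ (mem_range.mpr hin)
    omega
  have hb1 : f (b + 1) + t ≤ f a + (b - a) := by
    rcases Nat.lt_or_ge (b + 1) n with h | h
    · have := hlast (b + 1) (by omega) h
      unfold beta at this
      omega
    · rw [hf.2.1 (b + 1) h]
      unfold beta at htx
      omega
  have hb2 : f a + (b - a) < f b + t := by
    unfold beta at hbt htx
    omega
  let g : ℕ → ℕ := fun i => if i < a then f i else if i < b then f (i + 1) - 1 else
    if i = b then f a + (b - a) - t else f i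
  have g1 : ∀ i, i < a → g i = f i := fun i hi => by
    simp only [g, if_pos hi]
  have g2 : ∀ i, b < i → g i = f i := fun i hi => by
    simp only [g, if_neg (show ¬ i < a by omega), if_neg (show ¬ i < b by omega),
      if_neg (show ¬ i = b by omega)]
  have g3' : ∀ i, a ≤ i → i < b → g i = f (i + 1) - 1 := fun i hi hi2 => by
    simp only [g, if_neg (show ¬ i < a by omega), if_pos hi2]
  have g4 : g b = f a + (b - a) - t := by
    simp only [g, if_neg (show ¬ b < a by omega), if_neg (show ¬ b < b by omega), if_true]
  have g3 : ∀ i, a ≤ i → i < b → g i + 1 = f (i + 1) := by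
    intro i hi hi2
    rw [g3' i hi hi2]
    have := hf.1 (show i + 1 ≤ b by omega)
    omega
  have g5 : g b < f b := by omega
  have g6 : f a + (b - a) = g b + t := by omega
  have hanti : Antitone g := by
    refine antitone_nat_of_succ_le fun i => ?_
    have f1 := hf.1 (Nat.le_succ i)
    have f2 := hf.1 (Nat.le_succ (i + 1))
    simp only [Nat.succ_eq_add_one] at f1 f2
    rcases Nat.lt_or_ge i a with h | h
    · rw [g1 i h]
      rcases Nat.lt_or_ge (i + 1) a with h' | h'
      · rw [g1 _ h']; exact f1
      · rcases Nat.lt_or_ge (i + 1) b with h'' | h''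
        · have := g3 (i + 1) h' h''
          omega
        · have : i + 1 = b := by omega
          rw [this]
          rw [this] at f1
          omega
    · rcases lt_trichotomy i b with h' | h' | h'
      · have h6 := g3 i h h'
        rcases Nat.lt_or_ge (i + 1) b with h'' | h''
        · have := g3 (i + 1) (by omega) h''
          omega
        · have : i + 1 = b := by omega
          rw [this]
          rw [this] at h6
          omega
      · rw [g2 (i + 1) (by omega), h']
        omega
      · rw [g2 (i + 1) (by omega), g2 i h']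
        exact f1
  have hs := rim_sum hab g1 g2 g3 g6 hbn
  rw [hf.2.2] at hs
  refine ⟨g, isPartition_of_sum (N := n) hanti (fun i hi => ?_) (by omega),
    a, b, hab, g1, g2, g3, g5, g6⟩
  rw [g2 i (by omega)]
  exact hf.2.1 i hi

/-- Task R1. -/
theorem rh : S_RH := by
  intro n t f ht hf
  refine ⟨fun g hg hr => rim_beads hf hg.1 hr, fun hc => ?_, ?_⟩
  · obtain ⟨b, h1, h2, h3⟩ := exists_rem hf le_rfl hc
    exact rim_exists ht hf h1 h2 h3
  · rintro hc ⟨g, hg, hr⟩
    obtain ⟨-, h⟩ := rim_beads hf hg.1 hr
    obtain ⟨b, h1, h2, h3, -⟩ := h n le_rfl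
    exact h3 (push_down hf le_rfl hc h2 h1)

end Pool.Agent.W5h11.TZ
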