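import Pool.Agent.W5h11.TZ.Iface4
import Pool.Agent.W5h11.TZ.Rim

/-! Task V1: insertion of one more step. -/

set_option autoImplicit false

namespace Pool.Agent.W5h11.TZ

open Finset Pool.Agent.H581R3.Core Pool.Agent.R721.PN

/-- From the rows to the beads, with the position of the moved bead. -/
theorem rim_beads_at {n t N a b : ℕ} {f g : ℕ → ℕ} (hf : IsPartition n f) (hg : Antitone g)
    (hab : a ≤ b) (hbN : b < N) (h1 : ∀ i, i < a → g i = f i) (h2 : ∀ i, b < i → g i = f i)
    (h3 : ∀ i, a ≤ i → i < b → g i + 1 = f (i + 1)) (h4 : g b < f b)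
    (h5 : f a + (b - a) = g b + t) :
    beads N g = insert (beta N f a - t) ((beads N f).erase (beta N f a)) := by
  classical
  have haN : a < N := by omega
  have hb1 : beta N f a - t = beta N g b := by
    unfold beta
    omega
  have hnot : beta N f a - t ∉ beads N f := by
    rw [hb1]
    unfold beads
    rw [mem_image]
    rintro ⟨i, hi, hi2⟩
    rw [mem_range] at hi
    rcases Nat.lt_or_ge b i with h | h
    · have h6 := beta_lt hg h hi
      have h7 : beta N g i = beta N f i := by unfold beta; rw [h2 i h]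
      omega
    · have h6 : beta N f b ≤ beta N f i := by
        rcases Nat.eq_or_lt_of_le h with h8 | h8
        · rw [h8]
        · exact (beta_lt hf.1 h8 hbN).le
      unfold beta at h6 hi2
      omega
  have hmem : beta N f a ∈ beads N f := mem_image_of_mem _ (mem_range.mpr haN)
  refine eq_of_subset_of_card_le ?_ ?_
  · intro y hy
    unfold beads at hy
    rw [mem_image] at hy
    obtain ⟨i, hi, rfl⟩ := hy
    rw [mem_range] at hi
    rw [mem_insert, mem_erase]
    rcases lt_trichotomy i b with h | h | h
    · right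
      rcases Nat.lt_or_ge i a with h6 | h6
      · have h7 : beta N g i = beta N f i := by unfold beta; rw [h1 i h6]
        rw [h7]
        exact ⟨(beta_lt hf.1 h6 haN).ne', mem_image_of_mem _ (mem_range.mpr hi)⟩
      · have h7 : beta N g i = beta N f (i + 1) := by
          have := h3 i h6 h
          unfold beta
          omega
        rw [h7]
        exact ⟨(beta_lt hf.1 (by omega) (by omega)).ne,
          mem_image_of_mem _ (mem_range.mpr (by omega))⟩
    · left
      rw [h, hb1]
    · right
      have h7 : beta N g i = beta N f i := by unfold beta; rw [h2 i h]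
      rw [h7]
      exact ⟨(beta_lt hf.1 (by omega) hi).ne, mem_image_of_mem _ (mem_range.mpr hi)⟩
  · rw [card_insert_of_notMem (fun h => hnot (mem_of_mem_erase h)), card_erase_add_one hmem,
      card_beads hf.1, card_beads hg]

/-- From the beads to the rows, with the beads of the new partition. -/
theorem rim_exists_at {n t N : ℕ} {f : ℕ → ℕ} (ht : 1 ≤ t) (hf : IsPartition n f) (hN : n ≤ N)
    {x : ℕ} (htx : t ≤ x) (hx : x ∈ beads N f) (hxt : x - t ∉ beads N f) :
    ∃ g : ℕ → ℕ, IsPartition (n - t) g ∧ RimHook t f g ∧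
      beads N g = insert (x - t) ((beads N f).erase x) := by
  classical
  unfold beads at hx
  rw [mem_image] at hx
  obtain ⟨a, ha, rfl⟩ := hx
  rw [mem_range] at ha
  have hne : ((range N).filter fun i => beta N f a - t < beta N f i).Nonempty :=
    ⟨a, mem_filter.mpr ⟨mem_range.mpr ha, by omega⟩⟩
  obtain ⟨b, hb⟩ : ∃ b, b = ((range N).filter fun i => beta N f a - t < beta N f i).max' hne :=
    ⟨_, rfl⟩
  have hbm := max'_mem _ hne
  rw [← hb, mem_filter, mem_range] at hbm
  obtain ⟨hbn, hbt⟩ := hbm
  have hab : a ≤ b := by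
    rw [hb]
    exact le_max' _ _ (mem_filter.mpr ⟨mem_range.mpr ha, by omega⟩)
  have hlast : ∀ i, b < i → i < N → beta N f i < beta N f a - t := by
    intro i hbi hin
    have h1 : ¬ (beta N f a - t < beta N f i) := by
      intro h
      have h2 : i ≤ b := by
        rw [hb]
        exact le_max' _ _ (mem_filter.mpr ⟨mem_range.mpr hin, h⟩)
      omega
    have h2 : beta N f i ≠ beta N f a - t := by
      intro h
      apply hxt
      rw [← h]
      exact mem_image_of_mem _ (mem_range.mpr hin)
    omega
  have hb1 : f (b + 1) + t ≤ f a + (b - a) := by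
    rcases Nat.lt_or_ge (b + 1) N with h | h
    · have := hlast (b + 1) (by omega) h
      unfold beta at this
      omega
    · rw [hf.2.1 (b + 1) (by omega)]
      unfold beta at htx
      omega
  have hb2 : f a + (b - a) < f b + t := by
    unfold beta at hbt htx
    omega
  let g : ℕ → ℕ := fun i => if i < a then f i else if i < b then f (i + 1) - 1 else
    if i = b then f a + (b - a) - t else f i
  have g1 : ∀ i, i < a → g i = f i := fun i hi => by
    simp only [g, if_pos hi]
  have g2 : ∀ i, b < i → g i = f i := fun i hi => by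
    simp only [g, if_neg (show ¬ i < a by omega), if_neg (show ¬ i < b by omega),
      if_neg (show ¬ i = b by omega)]
  have g3' : ∀ i, a ≤ i → i < b → g i = f (i + 1) - 1 := fun i hi hi2 => by
    simp only [g, if_neg (show ¬ i < a by omega), if_pos hi2]
  have g4 : g b = f a + (b - a) - t := by
    simp only [g, if_neg (show ¬ b < a by omega), if_neg (show ¬ b < b by omega), if_true]
  have g3 : ∀ i, a ≤ i → i < b → g i + 1 = f (i + 1) := by
    intro i hi hi2
    rw [g3' i hi hi2]
    have := hf.1 (show i + 1 ≤ b by omega)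
    omega
  have g5 : g b < f b := by omega
  have g6 : f a + (b - a) = g b + t := by omega
  have hanti : Antitone g := by
    refine antitone_nat_of_succ_le fun i => ?_
    have f1 := hf.1 (Nat.le_succ i)
    have f2 := hf.1 (Nat.le_succ (i + 1))
    simp only [Nat.succ_eq_add_one] at f1 f2
    rcases Nat.lt_or_ge i a with h | h
    · rw [g1 i h]
      rcases Nat.lt_or_ge (i + 1) a with h' | h'
      · rw [g1 _ h']; exact f1
      · rcases Nat.lt_or_ge (i + 1) b with h'' | h''
        · have := g3 (i + 1) h' h''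
          omega
        · have : i + 1 = b := by omega
          rw [this]
          rw [this] at f1
          omega
    · rcases lt_trichotomy i b with h' | h' | h'
      · have h6 := g3 i h h'
        rcases Nat.lt_or_ge (i + 1) b with h'' | h''
        · have := g3 (i + 1) (by omega) h''
          omega
        · have : i + 1 = b := by omega
          rw [this]
          rw [this] at h6
          omega
      · rw [g2 (i + 1) (by omega), h']
        omega
      · rw [g2 (i + 1) (by omega), g2 i h']
        exact f1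
  have hs := rim_sum hab g1 g2 g3 g6 hbn
  rw [hf.sum_range hN] at hs
  refine ⟨g, isPartition_of_sum (N := N) hanti (fun i hi => ?_) (by omega),
    ⟨a, b, hab, g1, g2, g3, g5, g6⟩, rim_beads_at hf hanti hab hbn g1 g2 g3 g5 g6⟩
  rw [g2 i (by omega)]
  exact hf.2.1 i (by omega)

/-- It is possible to move successively beads down by the entries of the list. -/
def LiveB : Finset ℕ → List ℕ → Prop
  | _, [] => True
  | B, t :: l => ∃ b ∈ B, t ≤ b ∧ b - t ∉ B ∧ LiveB (insert (b - t) (B.erase b)) l

/-- The same with positions in `Q`. -/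
def PathB (Q : Finset ℕ) : Finset ℕ → List ℕ → Prop
  | _, [] => True
  | B, t :: l => ∃ b ∈ B, t ≤ b ∧ b - t ∉ B ∧ b ∈ Q ∧ b - t ∈ Q ∧
      PathB Q (insert (b - t) (B.erase b)) l

/-- The list is not dead for the partition if and only if it is not dead for the beads. -/
theorem not_dead_iff (N : ℕ) (l : List ℕ) : ∀ (n : ℕ) (f : ℕ → ℕ), IsPartition n f → n ≤ N →
    (∀ s ∈ l, 1 ≤ s) → (¬ Dead n f l ↔ LiveB (beads N f) l) := by
  induction l with
  | nil =>
    intro n f _ _ _
    simp [Dead, LiveB]
  | cons t l ih =>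
    intro n f hf hN hl
    have ht : 1 ≤ t := hl t (by simp)
    have hl' : ∀ s ∈ l, 1 ≤ s := fun s hs => hl s (by simp [hs])
    constructor
    · intro h
      unfold Dead at h
      push Not at h
      obtain ⟨g, hg, hr, hd⟩ := h
      obtain ⟨-, hb⟩ := rim_beads hf hg.1 hr
      obtain ⟨b, h1, h2, h3, h4⟩ := hb N hN
      have h5 := (ih (n - t) g hg (by omega) hl').mp hd
      rw [h4] at h5
      exact ⟨b, h2, h1, h3, h5⟩
    · rintro ⟨b, h2, h1, h3, h5⟩
      obtain ⟨g, hg, hr, h4⟩ := rim_exists_at ht hf hN h1 h2 h3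
      rw [← h4] at h5
      have hd := (ih (n - t) g hg (by omega) hl').mpr h5
      intro h
      unfold Dead at h
      exact hd (h g hg hr)

theorem PathB.mono {Q Q' : Finset ℕ} (h : Q ⊆ Q') (l : List ℕ) : ∀ B : Finset ℕ,
    PathB Q B l → PathB Q' B l := by
  induction l with
  | nil => intro B _; trivial
  | cons t l ih =>
    rintro B ⟨b, h1, h2, h3, h4, h5, h6⟩
    exact ⟨b, h1, h2, h3, h h4, h h5, ih _ h6⟩

theorem PathB.live {Q : Finset ℕ} (l : List ℕ) : ∀ B : Finset ℕ, PathB Q B l → LiveB B l := by
  induction l with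
  | nil => intro B _; trivial
  | cons t l ih =>
    rintro B ⟨b, h1, h2, h3, h4, h5, h6⟩
    exact ⟨b, h1, h2, h3, ih _ h6⟩

theorem exists_path (l : List ℕ) : ∀ B : Finset ℕ, LiveB B l →
    ∃ Q : Finset ℕ, Q.card ≤ 2 * l.length ∧ PathB Q B l := by
  classical
  induction l with
  | nil => intro B _; exact ⟨∅, by simp, trivial⟩
  | cons t l ih =>
    rintro B ⟨b, h1, h2, h3, h4⟩
    obtain ⟨Q, hQ, hp⟩ := ih _ h4
    refine ⟨insert b (insert (b - t) Q), ?_, b, h1, h2, h3, by simp, by simp,
      hp.mono (fun x hx => by simp [hx]) l _⟩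
    have e1 := card_insert_le b (insert (b - t) Q)
    have e2 := card_insert_le (b - t) Q
    rw [List.length_cons]
    omega

/-- Only the positions in `Q` matter. -/
theorem PathB.congr {Q : Finset ℕ} (l : List ℕ) : ∀ B B' : Finset ℕ, (∀ q ∈ Q, q ∈ B ↔ q ∈ B') →
    PathB Q B l → PathB Q B' l := by
  classical
  induction l with
  | nil => intro B B' _ _; trivial
  | cons t l ih =>
    rintro B B' hB ⟨b, h1, h2, h3, h4, h5, h6⟩
    refine ⟨b, (hB b h4).mp h1, h2, fun h => h3 ((hB _ h5).mpr h), h4, h5, ih _ _ ?_ h6⟩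
    intro q hq
    rw [mem_insert, mem_insert, mem_erase, mem_erase, hB q hq]

/-- Insertion of a move away from `Q`. -/
theorem insert_move {Q : Finset ℕ} {c t : ℕ} (htc : t ≤ c) (hc : c ∉ Q) (hct : c - t ∉ Q)
    (l₂ : List ℕ) (l₁ : List ℕ) : ∀ B : Finset ℕ, c ∈ B → c - t ∉ B →
    PathB Q B (l₁ ++ l₂) → LiveB B (l₁ ++ t :: l₂) := by
  classical
  induction l₁ with
  | nil =>
    intro B h1 h2 hp
    refine ⟨c, h1, htc, h2, PathB.live (Q := Q) _ _ (PathB.congr _ B _ ?_ hp)⟩
    intro q hq
    rw [mem_insert, mem_erase]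
    have e1 : q ≠ c := fun h => hc (h ▸ hq)
    have e2 : q ≠ c - t := fun h => hct (h ▸ hq)
    simp [e1, e2]
  | cons s l₁ ih =>
    rintro B h1 h2 ⟨b, k1, k2, k3, k4, k5, k6⟩
    refine ⟨b, k1, k2, k3, ih _ ?_ ?_ k6⟩
    · rw [mem_insert, mem_erase]
      exact Or.inr ⟨fun h => hc (h ▸ k4), h1⟩
    · rw [mem_insert, mem_erase]
      rintro (h | h)
      · exact hct (h ▸ k5)
      · exact h2 h.2

/-- Task V1. -/
theorem ins : S_INS := by
  classical
  intro n t f l₁ l₂ hf ht h1 h2 hd hnd N hN
  have hl : ∀ s ∈ l₁ ++ l₂, 1 ≤ s := by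
    intro s hs
    rcases List.mem_append.mp hs with h | h
    · exact h1 s h
    · exact h2 s h
  have hl' : ∀ s ∈ l₁ ++ t :: l₂, 1 ≤ s := by
    intro s hs
    rcases List.mem_append.mp hs with h | h
    · exact h1 s h
    · rcases List.mem_cons.mp h with h | h
      · rw [h]; exact ht
      · exact h2 s h
  have hlive := (not_dead_iff N _ n f hf hN hl).mp hnd
  obtain ⟨Q, hQ, hp⟩ := exists_path _ _ hlive
  by_contra hcon
  push Not at hcon
  -- a removable bead away from `Q`
  have hex : ∃ c ∈ remB t (beads N f), c ∉ Q ∪ Q.image (fun q => q + t) := by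
    by_contra h
    push Not at h
    have e1 := card_le_card (show remB t (beads N f) ⊆ Q ∪ Q.image (fun q => q + t) from h)
    have e2 := card_union_le Q (Q.image (fun q => q + t))
    have e3 := card_image_le (s := Q) (f := fun q => q + t)
    omega
  obtain ⟨c, hc, hcQ⟩ := hex
  unfold remB at hc
  rw [mem_filter] at hc
  rw [mem_union, not_or] at hcQ
  have hct : c - t ∉ Q := by
    intro h
    apply hcQ.2
    rw [mem_image]
    exact ⟨c - t, h, by omega⟩
  have hfin := insert_move hc.2.1 hcQ.1 hct l₂ l₁ (beads N f) hc.1 hc.2.2 hp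
  exact (not_dead_iff N _ n f hf hN hl').mpr hfin hd

end Pool.Agent.W5h11.TZ
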