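import Pool.Agent.W5h11.TZ.Iface

/-! The threshold and the tails. -/

set_option autoImplicit false

namespace Pool.Agent.W5h11.TZ

open Finset Filter Topology Real Pool.Agent.H581R3.Core Pool.Agent.R721.PN

/-- a geometric sum -/
theorem geo {x : ℝ} (hx : 0 < x) (t m : ℕ) (h : t ≤ m) :
    ∑ s ∈ Ioc t m, exp (-(x * s)) ≤ (exp (-(x * t)) - exp (-(x * m))) / x := by
  induction m, h using Nat.le_induction with
  | base => simp
  | succ m hm ih =>
    rw [sum_Ioc_succ_top (by omega)]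
    have h1 : exp (-(x * ((m + 1 : ℕ) : ℝ))) * x ≤ exp (-(x * m)) - exp (-(x * ((m + 1 : ℕ) : ℝ))) := by
      have h2 : exp (-(x * m)) = exp (-(x * ((m + 1 : ℕ) : ℝ))) * exp x := by
        rw [← Real.exp_add]; congr 1; push_cast; ring
      rw [h2]
      have := mul_le_mul_of_nonneg_left (Real.add_one_le_exp x)
        (exp_pos (-(x * ((m + 1 : ℕ) : ℝ)))).le
      linarith
    have h3 : exp (-(x * ((m + 1 : ℕ) : ℝ))) ≤
        (exp (-(x * m)) - exp (-(x * ((m + 1 : ℕ) : ℝ)))) / x := by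
      rwa [le_div_iff₀ hx]
    calc _ ≤ (exp (-(x * t)) - exp (-(x * m))) / x +
          (exp (-(x * m)) - exp (-(x * ((m + 1 : ℕ) : ℝ)))) / x := add_le_add ih h3
      _ = _ := by ring

theorem geo' {x : ℝ} (hx : 0 < x) (t m : ℕ) :
    ∑ s ∈ Ioc t m, exp (-(x * s)) ≤ exp (-(x * t)) / x := by
  rcases le_or_gt t m with h | h
  · refine (geo hx t m h).trans ?_
    gcongr
    linarith [exp_pos (-(x * m))]
  · rw [Ioc_eq_empty (by omega), sum_empty]; positivity

/-- the regularity with a constant at least one -/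
theorem reg : ∃ C : ℝ, 1 ≤ C ∧ ∃ n0 : ℕ, ∀ n : ℕ, n0 ≤ n → ∃ x : ℝ, 0 < x ∧
    1 / (4 * √(n : ℝ)) ≤ x ∧ x ≤ 13 / √(n : ℝ) ∧ ∀ m : ℕ, m ≤ 3 * n →
      (numPartitions m : ℝ) ≤ C * exp (x * ((m : ℝ) - n)) * numPartitions n := by
  obtain ⟨C, hC, n0, h⟩ := regularity
  refine ⟨C, ?_, n0, h⟩
  obtain ⟨x, -, -, -, hx⟩ := h n0 le_rfl
  have h1 := hx n0 (by omega)
  have h2 : (0 : ℝ) < numPartitions n0 := by exact_mod_cast numPartitions_pos n0
  rw [sub_self, mul_zero, exp_zero, mul_one] at h1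
  nlinarith

theorem thr : S_THR := by
  obtain ⟨C, hC, n0, hreg⟩ := reg
  refine ⟨104, by norm_num, ?_⟩
  -- eventual conditions
  have hlog : Tendsto (fun n : ℕ => Real.log n) atTop atTop :=
    Real.tendsto_log_atTop.comp tendsto_natCast_atTop_atTop
  have hcast : Tendsto (fun n : ℕ => (n : ℝ)) atTop atTop := tendsto_natCast_atTop_atTop
  have hlit : ∀ᶠ n : ℕ in atTop, 32 * (√(n : ℝ) * Real.log n) ≤ n := by
    have h1 : (fun x : ℝ => Real.log x) =o[atTop] fun x : ℝ => x ^ (1 / 2 : ℝ) :=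
      isLittleO_log_rpow_atTop (by norm_num)
    have h2 := (h1.bound (show (0 : ℝ) < 1 / 32 by norm_num))
    have h3 := hcast.eventually h2
    filter_upwards [h3, eventually_ge_atTop 1] with n hn hn1
    have hn1' : (1 : ℝ) ≤ n := by exact_mod_cast hn1
    rw [Real.norm_of_nonneg (Real.log_nonneg hn1'), Real.norm_of_nonneg (by positivity),
      ← Real.sqrt_eq_rpow] at hn
    have h4 : √(n : ℝ) * √(n : ℝ) = n := Real.mul_self_sqrt (by positivity)
    have h5 : 0 ≤ √(n : ℝ) := Real.sqrt_nonneg _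
    nlinarith
  have hev : ∀ᶠ n : ℕ in atTop, 4 * n0 ≤ n ∧ 4 ≤ n ∧ 13 * C + 52 + 104 ≤ Real.log n ∧ 4 * C ≤ n ∧
      32 * (√(n : ℝ) * Real.log n) ≤ n :=
    (eventually_ge_atTop (4 * n0)).and ((eventually_ge_atTop 4).and
      ((hlog.eventually_ge_atTop _).and ((hcast.eventually_ge_atTop _).and hlit)))
  obtain ⟨n₁, hn₁⟩ := eventually_atTop.1 hev
  refine ⟨n₁, fun n hn => ?_⟩
  obtain ⟨e1, e2, e3, e4, e5⟩ := hn₁ n hn
  have hn4 : (4 : ℝ) ≤ n := by exact_mod_cast e2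
  have hs2 : √(n : ℝ) * √(n : ℝ) = n := Real.mul_self_sqrt (by positivity)
  have hs : 2 ≤ √(n : ℝ) := by
    rw [Real.le_sqrt (by norm_num) (by positivity)]; linarith
  have hP : ∀ m, (0 : ℝ) < numPartitions m := fun m => by exact_mod_cast numPartitions_pos m
  set L := Real.log n with hL
  have hL0 : 0 < L := by linarith
  -- the test value
  set t₁ : ℕ := ⌊√(n : ℝ) * L / 52⌋₊ with ht₁
  have ht₁le : (t₁ : ℝ) ≤ √(n : ℝ) * L / 52 := Nat.floor_le (by positivity)
  have ht₁ge : √(n : ℝ) * L / 52 - 1 ≤ t₁ := (Nat.sub_one_lt_floor _).le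
  have ht₁n : 4 * t₁ ≤ n := by
    have : (4 : ℝ) * t₁ ≤ n := by nlinarith
    exact_mod_cast this
  have hmem : (numPartitions n : ℝ) ≤ 4 * (t₁ : ℝ) * numPartitions (n - t₁) := by
    obtain ⟨x, hx0, hxl, hxu, hx⟩ := hreg (n - t₁) (by omega)
    have h1 := hx n (by omega)
    have h2 : ((n : ℝ) - ((n - t₁ : ℕ) : ℝ)) = t₁ := by
      rw [Nat.cast_sub (by omega)]; ring
    rw [h2] at h1
    have h3 : √(n : ℝ) / 2 ≤ √((n - t₁ : ℕ) : ℝ) := by
      apply Real.le_sqrt_of_sq_le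
      have : (n : ℝ) / 4 ≤ ((n - t₁ : ℕ) : ℝ) := by
        rw [Nat.cast_sub (by omega)]
        have : (4 : ℝ) * t₁ ≤ n := by exact_mod_cast ht₁n
        linarith
      nlinarith
    have h4 : x ≤ 26 / √(n : ℝ) := by
      refine hxu.trans ?_
      calc 13 / √((n - t₁ : ℕ) : ℝ) ≤ 13 / (√(n : ℝ) / 2) := by gcongr
        _ = _ := by ring
    have h5 : x * t₁ ≤ L / 2 := by
      calc x * t₁ ≤ 26 / √(n : ℝ) * (√(n : ℝ) * L / 52) := by gcongr
        _ = _ := by
          have : √(n : ℝ) ≠ 0 := by positivity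
          field_simp; norm_num
    have h6 : exp (x * t₁) ≤ √(n : ℝ) := by
      calc exp (x * t₁) ≤ exp (L / 2) := Real.exp_le_exp.2 h5
        _ = √(n : ℝ) := by
          rw [Real.exp_half, hL, Real.exp_log (by positivity)]
    have h7 : C * √(n : ℝ) ≤ 4 * t₁ := by nlinarith
    calc (numPartitions n : ℝ) ≤ C * exp (x * t₁) * numPartitions (n - t₁) := h1
      _ ≤ C * √(n : ℝ) * numPartitions (n - t₁) := by gcongr
      _ ≤ _ := by gcongr
  -- the threshold
  set S : Finset ℕ := (range (n + 1)).filter fun t =>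
    (numPartitions n : ℝ) ≤ 4 * (t : ℝ) * numPartitions (n - t) with hS
  have hSne : S.Nonempty := ⟨t₁, by rw [hS, mem_filter, mem_range]; exact ⟨by omega, hmem⟩⟩
  set t₀ := S.max' hSne with ht₀
  have ht₀S : t₀ ∈ S := S.max'_mem hSne
  rw [hS, mem_filter, mem_range] at ht₀S
  obtain ⟨h0n, hbig⟩ := ht₀S
  have h10 : t₁ ≤ t₀ := S.le_max' t₁ (by rw [hS, mem_filter, mem_range]; exact ⟨by omega, hmem⟩)
  have h10' : (t₁ : ℝ) ≤ t₀ := by exact_mod_cast h10
  have hlo : √(n : ℝ) * L / 104 ≤ t₀ := by nlinarith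
  have hpos : 1 ≤ t₀ := by
    have : (0 : ℝ) < t₀ := lt_of_lt_of_le (by positivity) hlo
    exact_mod_cast this
  have hhi : (t₀ : ℝ) ≤ 8 * (√(n : ℝ) * L) := by
    obtain ⟨x, hx0, hxl, hxu, hx⟩ := hreg n (by omega)
    have h1 := hx (n - t₀) (by omega)
    have h2 : (((n - t₀ : ℕ) : ℝ) - n) = -t₀ := by
      rw [Nat.cast_sub (by omega)]; ring
    rw [h2] at h1
    have h3 : (numPartitions n : ℝ) ≤ 4 * t₀ * (C * exp (x * -t₀) * numPartitions n) :=
      hbig.trans (by gcongr)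
    have h4 : 1 ≤ 4 * t₀ * (C * exp (x * -t₀)) := by
      have := hP n
      by_contra hcon
      push Not at hcon
      nlinarith
    have h5 : exp (x * t₀) ≤ 4 * C * t₀ := by
      have h6 : exp (x * -t₀) = (exp (x * t₀))⁻¹ := by rw [← Real.exp_neg]; congr 1; ring
      rw [h6] at h4
      have h7 : 4 * t₀ * (C * (exp (x * t₀))⁻¹) = (4 * C * t₀) / exp (x * t₀) := by ring
      rw [h7, le_div_iff₀ (exp_pos _)] at h4
      linarith
    have h6 : (t₀ : ℝ) ≤ n := by exact_mod_cast (by omega : t₀ ≤ n)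
    have h7 : exp (x * t₀) ≤ exp (2 * L) := by
      have h8 : exp (2 * L) = n * n := by
        rw [two_mul, Real.exp_add, hL, Real.exp_log (by positivity)]
      rw [h8]
      calc exp (x * t₀) ≤ 4 * C * t₀ := h5
        _ ≤ n * n := by
          have : (0 : ℝ) ≤ t₀ := by positivity
          gcongr
    have h8 : x * t₀ ≤ 2 * L := Real.exp_le_exp.1 h7
    have h9 : 1 / (4 * √(n : ℝ)) * t₀ ≤ 2 * L := le_trans (by gcongr) h8
    rw [one_div, inv_mul_le_iff₀ (by positivity)] at h9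
    linarith
  refine ⟨t₀, hpos, ?_, hbig, ?_, hlo, ?_⟩
  · have : (4 : ℝ) * t₀ ≤ n := by linarith
    exact_mod_cast this
  · intro t ht htn
    by_contra hcon
    push Not at hcon
    have : t ≤ t₀ := S.le_max' t (by rw [hS, mem_filter, mem_range]; exact ⟨by omega, hcon.le⟩)
    omega
  · have : 0 ≤ √(n : ℝ) * L := by positivity
    linarith

end Pool.Agent.W5h11.TZ
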