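import Pool.Agent.W5h11.TZ.Iface2
import Pool.Agent.W5h11.TZ.Thr

/-! The sharp bounds for `z_I` and `z_II`. -/

set_option autoImplicit false

namespace Pool.Agent.W5h11.TZ

open Finset Filter Topology Real Pool.Agent.H581R3.Core Pool.Agent.R721.PN

theorem log_tendsto : Tendsto (fun n : ℕ => Real.log n) atTop atTop :=
  Real.tendsto_log_atTop.comp tendsto_natCast_atTop_atTop

/-- `√n (log n) ^ 3 / n ^ (3 / 4) → 0` -/
theorem small_ev (c : ℝ) (hc : 0 < c) : ∀ᶠ n : ℕ in atTop,
    (√(n : ℝ) * Real.log n ^ 2) * Real.log n / (n : ℝ) ^ (3 / 4 : ℝ) ≤ c := by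
  have hcast : Tendsto (fun n : ℕ => (n : ℝ)) atTop atTop := tendsto_natCast_atTop_atTop
  have h1 : (fun x : ℝ => Real.log x ^ 3) =o[atTop] fun x : ℝ => x ^ (1 / 4 : ℝ) := by
    have := isLittleO_log_rpow_rpow_atTop (s := (1 / 4 : ℝ)) (3 : ℝ) (by norm_num)
    refine this.congr_left fun x => ?_
    rw [← Real.rpow_natCast]; norm_num
  have h2 := hcast.eventually (h1.bound hc)
  filter_upwards [h2, eventually_ge_atTop 1] with n hn hn1
  have hn1' : (1 : ℝ) ≤ n := by exact_mod_cast hn1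
  have hn0 : (0 : ℝ) < n := by linarith
  rw [Real.norm_of_nonneg (pow_nonneg (Real.log_nonneg hn1') 3),
    Real.norm_of_nonneg (by positivity)] at hn
  rw [div_le_iff₀ (by positivity)]
  have h3 : (n : ℝ) ^ (3 / 4 : ℝ) = √(n : ℝ) * (n : ℝ) ^ (1 / 4 : ℝ) := by
    rw [Real.sqrt_eq_rpow, ← Real.rpow_add hn0]; norm_num
  rw [h3]
  calc √(n : ℝ) * Real.log n ^ 2 * Real.log n = √(n : ℝ) * Real.log n ^ 3 := by ring
    _ ≤ √(n : ℝ) * (c * (n : ℝ) ^ (1 / 4 : ℝ)) := by gcongr
    _ = _ := by ring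

/-- two-sided estimate of `P (n - t)` -/
theorem loc_two {xs : ℕ → ℝ} {C : ℝ} {n0 : ℕ} (h : Sad xs C n0) {η : ℝ} (hη : 0 < η) :
    ∀ᶠ n : ℕ in atTop, ∀ t : ℕ, t ≤ n → (t : ℝ) ≤ √(n : ℝ) * Real.log n ^ 2 →
      (1 - η) * (exp (-(xs n * t)) * numPartitions n) ≤ numPartitions (n - t) ∧
      (numPartitions (n - t) : ℝ) ≤ (1 + η) * (exp (-(xs n * t)) * numPartitions n) := by
  have hC := h.C1
  filter_upwards [small_ev (η / C) (by positivity), eventually_ge_atTop n0,
    eventually_ge_atTop 1] with n h1 h2 h3 t htn ht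
  have hn1' : (1 : ℝ) ≤ n := by exact_mod_cast h3
  have hP : (0 : ℝ) < numPartitions n := by exact_mod_cast numPartitions_pos n
  have hlog := Real.log_nonneg hn1'
  have h4 := h.loc n t h2 htn
  have h5 : C * t * Real.log n / (n : ℝ) ^ (3 / 4 : ℝ) ≤ η := by
    calc C * t * Real.log n / (n : ℝ) ^ (3 / 4 : ℝ)
        = C * (t * Real.log n / (n : ℝ) ^ (3 / 4 : ℝ)) := by ring
      _ ≤ C * ((√(n : ℝ) * Real.log n ^ 2) * Real.log n / (n : ℝ) ^ (3 / 4 : ℝ)) := by gcongr
      _ ≤ C * (η / C) := by gcongr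
      _ = η := by field_simp
  have h6 : |(numPartitions (n - t) : ℝ) * exp (xs n * t) - numPartitions n| ≤
      η * numPartitions n := h4.trans (by gcongr)
  rw [abs_le] at h6
  have h7 : exp (xs n * t) * exp (-(xs n * t)) = 1 := by rw [← Real.exp_add]; simp
  have he := exp_pos (-(xs n * t))
  have h8 : (numPartitions (n - t) : ℝ) = (numPartitions (n - t) : ℝ) * exp (xs n * t) *
      exp (-(xs n * t)) := by rw [mul_assoc, h7, mul_one]
  constructor
  · rw [h8]
    calc (1 - η) * (exp (-(xs n * t)) * numPartitions n)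
        = ((1 - η) * numPartitions n) * exp (-(xs n * t)) := by ring
      _ ≤ _ := by
          apply mul_le_mul_of_nonneg_right _ he.le
          linarith
  · rw [h8]
    calc (numPartitions (n - t) : ℝ) * exp (xs n * t) * exp (-(xs n * t))
        ≤ ((1 + η) * numPartitions n) * exp (-(xs n * t)) := by
          apply mul_le_mul_of_nonneg_right _ he.le
          linarith
      _ = _ := by ring

theorem zI_lower {xs : ℕ → ℝ} {C : ℝ} {n0 : ℕ} (h : Sad xs C n0) (hpoi : S_POI xs) (hsum : S_SUM)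
    (hlow : S_LOW) (δ : ℝ) (hδ : 0 < δ) (hδ1 : δ ≤ 1) :
    ∀ᶠ n : ℕ in atTop, 2 - δ ≤ Real.log n * zI n := by
  have hC := h.C1
  set a : ℝ := δ / 8 with ha
  set U : ℝ := 1 + 8 / δ with hU
  set η : ℝ := δ / 12 with hη
  have ha0 : 0 < a := by positivity
  have ha1 : a < 1 := by rw [ha]; linarith
  have hU1 : 1 < U := by rw [hU]; linarith [show 0 < 8 / δ by positivity]
  have hη0 : 0 < η := by positivity
  have hη1 : η ≤ 1 / 12 := by rw [hη]; linarith
  obtain ⟨n₁, hs⟩ := hsum a U η ha0 ha1 hU1 hη0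
  obtain ⟨n₂, hp⟩ := hpoi U (η * exp (-U)) (by linarith) (by positivity)
  filter_upwards [eventually_ge_atTop n₁, eventually_ge_atTop n₂, eventually_ge_atTop n0,
    eventually_ge_atTop 1, log_tendsto.eventually_ge_atTop (8 * C * U / η + 1),
    loc_two h (show 0 < η / 2 by positivity)] with n e1 e2 e3 e4 e5 e6
  have hn1 : (1 : ℝ) ≤ n := by exact_mod_cast e4
  have hP : ∀ m, (0 : ℝ) < numPartitions m := fun m => by exact_mod_cast numPartitions_pos m
  have hP0 := hP n
  set x := xs n with hx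
  have hx0 : 0 < x := h.pos n e3
  set L := Real.log n with hL
  have hL0 : 0 < L := by
    have : 0 < 8 * C * U / η := by positivity
    linarith
  obtain ⟨M, N, hM, hMN, hN, hN4, hxM, hUt, -, -, hlo, -⟩ := hs n e1 x (h.lo n e3) (h.hi n e3)
  have hMpos : (0 : ℝ) < M := lt_of_lt_of_le (Real.sqrt_pos.2 (by linarith)) hM
  have hM1 : 1 ≤ M := by exact_mod_cast hMpos
  have hsub : Ico M N ⊆ Icc 1 n := by
    intro t ht
    rw [mem_Ico] at ht
    rw [mem_Icc]
    omega
  have hterm : ∀ t ∈ Ico M N, (1 - η) ^ 2 * (exp (-(t * exp (-(x * t)))) * exp (-(x * t))) *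
      (numPartitions n : ℝ) ^ 2 ≤
      (numCores t n : ℝ) * ((numPartitions (n - t) : ℝ) -
        ∑ s ∈ Ioc t (n - t), (numPartitions (n - t - s) : ℝ)) := by
    intro t ht
    rw [mem_Ico] at ht
    have htM : (M : ℝ) ≤ t := by exact_mod_cast ht.1
    have htN : (t : ℝ) ≤ √(n : ℝ) * L ^ 2 := le_trans (by exact_mod_cast ht.2.le) hN
    have htn : t ≤ n := by omega
    have ht0 : (0 : ℝ) < t := by linarith
    have hu := hUt t ht.1
    -- the cores
    have h1 := hp n t e2 (hM.trans htM) htN hu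
    rw [abs_le] at h1
    have h2 : exp (-U) ≤ exp (-(t * exp (-(x * t)))) := Real.exp_le_exp.2 (by linarith)
    have h3 : (1 - η) * exp (-(t * exp (-(x * t)))) * numPartitions n ≤ numCores t n := by
      have h4 : η * exp (-U) * numPartitions n ≤ η * exp (-(t * exp (-(x * t)))) *
          numPartitions n := by gcongr
      linarith [h1.1]
    -- the bracket
    have h5 := (e6 t htn htN).1
    have h6 : ∑ s ∈ Ioc t (n - t), (numPartitions (n - t - s) : ℝ) ≤
        η / 2 * (exp (-(x * t)) * numPartitions n) := by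
      calc ∑ s ∈ Ioc t (n - t), (numPartitions (n - t - s) : ℝ)
          ≤ ∑ s ∈ Ioc t (n - t), C * exp (-(x * t)) * numPartitions n * exp (-(x * s)) := by
            refine sum_le_sum fun s hs => ?_
            rw [mem_Ioc] at hs
            have h7 := h.up n (n - t - s) e3 (by omega)
            have h8 : exp (x * (((n - t - s : ℕ) : ℝ) - n)) = exp (-(x * t)) * exp (-(x * s)) := by
              rw [← Real.exp_add, Nat.cast_sub hs.2, Nat.cast_sub htn]
              congr 1; ring
            rw [h8] at h7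
            linarith
        _ = C * exp (-(x * t)) * numPartitions n * ∑ s ∈ Ioc t (n - t), exp (-(x * s)) := by
            rw [mul_sum]
        _ ≤ C * exp (-(x * t)) * numPartitions n * (exp (-(x * t)) / x) := by
            have := geo' hx0 t (n - t)
            gcongr
        _ ≤ C * exp (-(x * t)) * numPartitions n * (η / (2 * C)) := by
            have h7 : exp (-(x * t)) / x ≤ η / (2 * C) := by
              have h8 : exp (-(x * t)) ≤ U / t := by
                rw [le_div_iff₀ ht0]; linarith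
              have h9 : L / 4 ≤ x * t := hxM.trans (by gcongr)
              have h10 : 8 * C * U ≤ L * η := by
                rw [← div_le_iff₀ hη0]; linarith
              rw [div_le_div_iff₀ hx0 (by positivity)]
              have h11 : exp (-(x * t)) * (2 * C) ≤ U / t * (2 * C) := by gcongr
              refine h11.trans ?_
              rw [div_mul_eq_mul_div, div_le_iff₀ ht0]
              nlinarith
            gcongr
        _ = _ := by field_simp
    have h7 : (1 - η) * (exp (-(x * t)) * numPartitions n) ≤ (numPartitions (n - t) : ℝ) -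
        ∑ s ∈ Ioc t (n - t), (numPartitions (n - t - s) : ℝ) := by
      linarith
    have h8 : 0 ≤ 1 - η := by linarith
    calc (1 - η) ^ 2 * (exp (-(t * exp (-(x * t)))) * exp (-(x * t))) * (numPartitions n : ℝ) ^ 2
        = ((1 - η) * exp (-(t * exp (-(x * t)))) * numPartitions n) *
          ((1 - η) * (exp (-(x * t)) * numPartitions n)) := by ring
      _ ≤ _ := mul_le_mul h3 h7 (by positivity) (by positivity)
  have h1 := (sum_le_sum hterm).trans (hlow n (Ico M N) hsub)
  rw [← sum_mul, ← mul_sum] at h1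
  have h2 : (1 - η) ^ 2 * ∑ t ∈ Ico M N, exp (-(t * exp (-(x * t)))) * exp (-(x * t)) ≤ zI n := by
    unfold zI
    rw [le_div_iff₀ (by positivity)]
    exact h1
  have h3 : 2 - δ / 2 ≤ 2 * (exp (-a) - exp (-U)) := by
    have h4 := Real.add_one_le_exp (-a)
    have h5 : exp (-U) ≤ δ / 8 := by
      have h6 := Real.add_one_le_exp U
      rw [Real.exp_neg, inv_le_comm₀ (exp_pos _) (by positivity), inv_div]
      rw [hU] at h6 ⊢
      linarith
    linarith
  calc 2 - δ ≤ (1 - η) ^ 2 * ((1 - η) * (2 - δ / 2)) := by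
        have h4 : 1 - δ / 4 ≤ (1 - η) ^ 3 := by
          have : (1 - η) ^ 3 = 1 - 3 * η + 3 * η ^ 2 - η ^ 3 := by ring
          rw [this]
          nlinarith [sq_nonneg η]
        calc 2 - δ ≤ (1 - δ / 4) * (2 - δ / 2) := by nlinarith
          _ ≤ (1 - η) ^ 3 * (2 - δ / 2) := by
              apply mul_le_mul_of_nonneg_right h4; linarith
          _ = _ := by ring
    _ ≤ (1 - η) ^ 2 * ((1 - η) * (2 * (exp (-a) - exp (-U)))) := by
        apply mul_le_mul_of_nonneg_left _ (by positivity)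
        apply mul_le_mul_of_nonneg_left h3
        linarith
    _ ≤ (1 - η) ^ 2 * (L * ∑ t ∈ Ico M N, exp (-(t * exp (-(x * t)))) * exp (-(x * t))) := by
        apply mul_le_mul_of_nonneg_left hlo (by positivity)
    _ = L * ((1 - η) ^ 2 * ∑ t ∈ Ico M N, exp (-(t * exp (-(x * t)))) * exp (-(x * t))) := by ring
    _ ≤ L * zI n := mul_le_mul_of_nonneg_left h2 hL0.le

theorem alg_id (L K U η a C S : ℝ) (hL : L ≠ 0) (hU : U ≠ 0) :
    L * (K / (U ^ 2 * L) + (1 + η) ^ 2 * S + 12 * a * C / L) =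
      K / U ^ 2 + (1 + η) ^ 2 * (L * S) + 12 * a * C := by
  field_simp

theorem cube_le (η : ℝ) (h0 : 0 ≤ η) (h1 : η ≤ 1) : (1 + η) ^ 2 * ((1 + η) * 2) ≤ 2 * (1 + 7 * η) := by
  have h2 : η ^ 2 ≤ η := by nlinarith
  have h3 : η ^ 3 ≤ η := by
    calc η ^ 3 = η ^ 2 * η := by ring
      _ ≤ 1 * η := by apply mul_le_mul_of_nonneg_right _ h0; linarith
      _ = η := one_mul _
  have : (1 + η) ^ 2 * ((1 + η) * 2) = 2 * (1 + 3 * η + 3 * η ^ 2 + η ^ 3) := by ring
  rw [this]
  linarith

theorem zII_upper {xs : ℕ → ℝ} {C : ℝ} {n0 : ℕ} (h : Sad xs C n0) (hpoi : S_POI xs) (hsum : S_SUM)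
    (hleft : S_LEFT xs) (δ : ℝ) (hδ : 0 < δ) (hδ1 : δ ≤ 1) :
    ∀ᶠ n : ℕ in atTop, Real.log n * zII n ≤ 2 + δ := by
  have hC := h.C1
  obtain ⟨K, hK, hlf⟩ := hleft
  set a : ℝ := δ / (48 * C) with ha
  set U : ℝ := 2 + 4 * K / δ with hU
  set η : ℝ := δ / 56 with hη
  have ha0 : 0 < a := by positivity
  have ha1 : a < 1 := by
    rw [ha, div_lt_one (by positivity)]
    nlinarith
  have hU1 : 1 < U := by rw [hU]; linarith [show 0 < 4 * K / δ by positivity]
  have hη0 : 0 < η := by positivity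
  have hη1 : η ≤ 1 / 56 := by rw [hη]; linarith
  obtain ⟨n₁, hs⟩ := hsum a U η ha0 ha1 hU1 hη0
  obtain ⟨n₂, hp⟩ := hpoi U (η * exp (-U)) (by linarith) (by positivity)
  obtain ⟨n₃, hl⟩ := hlf U hU1.le
  filter_upwards [eventually_ge_atTop n₁, eventually_ge_atTop n₂, eventually_ge_atTop n0,
    eventually_ge_atTop 169, log_tendsto.eventually_ge_atTop 1,
    loc_two h hη0, eventually_ge_atTop n₃] with n e1 e2 e3 e4 e5 e6 e7
  have hn169 : (169 : ℝ) ≤ n := by exact_mod_cast e4
  have hn1 : (1 : ℝ) ≤ n := by linarith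
  have hP : ∀ m, (0 : ℝ) < numPartitions m := fun m => by exact_mod_cast numPartitions_pos m
  have hP0 := hP n
  set x := xs n with hx
  have hx0 : 0 < x := h.pos n e3
  have hx1 : x ≤ 1 := by
    refine (h.hi n e3).trans ?_
    have : 13 ≤ √(n : ℝ) := by
      rw [Real.le_sqrt (by norm_num) (by positivity)]; linarith
    rw [div_le_one (by positivity)]
    exact this
  set L := Real.log n with hL
  have hL0 : 0 < L := by linarith
  obtain ⟨M, N, hM, hMN, hN, hN4, hxM, hUt, hUM, haN, -, hhi⟩ := hs n e1 x (h.lo n e3) (h.hi n e3)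
  have hMpos : (0 : ℝ) < M := lt_of_lt_of_le (Real.sqrt_pos.2 (by linarith)) hM
  have hM1 : 1 ≤ M := by exact_mod_cast hMpos
  have hMN' : (M : ℝ) ≤ N := by exact_mod_cast hMN
  have hterm : ∀ t ∈ Ico M N, (numCores t n : ℝ) * numPartitions (n - t) ≤
      (1 + η) ^ 2 * (exp (-(t * exp (-(x * t)))) * exp (-(x * t))) *
      (numPartitions n : ℝ) ^ 2 := by
    intro t ht
    rw [mem_Ico] at ht
    have htM : (M : ℝ) ≤ t := by exact_mod_cast ht.1
    have htN : (t : ℝ) ≤ √(n : ℝ) * L ^ 2 := le_trans (by exact_mod_cast ht.2.le) hN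
    have htn : t ≤ n := by omega
    have hu := hUt t ht.1
    have h1 := hp n t e2 (hM.trans htM) htN hu
    rw [abs_le] at h1
    have h2 : exp (-U) ≤ exp (-(t * exp (-(x * t)))) := Real.exp_le_exp.2 (by linarith)
    have h3 : (numCores t n : ℝ) ≤ (1 + η) * exp (-(t * exp (-(x * t)))) * numPartitions n := by
      have h4 : η * exp (-U) * numPartitions n ≤ η * exp (-(t * exp (-(x * t)))) *
          numPartitions n := by gcongr
      linarith [h1.2]
    have h5 := (e6 t htn htN).2
    calc (numCores t n : ℝ) * numPartitions (n - t)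
        ≤ ((1 + η) * exp (-(t * exp (-(x * t)))) * numPartitions n) *
          ((1 + η) * (exp (-(x * t)) * numPartitions n)) :=
          mul_le_mul h3 h5 (hP _).le (by positivity)
      _ = _ := by ring
  have hmid := sum_le_sum hterm
  rw [← sum_mul, ← mul_sum] at hmid
  have hleft := hl n M e7 hM (le_trans hMN' hN) hxM hUM
  have hright : ∑ t ∈ Ioc (N - 1) n, (numCores t n : ℝ) * numPartitions (n - t) ≤
      12 * a * C / L * (numPartitions n : ℝ) ^ 2 := by
    have h1 : ∀ t ∈ Ioc (N - 1) n, (numCores t n : ℝ) * numPartitions (n - t) ≤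
        C * (numPartitions n : ℝ) ^ 2 * exp (-(x * t)) := by
      intro t ht
      rw [mem_Ioc] at ht
      have h2 : (numCores t n : ℝ) ≤ numPartitions n := by exact_mod_cast numCores_le t n
      have h7 := h.up n (n - t) e3 (by omega)
      have h8 : x * (((n - t : ℕ) : ℝ) - n) = -(x * t) := by
        rw [Nat.cast_sub ht.2]; ring
      rw [h8] at h7
      calc (numCores t n : ℝ) * numPartitions (n - t)
          ≤ numPartitions n * (C * exp (-(x * t)) * numPartitions n) :=
            mul_le_mul h2 h7 (hP _).le hP0.le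
        _ = _ := by ring
    refine (sum_le_sum h1).trans ?_
    rw [← mul_sum]
    have h2 := geo' hx0 (N - 1) n
    have hN1 : 1 ≤ N := by omega
    have h3 : exp (-(x * ((N - 1 : ℕ) : ℝ))) = exp x * exp (-(x * N)) := by
      rw [← Real.exp_add, Nat.cast_sub hN1]; congr 1; push_cast; ring
    have hN0 : (0 : ℝ) < N := by linarith
    have h4 : exp (-(x * N)) ≤ a / N := by
      rw [le_div_iff₀ hN0]; linarith
    have h5 : exp x ≤ 3 := by
      have := Real.exp_one_lt_d9
      have h6 : exp x ≤ exp 1 := Real.exp_le_exp.2 hx1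
      linarith
    have h6 : exp (-(x * ((N - 1 : ℕ) : ℝ))) / x ≤ 12 * a / L := by
      rw [h3, div_le_div_iff₀ hx0 hL0]
      have h7 : L / 4 ≤ x * N := hxM.trans (by gcongr)
      calc exp x * exp (-(x * N)) * L ≤ 3 * (a / N) * (4 * (x * N)) := by
            have : L ≤ 4 * (x * N) := by linarith
            gcongr
        _ = 12 * a * x := by field_simp; norm_num
    calc C * (numPartitions n : ℝ) ^ 2 * ∑ t ∈ Ioc (N - 1) n, exp (-(x * t))
        ≤ C * (numPartitions n : ℝ) ^ 2 * (12 * a / L) := by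
          have h9 := h2.trans h6
          gcongr
      _ = _ := by ring
  have hsplit : ∑ t ∈ Icc 1 n, (numCores t n : ℝ) * numPartitions (n - t) =
      ∑ t ∈ Ico 1 M, (numCores t n : ℝ) * numPartitions (n - t) +
      ∑ t ∈ Ico M N, (numCores t n : ℝ) * numPartitions (n - t) +
      ∑ t ∈ Ioc (N - 1) n, (numCores t n : ℝ) * numPartitions (n - t) := by
    have h1 : Icc 1 n = (Ico 1 M ∪ Ico M N) ∪ Ioc (N - 1) n := by
      ext t
      rw [mem_union, mem_union, mem_Icc, mem_Ico, mem_Ico, mem_Ioc]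
      omega
    rw [h1, sum_union, sum_union]
    · rw [disjoint_left]; intro t h2 h3; rw [mem_Ico] at h2 h3; omega
    · rw [disjoint_left]; intro t h2 h3
      rw [mem_union, mem_Ico, mem_Ico] at h2
      rw [mem_Ioc] at h3
      omega
  have htot : ((typeIIZeros n).ncard : ℝ) ≤
      ∑ t ∈ Icc 1 n, (numCores t n : ℝ) * numPartitions (n - t) := by
    exact_mod_cast typeII_le n
  have hz : zII n ≤ K / (U ^ 2 * L) + (1 + η) ^ 2 *
      ∑ t ∈ Ico M N, exp (-(t * exp (-(x * t)))) * exp (-(x * t)) + 12 * a * C / L := by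
    unfold zII
    rw [div_le_iff₀ (by positivity)]
    calc ((typeIIZeros n).ncard : ℝ) ≤ _ := htot
      _ = _ := hsplit
      _ ≤ K / (U ^ 2 * L) * (numPartitions n : ℝ) ^ 2 + ((1 + η) ^ 2 *
          ∑ t ∈ Ico M N, exp (-(t * exp (-(x * t)))) * exp (-(x * t))) *
            (numPartitions n : ℝ) ^ 2 + 12 * a * C / L * (numPartitions n : ℝ) ^ 2 :=
          add_le_add (add_le_add hleft hmid) hright
      _ = _ := by ring
  have hKU : K / U ^ 2 ≤ δ / 4 := by
    rw [div_le_iff₀ (by positivity)]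
    have h1 : 4 * K / δ ≤ U ^ 2 := by
      calc 4 * K / δ ≤ U := by rw [hU]; linarith
        _ ≤ U ^ 2 := by nlinarith
    rw [div_le_iff₀ hδ] at h1
    linarith
  calc L * zII n ≤ L * (K / (U ^ 2 * L) + (1 + η) ^ 2 *
      ∑ t ∈ Ico M N, exp (-(t * exp (-(x * t)))) * exp (-(x * t)) + 12 * a * C / L) :=
        mul_le_mul_of_nonneg_left hz hL0.le
    _ = K / U ^ 2 + (1 + η) ^ 2 * (L *
      ∑ t ∈ Ico M N, exp (-(t * exp (-(x * t)))) * exp (-(x * t))) + 12 * a * C := by
        have hU0 : U ≠ 0 := by linarith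
        exact alg_id L K U η a C _ hL0.ne' hU0
    _ ≤ δ / 4 + (1 + η) ^ 2 * ((1 + η) * 2) + δ / 4 := by
        have h1 : 12 * a * C = δ / 4 := by rw [ha]; field_simp; norm_num
        rw [h1]
        have h2 := mul_le_mul_of_nonneg_left hhi (by positivity : 0 ≤ (1 + η) ^ 2)
        exact add_le_add (add_le_add hKU h2) le_rfl
    _ ≤ 2 + δ := by
        have h1 : (1 + η) ^ 2 * ((1 + η) * 2) ≤ 2 * (1 + 7 * η) :=
          cube_le η hη0.le (by linarith)
        have h2 : 7 * η = δ / 8 := by rw [hη]; ring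
        linarith

/-- the limits -/
theorem sharp_of {xs : ℕ → ℝ} {C : ℝ} {n0 : ℕ} (h : Sad xs C n0) (hpoi : S_POI xs) (hsum : S_SUM)
    (hleft : S_LEFT xs) (hlow : S_LOW) :
    Tendsto (fun n : ℕ => Real.log n * zI n) atTop (𝓝 2) ∧
    Tendsto (fun n : ℕ => Real.log n * zII n) atTop (𝓝 2) := by
  have key : ∀ δ : ℝ, 0 < δ → ∀ᶠ n : ℕ in atTop, 2 - δ ≤ Real.log n * zI n ∧
      Real.log n * zI n ≤ Real.log n * zII n ∧ Real.log n * zII n ≤ 2 + δ := by
    intro δ hδ
    have hm : 0 < min δ 1 := by positivity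
    filter_upwards [zI_lower h hpoi hsum hlow _ hm (min_le_right _ _),
      zII_upper h hpoi hsum hleft _ hm (min_le_right _ _), eventually_ge_atTop 1] with n h1 h2 h3
    have hn1 : (1 : ℝ) ≤ n := by exact_mod_cast h3
    have h4 : min δ 1 ≤ δ := min_le_left _ _
    exact ⟨by linarith, mul_le_mul_of_nonneg_left (zI_le_zII n h3) (Real.log_nonneg hn1),
      by linarith⟩
  constructor
  · rw [Metric.tendsto_nhds]
    intro ε hε
    filter_upwards [key (ε / 2) (by positivity)] with n hn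
    rw [Real.dist_eq, abs_lt]
    constructor <;> linarith [hn.1, hn.2.1, hn.2.2]
  · rw [Metric.tendsto_nhds]
    intro ε hε
    filter_upwards [key (ε / 2) (by positivity)] with n hn
    rw [Real.dist_eq, abs_lt]
    constructor <;> linarith [hn.1, hn.2.1, hn.2.2]

end Pool.Agent.W5h11.TZ
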