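import Pool.Agent.W5h11.TZ.Iface4
import Pool.Agent.W5h11.TZ.Sharp

/-! Assembly: bounded Murnaghan-Nakayama depth, any order. -/

set_option autoImplicit false

namespace Pool.Agent.W5h11.TZ

open Finset Filter Topology Real Pool.Agent.H581R3.Core Pool.Agent.R721.PN

theorem HasParts.sub {u : ℕ → ℕ} {l l' : List ℕ} (h : HasParts u l) (hs : l'.Sublist l) :
    HasParts u l' := by
  obtain ⟨i, hi, hl⟩ := h
  obtain ⟨f, hf⟩ := List.sublist_iff_exists_fin_orderEmbedding_get_eq.1 hs
  refine ⟨fun j => i (f j), fun a b hab => f.injective (hi hab), fun j => ?_⟩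
  rw [hf j]
  exact hl (f j)

theorem HasParts.mem {u : ℕ → ℕ} {l : List ℕ} (h : HasParts u l) {t : ℕ} (ht : t ∈ l) :
    t ≠ 0 ∧ ∃ i, u i = t := by
  obtain ⟨i, hi, hl⟩ := h
  obtain ⟨j, hj⟩ := List.get_of_mem ht
  have := hl j
  rw [hj] at this
  exact ⟨this.2, i j, this.1⟩

theorem typeII_sub_dead (hrh : S_RH) (k n : ℕ) (hk : 1 ≤ k) : typeIIZeros n ⊆ deadZeros k n := by
  rintro ⟨f, u⟩ ⟨hf, hu, i, hi, hc⟩
  have : Subsingleton (Fin [u i].length) := inferInstanceAs (Subsingleton (Fin 1))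
  refine ⟨hf, hu, [u i], by simpa using hk, ⟨fun _ => i, fun a b _ => Subsingleton.elim a b, ?_⟩, ?_⟩
  · intro j
    have hj : j = ⟨0, by simp⟩ := Subsingleton.elim _ _
    subst hj
    exact ⟨rfl, hi⟩
  · intro g hg hr
    exact ((hrh n (u i) f (by change u i ≠ 0 at hi; omega) hf).2.2 hc ⟨g, hg, hr⟩).elim

/-- the first components -/
def AV (k n : ℕ) {j : ℕ} (v : Fin j → ℕ) : Set (ℕ → ℕ) :=
  {f | IsPartition n f ∧ ∀ i, XLe n (v i) f (4 * k)}

/-- the second components -/
def UV (n : ℕ) {j : ℕ} (v : Fin j → ℕ) : Set (ℕ → ℕ) := {u | IsPartition n u ∧ HasParts u (List.ofFn v)}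

theorem dead_sub (hrh : S_RH) (hins : S_INS) (k n : ℕ) : deadZeros k n ⊆ typeIIZeros n ∪
    ⋃ j ∈ Icc 2 k, ⋃ v ∈ Fintype.piFinset (fun _ : Fin j => Icc 1 n), (AV k n v) ×ˢ (UV n v) := by
  classical
  rintro ⟨f, u⟩ ⟨hf, hu, hl⟩
  change IsPartition n f at hf
  change IsPartition n u at hu
  change ∃ l : List ℕ, l.length ≤ k ∧ HasParts u l ∧ Dead n f l at hl
  have hex : ∃ j, ∃ l : List ℕ, l.length = j ∧ HasParts u l ∧ Dead n f l := by
    obtain ⟨l, -, h1, h2⟩ := hl
    exact ⟨l.length, l, rfl, h1, h2⟩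
  obtain ⟨l, hlj, hp, hd⟩ := Nat.find_spec hex
  have hmin : ∀ l' : List ℕ, l'.length < l.length → HasParts u l' → ¬ Dead n f l' := by
    intro l' h1 h2 h3
    rw [hlj] at h1
    exact Nat.find_min hex h1 ⟨l', rfl, h2, h3⟩
  have hlk : l.length ≤ k := by
    obtain ⟨l', h0, h1, h2⟩ := hl
    by_contra hcon
    exact hmin l' (by omega) h1 h2
  rcases l with _ | ⟨a, _ | ⟨b, l⟩⟩
  · exact hd.elim
  · -- length one
    left
    obtain ⟨ha0, i, hi⟩ := hp.mem (List.mem_singleton.2 rfl)
    refine ⟨hf, hu, i, ?_, ?_⟩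
    · change u i ≠ 0
      rw [hi]; exact ha0
    · change IsCore (u i) f
      rw [hi]
      by_contra hc
      obtain ⟨g, hg, hr⟩ := (hrh n a f (by omega) hf).2.1 hc
      exact hd g hg hr
  · -- length at least two
    right
    set L : List ℕ := a :: b :: l with hL
    have hL2 : 2 ≤ L.length := by rw [hL]; simp
    rw [Set.mem_iUnion₂]
    refine ⟨L.length, mem_Icc.2 ⟨hL2, hlk⟩, ?_⟩
    rw [Set.mem_iUnion₂]
    refine ⟨L.get, ?_, ?_, ?_⟩
    · rw [Fintype.mem_piFinset]
      intro i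
      obtain ⟨h0, r, hr⟩ := hp.mem (List.get_mem L i)
      rw [mem_Icc]
      refine ⟨by omega, ?_⟩
      rw [← hr]
      exact hu.le r
    · refine ⟨hf, fun i => ?_⟩
      obtain ⟨s, s', hs⟩ := List.append_of_mem (List.get_mem L i)
      generalize L.get i = t at hs
      have hlen : (s ++ s').length + 1 = L.length := by
        rw [hs]; simp; omega
      have hall : ∀ r ∈ L, 1 ≤ r := fun r hr => by
        have := (hp.mem hr).1
        omega
      have hsub : (s ++ s').Sublist L := by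
        rw [hs]; exact List.Sublist.append_left (List.sublist_cons_self t s') s
      have h1 := hins n t f s s' hf (hall t (by rw [hs]; simp)) (fun r hr => hall r (by
        rw [hs]; simp [hr])) (fun r hr => hall r (by rw [hs]; simp [hr])) (by rw [← hs]; exact hd)
        (hmin _ (by omega) (hp.sub hsub))
      intro N hN
      exact (h1 N hN).trans (by omega)
    · refine ⟨hu, ?_⟩
      rw [List.ofFn_get]
      exact hp

theorem AV_finite (k n : ℕ) {j : ℕ} (v : Fin j → ℕ) : (AV k n v).Finite :=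
  (finite_partitions n).subset fun _ hf => hf.1

theorem UV_finite (n : ℕ) {j : ℕ} (v : Fin j → ℕ) : (UV n v).Finite :=
  (finite_partitions n).subset fun _ hf => hf.1

theorem dead_card (hrh : S_RH) (hins : S_INS) (k n : ℕ) : (deadZeros k n).ncard ≤
    (typeIIZeros n).ncard + ∑ j ∈ Icc 2 k, ∑ v ∈ Fintype.piFinset (fun _ : Fin j => Icc 1 n),
      (AV k n v).ncard * (UV n v).ncard := by
  have hfin : (⋃ j ∈ Icc 2 k, ⋃ v ∈ Fintype.piFinset (fun _ : Fin j => Icc 1 n),
      (AV k n v) ×ˢ (UV n v)).Finite := by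
    apply Set.Finite.biUnion (finite_toSet _)
    intro j _
    apply Set.Finite.biUnion (finite_toSet _)
    intro v _
    exact (AV_finite k n v).prod (UV_finite n v)
  refine (Set.ncard_le_ncard (dead_sub hrh hins k n) ((typeII_finite n).union hfin)).trans ?_
  refine (Set.ncard_union_le _ _).trans ?_
  gcongr
  refine (Finset.set_ncard_biUnion_le _ _).trans ?_
  apply sum_le_sum
  intro j _
  refine (Finset.set_ncard_biUnion_le _ _).trans ?_
  apply sum_le_sum
  intro v _
  rw [Set.ncard_prod]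

/-- one term -/
theorem term_le {xs : ℕ → ℝ} {C : ℝ} {n0 : ℕ} (h : Sad xs C n0) (hparts : S_PARTS) {k n j : ℕ}
    (hn : n0 ≤ n) (hj : 2 ≤ j) (hjk : j ≤ k) (v : Fin j → ℕ) :
    ((AV k n v).ncard : ℝ) * ((UV n v).ncard : ℝ) ≤ C * (numPartitions n : ℝ) ^ 2 *
      ∏ i, (exp (-(xs n * v i)) *
        ((fewCount (4 * k) (v i) n : ℝ) / numPartitions n) ^ (1 / k : ℝ)) := by
  have hC := h.C1
  have hP : (0 : ℝ) < numPartitions n := by exact_mod_cast numPartitions_pos n
  have hk0 : (0 : ℝ) < k := by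
    have : 0 < k := by omega
    exact_mod_cast this
  -- the second factor
  have hU : ((UV n v).ncard : ℝ) ≤ C * numPartitions n * ∏ i, exp (-(xs n * v i)) := by
    have hsum : (List.ofFn v).sum = ∑ i, v i := List.sum_ofFn
    rcases le_or_gt (List.ofFn v).sum n with hs | hs
    · have h1 := (hparts n (List.ofFn v)).1 hs
      have h2 := h.up n (n - (List.ofFn v).sum) hn (by omega)
      have h3 : exp (xs n * (((n - (List.ofFn v).sum : ℕ) : ℝ) - n)) =
          ∏ i, exp (-(xs n * v i)) := by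
        rw [← Real.exp_sum, Nat.cast_sub hs, hsum]
        congr 1
        push_cast
        rw [sum_neg_distrib, ← mul_sum]
        ring
      rw [h3] at h2
      calc ((UV n v).ncard : ℝ) ≤ (numPartitions (n - (List.ofFn v).sum) : ℝ) := by
            exact_mod_cast h1
        _ ≤ _ := h2
        _ = _ := by ring
    · have h1 := (hparts n (List.ofFn v)).2 hs
      have h2 : UV n v = ∅ := h1
      rw [h2, Set.ncard_empty, Nat.cast_zero]
      positivity
  -- the first factor
  set r : Fin j → ℝ := fun i => (fewCount (4 * k) (v i) n : ℝ) / numPartitions n with hr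
  set a : ℝ := ((AV k n v).ncard : ℝ) / numPartitions n with ha
  have har : ∀ i, a ≤ r i := by
    intro i
    have h1 : (AV k n v).ncard ≤ fewCount (4 * k) (v i) n := by
      unfold fewCount
      apply Set.ncard_le_ncard _ ((finite_partitions n).subset fun _ hf => hf.1)
      rintro f ⟨hf, hx⟩
      exact ⟨hf, hx i⟩
    have h1' : ((AV k n v).ncard : ℝ) ≤ fewCount (4 * k) (v i) n := by exact_mod_cast h1
    exact div_le_div_of_nonneg_right h1' hP.le
  have ha0 : 0 ≤ a := by positivity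
  have ha1 : a ≤ 1 := by
    rw [ha, div_le_one hP]
    have h1 : (AV k n v).ncard ≤ numPartitions n := by
      unfold numPartitions
      exact Set.ncard_le_ncard (fun f hf => hf.1) (finite_partitions n)
    exact_mod_cast h1
  have hA : a ≤ ∏ i, (r i) ^ (1 / k : ℝ) := by
    rcases ha0.eq_or_lt with h0 | h0
    · rw [← h0]
      apply prod_nonneg
      intro i _
      have : 0 ≤ r i := by rw [hr]; positivity
      positivity
    · calc a = a ^ (1 : ℝ) := (Real.rpow_one a).symm
        _ ≤ a ^ ((j : ℝ) * (1 / k : ℝ)) := by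
            apply Real.rpow_le_rpow_of_exponent_ge h0 ha1
            rw [mul_one_div, div_le_one hk0]
            exact_mod_cast hjk
        _ = (a ^ (1 / k : ℝ)) ^ j := by
            rw [mul_comm, Real.rpow_mul ha0, Real.rpow_natCast]
        _ = ∏ _i : Fin j, a ^ (1 / k : ℝ) := by
            rw [prod_const, card_univ, Fintype.card_fin]
        _ ≤ ∏ i, (r i) ^ (1 / k : ℝ) := by
            apply Finset.prod_le_prod
            · intro i _; positivity
            · intro i _
              exact Real.rpow_le_rpow ha0 (har i) (by positivity)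
  have hA' : ((AV k n v).ncard : ℝ) ≤ numPartitions n * ∏ i, (r i) ^ (1 / k : ℝ) := by
    have : ((AV k n v).ncard : ℝ) = numPartitions n * a := by rw [ha]; field_simp
    rw [this]
    gcongr
  rw [prod_mul_distrib]
  calc ((AV k n v).ncard : ℝ) * ((UV n v).ncard : ℝ)
      ≤ (numPartitions n * ∏ i, (r i) ^ (1 / k : ℝ)) *
        (C * numPartitions n * ∏ i, exp (-(xs n * v i))) :=
        mul_le_mul hA' hU (by positivity) (le_trans (by positivity) hA')
    _ = _ := by ring

theorem dead_of {xs : ℕ → ℝ} {C : ℝ} {n0 : ℕ} (h : Sad xs C n0) (hrh : S_RH) (hins : S_INS)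
    (hparts : S_PARTS) (hfs : S_FSUM xs) (k : ℕ) (hk : 1 ≤ k) :
    ∃ K : ℝ, ∀ᶠ n : ℕ in atTop, zDead k n - zII n ≤ K / Real.log n ^ 2 := by
  have hC := h.C1
  obtain ⟨D, hD, n₁, h1⟩ := hfs k (4 * k) hk
  refine ⟨k * (C * (max D 1) ^ k), ?_⟩
  filter_upwards [eventually_ge_atTop n₁, eventually_ge_atTop n0,
    log_tendsto.eventually_ge_atTop 1] with n e1 e2 e3
  have hP : (0 : ℝ) < numPartitions n := by exact_mod_cast numPartitions_pos n
  have hL0 : 0 < Real.log n := by linarith
  have hcard : ((deadZeros k n).ncard : ℝ) ≤ ((typeIIZeros n).ncard : ℝ) +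
      ∑ j ∈ Icc 2 k, ∑ v ∈ Fintype.piFinset (fun _ : Fin j => Icc 1 n),
      ((AV k n v).ncard : ℝ) * ((UV n v).ncard : ℝ) := by
    exact_mod_cast dead_card hrh hins k n
  have hj : ∀ j ∈ Icc 2 k, ∑ v ∈ Fintype.piFinset (fun _ : Fin j => Icc 1 n),
      ((AV k n v).ncard : ℝ) * ((UV n v).ncard : ℝ) ≤
      C * (max D 1) ^ k / Real.log n ^ 2 * (numPartitions n : ℝ) ^ 2 := by
    intro j hj
    rw [mem_Icc] at hj
    have h2 := h1 n e1
    have hnn : 0 ≤ ∑ t ∈ Icc 1 n, exp (-(xs n * t)) *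
        ((fewCount (4 * k) t n : ℝ) / numPartitions n) ^ (1 / k : ℝ) :=
      sum_nonneg fun t _ => by positivity
    calc ∑ v ∈ Fintype.piFinset (fun _ : Fin j => Icc 1 n),
          ((AV k n v).ncard : ℝ) * ((UV n v).ncard : ℝ)
        ≤ ∑ v ∈ Fintype.piFinset (fun _ : Fin j => Icc 1 n), C * (numPartitions n : ℝ) ^ 2 *
          ∏ i, (exp (-(xs n * v i)) *
            ((fewCount (4 * k) (v i) n : ℝ) / numPartitions n) ^ (1 / k : ℝ)) :=
          sum_le_sum fun v _ => term_le h hparts e2 hj.1 hj.2 v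
      _ = C * (numPartitions n : ℝ) ^ 2 * (∑ t ∈ Icc 1 n, exp (-(xs n * t)) *
            ((fewCount (4 * k) t n : ℝ) / numPartitions n) ^ (1 / k : ℝ)) ^ j := by
          rw [← mul_sum]
          congr 1
          have h3 := Finset.prod_univ_sum (fun _ : Fin j => Icc 1 n)
            (fun (_ : Fin j) (t : ℕ) => exp (-(xs n * t)) *
            ((fewCount (4 * k) t n : ℝ) / numPartitions n) ^ (1 / k : ℝ))
          rw [← h3, prod_const, card_univ, Fintype.card_fin]
      _ ≤ C * (numPartitions n : ℝ) ^ 2 * (D / Real.log n) ^ j := by gcongr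
      _ ≤ C * (numPartitions n : ℝ) ^ 2 * ((max D 1) ^ k / Real.log n ^ 2) := by
          have h4 : (D / Real.log n) ^ j ≤ (max D 1) ^ k / Real.log n ^ 2 := by
            rw [div_pow]
            have h5 : D ^ j ≤ (max D 1) ^ k := by
              calc D ^ j ≤ (max D 1) ^ j := pow_le_pow_left₀ hD.le (le_max_left _ _) j
                _ ≤ (max D 1) ^ k := pow_le_pow_right₀ (le_max_right _ _) hj.2
            have h6 : Real.log n ^ 2 ≤ Real.log n ^ j := pow_le_pow_right₀ e3 hj.1
            exact div_le_div₀ (by positivity) h5 (by positivity) h6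
          gcongr
      _ = _ := by ring
  have hsum := sum_le_sum hj
  rw [sum_const, nsmul_eq_mul, Nat.card_Icc] at hsum
  have hkk : ((k + 1 - 2 : ℕ) : ℝ) ≤ k := by exact_mod_cast (by omega : k + 1 - 2 ≤ k)
  have hmax : 0 < max D 1 := lt_max_of_lt_right one_pos
  unfold zDead zII
  rw [← sub_div, div_le_iff₀ (by positivity)]
  calc ((deadZeros k n).ncard : ℝ) - ((typeIIZeros n).ncard : ℝ) ≤
        ((k + 1 - 2 : ℕ) : ℝ) *
          (C * (max D 1) ^ k / Real.log n ^ 2 * (numPartitions n : ℝ) ^ 2) := by linarith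
    _ ≤ k * (C * (max D 1) ^ k / Real.log n ^ 2 * (numPartitions n : ℝ) ^ 2) := by gcongr
    _ = _ := by ring

end Pool.Agent.W5h11.TZ
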