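import Pool.Agent.W5h11.TZ.Iface5
import Pool.Agent.W5h11.TZ.DeadF

/-! Assembly: polynomial Murnaghan-Nakayama depth, any order. -/

set_option autoImplicit false

namespace Pool.Agent.W5h11.TZ

open Finset Filter Topology Real Pool.Agent.H581R3.Core Pool.Agent.R721.PN

/-- the first components -/
def AM (n j : ℕ) (v : Fin n → ℕ) : Set (ℕ → ℕ) :=
  {f | IsPartition n f ∧ ∀ i : Fin n, v i ≠ 0 → XLe n ((i : ℕ) + 1) f (4 * j)}

theorem count_sum {n : ℕ} (L : List ℕ) (h : ∀ t ∈ L, 1 ≤ t ∧ t ≤ n) :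
    ∑ i : Fin n, L.count ((i : ℕ) + 1) = L.length := by
  have h1 := Multiset.sum_count_eq_card (s := Icc 1 n) (m := (L : Multiset ℕ)) (by
    intro a ha
    rw [mem_Icc]
    exact h a (by simpa using ha))
  rw [Multiset.coe_card] at h1
  rw [← h1, Fin.sum_univ_eq_sum_range (fun i => L.count (i + 1)) n]
  rw [Finset.range_eq_Ico, Finset.sum_Ico_add' (fun i => L.count i) 0 n 1]
  apply sum_congr
  · ext x; simp only [mem_Ico, mem_Icc]; omega
  · intro x _
    exact (Multiset.coe_count x L).symm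

theorem HasParts.um {u : ℕ → ℕ} {L : List ℕ} (h : HasParts u L) (t : ℕ) :
    ∃ S : Finset ℕ, L.count t ≤ S.card ∧ ∀ r ∈ S, u r = t := by
  classical
  obtain ⟨i, hi, hl⟩ := h
  refine ⟨(univ.filter fun j : Fin L.length => L.get j = t).image i, ?_, ?_⟩
  · rw [card_image_of_injective _ hi]
    have := Fin.card_filter_univ_eq_vector_get_eq_count t (⟨L, rfl⟩ : List.Vector ℕ L.length)
    apply le_of_eq
    exact this.symm
  · intro r hr
    rw [mem_image] at hr
    obtain ⟨j, hj, rfl⟩ := hr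
    rw [(hl j).1]
    exact (mem_filter.1 hj).2

theorem dead_sub_m (hrh : S_RH) (hins : S_INS) (k n : ℕ) : deadZeros k n ⊆ typeIIZeros n ∪
    ⋃ j ∈ Icc 2 k, ⋃ v ∈ MV n j, (AM n j v) ×ˢ (UM n v) := by
  classical
  rintro ⟨f, u⟩ ⟨hf, hu, hl⟩
  change IsPartition n f at hf
  change IsPartition n u at hu
  change ∃ l : List ℕ, l.length ≤ k ∧ HasParts u l ∧ Dead n f l at hl
  have hex : ∃ j, ∃ l : List ℕ, l.length = j ∧ HasParts u l ∧ Dead n f l := by
    obtain ⟨l, -, h1, h2⟩ := hl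
    exact ⟨l.length, l, rfl, h1, h2⟩
  obtain ⟨l, hlj, hp, hd⟩ := Nat.find_spec hex
  have hmin : ∀ l' : List ℕ, l'.length < l.length → HasParts u l' → ¬ Dead n f l' := by
    intro l' h1 h2 h3
    rw [hlj] at h1
    exact Nat.find_min hex h1 ⟨l', rfl, h2, h3⟩
  have hlk : l.length ≤ k := by
    obtain ⟨l', h0, h1, h2⟩ := hl
    by_contra hcon
    exact hmin l' (by omega) h1 h2
  rcases l with _ | ⟨a, _ | ⟨b, l⟩⟩
  · exact hd.elim
  · -- length one
    left
    obtain ⟨ha0, i, hi⟩ := hp.mem (List.mem_singleton.2 rfl)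
    refine ⟨hf, hu, i, ?_, ?_⟩
    · change u i ≠ 0
      rw [hi]; exact ha0
    · change IsCore (u i) f
      rw [hi]
      by_contra hc
      obtain ⟨g, hg, hr⟩ := (hrh n a f (by omega) hf).2.1 hc
      exact hd g hg hr
  · -- length at least two
    right
    set L : List ℕ := a :: b :: l with hL
    have hL2 : 2 ≤ L.length := by rw [hL]; simp
    have hLn : ∀ t ∈ L, 1 ≤ t ∧ t ≤ n := by
      intro t ht
      obtain ⟨h0, r, hr⟩ := hp.mem ht
      refine ⟨by omega, ?_⟩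
      rw [← hr]
      exact hu.le r
    rw [Set.mem_iUnion₂]
    refine ⟨L.length, mem_Icc.2 ⟨hL2, hlk⟩, ?_⟩
    rw [Set.mem_iUnion₂]
    refine ⟨fun i : Fin n => L.count ((i : ℕ) + 1), ?_, ?_, ?_⟩
    · unfold MV
      rw [mem_filter, Fintype.mem_piFinset]
      refine ⟨fun i => ?_, count_sum L hLn⟩
      rw [mem_range]
      exact Nat.lt_succ_of_le List.count_le_length
    · refine ⟨hf, fun i hi => ?_⟩
      have hi' : ((i : ℕ) + 1) ∈ L := List.count_pos_iff.1 (Nat.pos_of_ne_zero hi)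
      obtain ⟨s, s', hs⟩ := List.append_of_mem hi'
      generalize (i : ℕ) + 1 = t at hs
      have hlen : (s ++ s').length + 1 = L.length := by
        rw [hs]; simp; omega
      have hall : ∀ r ∈ L, 1 ≤ r := fun r hr => (hLn r hr).1
      have hsub : (s ++ s').Sublist L := by
        rw [hs]; exact List.Sublist.append_left (List.sublist_cons_self t s') s
      have h1 := hins n t f s s' hf (hall t (by rw [hs]; simp)) (fun r hr => hall r (by
        rw [hs]; simp [hr])) (fun r hr => hall r (by rw [hs]; simp [hr])) (by rw [← hs]; exact hd)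
        (hmin _ (by omega) (hp.sub hsub))
      intro N hN
      exact (h1 N hN).trans (by omega)
    · exact ⟨hu, fun i => hp.um _⟩

theorem AM_finite (n j : ℕ) (v : Fin n → ℕ) : (AM n j v).Finite :=
  (finite_partitions n).subset fun _ hf => hf.1

theorem UM_finite (n : ℕ) (v : Fin n → ℕ) : (UM n v).Finite :=
  (finite_partitions n).subset fun _ hf => hf.1

theorem dead_card_m (hrh : S_RH) (hins : S_INS) (k n : ℕ) : (deadZeros k n).ncard ≤
    (typeIIZeros n).ncard + ∑ j ∈ Icc 2 k, ∑ v ∈ MV n j, (AM n j v).ncard * (UM n v).ncard := by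
  have hfin : (⋃ j ∈ Icc 2 k, ⋃ v ∈ MV n j, (AM n j v) ×ˢ (UM n v)).Finite := by
    apply Set.Finite.biUnion (finite_toSet _)
    intro j _
    apply Set.Finite.biUnion (finite_toSet _)
    intro v _
    exact (AM_finite n j v).prod (UM_finite n v)
  refine (Set.ncard_le_ncard (dead_sub_m hrh hins k n) ((typeII_finite n).union hfin)).trans ?_
  refine (Set.ncard_union_le _ _).trans ?_
  gcongr
  refine (Finset.set_ncard_biUnion_le _ _).trans ?_
  apply sum_le_sum
  intro j _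
  refine (Finset.set_ncard_biUnion_le _ _).trans ?_
  apply sum_le_sum
  intro v _
  rw [Set.ncard_prod]

theorem AM_le {xs : ℕ → ℝ} {c B D : ℝ} {n j : ℕ} (hc : 0 < c) (hB : 1 ≤ B) (hD : 1 ≤ D)
    (hj : 1 ≤ j) (h : ∀ t : ℕ, 1 ≤ t → t ≤ n → (fewCount (4 * j) t n : ℝ) ≤
      D * B ^ j * exp (-(c * qq xs n t)) * numPartitions n) (v : Fin n → ℕ) (hv : v ∈ MV n j) :
    ((AM n j v).ncard : ℝ) ≤ D * B ^ j * numPartitions n *
      ∏ i : Fin n, exp (-(c * qq xs n ((i : ℕ) + 1) / j)) ^ v i := by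
  classical
  have hP : (0 : ℝ) < numPartitions n := by exact_mod_cast numPartitions_pos n
  have hj0 : (0 : ℝ) < j := by exact_mod_cast hj
  have hsum : ∑ i, v i = j := (mem_filter.1 hv).2
  have hne : (univ.filter fun i : Fin n => v i ≠ 0).Nonempty := by
    by_contra hcon
    rw [not_nonempty_iff_eq_empty, filter_eq_empty_iff] at hcon
    have : ∑ i, v i = 0 := sum_eq_zero fun i hi => by simpa using hcon hi
    omega
  obtain ⟨i₀, hi₀, hmax⟩ := Finset.exists_max_image _ (fun i : Fin n => qq xs n ((i : ℕ) + 1)) hne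
  have hvi : v i₀ ≠ 0 := (mem_filter.1 hi₀).2
  have h1 : (AM n j v).ncard ≤ fewCount (4 * j) ((i₀ : ℕ) + 1) n := by
    unfold fewCount
    apply Set.ncard_le_ncard _ ((finite_partitions n).subset fun _ hf => hf.1)
    rintro f ⟨hf, hx⟩
    exact ⟨hf, hx i₀ hvi⟩
  have h1' : ((AM n j v).ncard : ℝ) ≤ fewCount (4 * j) ((i₀ : ℕ) + 1) n := by exact_mod_cast h1
  have h2 := h ((i₀ : ℕ) + 1) (by omega) (by have := i₀.2; omega)
  have h3 : ∏ i : Fin n, exp (-(c * qq xs n ((i : ℕ) + 1) / j)) ^ v i =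
      exp (∑ i : Fin n, (v i : ℝ) * (-(c * qq xs n ((i : ℕ) + 1) / j))) := by
    rw [Real.exp_sum]
    apply prod_congr rfl
    intro i _
    rw [← Real.exp_nat_mul]
  have h4 : ∑ i : Fin n, (v i : ℝ) * (c * qq xs n ((i : ℕ) + 1) / j) ≤
      c * qq xs n ((i₀ : ℕ) + 1) := by
    calc ∑ i : Fin n, (v i : ℝ) * (c * qq xs n ((i : ℕ) + 1) / j)
        ≤ ∑ i : Fin n, (v i : ℝ) * (c * qq xs n ((i₀ : ℕ) + 1) / j) := by
          apply sum_le_sum
          intro i _
          by_cases hi : v i = 0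
          · rw [hi]; simp
          · have := hmax i (mem_filter.2 ⟨mem_univ _, hi⟩)
            gcongr
      _ = (∑ i : Fin n, (v i : ℝ)) * (c * qq xs n ((i₀ : ℕ) + 1) / j) := by rw [sum_mul]
      _ = c * qq xs n ((i₀ : ℕ) + 1) := by
          have : (∑ i : Fin n, (v i : ℝ)) = j := by exact_mod_cast hsum
          rw [this]
          field_simp
  have h5 : exp (-(c * qq xs n ((i₀ : ℕ) + 1))) ≤
      ∏ i : Fin n, exp (-(c * qq xs n ((i : ℕ) + 1) / j)) ^ v i := by
    rw [h3]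
    apply Real.exp_le_exp.2
    have : ∑ i : Fin n, (v i : ℝ) * (-(c * qq xs n ((i : ℕ) + 1) / j)) =
        -∑ i : Fin n, (v i : ℝ) * (c * qq xs n ((i : ℕ) + 1) / j) := by
      rw [← sum_neg_distrib]
      apply sum_congr rfl
      intro i _
      ring
    rw [this]
    linarith
  calc ((AM n j v).ncard : ℝ) ≤ D * B ^ j * exp (-(c * qq xs n ((i₀ : ℕ) + 1))) *
        numPartitions n := h1'.trans h2
    _ ≤ D * B ^ j * (∏ i : Fin n, exp (-(c * qq xs n ((i : ℕ) + 1) / j)) ^ v i) *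
        numPartitions n := by gcongr
    _ = _ := by ring

theorem UM_le {xs : ℕ → ℝ} {C : ℝ} {n0 : ℕ} (h : Sad xs C n0) (hcnt : S_CNTM) {n : ℕ}
    (hn : n0 ≤ n) (v : Fin n → ℕ) : ((UM n v).ncard : ℝ) ≤ C * numPartitions n *
      ∏ i : Fin n, exp (-(xs n * (((i : ℕ) + 1 : ℕ) : ℝ))) ^ v i := by
  have hC := h.C1
  have hP : (0 : ℝ) < numPartitions n := by exact_mod_cast numPartitions_pos n
  rcases le_or_gt (∑ i : Fin n, v i * ((i : ℕ) + 1)) n with hs | hs
  · have h1 := (hcnt n v).1 hs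
    have h2 := h.up n (n - ∑ i : Fin n, v i * ((i : ℕ) + 1)) hn (by omega)
    have h3 : exp (xs n * (((n - ∑ i : Fin n, v i * ((i : ℕ) + 1) : ℕ) : ℝ) - n)) =
        ∏ i : Fin n, exp (-(xs n * (((i : ℕ) + 1 : ℕ) : ℝ))) ^ v i := by
      have h4 : ∏ i : Fin n, exp (-(xs n * (((i : ℕ) + 1 : ℕ) : ℝ))) ^ v i =
          exp (∑ i : Fin n, (v i : ℝ) * (-(xs n * (((i : ℕ) + 1 : ℕ) : ℝ)))) := by
        rw [Real.exp_sum]
        apply prod_congr rfl
        intro i _
        rw [← Real.exp_nat_mul]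
      rw [h4, Nat.cast_sub hs, Nat.cast_sum]
      congr 1
      have h5 : ∑ i : Fin n, (v i : ℝ) * (-(xs n * (((i : ℕ) + 1 : ℕ) : ℝ))) =
          -(xs n * ∑ i : Fin n, ((v i * ((i : ℕ) + 1) : ℕ) : ℝ)) := by
        rw [mul_sum, ← sum_neg_distrib]
        apply sum_congr rfl
        intro i _
        push_cast
        ring
      rw [h5]
      ring
    rw [h3] at h2
    calc ((UM n v).ncard : ℝ) ≤ (numPartitions (n - ∑ i : Fin n, v i * ((i : ℕ) + 1)) : ℝ) := by
          exact_mod_cast h1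
      _ ≤ _ := h2
      _ = _ := by ring
  · rw [(hcnt n v).2 hs, Set.ncard_empty, Nat.cast_zero]
    positivity

theorem poly_of {xs : ℕ → ℝ} {C : ℝ} {n0 : ℕ} (h : Sad xs C n0) (hrh : S_RH) (hins : S_INS)
    (hfe : S_FEXP xs) (haj : S_AJ xs) (hhs : S_HSUM) (hcnt : S_CNTM) (ε : ℝ) (hε : 0 < ε)
    (hε' : ε < 1 / 2) : ∃ K : ℝ, 0 ≤ K ∧ ∀ᶠ n : ℕ in atTop, ∀ k : ℕ, 1 ≤ k →
      (k : ℝ) ≤ (n : ℝ) ^ (1 / 2 - ε) → zDead k n - zII n ≤ K / Real.log n ^ 2 := by
  have hC := h.C1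
  obtain ⟨c, B, D, hc, hB, hD, n₁, h1⟩ := hfe ε hε hε'
  obtain ⟨G, hG, n₂, h2⟩ := haj ε c hε hε' hc
  set q : ℝ := B * exp 2 * G with hq
  have hq0 : 0 < q := by positivity
  refine ⟨2 * (C * D) * q ^ 2, by positivity, ?_⟩
  filter_upwards [eventually_ge_atTop n₁, eventually_ge_atTop n0, eventually_ge_atTop n₂,
    log_tendsto.eventually_ge_atTop 1, log_tendsto.eventually_ge_atTop (2 * q),
    log_tendsto.eventually_ge_atTop (2 / G)] with n e1 e2 e3 e4 e5 e6
  intro k hk hkn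
  have hP : (0 : ℝ) < numPartitions n := by exact_mod_cast numPartitions_pos n
  have hL0 : 0 < Real.log n := by linarith
  set L : ℝ := Real.log n with hL
  have hcard : ((deadZeros k n).ncard : ℝ) ≤ ((typeIIZeros n).ncard : ℝ) +
      ∑ j ∈ Icc 2 k, ∑ v ∈ MV n j, ((AM n j v).ncard : ℝ) * ((UM n v).ncard : ℝ) := by
    exact_mod_cast dead_card_m hrh hins k n
  have hj : ∀ j ∈ Icc 2 k, ∑ v ∈ MV n j, ((AM n j v).ncard : ℝ) * ((UM n v).ncard : ℝ) ≤
      C * D * (numPartitions n : ℝ) ^ 2 * (q / L) ^ j := by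
    intro j hj
    rw [mem_Icc] at hj
    have hj1 : 1 ≤ j := by omega
    have hj0 : (0 : ℝ) < j := by exact_mod_cast hj1
    have hjn : (j : ℝ) ≤ (n : ℝ) ^ (1 / 2 - ε) :=
      le_trans (by exact_mod_cast hj.2) hkn
    obtain ⟨h3, h4⟩ := h2 n j e3 hj1 hjn
    set a : Fin n → ℝ := fun i => exp (-(xs n * (((i : ℕ) + 1 : ℕ) : ℝ))) *
      exp (-(c * qq xs n ((i : ℕ) + 1) / j)) with ha
    have ha0 : ∀ i, 0 ≤ a i := fun i => by rw [ha]; positivity
    have hz0 : 0 < L / G := by positivity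
    have haz : ∀ i, a i * (L / G) ≤ 1 / 2 := by
      intro i
      have h5 := h3 ((i : ℕ) + 1) (mem_Icc.2 ⟨by omega, by have := i.2; omega⟩)
      have h6 : a i ≤ 1 / L ^ 2 := h5
      calc a i * (L / G) ≤ 1 / L ^ 2 * (L / G) := by gcongr
        _ = 1 / (L * G) := by field_simp
        _ ≤ 1 / 2 := by
            apply one_div_le_one_div_of_le (by norm_num)
            rw [div_le_iff₀ hG] at e6
            linarith
    have hsa : ∑ i, a i ≤ G * j / L := by
      have h5 : ∑ i, a i = ∑ t ∈ Icc 1 n, exp (-(xs n * t)) * exp (-(c * qq xs n t / j)) := by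
        rw [ha, Fin.sum_univ_eq_sum_range (fun i => exp (-(xs n * ((i + 1 : ℕ) : ℝ))) *
          exp (-(c * qq xs n (i + 1) / j))) n]
        rw [Finset.range_eq_Ico, Finset.sum_Ico_add' (fun t : ℕ => exp (-(xs n * (t : ℝ))) *
          exp (-(c * qq xs n t / j))) 0 n 1]
        apply sum_congr
        · ext x; simp only [mem_Ico, mem_Icc]; omega
        · intro x _; rfl
      rw [h5]
      exact h4
    have hs := hhs n j a (L / G) hz0 ha0 haz
    have hs' : ∑ v ∈ MV n j, ∏ i, a i ^ v i ≤ exp 2 ^ j * (G / L) ^ j := by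
      refine hs.trans ?_
      rw [div_eq_mul_inv, ← inv_pow, inv_div]
      gcongr
      rw [← Real.exp_nat_mul]
      apply Real.exp_le_exp.2
      calc 2 * (L / G) * ∑ i, a i ≤ 2 * (L / G) * (G * j / L) := by gcongr
        _ = (j : ℝ) * 2 := by field_simp
    calc ∑ v ∈ MV n j, ((AM n j v).ncard : ℝ) * ((UM n v).ncard : ℝ)
        ≤ ∑ v ∈ MV n j, C * D * B ^ j * (numPartitions n : ℝ) ^ 2 * ∏ i, a i ^ v i := by
          apply sum_le_sum
          intro v hv
          have g1 := AM_le hc hB hD hj1 (fun t ht1 ht2 => h1 n j t e1 hj1 hjn ht1 ht2) v hv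
          have g2 := UM_le h hcnt e2 v
          have g3 : ∏ i, a i ^ v i = (∏ i : Fin n, exp (-(c * qq xs n ((i : ℕ) + 1) / j)) ^ v i) *
              ∏ i : Fin n, exp (-(xs n * (((i : ℕ) + 1 : ℕ) : ℝ))) ^ v i := by
            rw [← prod_mul_distrib]
            apply prod_congr rfl
            intro i _
            rw [ha, mul_pow, mul_comm]
          rw [g3]
          calc ((AM n j v).ncard : ℝ) * ((UM n v).ncard : ℝ)
              ≤ (D * B ^ j * numPartitions n *
                  ∏ i : Fin n, exp (-(c * qq xs n ((i : ℕ) + 1) / j)) ^ v i) *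
                (C * numPartitions n *
                  ∏ i : Fin n, exp (-(xs n * (((i : ℕ) + 1 : ℕ) : ℝ))) ^ v i) :=
                mul_le_mul g1 g2 (by positivity) (le_trans (by positivity) g1)
            _ = _ := by ring
      _ = C * D * B ^ j * (numPartitions n : ℝ) ^ 2 * ∑ v ∈ MV n j, ∏ i, a i ^ v i := by
          rw [mul_sum]
      _ ≤ C * D * B ^ j * (numPartitions n : ℝ) ^ 2 * (exp 2 ^ j * (G / L) ^ j) := by gcongr
      _ = C * D * (numPartitions n : ℝ) ^ 2 * (q / L) ^ j := by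
          rw [hq, div_pow, div_pow, mul_pow, mul_pow]
          ring
  have hsum := sum_le_sum hj
  rw [← mul_sum] at hsum
  have hr0 : 0 ≤ q / L := by positivity
  have hr1 : q / L ≤ 1 / 2 := by
    rw [div_le_iff₀ hL0]; linarith
  have hgeo : ∑ j ∈ Icc 2 k, (q / L) ^ j ≤ 2 * (q / L) ^ 2 := by
    have g1 : Icc 2 k = Ico 2 (k + 1) := by ext x; simp only [mem_Ico, mem_Icc]; omega
    rw [g1]
    refine (geom_sum_Ico_le_of_lt_one hr0 (by linarith)).trans ?_
    rw [div_le_iff₀ (by linarith)]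
    have : 0 ≤ (q / L) ^ 2 := by positivity
    nlinarith
  unfold zDead zII
  rw [← sub_div, div_le_iff₀ (by positivity)]
  calc ((deadZeros k n).ncard : ℝ) - ((typeIIZeros n).ncard : ℝ) ≤
        C * D * (numPartitions n : ℝ) ^ 2 * ∑ j ∈ Icc 2 k, (q / L) ^ j := by linarith
    _ ≤ C * D * (numPartitions n : ℝ) ^ 2 * (2 * (q / L) ^ 2) := by gcongr
    _ = _ := by rw [div_pow]; ring

end Pool.Agent.W5h11.TZ
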