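import Pool.Agent.W5h11.TZ.Iface6
import Pool.Agent.W5h11.TZ.Poly

/-! (Y2): few partitions have many parts `≥ 16 √n log log n`. -/

set_option autoImplicit false

namespace Pool.Agent.W5h11.TZ

open Finset Filter Topology Real Pool.Agent.H581R3.Core Pool.Agent.R721.PN

namespace LPP

/-- the number of parts -/
noncomputable def MM (n : ℕ) : ℕ := ⌊√(n : ℝ) / (2 * Real.log n ^ 2)⌋₊ + 1

open Classical in
/-- the multiplicity vectors supported on the large parts -/
noncomputable def FV (n : ℕ) : Finset (Fin n → ℕ) :=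
  (MV n (MM n)).filter fun v => ∀ i, v i ≠ 0 → TT n ≤ (((i : ℕ) + 1 : ℕ) : ℝ)

theorem ml_sub (n : ℕ) : ML n ⊆ ⋃ v ∈ FV n, UM n v := by
  classical
  rintro u ⟨hu, l, hT, hlen, hp⟩
  have hM : MM n ≤ l.length := by
    unfold MM
    have : ⌊√(n : ℝ) / (2 * Real.log n ^ 2)⌋₊ < l.length := (Nat.floor_lt (by positivity)).2 hlen
    omega
  set L := l.take (MM n) with hL
  have hsub : L.Sublist l := List.take_sublist _ _
  have hpL := hp.sub hsub
  have hLlen : L.length = MM n := by rw [hL, List.length_take]; omega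
  have hLn : ∀ t ∈ L, 1 ≤ t ∧ t ≤ n := by
    intro t ht
    obtain ⟨h0, r, hr⟩ := hpL.mem ht
    refine ⟨by omega, ?_⟩
    rw [← hr]
    exact hu.le r
  rw [Set.mem_iUnion₂]
  refine ⟨fun i : Fin n => L.count ((i : ℕ) + 1), ?_, hu, fun i => hpL.um _⟩
  unfold FV
  rw [mem_filter]
  refine ⟨?_, ?_⟩
  · unfold MV
    rw [mem_filter, Fintype.mem_piFinset]
    refine ⟨fun i => ?_, ?_⟩
    · rw [mem_range, ← hLlen]
      exact Nat.lt_succ_of_le List.count_le_length
    · rw [count_sum L hLn, hLlen]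
  · intro i hi
    have hi' : ((i : ℕ) + 1) ∈ L := List.count_pos_iff.1 (Nat.pos_of_ne_zero hi)
    exact hT _ (hsub.subset hi')

theorem ml_card (n : ℕ) : (ML n).ncard ≤ ∑ v ∈ FV n, (UM n v).ncard := by
  refine (Set.ncard_le_ncard (ml_sub n) ?_).trans (Finset.set_ncard_biUnion_le _ _)
  exact Set.Finite.biUnion (finite_toSet _) fun v _ => UM_finite n v

open Classical in
/-- the weights -/
noncomputable def aa (x T : ℝ) (n : ℕ) (i : Fin n) : ℝ :=
  if T ≤ (((i : ℕ) + 1 : ℕ) : ℝ) then exp (-(x * (((i : ℕ) + 1 : ℕ) : ℝ))) else 0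

theorem aa_nonneg (x T : ℝ) (n : ℕ) (i : Fin n) : 0 ≤ aa x T n i := by
  unfold aa
  split_ifs <;> positivity

theorem geo (y : ℝ) (hy : 0 < y) (n : ℕ) :
    ∑ i : Fin n, exp (-(y * (((i : ℕ) + 1 : ℕ) : ℝ))) ≤ 1 / y := by
  rw [Fin.sum_univ_eq_sum_range (fun i => exp (-(y * ((i + 1 : ℕ) : ℝ)))) n]
  set r := exp (-y) with hr
  have hr0 : 0 < r := exp_pos _
  have h1 : r * y ≤ 1 - r := by
    have h2 : y + 1 ≤ exp y := add_one_le_exp y
    have h3 : r * exp y = 1 := by rw [hr, ← exp_add]; simp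
    nlinarith
  have h2 : ∀ i : ℕ, exp (-(y * ((i + 1 : ℕ) : ℝ))) = r ^ (i + 1) := by
    intro i
    rw [hr, ← Real.exp_nat_mul]
    congr 1
    push_cast
    ring
  rw [le_div_iff₀ hy, sum_mul]
  calc ∑ i ∈ range n, exp (-(y * ((i + 1 : ℕ) : ℝ))) * y ≤ ∑ i ∈ range n, (r ^ i - r ^ (i + 1)) := by
        apply sum_le_sum
        intro i _
        rw [h2 i, pow_succ]
        have : 0 < r ^ i := pow_pos hr0 i
        nlinarith
    _ = r ^ 0 - r ^ n := sum_range_sub' _ _
    _ ≤ 1 := by
        have : 0 < r ^ n := pow_pos hr0 n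
        simp only [pow_zero]
        linarith

theorem sum_aa (x T δ : ℝ) (n : ℕ) (hx : 0 < x) (hδ : exp (-(3 / 4 * (x * T))) ≤ δ) :
    ∑ i : Fin n, aa x T n i ≤ δ * (4 / x) := by
  have hδ0 : 0 < δ := lt_of_lt_of_le (exp_pos _) hδ
  have h1 : ∀ i : Fin n, aa x T n i ≤ δ * exp (-(x / 4 * (((i : ℕ) + 1 : ℕ) : ℝ))) := by
    intro i
    unfold aa
    split_ifs with hT
    · set t : ℝ := (((i : ℕ) + 1 : ℕ) : ℝ)
      calc exp (-(x * t)) = exp (-(3 / 4 * (x * t))) * exp (-(x / 4 * t)) := by
            rw [← exp_add]; congr 1; ring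
        _ ≤ δ * exp (-(x / 4 * t)) := by
            apply mul_le_mul_of_nonneg_right _ (exp_pos _).le
            refine le_trans (exp_le_exp.2 ?_) hδ
            have : x * T ≤ x * t := mul_le_mul_of_nonneg_left hT hx.le
            linarith
    · positivity
  calc ∑ i : Fin n, aa x T n i ≤ ∑ i : Fin n, δ * exp (-(x / 4 * (((i : ℕ) + 1 : ℕ) : ℝ))) :=
        sum_le_sum fun i _ => h1 i
    _ = δ * ∑ i : Fin n, exp (-(x / 4 * (((i : ℕ) + 1 : ℕ) : ℝ))) := by rw [mul_sum]
    _ ≤ δ * (1 / (x / 4)) := mul_le_mul_of_nonneg_left (geo (x / 4) (by positivity) n) hδ0.le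
    _ = δ * (4 / x) := by
        rw [one_div_div]

end LPP

open LPP

theorem lp (hh : S_HSUM) (hc : S_CNTM) : S_Y2 := by
  classical
  intro xs C n0 h
  have hC := h.C1
  have hev : ∀ᶠ n : ℕ in atTop, Real.log n ^ 10 ≤ (n : ℝ) := by
    have h1 := (Real.isLittleO_pow_log_id_atTop (n := 10)).bound one_pos
    have h2 := tendsto_natCast_atTop_atTop (R := ℝ) |>.eventually h1
    filter_upwards [h2] with n hn
    rw [one_mul, id, Real.norm_eq_abs, Real.norm_eq_abs] at hn
    exact (le_abs_self _).trans (hn.trans_eq (abs_of_nonneg (Nat.cast_nonneg n)))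
  have hall : ∀ᶠ n : ℕ in atTop, ((ML n).ncard : ℝ) ≤ 1 / Real.log n ^ 2 * numPartitions n := by
    filter_upwards [hev, eventually_ge_atTop n0, log_tendsto.eventually_ge_atTop 400,
      log_tendsto.eventually_ge_atTop (4 * C), eventually_ge_atTop 1] with n e1 e2 e3 e4 e5
    have hP : (0 : ℝ) < numPartitions n := by exact_mod_cast numPartitions_pos n
    have hn1 : (1 : ℝ) ≤ n := by exact_mod_cast e5
    set L : ℝ := Real.log n with hL
    have hL0 : 0 < L := by linarith
    set s : ℝ := √(n : ℝ) with hs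
    have hs0 : 0 < s := Real.sqrt_pos.2 (by linarith)
    have hsL : L ^ 5 ≤ s := by
      rw [hs]
      apply Real.le_sqrt_of_sq_le
      calc (L ^ 5) ^ 2 = L ^ 10 := by ring
        _ ≤ (n : ℝ) := e1
    set x : ℝ := xs n with hx
    have hx0 : 0 < x := h.pos n e2
    have hxlo : 1 / (4 * s) ≤ x := h.lo n e2
    have hlogL : 0 ≤ Real.log L := Real.log_nonneg (by linarith)
    have hxT : 4 * Real.log L ≤ x * TT n := by
      unfold TT
      calc 4 * Real.log L = 1 / (4 * s) * (16 * (s * Real.log L)) := by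
            field_simp
            ring
        _ ≤ x * (16 * (s * Real.log L)) := by
            apply mul_le_mul_of_nonneg_right hxlo
            positivity
    have hexp : exp (-(3 / 4 * (x * TT n))) ≤ (L ^ 3)⁻¹ := by
      have h1 : exp (-(3 * Real.log L)) = (L ^ 3)⁻¹ := by
        rw [Real.exp_neg, show 3 * Real.log L = Real.log (L ^ 3) by rw [Real.log_pow]; norm_num,
          Real.exp_log (by positivity)]
      rw [← h1]
      apply exp_le_exp.2
      linarith
    have he3 : exp 1 ≤ 3 := by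
      have := Real.exp_one_lt_d9
      linarith
    have ha1 : ∀ i, aa x (TT n) n i * exp 1 ≤ 1 / 2 := by
      intro i
      have h1 : aa x (TT n) n i ≤ (L ^ 3)⁻¹ := by
        unfold aa
        split_ifs with hT
        · refine le_trans (exp_le_exp.2 ?_) hexp
          have h2 : x * TT n ≤ x * (((i : ℕ) + 1 : ℕ) : ℝ) := mul_le_mul_of_nonneg_left hT hx0.le
          linarith
        · positivity
      have h2 : (L ^ 3)⁻¹ ≤ 1 / 6 := by
        rw [inv_le_comm₀ (by positivity) (by norm_num)]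
        have : (400 : ℝ) ^ 3 ≤ L ^ 3 := pow_le_pow_left₀ (by norm_num) e3 3
        norm_num at this ⊢
        linarith
      calc aa x (TT n) n i * exp 1 ≤ (1 / 6) * 3 :=
            mul_le_mul (h1.trans h2) he3 (exp_pos _).le (by norm_num)
        _ = 1 / 2 := by norm_num
    have hS : ∑ i : Fin n, aa x (TT n) n i ≤ 16 * s / L ^ 3 := by
      refine (sum_aa x (TT n) _ n hx0 hexp).trans ?_
      have h1 : 4 / x ≤ 16 * s := by
        rw [div_le_iff₀ hx0]
        have : 1 ≤ x * (4 * s) := by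
          rw [div_le_iff₀ (by positivity)] at hxlo
          exact hxlo
        linarith
      calc (L ^ 3)⁻¹ * (4 / x) ≤ (L ^ 3)⁻¹ * (16 * s) :=
            mul_le_mul_of_nonneg_left h1 (by positivity)
        _ = 16 * s / L ^ 3 := by ring
    have hS0 : 0 ≤ ∑ i : Fin n, aa x (TT n) n i := sum_nonneg fun i _ => aa_nonneg _ _ _ _
    have hM : s / (2 * L ^ 2) ≤ MM n := by
      unfold MM
      push_cast
      exact (Nat.lt_floor_add_one _).le
    have hhs := hh n (MM n) (aa x (TT n) n) (exp 1) (exp_pos _) (fun i => aa_nonneg _ _ _ _) ha1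
    have hy0 : 0 < s / (4 * L ^ 2) := by positivity
    have hfin : exp (2 * exp 1 * ∑ i, aa x (TT n) n i) / exp 1 ^ MM n ≤ 4 / L ^ 3 := by
      rw [← Real.exp_nat_mul, ← exp_sub]
      have h1 : 2 * exp 1 * ∑ i, aa x (TT n) n i ≤ s / (4 * L ^ 2) := by
        calc 2 * exp 1 * ∑ i, aa x (TT n) n i ≤ 2 * 3 * (16 * s / L ^ 3) := by
              apply mul_le_mul _ hS hS0 (by norm_num)
              linarith
          _ = (384 / L) * (s / (4 * L ^ 2)) := by field_simp; norm_num
          _ ≤ 1 * (s / (4 * L ^ 2)) := by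
              apply mul_le_mul_of_nonneg_right _ hy0.le
              rw [div_le_one hL0]
              linarith
          _ = s / (4 * L ^ 2) := one_mul _
      have h2 : s / (2 * L ^ 2) = 2 * (s / (4 * L ^ 2)) := by ring
      have h3 : 2 * exp 1 * ∑ i, aa x (TT n) n i - (MM n : ℝ) * 1 ≤ -(s / (4 * L ^ 2)) := by
        rw [h2] at hM
        linarith
      refine (exp_le_exp.2 h3).trans ?_
      rw [Real.exp_neg]
      have h4 : s / (4 * L ^ 2) ≤ exp (s / (4 * L ^ 2)) := by
        have := add_one_le_exp (s / (4 * L ^ 2))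
        linarith
      calc (exp (s / (4 * L ^ 2)))⁻¹ ≤ (s / (4 * L ^ 2))⁻¹ := inv_anti₀ hy0 h4
        _ = 4 * L ^ 2 / s := by rw [inv_div]
        _ ≤ 4 * L ^ 2 / L ^ 5 := div_le_div_of_nonneg_left (by positivity) (by positivity) hsL
        _ = 4 / L ^ 3 := by field_simp
    have hcard : ((ML n).ncard : ℝ) ≤ ∑ v ∈ FV n, ((UM n v).ncard : ℝ) := by
      exact_mod_cast ml_card n
    have hstep : ∑ v ∈ FV n, ((UM n v).ncard : ℝ) ≤
        C * numPartitions n * ∑ v ∈ MV n (MM n), ∏ i, aa x (TT n) n i ^ v i := by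
      rw [mul_sum]
      calc ∑ v ∈ FV n, ((UM n v).ncard : ℝ) ≤
            ∑ v ∈ FV n, C * numPartitions n * ∏ i, aa x (TT n) n i ^ v i := by
            apply sum_le_sum
            intro v hv
            have hv2 := (mem_filter.1 hv).2
            have h1 := UM_le h hc e2 v
            have h2 : ∏ i : Fin n, exp (-(xs n * (((i : ℕ) + 1 : ℕ) : ℝ))) ^ v i =
                ∏ i, aa x (TT n) n i ^ v i := by
              apply prod_congr rfl
              intro i _
              by_cases hi : v i = 0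
              · rw [hi, pow_zero, pow_zero]
              · unfold aa
                rw [if_pos (hv2 i hi)]
            rw [h2] at h1
            exact h1
        _ ≤ ∑ v ∈ MV n (MM n), C * numPartitions n * ∏ i, aa x (TT n) n i ^ v i := by
            apply sum_le_sum_of_subset_of_nonneg
            · exact filter_subset _ _
            · intro v _ _
              have : 0 ≤ ∏ i, aa x (TT n) n i ^ v i :=
                prod_nonneg fun i _ => pow_nonneg (aa_nonneg _ _ _ _) _
              positivity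
    calc ((ML n).ncard : ℝ) ≤ C * numPartitions n * ∑ v ∈ MV n (MM n), ∏ i, aa x (TT n) n i ^ v i :=
          hcard.trans hstep
      _ ≤ C * numPartitions n * (4 / L ^ 3) := by
          apply mul_le_mul_of_nonneg_left (hhs.trans hfin)
          positivity
      _ = (4 * C / L) * (1 / L ^ 2 * numPartitions n) := by field_simp
      _ ≤ 1 * (1 / L ^ 2 * numPartitions n) := by
          apply mul_le_mul_of_nonneg_right _ (by positivity)
          rw [div_le_one hL0]
          exact e4
      _ = 1 / L ^ 2 * numPartitions n := one_mul _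
  obtain ⟨n₁, h1⟩ := eventually_atTop.1 hall
  exact ⟨n₁, h1⟩

end Pool.Agent.W5h11.TZ
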