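import Pool.Agent.W5h11.TZ.Iface

/-! Task T3: a lower bound for the number of the zeros of type I. -/

set_option autoImplicit false

namespace Pool.Agent.W5h11.TZ

open Finset Pool.Agent.H581R3.Core Pool.Agent.R721.PN

/-- Adding a first part. -/
theorem IsPartition_cons {n t : ℕ} (htn : t ≤ n) {g : ℕ → ℕ} (hg : IsPartition (n - t) g)
    (h0 : g 0 ≤ t) : IsPartition n (fun i => if i = 0 then t else g (i - 1)) := by
  refine isPartition_of_sum (N := n - t + 1) ?_ ?_ ?_
  · intro a b hab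
    by_cases ha : a = 0
    · by_cases hb : b = 0
      · simp [ha, hb]
      · simp only [ha, hb, if_true, if_false]
        exact (hg.1 (Nat.zero_le _)).trans h0
    · have hb : b ≠ 0 := by omega
      simp only [ha, hb, if_false]
      exact hg.1 (by omega)
  · intro i hi
    have hi0 : i ≠ 0 := by omega
    simp only [hi0, if_false]
    exact hg.2.1 _ (by omega)
  · rw [sum_range_succ']
    simp only [Nat.add_eq_zero_iff, one_ne_zero, and_false, if_false, Nat.add_sub_cancel, if_true]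
    rw [hg.2.2]
    omega

/-- The partitions of `n` with first part `t`. -/
theorem first_lower {n t : ℕ} (htn : t ≤ n) :
    numPartitions (n - t) ≤ {f : ℕ → ℕ | IsPartition n f ∧ f 0 = t}.ncard +
      ∑ s ∈ Ioc t (n - t), numPartitions (n - t - s) := by
  have hsub : {g : ℕ → ℕ | IsPartition (n - t) g} ⊆
      {g : ℕ → ℕ | IsPartition (n - t) g ∧ g 0 ≤ t} ∪
        ⋃ s ∈ Ioc t (n - t), {g : ℕ → ℕ | IsPartition (n - t) g ∧ g 0 = s} := by
    intro g hg
    have hg' : IsPartition (n - t) g := hg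
    by_cases h : g 0 ≤ t
    · exact Or.inl ⟨hg', h⟩
    · right
      simp only [Set.mem_iUnion, mem_Ioc, Set.mem_ofPred_eq]
      exact ⟨g 0, ⟨by omega, hg'.le 0⟩, hg', rfl⟩
  have hfin1 : {g : ℕ → ℕ | IsPartition (n - t) g ∧ g 0 ≤ t}.Finite :=
    (finite_partitions (n - t)).subset fun _ h => h.1
  have hfin2 : (⋃ s ∈ Ioc t (n - t), {g : ℕ → ℕ | IsPartition (n - t) g ∧ g 0 = s}).Finite :=
    Set.Finite.biUnion (finite_toSet _) fun s _ => (finite_partitions (n - t)).subset fun _ h => h.1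
  have h1 := (Set.ncard_le_ncard hsub (hfin1.union hfin2)).trans (Set.ncard_union_le _ _)
  have h2 : {g : ℕ → ℕ | IsPartition (n - t) g ∧ g 0 ≤ t}.ncard ≤
      {f : ℕ → ℕ | IsPartition n f ∧ f 0 = t}.ncard := by
    refine Set.ncard_le_ncard_of_injOn (fun g i => if i = 0 then t else g (i - 1)) ?_ ?_
      ((finite_partitions n).subset fun _ h => h.1)
    · rintro g ⟨hg, hg0⟩
      exact ⟨IsPartition_cons htn hg hg0, by simp⟩
    · rintro f _ g _ hfg
      funext i
      have := congrFun hfg (i + 1)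
      simpa using this
  have h3 : (⋃ s ∈ Ioc t (n - t), {g : ℕ → ℕ | IsPartition (n - t) g ∧ g 0 = s}).ncard ≤
      ∑ s ∈ Ioc t (n - t), numPartitions (n - t - s) := by
    refine (Finset.set_ncard_biUnion_le _ _).trans ?_
    exact sum_le_sum fun s _ => card_first (n - t) s
  exact h1.trans (Nat.add_le_add h2 h3)

/-- Task T3. -/
theorem low : S_LOW := by
  classical
  intro n A hA
  have hfinI : (typeIZeros n).Finite :=
    ((finite_partitions n).prod (finite_partitions n)).subset fun _ hx => ⟨hx.1, hx.2.1⟩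
  have h1 : ∑ t ∈ A, numCores t n * {f : ℕ → ℕ | IsPartition n f ∧ f 0 = t}.ncard ≤
      (typeIZeros n).ncard := by
    have h2 : ∀ t : ℕ, numCores t n * {f : ℕ → ℕ | IsPartition n f ∧ f 0 = t}.ncard =
        (hfinI.toFinset.filter fun x => x.2 0 = t).card := by
      intro t
      rw [← Set.ncard_coe_finset]
      rw [numCores, ← Set.ncard_prod]
      congr 1
      ext ⟨f, g⟩
      simp only [Set.mem_prod, Set.mem_ofPred_eq, coe_filter, Set.Finite.mem_toFinset, typeIZeros]
      constructor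
      · rintro ⟨⟨h1, h2⟩, h3, rfl⟩
        exact ⟨⟨h1, h3, h2⟩, rfl⟩
      · rintro ⟨⟨h1, h3, h2⟩, rfl⟩
        exact ⟨⟨h1, h2⟩, h3, rfl⟩
    rw [sum_congr rfl fun t _ => h2 t, Finset.sum_card_fiberwise_eq_card_filter,
      Set.ncard_eq_toFinset_card _ hfinI]
    exact card_filter_le _ _
  have h3 : ((∑ t ∈ A, numCores t n * {f : ℕ → ℕ | IsPartition n f ∧ f 0 = t}.ncard : ℕ) : ℝ) ≤
      ((typeIZeros n).ncard : ℝ) := by exact_mod_cast h1
  refine le_trans ?_ h3
  push_cast
  refine sum_le_sum fun t ht => ?_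
  refine mul_le_mul_of_nonneg_left ?_ (Nat.cast_nonneg _)
  rw [sub_le_iff_le_add]
  exact_mod_cast first_lower (mem_Icc.mp (hA ht)).2

end Pool.Agent.W5h11.TZ
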