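import Pool.Agent.W5h11.TZ.Iface4

/-! (V4): partitions with prescribed parts. -/

set_option autoImplicit false

namespace Pool.Agent.W5h11.TZ

open Finset Filter Topology Real Pool.Agent.H581R3.Core Pool.Agent.R721.PN

/-- the first place with entry at most `t` -/
noncomputable def pidx (t : ℕ) (f : ℕ → ℕ) : ℕ := sInf {k | f k ≤ t}

/-- removal of one part `t` -/
noncomputable def prem (t : ℕ) (f : ℕ → ℕ) : ℕ → ℕ :=
  fun i => if i < pidx t f then f i else f (i + 1)

theorem pidx_spec {n t : ℕ} {f : ℕ → ℕ} (hf : IsPartition n f) (hk : ∃ k, f k = t) :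
    f (pidx t f) = t ∧ ∀ i, i < pidx t f → t < f i := by
  obtain ⟨k, hk⟩ := hk
  have hne : {k | f k ≤ t}.Nonempty := ⟨k, hk.le⟩
  have h1 : f (pidx t f) ≤ t := Nat.sInf_mem hne
  have h2 : pidx t f ≤ k := Nat.sInf_le hk.le
  have h3 := hf.1 h2
  refine ⟨by omega, fun i hi => ?_⟩
  by_contra h
  push Not at h
  have := Nat.sInf_le (show i ∈ {k | f k ≤ t} from h)
  change pidx t f ≤ i at this
  omega

theorem prem_part {n t : ℕ} (ht : 1 ≤ t) {f : ℕ → ℕ} (hf : IsPartition n f) (hk : ∃ k, f k = t) :
    IsPartition (n - t) (prem t f) := by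
  obtain ⟨h1, h2⟩ := pidx_spec hf hk
  have hlt : pidx t f < n := by
    by_contra h
    have := hf.2.1 (pidx t f) (by omega)
    omega
  apply isPartition_of_sum (N := n)
  · intro a b hab
    change (if b < pidx t f then f b else f (b + 1)) ≤ (if a < pidx t f then f a else f (a + 1))
    by_cases hb : b < pidx t f
    · rw [if_pos hb, if_pos (by omega)]
      exact hf.1 hab
    · rw [if_neg hb]
      by_cases ha : a < pidx t f
      · rw [if_pos ha]
        exact hf.1 (by omega)
      · rw [if_neg ha]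
        exact hf.1 (by omega)
  · intro i hi
    change (if i < pidx t f then f i else f (i + 1)) = 0
    rw [if_neg (by omega)]
    exact hf.2.1 _ (by omega)
  · change ∑ i ∈ range n, (if i < pidx t f then f i else f (i + 1)) = n - t
    have h3 := hf.sum_range (Nat.le_succ n)
    obtain ⟨m, hm⟩ := Nat.exists_eq_add_of_lt hlt
    have h4 : ∑ i ∈ range n, (if i < pidx t f then f i else f (i + 1)) =
        ∑ i ∈ range (pidx t f), f i + ∑ i ∈ range (m + 1), f (pidx t f + i + 1) := by
      rw [hm, show pidx t f + m + 1 = pidx t f + (m + 1) by omega, sum_range_add]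
      congr 1
      · apply sum_congr rfl
        intro i hi
        rw [if_pos (mem_range.mp hi)]
      · apply sum_congr rfl
        intro i _
        rw [if_neg (by omega)]
    have h5 : ∑ i ∈ range (n + 1), f i = ∑ i ∈ range (pidx t f), f i +
        (∑ i ∈ range (m + 1), f (pidx t f + i + 1) + f (pidx t f)) := by
      have h6 : n + 1 = pidx t f + (m + 1 + 1) := by omega
      rw [h6, sum_range_add, sum_range_succ' (fun x => f (pidx t f + x))]
      rfl
    rw [Nat.succ_eq_add_one, h5, h1] at h3
    rw [h4]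
    omega

theorem prem_inj {n t : ℕ} : Set.InjOn (prem t) {f | IsPartition n f ∧ ∃ k, f k = t} := by
  rintro f ⟨hf, hkf⟩ g ⟨hg, hkg⟩ hfg
  obtain ⟨f1, f2⟩ := pidx_spec hf hkf
  obtain ⟨g1, g2⟩ := pidx_spec hg hkg
  have hrem : ∀ i, (if i < pidx t f then f i else f (i + 1)) =
      (if i < pidx t g then g i else g (i + 1)) := fun i => congrFun hfg i
  have heq : pidx t f = pidx t g := by
    rcases lt_trichotomy (pidx t f) (pidx t g) with h | h | h
    · have h3 := hrem (pidx t f)
      rw [if_neg (by omega), if_pos h] at h3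
      have h4 := g2 (pidx t f) h
      have h5 := hf.1 (show pidx t f ≤ pidx t f + 1 by omega)
      omega
    · exact h
    · have h3 := hrem (pidx t g)
      rw [if_neg (show ¬ pidx t g < pidx t g by omega), if_pos h] at h3
      have h4 := f2 (pidx t g) h
      have h5 := hg.1 (show pidx t g ≤ pidx t g + 1 by omega)
      omega
  funext i
  rcases lt_trichotomy i (pidx t f) with h | h | h
  · have h3 := hrem i
    rw [if_pos h, if_pos (by omega)] at h3
    exact h3
  · rw [h, f1, heq, g1]
  · have h3 := hrem (i - 1)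
    rw [if_neg (by omega), if_neg (by omega), Nat.sub_add_cancel (by omega)] at h3
    exact h3

theorem prem_hasParts {n t : ℕ} {f : ℕ → ℕ} {l : List ℕ} (hf : IsPartition n f)
    (h : HasParts f (t :: l)) : HasParts (prem t f) l := by
  obtain ⟨i, hi, h1⟩ := h
  have h0 : f (i ⟨0, by simp⟩) = t := (h1 ⟨0, by simp⟩).1
  obtain ⟨h2, -⟩ := pidx_spec hf ⟨_, h0⟩
  set p := pidx t f with hp
  -- exchange the place of `t` with `p`
  let σ : Equiv.Perm ℕ := Equiv.swap (i ⟨0, by simp⟩) p
  have hσ : ∀ x, f (σ x) = f x := by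
    intro x
    rcases eq_or_ne x (i ⟨0, by simp⟩) with hx | hx
    · rw [hx, Equiv.swap_apply_left, h2, h0]
    · rcases eq_or_ne x p with hx' | hx'
      · rw [hx', Equiv.swap_apply_right, h2, h0]
      · rw [Equiv.swap_apply_of_ne_of_ne hx hx']
  have hne : ∀ j : Fin l.length, σ (i ⟨j.1 + 1, by simp⟩) ≠ p := by
    intro j hj
    have h3 : σ (i ⟨0, by simp⟩) = p := Equiv.swap_apply_left _ _
    have h4 := hi (σ.injective (hj.trans h3.symm))
    have h5 := congrArg Fin.val h4
    simp at h5
  refine ⟨fun j => if σ (i ⟨j.1 + 1, by simp⟩) < p then σ (i ⟨j.1 + 1, by simp⟩) else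
    σ (i ⟨j.1 + 1, by simp⟩) - 1, fun j k hjk => ?_, fun j => ?_⟩
  · have h3 := hne j
    have h4 := hne k
    have h5 : σ (i ⟨j.1 + 1, by simp⟩) = σ (i ⟨k.1 + 1, by simp⟩) := by
      dsimp only at hjk
      split_ifs at hjk <;> omega
    have h6 := hi (σ.injective h5)
    have h7 := congrArg Fin.val h6
    simp only at h7
    exact Fin.ext (by omega)
  · have h3 := hne j
    obtain ⟨h4, h5⟩ := h1 ⟨j.1 + 1, by simp⟩
    have h6 : (t :: l).get ⟨j.1 + 1, by simp⟩ = l.get j := rfl
    rw [h6] at h4 h5
    refine ⟨?_, h5⟩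
    have h7 := hσ (i ⟨j.1 + 1, by simp⟩)
    rw [h4] at h7
    change prem t f (if σ (i ⟨j.1 + 1, by simp⟩) < p then σ (i ⟨j.1 + 1, by simp⟩) else
      σ (i ⟨j.1 + 1, by simp⟩) - 1) = _
    by_cases h8 : σ (i ⟨j.1 + 1, by simp⟩) < p
    · rw [if_pos h8, prem, if_pos h8]
      exact h7
    · rw [if_neg h8, prem, if_neg (by omega), Nat.sub_add_cancel (by omega)]
      exact h7

theorem parts : S_PARTS := by
  intro n l
  induction l generalizing n with
  | nil =>
    refine ⟨fun _ => ?_, fun h => absurd h (by simp)⟩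
    exact Set.ncard_le_ncard (fun u hu => hu.1) (finite_partitions n)
  | cons t l ih =>
    have hA : ∀ u, IsPartition n u ∧ HasParts u (t :: l) → 1 ≤ t ∧ t ≤ n ∧ ∃ k, u k = t := by
      rintro u ⟨hu, i, hi, h1⟩
      obtain ⟨h2, h3⟩ := h1 ⟨0, by simp⟩
      have h4 : (t :: l).get ⟨0, by simp⟩ = t := rfl
      rw [h4] at h2 h3
      exact ⟨by omega, by rw [← h2]; exact hu.le _, _, h2⟩
    have hmap : ∀ u, IsPartition n u ∧ HasParts u (t :: l) →
        IsPartition (n - t) (prem t u) ∧ HasParts (prem t u) l := by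
      intro u hu
      obtain ⟨h1, h2, h3⟩ := hA u hu
      exact ⟨prem_part h1 hu.1 h3, prem_hasParts hu.1 hu.2⟩
    constructor
    · intro h
      rw [List.sum_cons] at h ⊢
      have h1 := (ih (n - t)).1 (by omega)
      rw [← Nat.sub_sub]
      have h2 : {u : ℕ → ℕ | IsPartition n u ∧ HasParts u (t :: l)}.ncard ≤
          {u : ℕ → ℕ | IsPartition (n - t) u ∧ HasParts u l}.ncard := by
        refine Set.ncard_le_ncard_of_injOn (prem t) (fun u hu => hmap u hu) ?_ ?_
        · refine Set.InjOn.mono ?_ (prem_inj (n := n) (t := t))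
          intro u hu
          exact ⟨hu.1, (hA u hu).2.2⟩
        · refine (finite_partitions (n - t)).subset ?_
          intro u hu
          exact hu.1
      exact h2.trans h1
    · intro h
      rw [List.sum_cons] at h
      rw [Set.eq_empty_iff_forall_notMem]
      intro u hu
      have h1 := hA u hu
      have h2 := (ih (n - t)).2 (by omega)
      have h3 : prem t u ∈ {u : ℕ → ℕ | IsPartition (n - t) u ∧ HasParts u l} := hmap u hu
      rw [h2] at h3
      exact h3

end Pool.Agent.W5h11.TZ
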