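import Pool.Agent.W5h11.TZ.Iface2

/-!
# The saddle points (task Q1)
-/

set_option autoImplicit false

namespace Pool.Agent.W5h11.TZ

open Finset Filter Topology MeasureTheory Pool.Agent.H581R3.Core Pool.Agent.R721.PN
open scoped BigOperators Interval

lemma norm_exp_sub (a b : ℝ) :
    ‖Complex.exp (a * Complex.I) - Complex.exp (b * Complex.I)‖ ≤ |a - b| := by
  have h1 : Complex.exp (a * Complex.I) - Complex.exp (b * Complex.I) =
      Complex.exp (b * Complex.I) * (Complex.exp (Complex.I * ((a - b : ℝ) : ℂ)) - 1) := by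
    rw [mul_sub, ← Complex.exp_add, mul_one]
    congr 2
    push_cast
    ring
  rw [h1, norm_mul, Complex.norm_exp_ofReal_mul_I, one_mul]
  exact Real.norm_exp_I_mul_ofReal_sub_one_le

lemma HH_sub_le (N m n : ℕ) {r : ℝ} (h0 : 0 ≤ r) (h1 : r < 1) (θ : ℝ) :
    |HH N m r θ - HH N n r θ| ≤ |(m : ℝ) - n| * |θ| *
      (FR N r * Real.exp (-∑ j ∈ Icc 1 N, r ^ j * (1 - Real.cos (j * θ)))) := by
  unfold HH
  rw [← Complex.sub_re, ← mul_sub]
  refine (Complex.abs_re_le_norm _).trans ?_
  rw [norm_mul, mul_comm]
  apply mul_le_mul _ (norm_FN_le N h0 h1 θ) (norm_nonneg _) (by positivity)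
  have h2 := norm_exp_sub (-(m * θ)) (-(n * θ))
  push_cast at h2 ⊢
  refine h2.trans (le_of_eq ?_)
  rw [← abs_mul, ← abs_neg]
  congr 1
  ring

/-- the difference of two coefficients -/
lemma coeff_sub {x : ℝ} (hx : 0 < x) (hx1 : x ≤ 1) {N : ℕ} (hN : 8 ≤ x ^ 3 * (N : ℝ) ^ 2)
    (m n : ℕ) :
    |Real.pi * ((pc N m : ℝ) * Real.exp (-x) ^ m) - Real.pi * ((pc N n : ℝ) * Real.exp (-x) ^ n)| ≤
      |(m : ℝ) - n| * FR N (Real.exp (-x)) *
        (x ^ 3 * (1 + 131220 * Real.log (Real.pi / (x * Real.sqrt x)))) := by
  set r := Real.exp (-x) with hr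
  have hr0 : 0 < r := Real.exp_pos _
  have hr1 : r < 1 := by rw [hr, Real.exp_lt_one_iff]; linarith
  have hF := FR_pos N hr0.le hr1
  have hsx : 0 < Real.sqrt x := Real.sqrt_pos.mpr hx
  have hsx1 : Real.sqrt x ≤ 1 := by rw [Real.sqrt_le_one]; exact hx1
  set δ := x * Real.sqrt x with hδ
  have hδ0 : 0 < δ := by positivity
  have hδ1 : δ ≤ 1 := by
    rw [hδ]
    nlinarith
  have hδsq : δ ^ 2 = x ^ 3 := by
    rw [hδ, mul_pow, Real.sq_sqrt hx.le]; ring
  have hpi := Real.pi_gt_three
  have hc := cont_HH N m hr0.le hr1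
  have hc' := cont_HH N n hr0.le hr1
  have hD : Continuous fun θ => HH N m r θ - HH N n r θ := hc.sub hc'
  rw [← coeff_formula N m hr0.le hr1, ← coeff_formula N n hr0.le hr1,
    ← intervalIntegral.integral_sub (hc.intervalIntegrable _ _) (hc'.intervalIntegrable _ _),
    ← intervalIntegral.integral_add_adjacent_intervals (hD.intervalIntegrable 0 δ)
      (hD.intervalIntegrable δ Real.pi)]
  have h2 : ‖∫ θ in (0:ℝ)..δ, (HH N m r θ - HH N n r θ)‖ ≤
      (|(m : ℝ) - n| * δ * FR N r) * |δ - 0| := by
    apply intervalIntegral.norm_integral_le_of_norm_le_const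
    intro θ hθ
    rw [Set.uIoc_of_le hδ0.le] at hθ
    rw [Real.norm_eq_abs]
    refine (HH_sub_le N m n hr0.le hr1 θ).trans ?_
    have h3 : |θ| ≤ δ := by
      rw [abs_of_pos hθ.1]
      exact hθ.2
    have h4 : FR N r * Real.exp (-∑ j ∈ Icc 1 N, r ^ j * (1 - Real.cos (j * θ))) ≤ FR N r := by
      apply mul_le_of_le_one_right hF.le
      rw [Real.exp_le_one_iff, neg_nonpos]
      apply sum_nonneg
      intro j _
      have := Real.cos_le_one (j * θ)
      exact mul_nonneg (pow_nonneg hr0.le _) (by linarith)
    exact mul_le_mul (mul_le_mul_of_nonneg_left h3 (abs_nonneg _)) h4 (by positivity)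
      (by positivity)
  rw [sub_zero, abs_of_pos hδ0, Real.norm_eq_abs] at h2
  have hnot : (0 : ℝ) ∉ [[δ, Real.pi]] := by
    rw [Set.uIcc_of_le (by linarith)]
    intro h
    have := h.1
    linarith
  have hint : IntervalIntegrable
      (fun θ : ℝ => |(m : ℝ) - n| * FR N r * (131220 * x ^ 3) * θ⁻¹) volume δ Real.pi := by
    apply IntervalIntegrable.const_mul
    apply ContinuousOn.intervalIntegrable
    intro θ hθ
    apply ContinuousAt.continuousWithinAt
    apply continuousAt_inv₀
    rintro rfl
    exact hnot hθ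
  have h3 := intervalIntegral.norm_integral_le_of_norm_le (μ := volume)
    (show δ ≤ Real.pi by linarith)
    (f := fun θ => HH N m r θ - HH N n r θ)
    (g := fun θ : ℝ => |(m : ℝ) - n| * FR N r * (131220 * x ^ 3) * θ⁻¹)
    (Eventually.of_forall fun θ hθ => by
      have h2 : 0 < θ := lt_of_lt_of_le hδ0 hθ.1.le
      have h3 := HH_sub_le N m n hr0.le hr1 θ
      have h4 := expD_le hx hx1 h2 hθ.2 hN
      rw [Real.norm_eq_abs]
      refine h3.trans ?_
      rw [abs_of_pos h2]
      have h5 := mul_le_mul_of_nonneg_left h4 hF.le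
      have h6 := mul_le_mul_of_nonneg_left h5
        (show 0 ≤ |(m : ℝ) - n| * θ from mul_nonneg (abs_nonneg _) h2.le)
      refine h6.trans (le_of_eq ?_)
      field_simp) hint
  rw [intervalIntegral.integral_const_mul, integral_inv_of_pos hδ0 Real.pi_pos,
    Real.norm_eq_abs] at h3
  refine (abs_add_le _ _).trans ?_
  refine (add_le_add h2 h3).trans (le_of_eq ?_)
  rw [← hδsq]
  ring

theorem sad : S_SAD := by
  set ε : ℝ := 1 / (640 * KK ^ 3) with hε
  have hK : KK = 13122000 := rfl
  have hε0 : 0 < ε := by rw [hε, hK]; positivity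
  have key : ∀ n : ℕ, max 4000 (Nat.ceil ((13 / ε ^ 2) ^ 2)) ≤ n → ∃ x : ℝ, 0 < x ∧
      1 / (4 * √(n : ℝ)) ≤ x ∧ x ≤ 13 / √(n : ℝ) ∧
      (∀ m : ℕ, m ≤ 3 * n → (numPartitions m : ℝ) ≤
        2000000000 * Real.exp (x * ((m : ℝ) - n)) * numPartitions n) ∧
      ∀ t : ℕ, t ≤ n → |(numPartitions (n - t) : ℝ) * Real.exp (x * t) - numPartitions n| ≤
        2000000000 * t * Real.log n / (n : ℝ) ^ (3 / 4 : ℝ) * numPartitions n := by
    intro n hn
    have hn1 : 4000 ≤ n := (le_max_left _ _).trans hn
    have hn1' : (4000 : ℝ) ≤ n := by exact_mod_cast hn1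
    have hn2 : (13 / ε ^ 2) ^ 2 ≤ (n : ℝ) := by
      refine (Nat.le_ceil _).trans ?_
      exact_mod_cast (le_max_right _ _).trans hn
    have hs : 0 < Real.sqrt n := Real.sqrt_pos.mpr (by linarith)
    have hss : Real.sqrt n * Real.sqrt n = n := Real.mul_self_sqrt (by linarith)
    have hs60 : 60 ≤ Real.sqrt n := by
      rw [Real.le_sqrt (by norm_num) (by linarith)]
      linarith
    have hab : 1 / (4 * Real.sqrt n) ≤ 13 / Real.sqrt n := by
      rw [div_le_div_iff₀ (by positivity) hs]
      linarith
    obtain ⟨x, ⟨hx1, hx2⟩, hmean⟩ := intermediate_value_Icc' hab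
      (mean_cont (3 * n) (by positivity)) ⟨mean_upper (3 * n) n (by omega),
        mean_lower (3 * n) n (by omega) (by omega)⟩
    have hx0 : 0 < x := lt_of_lt_of_le (by positivity) hx1
    have hxle1 : x ≤ 1 := by
      refine hx2.trans ?_
      rw [div_le_one hs]
      linarith
    have hxK : 640 * KK ^ 3 * Real.sqrt x ≤ 1 := by
      have h1 : Real.sqrt x ≤ ε := by
        rw [Real.sqrt_le_left hε0.le]
        refine hx2.trans ?_
        rw [div_le_iff₀ hs]
        have h2 : 13 / ε ^ 2 ≤ Real.sqrt n := by
          rw [Real.le_sqrt (by positivity) (by linarith)]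
          exact hn2
        rw [div_le_iff₀ (by positivity)] at h2
        linarith
      have h3 : 0 < 640 * KK ^ 3 := by rw [hK]; norm_num
      calc 640 * KK ^ 3 * Real.sqrt x ≤ 640 * KK ^ 3 * ε := mul_le_mul_of_nonneg_left h1 h3.le
        _ = 1 := by rw [hε]; field_simp
    have hN : 8 ≤ x ^ 3 * ((3 * n : ℕ) : ℝ) ^ 2 := by
      have h1 : (1 / (4 * Real.sqrt n)) ^ 3 ≤ x ^ 3 := pow_le_pow_left₀ (by positivity) hx1 3
      have h2 : (1 / (4 * Real.sqrt n)) ^ 3 * ((3 * n : ℕ) : ℝ) ^ 2 = 9 / 64 * Real.sqrt n := by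
        push_cast
        have h3 : (n : ℝ) ^ 2 = Real.sqrt n ^ 4 := by
          rw [show Real.sqrt (n : ℝ) ^ 4 = (Real.sqrt n * Real.sqrt n) ^ 2 by ring, hss]
        rw [mul_pow, h3]
        field_simp
        norm_num
      have h4 := mul_le_mul_of_nonneg_right h1 (by positivity : (0:ℝ) ≤ ((3 * n : ℕ) : ℝ) ^ 2)
      linarith
    have hlo := coeff_lower hx0 hxle1 hxK hN n hmean
    rw [pc_eq (by omega)] at hlo
    have hpi := Real.pi_pos
    have hr0 : 0 < Real.exp (-x) := Real.exp_pos _
    have hr1 : Real.exp (-x) < 1 := by rw [Real.exp_lt_one_iff]; linarith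
    have hF := FR_pos (3 * n) hr0.le hr1
    have hP : (0 : ℝ) < numPartitions n := by exact_mod_cast numPartitions_pos n
    have e2 : Real.exp (-x) ^ n = Real.exp (-(x * n)) := by
      rw [← Real.exp_nat_mul]; congr 1; ring
    refine ⟨x, hx0, hx1, hx2, ?_, ?_⟩
    · intro m hm
      have hup := coeff_upper hx0 hxle1 hN m
      rw [pc_eq hm] at hup
      have h1 : Real.pi * ((numPartitions m : ℝ) * Real.exp (-x) ^ m) ≤
          13122100 * (Real.pi * ((numPartitions n : ℝ) * Real.exp (-x) ^ n)) := by
        have h2 : FR (3 * n) (Real.exp (-x)) * (131221 * (x * Real.sqrt x)) =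
            13122100 * (FR (3 * n) (Real.exp (-x)) * ((x * Real.sqrt x) / 100)) := by ring
        rw [h2] at hup
        linarith
      have h2 : (numPartitions m : ℝ) * Real.exp (-x) ^ m ≤
          13122100 * ((numPartitions n : ℝ) * Real.exp (-x) ^ n) := by
        have h3 : Real.pi * ((numPartitions m : ℝ) * Real.exp (-x) ^ m) ≤
          Real.pi * (13122100 * ((numPartitions n : ℝ) * Real.exp (-x) ^ n)) := by linarith
        exact le_of_mul_le_mul_left h3 hpi
      have e1 : Real.exp (-x) ^ m = Real.exp (-(x * m)) := by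
        rw [← Real.exp_nat_mul]; congr 1; ring
      rw [e1, e2] at h2
      have h3 := mul_le_mul_of_nonneg_right h2 (Real.exp_pos (x * m)).le
      have h4 : (numPartitions m : ℝ) * Real.exp (-(x * m)) * Real.exp (x * m) =
          numPartitions m := by
        rw [mul_assoc, ← Real.exp_add]
        simp
      have h5 : 13122100 * ((numPartitions n : ℝ) * Real.exp (-(x * n))) * Real.exp (x * m) =
          13122100 * Real.exp (x * ((m : ℝ) - n)) * numPartitions n := by
        have : Real.exp (x * ((m : ℝ) - n)) = Real.exp (-(x * n)) * Real.exp (x * m) := by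
          rw [← Real.exp_add]; congr 1; ring
        rw [this]
        ring
      rw [h4, h5] at h3
      refine h3.trans ?_
      have h6 : 0 < Real.exp (x * ((m : ℝ) - n)) * numPartitions n := by positivity
      nlinarith
    · intro t ht
      have hsub := coeff_sub hx0 hxle1 hN (n - t) n
      rw [pc_eq (by omega), pc_eq (by omega)] at hsub
      have e3 : |(((n - t : ℕ) : ℝ)) - n| = t := by
        rw [Nat.cast_sub ht]
        rw [show (n : ℝ) - t - n = -(t : ℝ) by ring, abs_neg, abs_of_nonneg (Nat.cast_nonneg _)]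
      rw [e3] at hsub
      set w := x * Real.sqrt x with hw
      have hw0 : 0 < w := by have := Real.sqrt_pos.mpr hx0; positivity
      have hwsq : x ^ 3 = w * w := by
        rw [hw]
        have := Real.mul_self_sqrt hx0.le
        calc x ^ 3 = x * x * x := by ring
          _ = x * x * (Real.sqrt x * Real.sqrt x) := by rw [this]
          _ = _ := by ring
      set L := Real.log (Real.pi / w) with hL
      -- bounds for w and L
      have hn0 : (0 : ℝ) < n := by linarith
      set q := (n : ℝ) ^ (3 / 4 : ℝ) with hq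
      have hq0 : 0 < q := by positivity
      have hw32 : w = x ^ (3 / 2 : ℝ) := by
        rw [hw, Real.sqrt_eq_rpow]
        nth_rewrite 1 [← Real.rpow_one x]
        rw [← Real.rpow_add hx0]
        norm_num
      have hsq : Real.sqrt n ^ (3 / 2 : ℝ) = q := by
        rw [Real.sqrt_eq_rpow, ← Real.rpow_mul hn0.le, hq]
        norm_num
      have hwup : w ≤ 47 / q := by
        rw [hw32]
        calc x ^ (3 / 2 : ℝ) ≤ (13 / Real.sqrt n) ^ (3 / 2 : ℝ) :=
              Real.rpow_le_rpow hx0.le hx2 (by norm_num)
          _ = 13 ^ (3 / 2 : ℝ) / q := by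
              rw [Real.div_rpow (by norm_num) hs.le, hsq]
          _ ≤ 47 / q := by
              apply div_le_div_of_nonneg_right _ hq0.le
              have h13 : (13 : ℝ) ^ (3 / 2 : ℝ) = Real.sqrt (13 ^ 3) := by
                rw [Real.sqrt_eq_rpow, ← Real.rpow_natCast, ← Real.rpow_mul (by norm_num)]
                norm_num
              rw [h13, Real.sqrt_le_left (by norm_num)]
              norm_num
      have hwlo : 1 / (8 * q) ≤ w := by
        rw [hw32]
        calc 1 / (8 * q) = (1 / (4 * Real.sqrt n)) ^ (3 / 2 : ℝ) := by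
              rw [Real.div_rpow (by norm_num) (by positivity), Real.mul_rpow (by norm_num) hs.le,
                hsq, Real.one_rpow]
              congr 2
              rw [show (4 : ℝ) = 2 ^ (2 : ℝ) by norm_num, ← Real.rpow_mul (by norm_num)]
              norm_num
          _ ≤ _ := Real.rpow_le_rpow (by positivity) hx1 (by norm_num)
      have hlog1 : 1 ≤ Real.log n := by
        rw [Real.le_log_iff_exp_le hn0]
        have := Real.exp_one_lt_d9
        linarith
      have hLup : L ≤ 2 * Real.log n := by
        have h1 : Real.pi / w ≤ 8 * Real.pi * q := by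
          rw [div_le_iff₀ hw0]
          rw [div_le_iff₀ (by positivity)] at hwlo
          nlinarith
        have h2 : 8 * Real.pi * q ≤ (n : ℝ) * n := by
          have h3 : 8 * Real.pi ≤ n := by
            have := Real.pi_lt_d2
            linarith
          have h4 : q ≤ n := by
            rw [hq]
            calc (n : ℝ) ^ (3 / 4 : ℝ) ≤ (n : ℝ) ^ (1 : ℝ) :=
                  Real.rpow_le_rpow_of_exponent_le (by linarith) (by norm_num)
              _ = n := Real.rpow_one _
          exact mul_le_mul h3 h4 hq0.le hn0.le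
        rw [hL]
        calc Real.log (Real.pi / w) ≤ Real.log ((n : ℝ) * n) :=
              Real.log_le_log (by positivity) (h1.trans h2)
          _ = 2 * Real.log n := by rw [Real.log_mul hn0.ne' hn0.ne']; ring
      have hL0 : 0 ≤ L := by
        rw [hL]
        apply Real.log_nonneg
        rw [le_div_iff₀ hw0]
        have h1 : w ≤ 1 := by
          rw [hw]
          have h2 : Real.sqrt x ≤ 1 := by rw [Real.sqrt_le_one]; exact hxle1
          have := Real.sqrt_nonneg x
          nlinarith
        have := Real.pi_gt_three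
        linarith
      -- combine
      set A := (numPartitions (n - t) : ℝ) * Real.exp (-x) ^ (n - t) with hA
      set B := (numPartitions n : ℝ) * Real.exp (-x) ^ n with hB
      have hB0 : 0 < B := by positivity
      have h1 : |A - B| ≤ 100 * t * w * (1 + 131220 * L) * B := by
        have h2 : Real.pi * |A - B| ≤ t * FR (3 * n) (Real.exp (-x)) *
            (w * w * (1 + 131220 * L)) := by
          rw [← hwsq]
          refine le_trans (le_of_eq ?_) hsub
          rw [← mul_sub, abs_mul, abs_of_pos hpi]
        have h3 : FR (3 * n) (Real.exp (-x)) * w ≤ 100 * (Real.pi * B) := by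
          have : FR (3 * n) (Real.exp (-x)) * (w / 100) ≤ Real.pi * B := hlo
          linarith
        have h4 : (t : ℝ) * FR (3 * n) (Real.exp (-x)) * (w * w * (1 + 131220 * L)) =
            (FR (3 * n) (Real.exp (-x)) * w) * (t * w * (1 + 131220 * L)) := by ring
        have h5 : (FR (3 * n) (Real.exp (-x)) * w) * (t * w * (1 + 131220 * L)) ≤
            (100 * (Real.pi * B)) * (t * w * (1 + 131220 * L)) :=
          mul_le_mul_of_nonneg_right h3 (by positivity)
        have h6 : Real.pi * |A - B| ≤ Real.pi * (100 * t * w * (1 + 131220 * L) * B) := by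
          rw [h4] at h2
          refine (h2.trans h5).trans (le_of_eq ?_)
          ring
        exact le_of_mul_le_mul_left h6 hpi
      have e1 : Real.exp (-x) ^ (n - t) = Real.exp (-(x * n)) * Real.exp (x * t) := by
        rw [← Real.exp_nat_mul, ← Real.exp_add]
        congr 1
        rw [Nat.cast_sub ht]
        ring
      have e4 : A - B = Real.exp (-(x * n)) *
          ((numPartitions (n - t) : ℝ) * Real.exp (x * t) - numPartitions n) := by
        rw [hA, hB, e1, e2]
        ring
      rw [e4, abs_mul, abs_of_pos (Real.exp_pos _), hB, e2] at h1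
      have h7 : |(numPartitions (n - t) : ℝ) * Real.exp (x * t) - numPartitions n| ≤
          100 * t * w * (1 + 131220 * L) * numPartitions n := by
        have h8 : Real.exp (-(x * n)) *
            |(numPartitions (n - t) : ℝ) * Real.exp (x * t) - numPartitions n| ≤
            Real.exp (-(x * n)) * (100 * t * w * (1 + 131220 * L) * numPartitions n) := by
          refine h1.trans (le_of_eq ?_)
          ring
        exact le_of_mul_le_mul_left h8 (Real.exp_pos _)
      refine h7.trans ?_
      apply mul_le_mul_of_nonneg_right _ hP.le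
      have h9 : 1 + 131220 * L ≤ 262441 * Real.log n := by linarith
      have h10 : 100 * t * w * (1 + 131220 * L) ≤ 100 * t * (47 / q) * (262441 * Real.log n) := by
        apply mul_le_mul _ h9 (by positivity) (by positivity)
        exact mul_le_mul_of_nonneg_left hwup (by positivity)
      refine h10.trans ?_
      have h11 : 100 * (t : ℝ) * (47 / q) * (262441 * Real.log n) =
          1233472700 * t * Real.log n / q := by ring
      rw [h11]
      apply div_le_div_of_nonneg_right _ hq0.le
      have h12 : 0 ≤ (t : ℝ) * Real.log n := by positivity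
      nlinarith
  choose! xs h1 h2 h3 h4 h5 using key
  refine ⟨xs, 2000000000, max 4000 (Nat.ceil ((13 / ε ^ 2) ^ 2)), by norm_num,
    le_max_of_le_left (by norm_num), h1, h2, h3, fun n m hn hm => h4 n hn m hm,
    fun n t hn ht => h5 n hn t ht⟩

end Pool.Agent.W5h11.TZ
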