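import Pool.Agent.W5h11.TZ.Iface7
import Pool.Agent.W5h11.TZ.Few

/-! (Z1) many `s`-cores are not `t`-cores. -/

set_option autoImplicit false

namespace Pool.Agent.W5h11.TZ

open Finset Pool.Agent.H581R3.Core Pool.Agent.R721.PN

/-- the tops which can be moved by `s + d` -/
def gd (s d : ℕ) (B : Finset ℕ) : Finset ℕ := (addB s B).filter fun b => b + d ∈ addB s B

theorem gd_card (s d : ℕ) (B : Finset ℕ) :
    (addB s B).card ≤ (gd s d B).card + (addB d B).card + (remB d B).card := by
  classical
  have hsub : addB s B ⊆ (gd s d B ∪ addB d B) ∪ (remB d B).image fun c => c - (s + d) := by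
    intro b hb
    obtain ⟨h1, h2⟩ := mem_addB.mp hb
    rw [mem_union, mem_union]
    by_cases h3 : b + d ∈ B
    · by_cases h4 : b + d + s ∈ B
      · refine Or.inr (mem_image.mpr ⟨b + d + s, mem_remB.mpr ⟨h4, by omega, ?_⟩, by omega⟩)
        rw [show b + d + s - d = b + s by omega]
        exact h2
      · refine Or.inl (Or.inl ?_)
        unfold gd
        rw [mem_filter]
        exact ⟨hb, mem_addB.mpr ⟨h3, h4⟩⟩
    · exact Or.inl (Or.inr (mem_addB.mpr ⟨h1, h3⟩))
  have h1 := card_le_card hsub
  have h2 := card_union_le (gd s d B ∪ addB d B) ((remB d B).image fun c => c - (s + d))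
  have h3 := card_union_le (gd s d B) (addB d B)
  have h4 : ((remB d B).image fun c => c - (s + d)).card ≤ (remB d B).card := card_image_le
  omega

theorem card_coreBS {N m s : ℕ} (hm : m ≤ N) :
    ((BS N m).filter fun B => (remB s B).card = 0).card = numCores s m := by
  classical
  have hfin : {f | IsPartition m f ∧ IsCore s f}.Finite :=
    (finite_partitions m).subset fun _ hf => hf.1
  have h1 : (BS N m).filter (fun B => (remB s B).card = 0) = hfin.toFinset.image (beads N) := by
    ext B
    rw [mem_filter, mem_image]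
    constructor
    · rintro ⟨hB, hc⟩
      unfold BS at hB
      obtain ⟨f, hf, rfl⟩ := mem_image.mp hB
      rw [Set.Finite.mem_toFinset] at hf
      exact ⟨f, (Set.Finite.mem_toFinset _).mpr ⟨hf, (core_iff hf hm).mpr hc⟩, rfl⟩
    · rintro ⟨f, hf, rfl⟩
      rw [Set.Finite.mem_toFinset] at hf
      refine ⟨?_, (core_iff hf.1 hm).mp hf.2⟩
      unfold BS
      exact mem_image.mpr ⟨f, (Set.Finite.mem_toFinset _).mpr hf.1, rfl⟩
  rw [h1, card_image_of_injOn, ← Set.ncard_eq_toFinset_card _ hfin]
  · rfl
  · intro f hf g hg h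
    rw [mem_coe, Set.Finite.mem_toFinset] at hf hg
    exact beads_inj hm hf.1 hg.1 h

theorem up_core {s d : ℕ} {B : Finset ℕ} (hd : 0 < d) (hc : (remB s B).card = 0) {b : ℕ}
    (hb : b ∈ gd s d B) : (remB s (up (s + d) B {b})).card = 0 := by
  unfold gd at hb
  rw [mem_filter] at hb
  obtain ⟨hb1, hb2⟩ := hb
  obtain ⟨h1, h2⟩ := mem_addB.mp hb1
  obtain ⟨h3, h4⟩ := mem_addB.mp hb2
  rw [card_eq_zero, eq_empty_iff_forall_notMem] at hc ⊢
  intro c hcc
  obtain ⟨a1, a2, a3⟩ := mem_remB.mp hcc
  apply a3
  rw [mem_up] at a1 ⊢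
  rcases a1 with a1 | a1
  · left
    rw [mem_singleton] at a1
    have h5 : c - s ∈ B := by
      by_contra hcon
      exact hc c (mem_remB.mpr ⟨a1.1, a2, hcon⟩)
    refine ⟨h5, ?_⟩
    rw [mem_singleton]
    intro h6
    apply h2
    rw [← h6, Nat.sub_add_cancel a2]
    exact a1.1
  · left
    obtain ⟨a, ha, hac⟩ := a1
    rw [mem_singleton] at ha ⊢
    have h5 : c = b + d + s := by omega
    have h6 : c - s = b + d := by omega
    rw [h6]
    exact ⟨h3, by omega⟩

theorem le_choose_two (X : ℕ) : X ≤ (if 1 ≤ X then 1 else 0) + X.choose 2 := by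
  rcases X with _ | Y
  · simp
  · rw [if_pos (by omega), Nat.choose_succ_succ' Y 1, Nat.choose_one_right]
    omega

/-- **(Z1)** -/
theorem z1 : S_Z1 := by
  classical
  intro n s t hs hst htn
  obtain ⟨d, hd⟩ : ∃ d, d = t - s := ⟨_, rfl⟩
  have htd : t = s + d := by omega
  have hd0 : 0 < d := by omega
  rw [← hd]
  obtain ⟨N, hN⟩ : ∃ N, N = n + s + t := ⟨_, rfl⟩
  set C' := (BS N (n - t)).filter fun B => (remB s B).card = 0 with hC'
  set CC := (BS N n).filter fun B => (remB s B).card = 0 with hCC
  have hcC' : C'.card = numCores s (n - t) := card_coreBS (by omega)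
  -- lower bound for the number of pairs
  have h1 : s * C'.card ≤ (C'.sigma fun B => gd s d B).card + (d + 2 * (n / d)) * C'.card := by
    rw [card_sigma]
    calc s * C'.card = ∑ _B ∈ C', s := by rw [sum_const, smul_eq_mul, mul_comm]
      _ ≤ ∑ B ∈ C', ((gd s d B).card + (d + 2 * (n / d))) := by
          apply sum_le_sum
          intro B hB
          rw [hC', mem_filter] at hB
          have hB1 := hB.1
          have h2 : s ≤ (addB s B).card := by
            unfold BS at hB1
            obtain ⟨f, hf, rfl⟩ := mem_image.mp hB1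
            rw [Set.Finite.mem_toFinset] at hf
            exact le_addB fun r hr => small_mem hf (by omega) hr
          have h3 := gd_card s d B
          have h4 := addB_le d B
          obtain ⟨g1, g2⟩ := (mem_BS (by omega)).mp hB1
          have h5 := remB_le (t := d) g1 g2
          have h6 : (remB d B).card ≤ n / d := by
            rw [Nat.le_div_iff_mul_le hd0, mul_comm]
            omega
          omega
      _ = _ := by rw [sum_add_distrib, sum_const, smul_eq_mul, mul_comm]
  -- the injection
  have h2 : (C'.sigma fun B => gd s d B).card ≤ (CC.sigma fun B => remB t B).card := by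
    refine card_le_card_of_injOn
      (fun x => (⟨up t x.1 {x.2}, x.2 + t⟩ : Σ _ : Finset ℕ, ℕ)) ?_ ?_
    · rintro ⟨B, b⟩ hx
      rw [mem_coe, mem_sigma] at hx
      simp only at hx
      obtain ⟨hB, hb⟩ := hx
      rw [hC', mem_filter] at hB
      have hA : ({b} : Finset ℕ) ⊆ addB t B := by
        intro z hz
        rw [mem_singleton] at hz
        rw [hz]
        unfold gd at hb
        rw [mem_filter] at hb
        refine mem_addB.mpr ⟨(mem_addB.mp hb.1).1, ?_⟩
        rw [htd, show b + (s + d) = b + d + s by omega]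
        exact (mem_addB.mp hb.2).2
      obtain ⟨g1, g2⟩ := (mem_BS (by omega)).mp hB.1
      rw [mem_coe, mem_sigma]
      simp only
      refine ⟨?_, ?_⟩
      · rw [hCC, mem_filter, mem_BS (by omega)]
        refine ⟨⟨by rw [up_card hA, g1], ?_⟩, ?_⟩
        · have := up_sum hA
          rw [card_singleton] at this
          omega
        · have := up_core hd0 hB.2 hb
          rw [← htd] at this
          exact this
      · apply up_rem hA
        rw [image_singleton, mem_singleton]
    · rintro ⟨B, b⟩ hx ⟨B₂, b₂⟩ hx2 heq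
      rw [mem_coe, mem_sigma] at hx hx2
      simp only at hx hx2
      have e0 := heq
      simp only [Sigma.mk.injEq, heq_eq_eq] at e0
      obtain ⟨e1, e2⟩ := e0
      have e3 : b = b₂ := by omega
      subst e3
      have hA : ∀ B : Finset ℕ, b ∈ gd s d B → ({b} : Finset ℕ) ⊆ addB t B := by
        intro B hb z hz
        rw [mem_singleton] at hz
        rw [hz]
        unfold gd at hb
        rw [mem_filter] at hb
        refine mem_addB.mpr ⟨(mem_addB.mp hb.1).1, ?_⟩
        rw [htd, show b + (s + d) = b + d + s by omega]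
        exact (mem_addB.mp hb.2).2
      have e4 := dn_up (hA B hx.2)
      have e5 := dn_up (hA B₂ hx2.2)
      rw [e1] at e4
      have e6 : B = B₂ := e4.symm.trans e5
      rw [e6]
  -- upper bound
  have h3 : (CC.sigma fun B => remB t B).card ≤ (CC.filter fun B => 1 ≤ (remB t B).card).card +
      ∑ B ∈ BS N n, (remB t B).card.choose 2 := by
    rw [card_sigma]
    calc ∑ B ∈ CC, (remB t B).card ≤
          ∑ B ∈ CC, ((if 1 ≤ (remB t B).card then 1 else 0) + (remB t B).card.choose 2) :=
          sum_le_sum fun B _ => le_choose_two _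
      _ = (CC.filter fun B => 1 ≤ (remB t B).card).card +
          ∑ B ∈ CC, (remB t B).card.choose 2 := by
          rw [sum_add_distrib, card_filter]
      _ ≤ _ := by
          gcongr
          exact filter_subset _ _
  have h4 : ∑ B ∈ BS N n, (remB t B).card.choose 2 ≤
      (t + n / t).choose 2 * numPartitions (n - 2 * t) := by
    rw [moment_eq (by omega) htn, ← card_BS (N := N) (m := n - 2 * t) (by omega)]
    calc ∑ B ∈ BS N (n - 2 * t), (addB t B).card.choose 2 ≤
          ∑ _B ∈ BS N (n - 2 * t), (t + n / t).choose 2 := by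
          apply sum_le_sum
          intro B hB
          apply Nat.choose_le_choose
          obtain ⟨g1, g2⟩ := (mem_BS (by omega)).mp hB
          have h3 := addB_le t B
          have h4 := remB_le (t := t) g1 g2
          have h5 : (remB t B).card ≤ n / t := by
            rw [Nat.le_div_iff_mul_le (by omega), mul_comm]
            omega
          omega
      _ = _ := by rw [sum_const, smul_eq_mul, mul_comm]
  have h5 : (CC.filter fun B => 1 ≤ (remB t B).card).card ≤ (CN n s t).ncard := by
    have hfin : (CN n s t).Finite := (finite_partitions n).subset fun _ hf => hf.1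
    rw [Set.ncard_eq_toFinset_card _ hfin]
    refine le_trans (card_le_card ?_) (card_image_le (s := hfin.toFinset) (f := beads N))
    intro B hB
    rw [mem_filter, hCC, mem_filter] at hB
    obtain ⟨⟨hB1, hB2⟩, hB3⟩ := hB
    unfold BS at hB1
    obtain ⟨f, hf, rfl⟩ := mem_image.mp hB1
    rw [Set.Finite.mem_toFinset] at hf
    refine mem_image.mpr ⟨f, (Set.Finite.mem_toFinset _).mpr ⟨hf, ?_, ?_⟩, rfl⟩
    · exact (core_iff hf (by omega)).mpr hB2
    · intro hcon
      have := (core_iff hf (show n ≤ N by omega)).mp hcon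
      omega
  rw [← hcC']
  omega

end Pool.Agent.W5h11.TZ
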