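import Pool.Agent.W5h11.TZ.Iface7

/-! (Z2): partitions with largest part `t` and a part `s`. -/

set_option autoImplicit false

namespace Pool.Agent.W5h11.TZ

open Finset Pool.Agent.H581R3.Core Pool.Agent.R721.PN

namespace Z2H

/-- `t` followed by `f` -/
def e (t : ℕ) (f : ℕ → ℕ) : ℕ → ℕ
  | 0 => t
  | i + 1 => f i

/-- insertion of the parts `s` and `t` -/
def ins (s t : ℕ) (f : ℕ → ℕ) : ℕ → ℕ
  | 0 => t
  | i + 1 => max (e t f (i + 1)) (min s (e t f i))

lemma e_succ_le {t : ℕ} {f : ℕ → ℕ} (hf : Antitone f) (h0 : f 0 ≤ t) (i : ℕ) :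
    e t f (i + 1) ≤ e t f i := by
  cases i with
  | zero => exact h0
  | succ i => exact hf (Nat.le_succ i)

lemma ins_anti {s t : ℕ} {f : ℕ → ℕ} (hst : s < t) (hf : Antitone f) (h0 : f 0 ≤ t) :
    Antitone (ins s t f) := by
  refine antitone_nat_of_succ_le fun i => ?_
  cases i with
  | zero =>
    show max (f 0) (min s t) ≤ t
    omega
  | succ i =>
    have h1 := e_succ_le hf h0 i
    have h2 := e_succ_le hf h0 (i + 1)
    show max (e t f (i + 1 + 1)) (min s (e t f (i + 1))) ≤ max (e t f (i + 1)) (min s (e t f i))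
    omega

lemma ins_sum {s t : ℕ} {f : ℕ → ℕ} (hst : s < t) (hf : Antitone f) (h0 : f 0 ≤ t) (N : ℕ) :
    ∑ i ∈ range N, ins s t f (i + 1) + min s (e t f N) = ∑ i ∈ range N, f i + s := by
  induction N with
  | zero =>
    have h2 : e t f 0 = t := rfl
    simp only [range_zero, sum_empty, h2]
    omega
  | succ N ih =>
    rw [sum_range_succ, sum_range_succ]
    have h1 := e_succ_le hf h0 N
    have h2 : ins s t f (N + 1) = max (e t f (N + 1)) (min s (e t f N)) := rfl
    have h3 : e t f (N + 1) = f N := rfl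
    rw [h2]
    rw [h3] at h1 ⊢
    omega

lemma ins_rec {s t : ℕ} {f : ℕ → ℕ} (hf : Antitone f) (h0 : f 0 ≤ t) (i : ℕ) :
    f i = if s < ins s t f (i + 1) then ins s t f (i + 1) else ins s t f (i + 2) := by
  have h1 := e_succ_le hf h0 i
  have h2 : ins s t f (i + 1) = max (e t f (i + 1)) (min s (e t f i)) := rfl
  have h3 : ins s t f (i + 2) = max (e t f (i + 1 + 1)) (min s (e t f (i + 1))) := rfl
  have h4 := e_succ_le hf h0 (i + 1)
  have h5 : e t f (i + 1) = f i := rfl
  rw [h2, h3]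
  rw [h5] at h1 h4 ⊢
  split_ifs with h <;> omega

lemma ins_mem {n s t : ℕ} {f : ℕ → ℕ} (hs : 1 ≤ s) (hst : s < t) (hn : s + t ≤ n)
    (hf : IsPartition (n - (s + t)) f) (h0 : f 0 ≤ t) : ins s t f ∈ LW n s t := by
  refine ⟨?_, rfl, ?_⟩
  · apply isPartition_of_sum (N := n - (s + t) + 2) (ins_anti hst hf.1 h0)
    · intro i hi
      obtain ⟨j, rfl⟩ : ∃ j, i = j + 2 := ⟨i - 2, by omega⟩
      have h1 : ins s t f (j + 2) = max (f (j + 1)) (min s (f j)) := rfl
      rw [h1, hf.2.1 j (by omega), hf.2.1 (j + 1) (by omega)]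
      omega
    · have h1 := ins_sum hst hf.1 h0 (n - (s + t) + 1)
      have h2 : e t f (n - (s + t) + 1) = f (n - (s + t)) := rfl
      rw [h2, hf.2.1 _ le_rfl, hf.sum_range (Nat.le_succ _)] at h1
      rw [show n - (s + t) + 2 = (n - (s + t) + 1) + 1 from rfl, sum_range_succ']
      have h3 : ins s t f 0 = t := rfl
      rw [h3]
      omega
  · classical
    have hex : ∃ k, f k ≤ s := ⟨n - (s + t), by rw [hf.2.1 _ le_rfl]; omega⟩
    have h1 := Nat.find_spec hex
    have h2 : s < e t f (Nat.find hex) := by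
      rcases Nat.eq_zero_or_pos (Nat.find hex) with h | h
      · rw [h]; exact hst
      · have h3 := Nat.find_min hex (m := Nat.find hex - 1) (by omega)
        obtain ⟨j, hj⟩ : ∃ j, Nat.find hex = j + 1 := ⟨Nat.find hex - 1, by omega⟩
        rw [hj] at h3 ⊢
        show s < f j
        have h4 : j + 1 - 1 = j := by omega
        rw [h4] at h3
        omega
    refine ⟨Nat.find hex + 1, ?_⟩
    show max (f (Nat.find hex)) (min s (e t f (Nat.find hex))) = s
    omega

end Z2H

open Z2H in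
/-- (Z2) -/
theorem z2 (hp : S_PARTS) : S_Z2 := by
  classical
  intro n s t hs hst hn
  have hfin := finite_partitions (n - (s + t))
  set m := n - (s + t) with hm
  set I := (Icc (t + 1) n).filter (fun r => s + t + r ≤ n) with hI
  have hsub : {f : ℕ → ℕ | IsPartition m f} ⊆ {f : ℕ → ℕ | IsPartition m f ∧ f 0 ≤ t} ∪
      ⋃ r ∈ I, {f : ℕ → ℕ | IsPartition m f ∧ HasParts f [r]} := by
    intro f hf
    by_cases h0 : f 0 ≤ t
    · exact Or.inl ⟨hf, h0⟩
    · right
      have h1 : f 0 ≤ m := hf.le 0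
      simp only [Set.mem_iUnion]
      refine ⟨f 0, ?_, hf, fun _ => 0, fun a b _ => ?_, fun j => ?_⟩
      · rw [hI, mem_filter, mem_Icc]
        omega
      · have ha := a.2
        have hb := b.2
        simp only [List.length_singleton] at ha hb
        exact Fin.ext (by omega)
      · have hj : j = ⟨0, by simp⟩ := by
          have ha := j.2
          simp only [List.length_singleton] at ha
          exact Fin.ext (by simp only; omega)
        subst hj
        refine ⟨rfl, ?_⟩
        show f 0 ≠ 0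
        omega
  have hA : {f : ℕ → ℕ | IsPartition m f ∧ f 0 ≤ t}.ncard ≤ (LW n s t).ncard := by
    refine Set.ncard_le_ncard_of_injOn (ins s t) (fun f hf => ins_mem hs hst hn hf.1 hf.2) ?_ ?_
    · intro f hf g hg hfg
      funext i
      rw [ins_rec (s := s) hf.1.1 hf.2 i, ins_rec (s := s) hg.1.1 hg.2 i, hfg]
    · exact (finite_partitions n).subset fun u hu => hu.1
  have hB : (⋃ r ∈ I, {f : ℕ → ℕ | IsPartition m f ∧ HasParts f [r]}).ncard ≤
      ∑ r ∈ I, {f : ℕ → ℕ | IsPartition m f ∧ HasParts f [r]}.ncard :=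
    Finset.set_ncard_biUnion_le _ _
  have hC : ∀ r ∈ I, {f : ℕ → ℕ | IsPartition m f ∧ HasParts f [r]}.ncard ≤
      numPartitions (n - (s + t + r)) := by
    intro r hr
    rw [hI, mem_filter, mem_Icc] at hr
    have h1 := (hp m [r]).1 (by simp; omega)
    have h2 : m - [r].sum = n - (s + t + r) := by simp; omega
    rwa [h2] at h1
  calc numPartitions m = {f : ℕ → ℕ | IsPartition m f}.ncard := rfl
    _ ≤ ({f : ℕ → ℕ | IsPartition m f ∧ f 0 ≤ t} ∪
      ⋃ r ∈ I, {f : ℕ → ℕ | IsPartition m f ∧ HasParts f [r]}).ncard := by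
        refine Set.ncard_le_ncard hsub ?_
        refine (hfin.subset fun f hf => hf.1).union ?_
        refine hfin.subset ?_
        intro f hf
        simp only [Set.mem_iUnion] at hf
        obtain ⟨r, _, hf⟩ := hf
        exact hf.1
    _ ≤ {f : ℕ → ℕ | IsPartition m f ∧ f 0 ≤ t}.ncard +
      (⋃ r ∈ I, {f : ℕ → ℕ | IsPartition m f ∧ HasParts f [r]}).ncard := Set.ncard_union_le _ _
    _ ≤ (LW n s t).ncard + ∑ r ∈ I, numPartitions (n - (s + t + r)) :=
        add_le_add hA (hB.trans (sum_le_sum hC))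

end Pool.Agent.W5h11.TZ
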