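import Pool.Agent.W5h11.TZ.Iface7

/-! (Z3) the zeros of type II which are not of type I: lower bound by two parts. -/

set_option autoImplicit false

namespace Pool.Agent.W5h11.TZ

open Finset Filter Topology Real Pool.Agent.H581R3.Core Pool.Agent.R721.PN

namespace Z3P

theorem ie {ι α : Type*} [DecidableEq ι] [DecidableEq α] (A : Finset ι) (F : ι → Finset α) :
    ∑ s ∈ A, (F s).card ≤ (A.biUnion F).card +
      ∑ s ∈ A, ∑ s' ∈ A, (if s = s' then 0 else (F s ∩ F s').card) := by
  induction A using Finset.induction_on with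
  | empty => simp
  | insert a A ha ih =>
    rw [Finset.sum_insert ha, Finset.biUnion_insert]
    have h1 : (F a).card + (A.biUnion F).card =
        (F a ∪ A.biUnion F).card + (F a ∩ A.biUnion F).card :=
      (Finset.card_union_add_card_inter _ _).symm
    have h2 : (F a ∩ A.biUnion F).card ≤
        ∑ s' ∈ A, (if a = s' then 0 else (F a ∩ F s').card) := by
      rw [Finset.inter_biUnion]
      refine Finset.card_biUnion_le.trans (le_of_eq (Finset.sum_congr rfl fun s' hs' => ?_))
      rw [if_neg]
      rintro rfl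
      exact ha hs'
    have h3 : (∑ s' ∈ A, (if a = s' then 0 else (F a ∩ F s').card)) +
        ∑ s ∈ A, ∑ s' ∈ A, (if s = s' then 0 else (F s ∩ F s').card) ≤
        ∑ s ∈ insert a A, ∑ s' ∈ insert a A, (if s = s' then 0 else (F s ∩ F s').card) := by
      rw [Finset.sum_insert ha]
      refine add_le_add ?_ (Finset.sum_le_sum fun s _ => ?_)
      · exact Finset.sum_le_sum_of_subset (Finset.subset_insert _ _)
      · exact Finset.sum_le_sum_of_subset (Finset.subset_insert _ _)
    omega

end Z3P

open Z3P in
/-- (Z3) -/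
theorem z3 (hp : S_PARTS) : S_Z3 := by
  classical
  intro n A B hA hAB hsum
  have hfinP : {f : ℕ → ℕ | IsPartition n f}.Finite := finite_partitions n
  have hZ : (typeIIZeros n \ typeIZeros n).Finite := (typeII_finite n).subset Set.diff_subset
  have hG : ∀ s t, (CN n s t ×ˢ LW n s t).Finite := fun s t =>
    (hfinP.prod hfinP).subset fun x hx => ⟨hx.1.1, hx.2.1⟩
  let F : ℕ → ℕ → Finset ((ℕ → ℕ) × (ℕ → ℕ)) := fun t s => (hG s t).toFinset
  let Zt : ℕ → Finset ((ℕ → ℕ) × (ℕ → ℕ)) := fun t => hZ.toFinset.filter fun x => x.2 0 = t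
  have hZt : ∑ t ∈ B, (Zt t).card ≤ (typeIIZeros n \ typeIZeros n).ncard := by
    rw [← Finset.card_biUnion, Set.ncard_eq_toFinset_card _ hZ]
    · refine Finset.card_le_card fun x hx => ?_
      obtain ⟨t, _, hx⟩ := Finset.mem_biUnion.1 hx
      exact (Finset.mem_filter.1 hx).1
    · intro t _ t' _ htt
      rw [Function.onFun, Finset.disjoint_left]
      intro x hx hx'
      exact htt ((Finset.mem_filter.1 hx).2.symm.trans (Finset.mem_filter.1 hx').2)
  have hmain : ∀ t ∈ B, ∑ s ∈ A, (CN n s t).ncard * (LW n s t).ncard ≤ (Zt t).card +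
      ∑ s ∈ A, ∑ s' ∈ A, numPartitions n * numPartitions (n - (s + s' + t)) := by
    intro t ht
    have h1 : ∀ s ∈ A, (CN n s t).ncard * (LW n s t).ncard = (F t s).card := by
      intro s _
      rw [← Set.ncard_prod, Set.ncard_eq_toFinset_card _ (hG s t)]
    rw [Finset.sum_congr rfl h1]
    refine (ie A (F t)).trans (add_le_add ?_ (Finset.sum_le_sum fun s hs =>
      Finset.sum_le_sum fun s' hs' => ?_))
    · refine Finset.card_le_card fun x hx => ?_
      obtain ⟨s, hs, hx⟩ := Finset.mem_biUnion.1 hx
      have hx := (Set.Finite.mem_toFinset _).1 hx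
      obtain ⟨⟨h2, h3, h4⟩, h5, h6, i, h7⟩ := hx
      refine Finset.mem_filter.2 ⟨(Set.Finite.mem_toFinset _).2 ⟨⟨h2, h5, i, ?_, ?_⟩, ?_⟩, h6⟩
      · rw [h7]
        have := hA s hs
        omega
      · rw [h7]
        exact h3
      · rintro ⟨_, _, h8⟩
        rw [h6] at h8
        exact h4 h8
    · split_ifs with hss
      · exact Nat.zero_le _
      have hH : {u : ℕ → ℕ | IsPartition n u ∧ HasParts u [s, s', t]}.Finite :=
        hfinP.subset fun u hu => hu.1
      have h2 := (hp n [s, s', t]).1 (by
        have := hsum s hs s' hs' t ht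
        simp only [List.sum_cons, List.sum_nil]
        omega)
      have h3 : n - [s, s', t].sum = n - (s + s' + t) := by
        simp only [List.sum_cons, List.sum_nil]
        omega
      rw [h3] at h2
      have h4 : F t s ∩ F t s' ⊆ hfinP.toFinset ×ˢ hH.toFinset := by
        intro x hx
        rw [Finset.mem_inter] at hx
        have hx1 := (Set.Finite.mem_toFinset _).1 hx.1
        have hx2 := (Set.Finite.mem_toFinset _).1 hx.2
        obtain ⟨⟨h5, _⟩, h6, h7, i, h8⟩ := hx1
        obtain ⟨_, _, _, j, h9⟩ := hx2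
        have hst := hAB s hs t ht
        have hst' := hAB s' hs' t ht
        have hs1 := hA s hs
        have hs1' := hA s' hs'
        refine Finset.mem_product.2 ⟨(Set.Finite.mem_toFinset _).2 h5,
          (Set.Finite.mem_toFinset _).2 ⟨h6, ![i, j, 0], ?_, ?_⟩⟩
        · have hij : i ≠ j := by
            rintro rfl
            exact hss (h8.symm.trans h9)
          have hi0 : i ≠ 0 := by
            rintro rfl
            omega
          have hj0 : j ≠ 0 := by
            rintro rfl
            omega
          intro a b hab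
          fin_cases a <;> fin_cases b <;> simp_all
        · intro a
          fin_cases a
          · exact ⟨h8, by simp; omega⟩
          · exact ⟨h9, by simp; omega⟩
          · exact ⟨h7, by simp; omega⟩
      calc (F t s ∩ F t s').card ≤ (hfinP.toFinset ×ˢ hH.toFinset).card := Finset.card_le_card h4
        _ = hfinP.toFinset.card * hH.toFinset.card := Finset.card_product _ _
        _ = numPartitions n * {u : ℕ → ℕ | IsPartition n u ∧ HasParts u [s, s', t]}.ncard := by
            rw [numPartitions, Set.ncard_eq_toFinset_card _ hfinP, Set.ncard_eq_toFinset_card _ hH]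
        _ ≤ numPartitions n * numPartitions (n - (s + s' + t)) := Nat.mul_le_mul_left _ h2
  calc ∑ t ∈ B, ∑ s ∈ A, (CN n s t).ncard * (LW n s t).ncard
      ≤ ∑ t ∈ B, ((Zt t).card + ∑ s ∈ A, ∑ s' ∈ A,
          numPartitions n * numPartitions (n - (s + s' + t))) := Finset.sum_le_sum hmain
    _ = ∑ t ∈ B, (Zt t).card + ∑ t ∈ B, ∑ s ∈ A, ∑ s' ∈ A,
          numPartitions n * numPartitions (n - (s + s' + t)) := Finset.sum_add_distrib
    _ ≤ _ := Nat.add_le_add_right hZt _

end Pool.Agent.W5h11.TZ
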