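import Pool.Agent.W5h11.TZ.Iface7
import Pool.Agent.W5h11.TZ.MSum

/-! (Z4) the windows -/

set_option autoImplicit false

namespace Pool.Agent.W5h11.TZ.Z4P

open Finset Filter Topology Real Pool.Agent.W5h11.TZ.MS

theorem first {θ s L x : ℝ} (hθ : 0 < θ) (hθ1 : θ ≤ 1 / 2) (hs : 0 < s) (hL : 52 ≤ L)
    (hsL : exp (L / 2) = s) (hx1 : 1 / (4 * s) ≤ x) (hx2 : x ≤ 13 / s) (e1 : 13 / s ≤ 1 / 4)
    (e3 : exp 2 < s / 13) (e4 : (4 * s * L + 1) / s ^ 2 ≤ θ) :
    ∃ P : ℕ, 1 / x ≤ P ∧ (P : ℝ) ≤ 4 * s * L + 1 ∧ u x P ≤ θ ∧ θ * exp (-x) ≤ u x P ∧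
      ∀ t : ℕ, 1 / x ≤ (t : ℝ) → t < P → θ < u x t := by
  have hx : 0 < x := lt_of_lt_of_le (by positivity) hx1
  set t0 : ℕ := ⌈4 * s * L⌉₊ with ht0
  have h40 : 0 ≤ 4 * s * L := by positivity
  have ht1 : 4 * s * L ≤ t0 := Nat.le_ceil _
  have ht2 : (t0 : ℝ) ≤ 4 * s * L + 1 := (Nat.ceil_lt_add_one h40).le
  have hxt : L ≤ x * t0 := by
    calc L = 1 / (4 * s) * (4 * s * L) := by field_simp
      _ ≤ x * t0 := by gcongr
  have hx1' : 1 / x ≤ 4 * s := by
    rw [div_le_iff₀ hx]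
    rw [div_le_iff₀ (by positivity)] at hx1
    linarith
  have hxt0 : 1 / x ≤ t0 := by
    refine hx1'.trans (le_trans ?_ ht1)
    nlinarith
  have hexpL : exp (-L) = 1 / s ^ 2 := by
    rw [← hsL, ← exp_nat_mul, exp_neg, one_div]
    congr 2
    push_cast
    ring
  have hu0 : u x t0 ≤ θ := by
    unfold u
    calc (t0 : ℝ) * exp (-(x * t0)) ≤ (4 * s * L + 1) * exp (-L) := by
          apply mul_le_mul ht2 (exp_le_exp.2 (by linarith)) (exp_pos _).le (by positivity)
      _ = (4 * s * L + 1) / s ^ 2 := by rw [hexpL]; ring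
      _ ≤ θ := e4
  classical
  have hexM : ∃ t : ℕ, 1 / x ≤ (t : ℝ) ∧ u x t ≤ θ := ⟨t0, hxt0, hu0⟩
  set M := Nat.find hexM with hMdef
  have hM := Nat.find_spec hexM
  rw [← hMdef] at hM
  obtain ⟨hM1, hM2⟩ := hM
  have hM0 : (0 : ℝ) < M := lt_of_lt_of_le (by positivity) hM1
  have hMt0 : M ≤ t0 := Nat.find_min' hexM ⟨hxt0, hu0⟩
  have hlt : 1 / x + 1 < M := by
    by_contra hcon
    push Not at hcon
    have h1 : x * M ≤ 1 + x := by
      calc x * M ≤ x * (1 / x + 1) := by gcongr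
        _ = 1 + x := by field_simp
    have h2 : s / 13 ≤ M := by
      refine le_trans ?_ hM1
      rw [le_div_iff₀ hx]
      rw [le_div_iff₀ hs] at hx2
      linarith
    have h3 : s / 13 * exp (-2) ≤ u x M := by
      unfold u
      have : exp (-2) ≤ exp (-(x * M)) := exp_le_exp.2 (by linarith)
      gcongr
    have h4 : s / 13 * exp (-2) ≤ θ := h3.trans hM2
    have h5 : 1 < s / 13 * exp (-2) := by
      rw [exp_neg, ← div_eq_mul_inv, lt_div_iff₀ (exp_pos _)]
      linarith
    linarith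
  have hMpos : 0 < M := by exact_mod_cast hM0
  have hcast : ((M - 1 : ℕ) : ℝ) = (M : ℝ) - 1 := by
    rw [Nat.cast_sub hMpos, Nat.cast_one]
  have hlast : ∀ t : ℕ, 1 / x ≤ (t : ℝ) → t < M → θ < u x t := by
    intro t h1 h2
    have := Nat.find_min hexM (m := t) h2
    rw [not_and_or] at this
    rcases this with h | h
    · exact absurd h1 h
    · exact not_le.1 h
  have hpred : θ < u x (M - 1) := hlast (M - 1) (by rw [hcast]; linarith) (by omega)
  have hMm : 0 < M - 1 := by
    have : (0 : ℝ) < ((M - 1 : ℕ) : ℝ) := by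
      rw [hcast]
      have : 0 < 1 / x := by positivity
      linarith
    exact_mod_cast this
  have hUM : θ * exp (-x) ≤ u x M := by
    have h1 := u_succ_ge x hMm
    rw [Nat.sub_add_cancel hMpos] at h1
    refine le_trans ?_ h1
    gcongr
  have hMt0' : (M : ℝ) ≤ t0 := by exact_mod_cast hMt0
  exact ⟨M, hM1, hMt0'.trans ht2, hM2, hUM, hlast⟩

/-- lower bound of a window sum -/
theorem win {x : ℝ} (hx : 0 < x) {M N : ℕ} (hM : 0 < M) (h : M ≤ N) :
    (u x M - u x N) / (x * N) ≤ ∑ t ∈ Ico M N, exp (-(x * t)) := by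
  have hN0 : (0 : ℝ) < N := by exact_mod_cast lt_of_lt_of_le hM h
  have h1 : ∀ t ∈ Ico M N, (u x t - u x (t + 1)) / (x * N) ≤ exp (-(x * t)) := by
    intro t ht
    rw [mem_Ico] at ht
    have ht0 : 0 < t := lt_of_lt_of_le hM ht.1
    have ht1 : (0 : ℝ) < t := by exact_mod_cast ht0
    have htN : (t : ℝ) ≤ N := by exact_mod_cast ht.2.le
    have h2 := dec_le (x := x) ht0
    rw [div_le_iff₀ (by positivity)]
    refine h2.trans ?_
    unfold u
    have h3 : 0 < exp (-(x * t)) := exp_pos _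
    calc x * (t * exp (-(x * t))) ≤ x * (N * exp (-(x * t))) := by gcongr
      _ = exp (-(x * t)) * (x * N) := by ring
  have h2 := sum_le_sum h1
  rw [← sum_div] at h2
  have h3 : ∑ t ∈ Ico M N, (u x t - u x (t + 1)) = u x M - u x N := by
    have := tel (fun t => - u x t) h
    calc ∑ t ∈ Ico M N, (u x t - u x (t + 1)) = ∑ t ∈ Ico M N, (-u x (t + 1) - -u x t) := by
          apply sum_congr rfl
          intro t _
          ring
      _ = u x M - u x N := by rw [this]; ring
  rw [h3] at h2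
  exact h2

/-- the tail -/
theorem tail {x : ℝ} (hx : 0 < x) (hx1 : x ≤ 1 / 2) {M N : ℕ} :
    ∑ t ∈ Ico M N, exp (-(x * t)) ≤ 2 / x * exp (-(x * M)) := by
  rcases le_or_gt M N with h | h
  · have h1 : ∀ t ∈ Ico M N, exp (-(x * t)) ≤
        2 / x * (exp (-(x * t)) - exp (-(x * ((t + 1 : ℕ) : ℝ)))) := by
      intro t _
      have e : exp (-(x * ((t + 1 : ℕ) : ℝ))) = exp (-(x * t)) * exp (-x) := by
        rw [← exp_add]; congr 1; push_cast; ring
      rw [e]
      have h3 := exp_neg_le hx.le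
      have h4 : 0 < exp (-(x * t)) := exp_pos _
      have h5 : x / 2 ≤ 1 - exp (-x) := by nlinarith
      calc exp (-(x * t)) = 2 / x * (exp (-(x * t)) * (x / 2)) := by field_simp
        _ ≤ 2 / x * (exp (-(x * t)) * (1 - exp (-x))) := by gcongr
        _ = _ := by ring
    have h2 := sum_le_sum h1
    rw [← mul_sum] at h2
    refine h2.trans ?_
    apply mul_le_mul_of_nonneg_left _ (by positivity)
    have := tel (fun t => - exp (-(x * (t : ℝ)))) h
    have h3 : ∑ t ∈ Ico M N, (exp (-(x * t)) - exp (-(x * ((t + 1 : ℕ) : ℝ)))) =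
        exp (-(x * M)) - exp (-(x * N)) := by
      calc _ = ∑ t ∈ Ico M N, (-exp (-(x * ((t + 1 : ℕ) : ℝ))) - -exp (-(x * (t : ℝ)))) := by
            apply sum_congr rfl
            intro t _
            ring
        _ = exp (-(x * M)) - exp (-(x * N)) := by rw [this]; ring
    rw [h3]
    have := exp_pos (-(x * (N : ℝ)))
    linarith
  · rw [Ico_eq_empty (by omega), sum_empty]
    positivity

end Pool.Agent.W5h11.TZ.Z4P

namespace Pool.Agent.W5h11.TZ

open Finset Filter Topology Real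

open MS Z4P in
theorem z4 : S_Z4 := by
  refine ⟨1 / 10000, by norm_num, ?_⟩
  have hexp : Tendsto (fun L : ℝ => exp (L / 2) / 13) atTop atTop :=
    (tendsto_exp_atTop.comp (tendsto_id.atTop_div_const (by norm_num))).atTop_div_const
      (by norm_num)
  have ev : ∀ᶠ L : ℝ in atTop, 600000 ≤ L ∧ 13 / exp (L / 2) ≤ 1 / 4 ∧
      exp 2 < exp (L / 2) / 13 ∧ (4 * exp (L / 2) * L + 1) / exp (L / 2) ^ 2 ≤ 1 / 40 := by
    filter_upwards [eventually_ge_atTop 600000,
      lim_inv.eventually_le_const (show (0 : ℝ) < 1 / 4 by norm_num),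
      hexp.eventually_gt_atTop (exp 2),
      lim_small.eventually_le_const (show (0 : ℝ) < 1 / 40 by norm_num)] with L h1 h2 h3 h4
    exact ⟨h1, h2, h3, h4⟩
  have hlog : Tendsto (fun n : ℕ => Real.log (n : ℝ)) atTop atTop :=
    Real.tendsto_log_atTop.comp tendsto_natCast_atTop_atTop
  have ev2 := (hlog.eventually ev).and (eventually_ge_atTop 1)
  obtain ⟨n₁, hn₁⟩ := eventually_atTop.1 ev2
  refine ⟨n₁, fun n hn x hx1 hx2 => ?_⟩
  obtain ⟨⟨e0, e1, e3, e4⟩, hn1⟩ := hn₁ n hn
  have hn0 : (0 : ℝ) < n := by exact_mod_cast hn1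
  set L := Real.log (n : ℝ) with hL
  have hsL : exp (L / 2) = √(n : ℝ) := by
    rw [Real.exp_half, hL, Real.exp_log hn0]
  have hs2 : √(n : ℝ) ^ 2 = n := Real.sq_sqrt hn0.le
  rw [hsL] at e1 e3 e4
  set s := √(n : ℝ) with hs
  have hs0 : 0 < s := Real.sqrt_pos.2 hn0
  have hx : 0 < x := lt_of_lt_of_le (by positivity) hx1
  have hx4 : x ≤ 1 / 4 := hx2.trans e1
  have hs52 : 52 ≤ s := by
    rw [div_le_iff₀ hs0] at e1
    linarith
  have hL52 : (52 : ℝ) ≤ L := by linarith
  obtain ⟨M, m1, m2, m3, m4, m5⟩ := first (θ := 1 / 2) (by norm_num) (by norm_num) hs0 hL52 hsL hx1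
    hx2 e1 e3 (e4.trans (by norm_num))
  obtain ⟨N, n1, n2, n3, n4, n5⟩ := first (θ := 1 / 4) (by norm_num) (by norm_num) hs0 hL52 hsL hx1
    hx2 e1 e3 (e4.trans (by norm_num))
  obtain ⟨M', p1, p2, p3, p4, p5⟩ := first (θ := 1 / 20) (by norm_num) (by norm_num) hs0 hL52 hsL
    hx1 hx2 e1 e3 (e4.trans (by norm_num))
  obtain ⟨N', q1, q2, q3, q4, q5⟩ := first (θ := 1 / 40) (by norm_num) (by norm_num) hs0 hL52 hsL
    hx1 hx2 e1 e3 (e4.trans (by norm_num))
  have hex : 3 / 4 ≤ exp (-x) := by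
    have := one_sub_le_exp_neg x
    linarith
  have hMN : M ≤ N := by
    by_contra hcon
    have := m5 N n1 (by omega)
    linarith
  have hNM' : N < M' := by
    have h1 : N ≤ M' := by
      by_contra hcon
      have := n5 M' p1 (by omega)
      linarith
    rcases h1.lt_or_eq with h | h
    · exact h
    · exfalso
      rw [← h] at p3
      linarith
  have hM'N' : M' ≤ N' := by
    by_contra hcon
    have := p5 N' q1 (by omega)
    linarith
  have hM0 : (0 : ℝ) < M := lt_of_lt_of_le (by positivity) m1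
  have hMpos : 0 < M := by exact_mod_cast hM0
  have hN0 : (0 : ℝ) < N := lt_of_lt_of_le (by positivity) n1
  have hM'0 : (0 : ℝ) < M' := lt_of_lt_of_le (by positivity) p1
  have hN'0 : (0 : ℝ) < N' := lt_of_lt_of_le (by positivity) q1
  have hxi : s / 13 ≤ 1 / x := by
    rw [le_div_iff₀ hx]
    rw [le_div_iff₀ hs0] at hx2
    linarith
  have hx4s : 1 ≤ x * (4 * s) := by
    rw [div_le_iff₀ (by positivity)] at hx1
    linarith
  -- lower bound of `x M`
  have hxM : L / 4 ≤ x * M := by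
    have h1 : s / 13 * exp (-(x * M)) ≤ 1 / 2 := by
      refine le_trans ?_ m3
      unfold u
      have := hxi.trans m1
      gcongr
    have h2 : exp (L / 2) * exp (-(x * M)) ≤ exp (L / 4) := by
      rw [hsL]
      have h3 : s * exp (-(x * M)) ≤ 13 / 2 := by linarith
      have h4 : L / 4 + 1 ≤ exp (L / 4) := add_one_le_exp _
      linarith
    rw [← exp_add, exp_le_exp] at h2
    linarith
  have hMs : s * L / 52 ≤ M := by
    have h1 : x * M ≤ 13 / s * M := by gcongr
    have h2 : L / 4 ≤ 13 / s * M := hxM.trans h1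
    rw [div_mul_eq_mul_div, le_div_iff₀ hs0] at h2
    linarith
  have hsM : s ≤ M := by
    refine le_trans ?_ hMs
    rw [le_div_iff₀ (by norm_num)]
    nlinarith
  -- upper bounds
  have hup : ∀ P : ℕ, (P : ℝ) ≤ 4 * s * L + 1 → x * P ≤ 53 * L := by
    intro P hP
    calc x * P ≤ 13 / s * (4 * s * L + 1) := by gcongr
      _ = 52 * L + 13 / s := by field_simp; ring
      _ ≤ 53 * L := by linarith
  -- distance from below
  have hd1 : 1 ≤ x * ((M' : ℝ) - N) := by
    have h1 : exp (x * ((M' : ℝ) - N)) * u x M' = M' * exp (-(x * N)) := by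
      unfold u
      rw [mul_left_comm, ← exp_add]
      congr 2
      ring
    have h2 : (N : ℝ) * exp (-(x * N)) ≤ M' * exp (-(x * N)) := by
      have : (N : ℝ) ≤ M' := by exact_mod_cast hNM'.le
      gcongr
    have h3 : 1 / 4 * (3 / 4) ≤ exp (x * ((M' : ℝ) - N)) * (1 / 20) := by
      calc 1 / 4 * (3 / 4) ≤ 1 / 4 * exp (-x) := by gcongr
        _ ≤ N * exp (-(x * N)) := n4
        _ ≤ exp (x * ((M' : ℝ) - N)) * u x M' := by rw [h1]; exact h2
        _ ≤ exp (x * ((M' : ℝ) - N)) * (1 / 20) := by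
            have := exp_pos (x * ((M' : ℝ) - N))
            gcongr
    have h4 : exp 1 ≤ exp (x * ((M' : ℝ) - N)) := by
      have := Real.exp_one_lt_d9
      linarith
    exact exp_le_exp.1 h4
  -- distance from above
  have hd2 : x * ((N' : ℝ) - M) ≤ 10 := by
    have h1 : exp (x * ((N' : ℝ) - M)) * u x N' = N' * exp (-(x * M)) := by
      unfold u
      rw [mul_left_comm, ← exp_add]
      congr 2
      ring
    have h2 : (N' : ℝ) ≤ 209 * M := by
      refine q2.trans ?_
      have : 1 ≤ s * L := by nlinarith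
      linarith
    have h3 : (N' : ℝ) * exp (-(x * M)) ≤ 209 * (1 / 2) := by
      calc (N' : ℝ) * exp (-(x * M)) ≤ 209 * M * exp (-(x * M)) := by gcongr
        _ = 209 * u x M := by unfold u; ring
        _ ≤ 209 * (1 / 2) := by gcongr
    have h4 : exp (x * ((N' : ℝ) - M)) * (1 / 40 * (3 / 4)) ≤ 209 * (1 / 2) := by
      calc exp (x * ((N' : ℝ) - M)) * (1 / 40 * (3 / 4)) ≤
            exp (x * ((N' : ℝ) - M)) * (1 / 40 * exp (-x)) := by gcongr
        _ ≤ exp (x * ((N' : ℝ) - M)) * u x N' := by gcongr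
        _ = N' * exp (-(x * M)) := h1
        _ ≤ _ := h3
    have h5 : exp (x * ((N' : ℝ) - M)) ≤ exp 10 := by
      have h6 : (2.7 : ℝ) ^ 10 ≤ exp 1 ^ 10 := by
        apply pow_le_pow_left₀ (by norm_num)
        have := Real.exp_one_gt_d9
        linarith
      have h7 : exp 1 ^ 10 = exp 10 := by
        rw [← exp_nat_mul]
        norm_num
      rw [h7] at h6
      norm_num at h6
      linarith
    exact exp_le_exp.1 h5
  refine ⟨M, N, M', N', hsM, hMN, hNM', hM'N', ?_, hxM, ?_, ?_, ?_, ?_, ?_, ?_⟩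
  · refine q2.trans ?_
    nlinarith
  · intro t ht
    rw [mem_Ico] at ht
    have ht1 : (M : ℝ) ≤ t := by exact_mod_cast ht.1
    exact ⟨(n5 t (m1.trans ht1) ht.2).le, (u_anti hx m1 ht.1).trans m3⟩
  · intro t ht
    rw [mem_Ico] at ht
    have ht1 : (M' : ℝ) ≤ t := by exact_mod_cast ht.1
    exact ⟨(q5 t (p1.trans ht1) ht.2).le, (u_anti hx p1 ht.1).trans p3⟩
  · intro a ha t ht
    rw [mem_Ico] at ha ht
    have hat : a < t := by omega
    have hc : ((t - a : ℕ) : ℝ) = (t : ℝ) - a := Nat.cast_sub hat.le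
    have h1 : (M : ℝ) ≤ a := by exact_mod_cast ha.1
    have h2 : (a : ℝ) ≤ N := by exact_mod_cast ha.2.le
    have h3 : (M' : ℝ) ≤ t := by exact_mod_cast ht.1
    have h4 : (t : ℝ) ≤ N' := by exact_mod_cast ht.2.le
    have hdlo : s / 13 ≤ (t : ℝ) - a := by
      refine hxi.trans ?_
      rw [div_le_iff₀ hx]
      have : x * ((M' : ℝ) - N) ≤ x * ((t : ℝ) - a) := mul_le_mul_of_nonneg_left (by linarith) hx.le
      linarith
    have hdhi : (t : ℝ) - a ≤ 40 * s := by
      have h5 : x * ((t : ℝ) - a) ≤ 10 := by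
        have : x * ((t : ℝ) - a) ≤ x * ((N' : ℝ) - M) :=
          mul_le_mul_of_nonneg_left (by linarith) hx.le
        linarith
      have h6 : x * ((t : ℝ) - a) ≤ x * (40 * s) := by linarith
      exact le_of_mul_le_mul_left h6 hx
    have hdiv : ((n / (t - a) : ℕ) : ℝ) ≤ 13 * s := by
      refine (Nat.cast_div_le).trans ?_
      rw [hc, div_le_iff₀ (by linarith [div_pos hs0 (show (0 : ℝ) < 13 by norm_num)])]
      calc (n : ℝ) = 13 * s * (s / 13) := by rw [← hs2]; ring
        _ ≤ 13 * s * ((t : ℝ) - a) := by gcongr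
    rw [hc]
    have h7 : 600000 * s ≤ s * L := by nlinarith
    linarith
  · have h1 := win hx hMpos hMN
    refine le_trans ?_ h1
    have h2 := hup N n2
    have h3 : 1 / 8 ≤ u x M - u x N := by linarith
    rw [div_le_div_iff₀ (by linarith) (by positivity)]
    nlinarith
  · refine (tail hx (by linarith)).trans ?_
    have h1 : 2 / x * exp (-(x * M)) = 2 * u x M / (x * M) := by
      unfold u
      field_simp
    rw [h1, div_le_div_iff₀ (by positivity) (by positivity)]
    nlinarith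
  · have h1 := win hx (by exact_mod_cast hM'0 : 0 < M') hM'N'
    refine le_trans ?_ h1
    have h2 := hup N' q2
    have h3 : 1 / 80 ≤ u x M' - u x N' := by linarith
    rw [div_le_div_iff₀ (by linarith) (by positivity)]
    nlinarith

end Pool.Agent.W5h11.TZ
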