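import Pool.Agent.W5h11.TZ.Iface7
import Pool.Agent.W5h11.TZ.Sharp

/-! (Z5) the cores in the windows. -/

set_option autoImplicit false

namespace Pool.Agent.W5h11.TZ

open Finset Filter Topology Real Pool.Agent.H581R3.Core Pool.Agent.R721.PN

theorem loc_small (C δ : ℝ) (hC : 0 < C) (hδ : 0 < δ) : ∀ᶠ n : ℕ in atTop, ∀ r : ℕ,
    (r : ℝ) ≤ 2 * (√(n : ℝ) * Real.log n ^ 2) →
    C * r * Real.log n / (n : ℝ) ^ (3 / 4 : ℝ) ≤ δ := by
  have g1 : (fun x : ℝ => Real.log x) =o[atTop] fun x : ℝ => x ^ (1 / 12 : ℝ) :=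
    isLittleO_log_rpow_atTop (by norm_num)
  obtain ⟨ρ, hρ⟩ : ∃ ρ : ℝ, ρ = min 1 (δ / (2 * C)) := ⟨_, rfl⟩
  have hρ0 : 0 < ρ := by rw [hρ]; positivity
  have hρ1 : ρ ≤ 1 := by rw [hρ]; exact min_le_left _ _
  have hρ2 : ρ ≤ δ / (2 * C) := by rw [hρ]; exact min_le_right _ _
  have g2 := (g1.bound hρ0)
  have g3 := (tendsto_natCast_atTop_atTop (R := ℝ)).eventually g2
  filter_upwards [g3, eventually_ge_atTop 1] with n hn hn1
  intro r hr
  have hn1' : (1 : ℝ) ≤ n := by exact_mod_cast hn1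
  have hn0 : (0 : ℝ) < n := by linarith
  have hL0 : 0 ≤ Real.log n := Real.log_nonneg hn1'
  rw [Real.norm_of_nonneg hL0, Real.norm_of_nonneg (by positivity)] at hn
  have g4 : Real.log n ^ 3 ≤ ρ * (n : ℝ) ^ (1 / 4 : ℝ) := by
    calc Real.log n ^ 3 ≤ (ρ * (n : ℝ) ^ (1 / 12 : ℝ)) ^ 3 := pow_le_pow_left₀ hL0 hn 3
      _ = ρ ^ 3 * (n : ℝ) ^ (1 / 4 : ℝ) := by
          rw [mul_pow, ← Real.rpow_natCast ((n : ℝ) ^ (1 / 12 : ℝ)), ← Real.rpow_mul hn0.le]
          norm_num
      _ ≤ ρ * (n : ℝ) ^ (1 / 4 : ℝ) := by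
          gcongr
          calc ρ ^ 3 ≤ ρ ^ 1 := pow_le_pow_of_le_one hρ0.le hρ1 (by norm_num)
            _ = ρ := pow_one ρ
  have g5 : √(n : ℝ) * (n : ℝ) ^ (1 / 4 : ℝ) = (n : ℝ) ^ (3 / 4 : ℝ) := by
    rw [Real.sqrt_eq_rpow, ← Real.rpow_add hn0]; norm_num
  rw [div_le_iff₀ (by positivity), ← g5]
  calc C * r * Real.log n ≤ C * (2 * (√(n : ℝ) * Real.log n ^ 2)) * Real.log n := by gcongr
    _ = 2 * C * √(n : ℝ) * Real.log n ^ 3 := by ring
    _ ≤ 2 * C * √(n : ℝ) * (ρ * (n : ℝ) ^ (1 / 4 : ℝ)) := by gcongr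
    _ = 2 * C * ρ * (√(n : ℝ) * (n : ℝ) ^ (1 / 4 : ℝ)) := by ring
    _ ≤ 2 * C * (δ / (2 * C)) * (√(n : ℝ) * (n : ℝ) ^ (1 / 4 : ℝ)) := by gcongr
    _ = δ * (√(n : ℝ) * (n : ℝ) ^ (1 / 4 : ℝ)) := by field_simp

/-- **(Z5)** -/
theorem z5 (h1 : S_Z1) (hm : S_MOM) : S_Z5T := by
  intro xs C n0 h
  have hC := h.C1
  have hC0 : 0 < C := by linarith
  have hll : ∀ᶠ n : ℕ in atTop, 3 * (√(n : ℝ) * Real.log n ^ 2) ≤ n := by
    have g1 : (fun x : ℝ => Real.log x) =o[atTop] fun x : ℝ => x ^ (1 / 4 : ℝ) :=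
      isLittleO_log_rpow_atTop (by norm_num)
    have g2 := (g1.bound (show (0 : ℝ) < 1 / 2 by norm_num))
    have g3 := (tendsto_natCast_atTop_atTop (R := ℝ)).eventually g2
    filter_upwards [g3, eventually_ge_atTop 1] with n hn hn1
    have hn1' : (1 : ℝ) ≤ n := by exact_mod_cast hn1
    have hn0 : (0 : ℝ) < n := by linarith
    rw [Real.norm_of_nonneg (Real.log_nonneg hn1'), Real.norm_of_nonneg (by positivity)] at hn
    have g4 : Real.log n ^ 2 ≤ 1 / 4 * √(n : ℝ) := by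
      calc Real.log n ^ 2 ≤ (1 / 2 * (n : ℝ) ^ (1 / 4 : ℝ)) ^ 2 :=
            pow_le_pow_left₀ (Real.log_nonneg hn1') hn 2
        _ = 1 / 4 * √(n : ℝ) := by
            rw [mul_pow, ← Real.rpow_natCast ((n : ℝ) ^ (1 / 4 : ℝ)), ← Real.rpow_mul hn0.le,
              Real.sqrt_eq_rpow]
            norm_num
    have hs2 : √(n : ℝ) * √(n : ℝ) = n := Real.mul_self_sqrt hn0.le
    calc 3 * (√(n : ℝ) * Real.log n ^ 2) ≤ 3 * (√(n : ℝ) * (1 / 4 * √(n : ℝ))) := by gcongr
      _ = 3 / 4 * (√(n : ℝ) * √(n : ℝ)) := by ring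
      _ = 3 / 4 * n := by rw [hs2]
      _ ≤ n := by linarith
  have hall : ∀ᶠ n : ℕ in atTop, ∀ s t : ℕ, √(n : ℝ) ≤ s → s < t →
      (t : ℝ) ≤ √(n : ℝ) * Real.log n ^ 2 → Real.log n / 4 ≤ xs n * s →
      s * exp (-(xs n * s)) ≤ 1 / 2 → 1 / 40 ≤ t * exp (-(xs n * t)) →
      t * exp (-(xs n * t)) ≤ 1 / 20 →
      99 / 100 * (t : ℝ) ≤ s - (((t - s : ℕ) : ℝ) + 2 * ((n / (t - s) : ℕ) : ℝ)) →
      1 / 200 * (numPartitions n : ℝ) ≤ (CN n s t).ncard := by
    filter_upwards [eventually_ge_atTop n0, eventually_ge_atTop 1, loc_small C (1 / 1000) hC0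
      (by norm_num), log_tendsto.eventually_ge_atTop 2000, hll] with n e1 e2 e3 e4 e5
    intro s t hs hst htn hxs hus hut1 hut2 hwin
    have hn1 : (1 : ℝ) ≤ n := by exact_mod_cast e2
    have hn0 : (0 : ℝ) < n := by linarith
    have hP : (0 : ℝ) < numPartitions n := by exact_mod_cast numPartitions_pos n
    have hs1 : 1 ≤ √(n : ℝ) := Real.one_le_sqrt.2 hn1
    have hs0 : (0 : ℝ) < s := by linarith
    have hs0' : 1 ≤ s := by exact_mod_cast hs1.trans hs
    have hst' : (s : ℝ) < t := by exact_mod_cast hst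
    have ht0 : (0 : ℝ) < t := by linarith
    have hx0 := h.pos n e1
    have hxhi := h.hi n e1
    have h3t : 3 * t ≤ n := by
      have : (3 : ℝ) * t ≤ n := by linarith
      exact_mod_cast this
    -- the ratios
    have hloc : ∀ r : ℕ, r ≤ 2 * t →
        (1 - 1 / 1000) * exp (-(xs n * r)) * numPartitions n ≤ numPartitions (n - r) ∧
        (numPartitions (n - r) : ℝ) ≤ (1 + 1 / 1000) * exp (-(xs n * r)) * numPartitions n := by
      intro r hr
      have hr' : (r : ℝ) ≤ 2 * t := by exact_mod_cast hr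
      have g1 := h.loc n r e1 (by omega)
      have g2 := e3 r (by linarith)
      have g3 : C * r * Real.log n / (n : ℝ) ^ (3 / 4 : ℝ) * numPartitions n ≤
          1 / 1000 * numPartitions n := by gcongr
      have g4 := abs_le.1 (g1.trans g3)
      have g5 : (numPartitions (n - r) : ℝ) =
          (numPartitions (n - r) * exp (xs n * r)) * exp (-(xs n * r)) := by
        rw [mul_assoc, ← Real.exp_add]; simp
      have g6 := Real.exp_pos (-(xs n * r))
      constructor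
      · rw [g5]
        calc (1 - 1 / 1000) * exp (-(xs n * r)) * numPartitions n =
              ((1 - 1 / 1000) * numPartitions n) * exp (-(xs n * r)) := by ring
          _ ≤ _ := by
              apply mul_le_mul_of_nonneg_right _ g6.le
              linarith [g4.1]
      · calc (numPartitions (n - r) : ℝ) =
              (numPartitions (n - r) * exp (xs n * r)) * exp (-(xs n * r)) := g5
          _ ≤ ((1 + 1 / 1000) * numPartitions n) * exp (-(xs n * r)) := by
              apply mul_le_mul_of_nonneg_right _ g6.le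
              linarith [g4.2]
          _ = _ := by ring
    obtain ⟨et, het⟩ : ∃ e, e = exp (-(xs n * t)) := ⟨_, rfl⟩
    obtain ⟨es, hes⟩ : ∃ e, e = exp (-(xs n * s)) := ⟨_, rfl⟩
    have het0 : 0 < et := by rw [het]; positivity
    have hes0 : 0 < es := by rw [hes]; positivity
    rw [← het] at hut1 hut2
    rw [← hes] at hus
    -- `n / s ^ 2` is small
    have hns : (n : ℝ) ≤ 1 / 1000 * (s : ℝ) ^ 2 := by
      have g1 : Real.log n / 4 ≤ 13 / √(n : ℝ) * s := hxs.trans (by gcongr)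
      have g2 : Real.log n * √(n : ℝ) ≤ 52 * s := by
        have g3 : Real.log n / 4 * √(n : ℝ) ≤ 13 * s := by
          calc Real.log n / 4 * √(n : ℝ) ≤ 13 / √(n : ℝ) * s * √(n : ℝ) := by gcongr
            _ = 13 * s := by field_simp
        linarith
      have g4 : 2000 * √(n : ℝ) ≤ 52 * s := le_trans (by gcongr) g2
      have g5 : (2000 * √(n : ℝ)) ^ 2 ≤ (52 * (s : ℝ)) ^ 2 :=
        pow_le_pow_left₀ (by positivity) g4 2
      rw [mul_pow, Real.sq_sqrt hn0.le, mul_pow] at g5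
      nlinarith
    have hnt : (n : ℝ) ≤ 1 / 1000 * (t : ℝ) ^ 2 := by
      have : (s : ℝ) ^ 2 ≤ (t : ℝ) ^ 2 := pow_le_pow_left₀ hs0.le hst'.le 2
      linarith
    have hdiv : ∀ r : ℕ, (0 : ℝ) < r → (n : ℝ) ≤ 1 / 1000 * (r : ℝ) ^ 2 →
        (r : ℝ) + ((n / r : ℕ) : ℝ) ≤ (1 + 1 / 1000) * r := by
      intro r hr0 hr
      have g1 : ((n / r : ℕ) : ℝ) ≤ (n : ℝ) / r := Nat.cast_div_le
      have g2 : (n : ℝ) / r ≤ 1 / 1000 * r := by
        rw [div_le_iff₀ hr0]
        nlinarith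
      linarith
    -- the cores
    obtain ⟨E, E0, E1, E2⟩ := hm (n - t) s hs0' (by omega)
    have hE1 := (E1 1 (by omega)).2
    have hE2 := (E2 0).2
    have hc : (numPartitions (n - t) : ℝ) - (s + ((n - t) / s : ℕ)) *
        numPartitions (n - t - 1 * s) ≤ numCores s (n - t) := by
      have g1 : ((E 0 : ℕ) : ℤ) - E 1 ≤ numCores s (n - t) := by
        have : ∑ i ∈ range (2 * 0 + 2), (-1 : ℤ) ^ i * (E i : ℤ) = (E 0 : ℤ) - E 1 := by
          rw [show 2 * 0 + 2 = 2 from rfl, sum_range_succ, sum_range_one]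
          ring
        rw [this] at hE2
        exact hE2
      have g2 : ((E 0 : ℕ) : ℝ) - E 1 ≤ numCores s (n - t) := by exact_mod_cast g1
      have g3 : ((E 1 : ℕ) : ℝ) ≤ (s + ((n - t) / s : ℕ)) * numPartitions (n - t - 1 * s) := by
        rw [Nat.choose_one_right] at hE1
        exact_mod_cast hE1
      rw [E0] at g2
      linarith
    have hc' : 49 / 100 * et * (numPartitions n : ℝ) ≤ numCores s (n - t) := by
      have g1 := (hloc t (by omega)).1
      have g2 := (hloc (t + s) (by omega)).2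
      have g3 : n - t - 1 * s = n - (t + s) := by omega
      rw [g3] at hc
      have g4 : exp (-(xs n * ((t + s : ℕ) : ℝ))) = et * es := by
        rw [het, hes, ← Real.exp_add]; congr 1; push_cast; ring
      rw [g4] at g2
      rw [← het] at g1
      have g5 : (s : ℝ) + (((n - t) / s : ℕ) : ℝ) ≤ (1 + 1 / 1000) * s := by
        refine le_trans ?_ (hdiv s hs0 hns)
        have : (n - t) / s ≤ n / s := Nat.div_le_div_right (by omega)
        have : (((n - t) / s : ℕ) : ℝ) ≤ ((n / s : ℕ) : ℝ) := by exact_mod_cast this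
        linarith
      have g6 : ((s : ℝ) + (((n - t) / s : ℕ) : ℝ)) * numPartitions (n - (t + s)) ≤
          (1 + 1 / 1000) * s * ((1 + 1 / 1000) * (et * es) * numPartitions n) := by
        gcongr
      have g7 : (1 + 1 / 1000) * s * ((1 + 1 / 1000) * (et * es) * numPartitions n) =
          (1 + 1 / 1000) ^ 2 * (s * es) * (et * numPartitions n) := by ring
      have g8 : (1 + 1 / 1000) ^ 2 * (s * es) * (et * numPartitions n) ≤
          (1 + 1 / 1000) ^ 2 * (1 / 2) * (et * numPartitions n) := by gcongr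
      have g9 : 0 < et * (numPartitions n : ℝ) := by positivity
      nlinarith
    -- the conclusion
    have hz : (s : ℝ) * numCores s (n - t) ≤ (CN n s t).ncard +
        (((t - s : ℕ) : ℝ) + 2 * ((n / (t - s) : ℕ) : ℝ)) * numCores s (n - t) +
        ((t + n / t).choose 2 : ℕ) * numPartitions (n - 2 * t) := by
      exact_mod_cast h1 n s t hs0' hst (by omega)
    have hch : (((t + n / t).choose 2 : ℕ) : ℝ) ≤ ((1 + 1 / 1000) * t) ^ 2 / 2 := by
      have g1 := Nat.choose_le_pow_div (α := ℝ) 2 (t + n / t)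
      have g2 : (((t + n / t : ℕ) : ℝ)) ≤ (1 + 1 / 1000) * t := by
        push_cast
        exact hdiv t ht0 hnt
      calc (((t + n / t).choose 2 : ℕ) : ℝ) ≤ ((t + n / t : ℕ) : ℝ) ^ 2 / (Nat.factorial 2 : ℕ) := g1
        _ = ((t + n / t : ℕ) : ℝ) ^ 2 / 2 := by norm_num [Nat.factorial]
        _ ≤ _ := by gcongr
    have h2t : (numPartitions (n - 2 * t) : ℝ) ≤ (1 + 1 / 1000) * (et * et) * numPartitions n := by
      have g2 := (hloc (2 * t) le_rfl).2
      have g4 : exp (-(xs n * ((2 * t : ℕ) : ℝ))) = et * et := by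
        rw [het, ← Real.exp_add]; congr 1; push_cast; ring
      rwa [g4] at g2
    have hA : 99 / 100 * (t : ℝ) * (49 / 100 * et * (numPartitions n : ℝ)) ≤
        (s - (((t - s : ℕ) : ℝ) + 2 * ((n / (t - s) : ℕ) : ℝ))) * numCores s (n - t) := by
      apply mul_le_mul hwin hc' (by positivity)
      exact le_trans (by positivity) hwin
    have hB : (((t + n / t).choose 2 : ℕ) : ℝ) * numPartitions (n - 2 * t) ≤
        ((1 + 1 / 1000) * t) ^ 2 / 2 * ((1 + 1 / 1000) * (et * et) * numPartitions n) := by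
      gcongr
    have hB' : ((1 + 1 / 1000) * (t : ℝ)) ^ 2 / 2 * ((1 + 1 / 1000) * (et * et) *
        numPartitions n) = (1 + 1 / 1000) ^ 3 / 2 * (t * et) * (t * et) * numPartitions n := by
      ring
    have hu0 : 0 < (t : ℝ) * et := by positivity
    have hB'' : (1 + 1 / 1000) ^ 3 / 2 * (t * et) * (t * et) * (numPartitions n : ℝ) ≤
        (1 + 1 / 1000) ^ 3 / 2 * (1 / 20) * (t * et) * (numPartitions n : ℝ) := by gcongr
    have hA' : 99 / 100 * (t : ℝ) * (49 / 100 * et * (numPartitions n : ℝ)) =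
        4851 / 10000 * (t * et) * numPartitions n := by ring
    have hfin : 1 / 200 * (numPartitions n : ℝ) ≤ 4 / 10 * (t * et) * numPartitions n := by
      have : 1 / 200 ≤ 4 / 10 * ((t : ℝ) * et) := by linarith
      exact mul_le_mul_of_nonneg_right this hP.le
    have hpos : 0 < (t * et) * (numPartitions n : ℝ) := by positivity
    nlinarith
  obtain ⟨n₁, hn₁⟩ := eventually_atTop.1 hall
  exact ⟨n₁, fun n s t hn => hn₁ n hn s t⟩

end Pool.Agent.W5h11.TZ
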