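import Pool.Agent.W5h11.TZ.Iface7

/-! Task Z6: the parts. -/

set_option autoImplicit false

namespace Pool.Agent.W5h11.TZ

open Finset Filter Topology Real Pool.Agent.H581R3.Core Pool.Agent.R721.PN

/-- `(log n)^3` is small against `n^(1/4)`. -/
theorem z6_log (C c : ℝ) (hC : 1 ≤ C) (hc : 0 < c) : ∃ n₁ : ℕ, ∀ n : ℕ, n₁ ≤ n →
    2 ≤ n ∧ 1 ≤ Real.log n ∧ C * (2 * (√(n : ℝ) * Real.log n ^ 2)) * Real.log n /
      (n : ℝ) ^ (3 / 4 : ℝ) ≤ 1 / 4 ∧ 2 * (√(n : ℝ) * Real.log n ^ 2) ≤ n ∧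
      C * (1 / (c * Real.log n)) ≤ 1 / 4 := by
  have h1 : Tendsto (fun x : ℝ => Real.log x ^ 3 / x ^ (1 / 4 : ℝ)) atTop (𝓝 0) := by
    have := isLittleO_log_rpow_rpow_atTop (3 : ℝ) (show (0 : ℝ) < 1 / 4 by norm_num)
    have h := this.tendsto_div_nhds_zero
    refine h.congr fun x => ?_
    norm_cast
  have h2 : Tendsto (fun x : ℝ => Real.log x ^ 2 / x ^ (1 / 2 : ℝ)) atTop (𝓝 0) := by
    have := isLittleO_log_rpow_rpow_atTop (2 : ℝ) (show (0 : ℝ) < 1 / 2 by norm_num)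
    have h := this.tendsto_div_nhds_zero
    refine h.congr fun x => ?_
    norm_cast
  have hC0 : 0 < C := by linarith
  have e1 : ∀ᶠ x : ℝ in atTop, Real.log x ^ 3 / x ^ (1 / 4 : ℝ) < 1 / (8 * C) :=
    h1.eventually_lt_const (by positivity)
  have e2 : ∀ᶠ x : ℝ in atTop, Real.log x ^ 2 / x ^ (1 / 2 : ℝ) < 1 / 2 :=
    h2.eventually_lt_const (by norm_num)
  have e3 : ∀ᶠ x : ℝ in atTop, max 1 (4 * C / c) ≤ Real.log x :=
    Real.tendsto_log_atTop.eventually_ge_atTop _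
  have e4 : ∀ᶠ x : ℝ in atTop, (2 : ℝ) ≤ x := eventually_ge_atTop 2
  have hall := (e1.and (e2.and (e3.and e4)))
  have hn := tendsto_natCast_atTop_atTop (R := ℝ) |>.eventually hall
  obtain ⟨n₁, hn₁⟩ := eventually_atTop.mp hn
  refine ⟨n₁, fun n hn => ?_⟩
  obtain ⟨a1, a2, a3, a4⟩ := hn₁ n hn
  have hn0 : (0 : ℝ) < n := by linarith
  have hlog1 : 1 ≤ Real.log n := le_trans (le_max_left _ _) a3
  have hlog2 : 4 * C / c ≤ Real.log n := le_trans (le_max_right _ _) a3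
  have hsq : √(n : ℝ) = (n : ℝ) ^ (1 / 2 : ℝ) := Real.sqrt_eq_rpow _
  refine ⟨by exact_mod_cast a4, hlog1, ?_, ?_, ?_⟩
  · have h34 : (n : ℝ) ^ (3 / 4 : ℝ) = (n : ℝ) ^ (1 / 2 : ℝ) * (n : ℝ) ^ (1 / 4 : ℝ) := by
      rw [← Real.rpow_add hn0]; norm_num
    have hp2 : 0 < (n : ℝ) ^ (1 / 2 : ℝ) := Real.rpow_pos_of_pos hn0 _
    have hp4 : 0 < (n : ℝ) ^ (1 / 4 : ℝ) := Real.rpow_pos_of_pos hn0 _
    have e : C * (2 * (√(n : ℝ) * Real.log n ^ 2)) * Real.log n / (n : ℝ) ^ (3 / 4 : ℝ) =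
        2 * C * (Real.log n ^ 3 / (n : ℝ) ^ (1 / 4 : ℝ)) := by
      rw [hsq, h34]
      field_simp
    rw [e]
    have : 2 * C * (Real.log n ^ 3 / (n : ℝ) ^ (1 / 4 : ℝ)) ≤ 2 * C * (1 / (8 * C)) := by
      gcongr
    refine this.trans ?_
    rw [show 2 * C * (1 / (8 * C)) = 1 / 4 by field_simp; norm_num]
  · have hp2 : 0 < (n : ℝ) ^ (1 / 2 : ℝ) := Real.rpow_pos_of_pos hn0 _
    rw [div_lt_iff₀ hp2] at a2
    have hss : (n : ℝ) ^ (1 / 2 : ℝ) * (n : ℝ) ^ (1 / 2 : ℝ) = n := by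
      rw [← Real.rpow_add hn0]; norm_num
    rw [hsq]
    nlinarith
  · have hlogp : 0 < Real.log n := by linarith
    rw [div_le_iff₀ hc] at hlog2
    rw [mul_one_div, div_le_iff₀ (by positivity)]
    nlinarith

/-- Task Z6. -/
theorem z6 (h : S_Z2) : S_Z6T := by
  intro xs C n0 hS c hc
  obtain ⟨n₁, hn₁⟩ := z6_log C c hS.C1 hc
  refine ⟨max n₁ n0, fun n s t hn hs hst ht hsum => ?_⟩
  obtain ⟨hn2, hlog, hA, hB, hE⟩ := hn₁ n (le_trans (le_max_left _ _) hn)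
  have hn0 : n0 ≤ n := le_trans (le_max_right _ _) hn
  have hC0 : 0 < C := by linarith [hS.C1]
  have hnR : (0 : ℝ) < n := by
    have : (2 : ℝ) ≤ n := by exact_mod_cast hn2
    linarith
  have hsq : 0 < √(n : ℝ) := Real.sqrt_pos.mpr hnR
  have hs1 : 1 ≤ s := by
    have : (0 : ℝ) < s := lt_of_lt_of_le hsq hs
    exact_mod_cast this
  have hstR : (s : ℝ) < t := by exact_mod_cast hst
  have hst2 : (((s + t : ℕ) : ℝ)) ≤ 2 * (√(n : ℝ) * Real.log n ^ 2) := by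
    push_cast; linarith
  have hstn : s + t ≤ n := by
    have : ((s + t : ℕ) : ℝ) ≤ n := hst2.trans hB
    exact_mod_cast this
  have h2 := h n s t hs1 hst hstn
  have hp0 : (0 : ℝ) ≤ numPartitions n := Nat.cast_nonneg _
  -- the main term
  have hloc := hS.loc n (s + t) hn0 hstn
  have hmain : 3 / 4 * (numPartitions n : ℝ) ≤
      (numPartitions (n - (s + t)) : ℝ) * exp (xs n * ((s + t : ℕ) : ℝ)) := by
    have h3 := (abs_le.mp hloc).1
    have h4 : C * ((s + t : ℕ) : ℝ) * Real.log n / (n : ℝ) ^ (3 / 4 : ℝ) ≤ 1 / 4 := by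
      refine le_trans ?_ hA
      gcongr
    have h5 : C * ((s + t : ℕ) : ℝ) * Real.log n / (n : ℝ) ^ (3 / 4 : ℝ) * numPartitions n ≤
        1 / 4 * numPartitions n := by gcongr
    linarith
  -- the terms with a larger part
  have hterm : ∀ r ∈ (Icc (t + 1) n).filter (fun r => s + t + r ≤ n),
      (numPartitions (n - (s + t + r)) : ℝ) ≤
        C * exp (-(xs n * ((s + t : ℕ) : ℝ))) * numPartitions n * exp (-(xs n * r)) := by
    intro r hr
    rw [mem_filter, mem_Icc] at hr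
    have h3 := hS.up n (n - (s + t + r)) hn0 (by omega)
    refine h3.trans (le_of_eq ?_)
    have e : xs n * (((n - (s + t + r) : ℕ) : ℝ) - n) =
        -(xs n * ((s + t : ℕ) : ℝ)) + -(xs n * r) := by
      rw [Nat.cast_sub hr.2]
      push_cast
      ring
    rw [e, Real.exp_add]
    ring
  have hsum2 : (∑ r ∈ (Icc (t + 1) n).filter (fun r => s + t + r ≤ n),
      (numPartitions (n - (s + t + r)) : ℝ)) ≤
      C * exp (-(xs n * ((s + t : ℕ) : ℝ))) * numPartitions n * (1 / (c * Real.log n)) := by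
    calc (∑ r ∈ (Icc (t + 1) n).filter (fun r => s + t + r ≤ n),
        (numPartitions (n - (s + t + r)) : ℝ))
        ≤ ∑ r ∈ (Icc (t + 1) n).filter (fun r => s + t + r ≤ n),
          C * exp (-(xs n * ((s + t : ℕ) : ℝ))) * numPartitions n * exp (-(xs n * r)) :=
          sum_le_sum hterm
      _ ≤ ∑ r ∈ Ico s (n + 1),
          C * exp (-(xs n * ((s + t : ℕ) : ℝ))) * numPartitions n * exp (-(xs n * r)) := by
          refine sum_le_sum_of_subset_of_nonneg ?_ fun r _ _ => by positivity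
          intro r hr
          rw [mem_filter, mem_Icc] at hr
          rw [mem_Ico]; omega
      _ = C * exp (-(xs n * ((s + t : ℕ) : ℝ))) * numPartitions n *
          ∑ r ∈ Ico s (n + 1), exp (-(xs n * r)) := by rw [mul_sum]
      _ ≤ _ := by gcongr
  have hexp : exp (xs n * ((s + t : ℕ) : ℝ)) * exp (-(xs n * ((s + t : ℕ) : ℝ))) = 1 := by
    rw [← Real.exp_add, add_neg_cancel, Real.exp_zero]
  have hE0 : 0 < exp (-(xs n * ((s + t : ℕ) : ℝ))) := Real.exp_pos _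
  have hmain2 : 3 / 4 * (numPartitions n : ℝ) * exp (-(xs n * ((s + t : ℕ) : ℝ))) ≤
      (numPartitions (n - (s + t)) : ℝ) := by
    calc 3 / 4 * (numPartitions n : ℝ) * exp (-(xs n * ((s + t : ℕ) : ℝ)))
        ≤ (numPartitions (n - (s + t)) : ℝ) * exp (xs n * ((s + t : ℕ) : ℝ)) *
          exp (-(xs n * ((s + t : ℕ) : ℝ))) := by gcongr
      _ = (numPartitions (n - (s + t)) : ℝ) := by rw [mul_assoc, hexp, mul_one]
  have h2R : (numPartitions (n - (s + t)) : ℝ) ≤ ((LW n s t).ncard : ℝ) +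
      ∑ r ∈ (Icc (t + 1) n).filter (fun r => s + t + r ≤ n),
        (numPartitions (n - (s + t + r)) : ℝ) := by exact_mod_cast h2
  have hsmall : C * exp (-(xs n * ((s + t : ℕ) : ℝ))) * numPartitions n * (1 / (c * Real.log n)) ≤
      1 / 4 * (numPartitions n : ℝ) * exp (-(xs n * ((s + t : ℕ) : ℝ))) := by
    calc C * exp (-(xs n * ((s + t : ℕ) : ℝ))) * numPartitions n * (1 / (c * Real.log n))
        = (C * (1 / (c * Real.log n))) * (numPartitions n * exp (-(xs n * ((s + t : ℕ) : ℝ)))) := by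
          ring
      _ ≤ 1 / 4 * (numPartitions n * exp (-(xs n * ((s + t : ℕ) : ℝ)))) := by gcongr
      _ = _ := by ring
  have hfin : exp (-(xs n * s)) * exp (-(xs n * t)) = exp (-(xs n * ((s + t : ℕ) : ℝ))) := by
    rw [← Real.exp_add]; congr 1; push_cast; ring
  rw [mul_assoc, hfin]
  linarith

end Pool.Agent.W5h11.TZ
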