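import Pool.Agent.W5h11.TZ.DeadF

/-! From the differences to the ratios. -/

set_option autoImplicit false

namespace Pool.Agent.W5h11.TZ

open Finset Filter Topology Real Pool.Agent.H581R3.Core Pool.Agent.R721.PN

theorem deadZeros_finite (k n : ℕ) : (deadZeros k n).Finite :=
  ((finite_partitions n).prod (finite_partitions n)).subset fun _ hx => ⟨hx.1, hx.2.1⟩

theorem zII_le_zDead (hrh : S_RH) (k n : ℕ) (hk : 1 ≤ k) : zII n ≤ zDead k n := by
  unfold zII zDead
  apply div_le_div_of_nonneg_right _ (by positivity)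
  exact_mod_cast Set.ncard_le_ncard (typeII_sub_dead hrh k n hk) (deadZeros_finite k n)

theorem ratio_of (hrh : S_RH) (hzi : S_ZI) (hzd : S_ZD) (k : ℕ) (hk : 1 ≤ k)
    (hd : ∃ K : ℝ, ∀ᶠ n : ℕ in atTop, zDead k n - zII n ≤ K / Real.log n ^ 2) :
    ∃ c C : ℝ, 0 < c ∧ ∀ᶠ n : ℕ in atTop, c / Real.log n ≤ zI n ∧ zI n ≤ zDead k n ∧
      zDead k n ≤ (1 + C / Real.log n) * zI n := by
  obtain ⟨c, hc, n₁, h1⟩ := hzi
  obtain ⟨C₂, n₂, h2⟩ := hzd
  obtain ⟨K, hK⟩ := hd
  refine ⟨c, (max C₂ 0 + max K 0) / c, hc, ?_⟩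
  filter_upwards [eventually_ge_atTop n₁, eventually_ge_atTop n₂, eventually_ge_atTop 1, hK,
    log_tendsto.eventually_ge_atTop 1] with n e1 e2 e3 e4 e5
  have hL : 0 < Real.log n := by linarith
  have a1 := h1 n e1
  have a2 := h2 n e2
  have a3 := zI_le_zII n e3
  have a4 := zII_le_zDead hrh k n hk
  refine ⟨a1, a3.trans a4, ?_⟩
  have b1 : zDead k n - zI n ≤ (max C₂ 0 + max K 0) / Real.log n ^ 2 := by
    have c1 : C₂ / Real.log n ^ 2 ≤ max C₂ 0 / Real.log n ^ 2 := by
      gcongr; exact le_max_left _ _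
    have c2 : K / Real.log n ^ 2 ≤ max K 0 / Real.log n ^ 2 := by
      gcongr; exact le_max_left _ _
    have c3 : (max C₂ 0 + max K 0) / Real.log n ^ 2 =
        max C₂ 0 / Real.log n ^ 2 + max K 0 / Real.log n ^ 2 := by ring
    linarith
  have b2 : (max C₂ 0 + max K 0) / Real.log n ^ 2 ≤
      (max C₂ 0 + max K 0) / c / Real.log n * zI n := by
    have c1 : (max C₂ 0 + max K 0) / Real.log n ^ 2 =
        (max C₂ 0 + max K 0) / c / Real.log n * (c / Real.log n) := by
      field_simp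
    rw [c1]
    apply mul_le_mul_of_nonneg_left a1
    have : 0 ≤ max C₂ 0 + max K 0 := add_nonneg (le_max_right _ _) (le_max_right _ _)
    positivity
  linarith

/-- the ratios and the question -/
theorem question_of (k : ℕ) {c C : ℝ} (hc : 0 < c)
    (h : ∀ᶠ n : ℕ in atTop, c / Real.log n ≤ zI n ∧ zI n ≤ zDead k n ∧
      zDead k n ≤ (1 + C / Real.log n) * zI n) :
    Tendsto (fun n => zI n / zDead k n) atTop (𝓝 1) ∧
    (Tendsto (fun n => zI n / zTable n) atTop (𝓝 1) ↔
      Tendsto (fun n => zDead k n / zTable n) atTop (𝓝 1)) := by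
  have hlog := log_tendsto
  have hB' : Tendsto (fun n => zDead k n / zI n) atTop (𝓝 1) := by
    have hz : Tendsto (fun n : ℕ => 1 + C / Real.log n) atTop (𝓝 1) := by
      have := (hlog.const_div_atTop C).const_add 1
      rwa [add_zero] at this
    refine tendsto_of_tendsto_of_tendsto_of_le_of_le' tendsto_const_nhds hz ?_ ?_
    · filter_upwards [h, hlog.eventually_ge_atTop 1] with n ⟨a1, a2, a3⟩ a4
      have : 0 < c / Real.log n := by positivity
      rw [le_div_iff₀ (by linarith)]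
      linarith
    · filter_upwards [h, hlog.eventually_ge_atTop 1] with n ⟨a1, a2, a3⟩ a4
      have : 0 < c / Real.log n := by positivity
      rw [div_le_iff₀ (by linarith)]
      exact a3
  have hB : Tendsto (fun n => zI n / zDead k n) atTop (𝓝 1) := by
    have := hB'.inv₀ one_ne_zero
    rw [inv_one] at this
    refine this.congr fun n => ?_
    rw [inv_div]
  have hpos : ∀ᶠ n : ℕ in atTop, zI n ≠ 0 ∧ zDead k n ≠ 0 := by
    filter_upwards [h, hlog.eventually_ge_atTop 1] with n ⟨a1, a2, a3⟩ a4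
    have : 0 < c / Real.log n := by positivity
    exact ⟨by linarith, by linarith⟩
  refine ⟨hB, fun ht => ?_, fun ht => ?_⟩
  · have h3 := hB'.mul ht
    rw [one_mul] at h3
    refine h3.congr' ?_
    filter_upwards [hpos] with n hn
    rw [div_mul_div_cancel₀ hn.1]
  · have h3 := hB.mul ht
    rw [one_mul] at h3
    refine h3.congr' ?_
    filter_upwards [hpos] with n hn
    rw [div_mul_div_cancel₀ hn.2]

end Pool.Agent.W5h11.TZ
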