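import Pool.Agent.W5h11.TZ.Iface7
import Pool.Agent.W5h11.TZ.Ratio

/-! Assembly: `z_II - z_I ≥ c / (log n) ^ 2`. -/

set_option autoImplicit false

namespace Pool.Agent.W5h11.TZ

open Finset Filter Topology Real Pool.Agent.H581R3.Core Pool.Agent.R721.PN

theorem sqrt_log_le : ∀ᶠ n : ℕ in atTop, 3 * (√(n : ℝ) * Real.log n ^ 2) ≤ n := by
  have g1 : (fun x : ℝ => Real.log x) =o[atTop] fun x : ℝ => x ^ (1 / 4 : ℝ) :=
    isLittleO_log_rpow_atTop (by norm_num)
  have g2 := (g1.bound (show (0 : ℝ) < 1 / 2 by norm_num))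
  have g3 := (tendsto_natCast_atTop_atTop (R := ℝ)).eventually g2
  filter_upwards [g3, eventually_ge_atTop 1] with n hn hn1
  have hn1' : (1 : ℝ) ≤ n := by exact_mod_cast hn1
  have hn0 : (0 : ℝ) < n := by linarith
  rw [Real.norm_of_nonneg (Real.log_nonneg hn1'), Real.norm_of_nonneg (by positivity)] at hn
  have g4 : Real.log n ^ 2 ≤ 1 / 4 * √(n : ℝ) := by
    calc Real.log n ^ 2 ≤ (1 / 2 * (n : ℝ) ^ (1 / 4 : ℝ)) ^ 2 :=
          pow_le_pow_left₀ (Real.log_nonneg hn1') hn 2
      _ = 1 / 4 * √(n : ℝ) := by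
          rw [mul_pow, ← Real.rpow_natCast ((n : ℝ) ^ (1 / 4 : ℝ)), ← Real.rpow_mul hn0.le,
            Real.sqrt_eq_rpow]
          norm_num
  have hs2 : √(n : ℝ) * √(n : ℝ) = n := Real.mul_self_sqrt hn0.le
  calc 3 * (√(n : ℝ) * Real.log n ^ 2) ≤ 3 * (√(n : ℝ) * (1 / 4 * √(n : ℝ))) := by gcongr
    _ = 3 / 4 * (√(n : ℝ) * √(n : ℝ)) := by ring
    _ = 3 / 4 * n := by rw [hs2]
    _ ≤ n := by linarith

theorem z7 (hz3 : S_Z3) (hz4 : S_Z4) {xs : ℕ → ℝ} {C : ℝ} {n0 : ℕ} (h : Sad xs C n0)
    (h5 : S_Z5 xs) (h6 : S_Z6 xs) :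
    ∃ c : ℝ, 0 < c ∧ ∀ᶠ n : ℕ in atTop, c / Real.log n ^ 2 ≤ zII n - zI n := by
  have hC := h.C1
  obtain ⟨c, hc, n₁, h4⟩ := hz4
  obtain ⟨n₅, h5⟩ := h5
  obtain ⟨n₆, h6⟩ := h6 c hc
  refine ⟨c ^ 2 / 800, by positivity, ?_⟩
  filter_upwards [eventually_ge_atTop n₁, eventually_ge_atTop n0, eventually_ge_atTop n₅,
    eventually_ge_atTop n₆, eventually_ge_atTop 1, log_tendsto.eventually_ge_atTop 1,
    log_tendsto.eventually_ge_atTop (800 * C / c), sqrt_log_le] with n e1 e2 e3 e4 e5 e6 e7 e8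
  have hP : (0 : ℝ) < numPartitions n := by exact_mod_cast numPartitions_pos n
  have hL0 : 0 < Real.log n := by linarith
  obtain ⟨L, hL⟩ : ∃ L, L = Real.log n := ⟨_, rfl⟩
  have hn1 : (1 : ℝ) ≤ n := by exact_mod_cast e5
  have hs1 : 1 ≤ √(n : ℝ) := Real.one_le_sqrt.2 hn1
  have hx0 := h.pos n e2
  obtain ⟨M, N, M', N', a1, a2, a3, a4, a5, a6, a7, a8, a9, a10, a11, a12⟩ :=
    h4 n e1 (xs n) (h.lo n e2) (h.hi n e2)
  rw [← hL] at a5 a6 a10 a11 a12 e6 e7 e8 hL0 ⊢
  have hM1 : (1 : ℝ) ≤ M := hs1.trans a1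
  have hM1' : 1 ≤ M := by exact_mod_cast hM1
  have hlt : ∀ s ∈ Ico M N, ∀ t ∈ Ico M' N', s < t := by
    intro s hs t ht
    rw [mem_Ico] at hs ht
    omega
  have hN'n : 3 * N' ≤ n := by
    have : (3 : ℝ) * N' ≤ n := by linarith
    exact_mod_cast this
  have hsum : ∀ s ∈ Ico M N, ∀ s' ∈ Ico M N, ∀ t ∈ Ico M' N', s + s' + t ≤ n := by
    intro s hs s' hs' t ht
    rw [mem_Ico] at hs hs' ht
    omega
  have hz := hz3 n (Ico M N) (Ico M' N') (fun s hs => by rw [mem_Ico] at hs; omega) hlt hsum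
  have hz' : ∑ t ∈ Ico M' N', ∑ s ∈ Ico M N, ((CN n s t).ncard : ℝ) * ((LW n s t).ncard : ℝ) ≤
      ((typeIIZeros n \ typeIZeros n).ncard : ℝ) + ∑ t ∈ Ico M' N', ∑ s ∈ Ico M N,
        ∑ s' ∈ Ico M N, (numPartitions n : ℝ) * (numPartitions (n - (s + s' + t)) : ℝ) := by
    exact_mod_cast hz
  set SA : ℝ := ∑ t ∈ Ico M N, exp (-(xs n * t)) with hSA
  set SB : ℝ := ∑ t ∈ Ico M' N', exp (-(xs n * t)) with hSB
  have hSA0 : 0 < SA := lt_of_lt_of_le (by positivity) a10
  have hSB0 : 0 < SB := lt_of_lt_of_le (by positivity) a12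
  have hSAu : SA ≤ 1 / (c * L) := by
    refine le_trans ?_ a11
    apply sum_le_sum_of_subset_of_nonneg
    · intro t ht
      rw [mem_Ico] at ht ⊢
      omega
    · intro t _ _; positivity
  -- lower bound of the left side
  have hlow : (numPartitions n : ℝ) ^ 2 / 400 * (SA * SB) ≤
      ∑ t ∈ Ico M' N', ∑ s ∈ Ico M N, ((CN n s t).ncard : ℝ) * ((LW n s t).ncard : ℝ) := by
    calc (numPartitions n : ℝ) ^ 2 / 400 * (SA * SB) =
          ∑ t ∈ Ico M' N', ∑ s ∈ Ico M N, (1 / 200 * (numPartitions n : ℝ)) *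
            (1 / 2 * (numPartitions n : ℝ) * exp (-(xs n * s)) * exp (-(xs n * t))) := by
          rw [hSA, hSB, sum_mul_sum, mul_sum, sum_comm]
          apply sum_congr rfl
          intro s _
          rw [mul_sum]
          apply sum_congr rfl
          intro t _
          ring
      _ ≤ _ := by
          apply sum_le_sum
          intro t ht
          apply sum_le_sum
          intro s hs
          have hst := hlt s hs t ht
          have hsM : (M : ℝ) ≤ s := by exact_mod_cast (mem_Ico.1 hs).1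
          have hs0 : √(n : ℝ) ≤ s := a1.trans hsM
          have htN : (t : ℝ) ≤ N' := by exact_mod_cast (mem_Ico.1 ht).2.le
          have ht1 : (t : ℝ) ≤ √(n : ℝ) * Real.log n ^ 2 := by
            rw [← hL]; exact htN.trans a5
          have g1 := h5 n s t e3 hs0 hst ht1 (by
            rw [← hL]
            exact a6.trans (by gcongr)) (a7 s hs).2 (a8 t ht).1 (a8 t ht).2 (a9 s hs t ht)
          have g2 := h6 n s t e4 hs0 hst ht1 (by
            rw [← hL]
            refine le_trans ?_ a11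
            apply sum_le_sum_of_subset_of_nonneg
            · intro r hr
              rw [mem_Ico] at hr hs ⊢
              omega
            · intro r _ _; positivity)
          exact mul_le_mul g1 g2 (by positivity) (by positivity)
  -- upper bound of the error
  have hup : ∑ t ∈ Ico M' N', ∑ s ∈ Ico M N, ∑ s' ∈ Ico M N,
      (numPartitions n : ℝ) * (numPartitions (n - (s + s' + t)) : ℝ) ≤
      C * (numPartitions n : ℝ) ^ 2 * (SA * SA * SB) := by
    calc ∑ t ∈ Ico M' N', ∑ s ∈ Ico M N, ∑ s' ∈ Ico M N,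
          (numPartitions n : ℝ) * (numPartitions (n - (s + s' + t)) : ℝ)
        ≤ ∑ t ∈ Ico M' N', ∑ s ∈ Ico M N, ∑ s' ∈ Ico M N, (numPartitions n : ℝ) *
          (C * (exp (-(xs n * s)) * exp (-(xs n * s')) * exp (-(xs n * t))) *
            numPartitions n) := by
          apply sum_le_sum
          intro t ht
          apply sum_le_sum
          intro s hs
          apply sum_le_sum
          intro s' hs'
          have g1 := h.up n (n - (s + s' + t)) e2 (by omega)
          have g2 : exp (xs n * (((n - (s + s' + t) : ℕ) : ℝ) - n)) =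
              exp (-(xs n * s)) * exp (-(xs n * s')) * exp (-(xs n * t)) := by
            rw [Nat.cast_sub (hsum s hs s' hs' t ht), ← Real.exp_add, ← Real.exp_add]
            congr 1
            push_cast
            ring
          rw [g2] at g1
          gcongr
      _ = C * (numPartitions n : ℝ) ^ 2 * (SA * SA * SB) := by
          have k1 : ∀ t s : ℕ, ∑ s' ∈ Ico M N, (numPartitions n : ℝ) *
              (C * (exp (-(xs n * s)) * exp (-(xs n * s')) * exp (-(xs n * t))) *
                numPartitions n) =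
              C * (numPartitions n : ℝ) ^ 2 * exp (-(xs n * t)) * exp (-(xs n * s)) * SA := by
            intro t s
            rw [hSA, mul_sum]
            apply sum_congr rfl
            intro s' _
            ring
          have k2 : ∀ t : ℕ, ∑ s ∈ Ico M N, C * (numPartitions n : ℝ) ^ 2 * exp (-(xs n * t)) *
              exp (-(xs n * s)) * SA =
              C * (numPartitions n : ℝ) ^ 2 * SA * SA * exp (-(xs n * t)) := by
            intro t
            rw [← sum_mul, ← mul_sum, ← hSA]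
            ring
          rw [sum_congr rfl fun t _ => sum_congr rfl fun s _ => k1 t s,
            sum_congr rfl fun t _ => k2 t, ← mul_sum, ← hSB]
          ring
  have hdiff : ((typeIIZeros n \ typeIZeros n).ncard : ℝ) =
      ((typeIIZeros n).ncard : ℝ) - ((typeIZeros n).ncard : ℝ) := by
    have hsub := typeI_subset n e5
    have hfin := (typeII_finite n).subset hsub
    rw [Set.ncard_sdiff hsub hfin, Nat.cast_sub (Set.ncard_le_ncard hsub (typeII_finite n))]
  have hmain : (numPartitions n : ℝ) ^ 2 * (c ^ 2 / 800 / L ^ 2) ≤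
      ((typeIIZeros n).ncard : ℝ) - ((typeIZeros n).ncard : ℝ) := by
    rw [← hdiff]
    have g1 : C * SA ≤ 1 / 800 := by
      calc C * SA ≤ C * (1 / (c * L)) := by gcongr
        _ = C / c / L := by field_simp
        _ ≤ 1 / 800 := by
            rw [div_le_iff₀ hL0]
            have : 800 * C / c = 800 * (C / c) := by ring
            rw [this] at e7
            linarith
    have g2 : c / L * (c / L) ≤ SA * SB := by gcongr
    have g3 : C * (numPartitions n : ℝ) ^ 2 * (SA * SA * SB) ≤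
        (numPartitions n : ℝ) ^ 2 / 800 * (SA * SB) := by
      calc C * (numPartitions n : ℝ) ^ 2 * (SA * SA * SB) =
            (C * SA) * ((numPartitions n : ℝ) ^ 2 * (SA * SB)) := by ring
        _ ≤ 1 / 800 * ((numPartitions n : ℝ) ^ 2 * (SA * SB)) := by gcongr
        _ = _ := by ring
    calc (numPartitions n : ℝ) ^ 2 * (c ^ 2 / 800 / L ^ 2) =
          (numPartitions n : ℝ) ^ 2 / 800 * (c / L * (c / L)) := by
          rw [div_mul_div_comm, ← sq, ← sq]; ring
      _ ≤ (numPartitions n : ℝ) ^ 2 / 800 * (SA * SB) := by gcongr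
      _ ≤ _ := by linarith
  unfold zII zI
  rw [← sub_div, le_div_iff₀ (by positivity)]
  linarith

end Pool.Agent.W5h11.TZ
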