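import Pool.Agent.W5h11.TZ.Iface2
import Pool.Agent.W5h11.TZ.LowT

/-! (Q5): the small `t`. -/

set_option autoImplicit false

namespace Pool.Agent.W5h11.TZ

open Finset Filter Topology Pool.Agent.H581R3.Core Pool.Agent.R721.PN

namespace LF

lemma ev : ∃ n₂ : ℕ, ∀ n : ℕ, n₂ ≤ n → 3 * (√(n : ℝ) * Real.log n ^ 2) ≤ 2 * n := by
  have h1 : ∀ᶠ y : ℝ in atTop, ‖Real.log y ^ 2‖ ≤ (1 / 6) * ‖id y‖ :=
    (Real.isLittleO_pow_log_id_atTop (n := 2)).def (by norm_num)
  have h2 : Tendsto (fun n : ℕ => √(n : ℝ)) atTop atTop :=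
    Real.tendsto_sqrt_atTop.comp tendsto_natCast_atTop_atTop
  have h3 := (h2.eventually h1).and (eventually_ge_atTop 1)
  obtain ⟨n₂, hn₂⟩ := eventually_atTop.1 h3
  refine ⟨n₂, fun n hn => ?_⟩
  obtain ⟨h4, h5⟩ := hn₂ n hn
  have h5r : (1 : ℝ) ≤ n := by exact_mod_cast h5
  have hsq : 0 < √(n : ℝ) := Real.sqrt_pos.mpr (by linarith)
  have hsqsq : √(n : ℝ) * √(n : ℝ) = n := Real.mul_self_sqrt (by linarith)
  rw [Real.norm_of_nonneg (sq_nonneg _), id, Real.norm_of_nonneg hsq.le,
    Real.log_sqrt (by linarith)] at h4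
  have h6 : Real.log n ^ 2 ≤ 2 / 3 * √(n : ℝ) := by nlinarith
  calc 3 * (√(n : ℝ) * Real.log n ^ 2) ≤ 3 * (√(n : ℝ) * (2 / 3 * √(n : ℝ))) := by gcongr
    _ = 2 * (√(n : ℝ) * √(n : ℝ)) := by ring
    _ = 2 * n := by rw [hsqsq]

variable {C x U : ℝ} {n M : ℕ}

lemma term_le (hC : 1 ≤ C) (hx : 0 < x) (hU : 1 ≤ U)
    (hreg : ∀ m : ℕ, m ≤ 3 * n →
      (numPartitions m : ℝ) ≤ C * Real.exp (x * ((m : ℝ) - n)) * numPartitions n)
    (h3 : 3 * M ≤ 2 * n) (h24 : 24 ≤ M) (hbig : Real.exp (x * M) ≤ 2 * M / U) {t : ℕ}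
    (ht1 : 1 ≤ t) (ht2 : t < M) :
    (numCores t n : ℝ) * numPartitions (n - t) ≤
      393216 * C ^ 2 * (numPartitions n : ℝ) ^ 2 / (U ^ 2 * M ^ 2) * Real.exp (-(x * t)) +
      216 * C ^ 2 * (numPartitions n : ℝ) ^ 2 / M ^ 3 * Real.exp (2 * x * t) := by
  have hP : (0 : ℝ) < numPartitions n := by exact_mod_cast numPartitions_pos n
  have hC0 : 0 < C := by linarith
  have hU0 : 0 < U := by linarith
  have hMr : (24 : ℝ) ≤ M := by exact_mod_cast h24
  have htr : (1 : ℝ) ≤ t := by exact_mod_cast ht1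
  have hM0 : (0 : ℝ) < M := by linarith
  have hc0 : (0 : ℝ) ≤ numCores t n := Nat.cast_nonneg _
  have hX : (0 : ℝ) ≤ 393216 * C ^ 2 * (numPartitions n : ℝ) ^ 2 / (U ^ 2 * M ^ 2) *
      Real.exp (-(x * t)) := by positivity
  have hY : (0 : ℝ) ≤ 216 * C ^ 2 * (numPartitions n : ℝ) ^ 2 / M ^ 3 *
      Real.exp (2 * x * t) := by positivity
  have hin : (numPartitions (n - t) : ℝ) ≤ C * Real.exp (-(x * t)) * numPartitions n := by
    have h := hreg (n - t) (by omega)
    have h1 : (((n - t : ℕ) : ℝ)) - n = -(t : ℝ) := by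
      rw [Nat.cast_sub (by omega)]
      ring
    rw [h1, mul_neg] at h
    exact h
  refine (mul_le_mul_of_nonneg_left hin hc0).trans ?_
  by_cases hs : 2 * t ≤ M
  · refine le_trans ?_ (le_add_of_nonneg_right hY)
    obtain ⟨l, hl1, hl2⟩ := LT.exists_mult ht1 hs
    set m : ℕ := l * t with hm
    have hm6 : 6 ≤ m := by omega
    have h1 : (numCores t n : ℝ) ≤ numCores m n := by exact_mod_cast numCores_mul t l n
    have h2 := LT.cores_le (w := 4) hreg (show 0 < m by omega) (by omega)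
    have h3 := LT.choose_four hm6
    have hmr : (M : ℝ) ≤ 4 * m := by exact_mod_cast hl1
    have hmr2 : 2 * (m : ℝ) ≤ M := by exact_mod_cast hl2
    have h5 : Real.exp (((4 : ℕ) : ℝ) * (x * m)) ≤ (2 * M / U) ^ 2 := by
      calc Real.exp (((4 : ℕ) : ℝ) * (x * m)) ≤ Real.exp (x * M + x * M) := by
            apply Real.exp_le_exp.mpr
            push_cast
            nlinarith
        _ = Real.exp (x * M) ^ 2 := by rw [Real.exp_add, sq]
        _ ≤ _ := pow_le_pow_left₀ (Real.exp_nonneg _) hbig 2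
    have h6 : (M : ℝ) ^ 4 / 98304 ≤ (m.choose 4 : ℝ) := by
      have h7 : ((M : ℝ) / 4) ^ 4 ≤ (m : ℝ) ^ 4 := pow_le_pow_left₀ (by positivity) (by linarith) 4
      have h8 : ((M : ℝ) / 4) ^ 4 = (M : ℝ) ^ 4 / 256 := by ring
      rw [h8] at h7
      linarith
    have h7 : (M : ℝ) ^ 4 / 98304 * numCores m n ≤ C * (2 * M / U) ^ 2 * numPartitions n := by
      calc _ ≤ (m.choose 4 : ℝ) * numCores m n := by gcongr
        _ ≤ _ := h2
        _ ≤ _ := by gcongr
    have h8 : (numCores m n : ℝ) ≤ 393216 * C * numPartitions n / (U ^ 2 * M ^ 2) := by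
      rw [le_div_iff₀ (by positivity)]
      have h9 : (M : ℝ) ^ 2 * ((numCores m n : ℝ) * (U ^ 2 * M ^ 2)) ≤
          (M : ℝ) ^ 2 * (393216 * C * numPartitions n) := by
        calc (M : ℝ) ^ 2 * ((numCores m n : ℝ) * (U ^ 2 * M ^ 2)) =
              98304 * U ^ 2 * ((M : ℝ) ^ 4 / 98304 * numCores m n) := by ring
          _ ≤ 98304 * U ^ 2 * (C * (2 * M / U) ^ 2 * numPartitions n) := by gcongr
          _ = _ := by
            field_simp
            ring
      exact le_of_mul_le_mul_left h9 (by positivity)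
    calc (numCores t n : ℝ) * (C * Real.exp (-(x * t)) * numPartitions n)
        ≤ (393216 * C * numPartitions n / (U ^ 2 * M ^ 2)) *
            (C * Real.exp (-(x * t)) * numPartitions n) :=
          mul_le_mul_of_nonneg_right (h1.trans h8) (by positivity)
      _ = _ := by ring
  · push Not at hs
    refine le_trans ?_ (le_add_of_nonneg_left hX)
    have ht6 : 6 ≤ t := by omega
    have h2 := LT.cores_le (w := 3) hreg (show 0 < t by omega) (by omega)
    have h3 := LT.choose_three ht6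
    have hmr : (M : ℝ) ≤ 2 * t := by exact_mod_cast hs.le
    have h6 : (M : ℝ) ^ 3 / 216 ≤ (t.choose 3 : ℝ) := by
      have h7 : ((M : ℝ) / 2) ^ 3 ≤ (t : ℝ) ^ 3 := pow_le_pow_left₀ (by positivity) (by linarith) 3
      have h8 : ((M : ℝ) / 2) ^ 3 = (M : ℝ) ^ 3 / 8 := by ring
      rw [h8] at h7
      linarith
    have h7 : (M : ℝ) ^ 3 / 216 * numCores t n ≤
        C * Real.exp (((3 : ℕ) : ℝ) * (x * t)) * numPartitions n := by
      calc _ ≤ (t.choose 3 : ℝ) * numCores t n := by gcongr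
        _ ≤ _ := h2
    have h8 : (numCores t n : ℝ) ≤
        216 * C * Real.exp (((3 : ℕ) : ℝ) * (x * t)) * numPartitions n / M ^ 3 := by
      rw [le_div_iff₀ (by positivity)]
      calc (numCores t n : ℝ) * M ^ 3 = 216 * ((M : ℝ) ^ 3 / 216 * numCores t n) := by ring
        _ ≤ 216 * (C * Real.exp (((3 : ℕ) : ℝ) * (x * t)) * numPartitions n) := by gcongr
        _ = _ := by ring
    calc (numCores t n : ℝ) * (C * Real.exp (-(x * t)) * numPartitions n)
        ≤ (216 * C * Real.exp (((3 : ℕ) : ℝ) * (x * t)) * numPartitions n / M ^ 3) *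
            (C * Real.exp (-(x * t)) * numPartitions n) := by
          gcongr
      _ = 216 * C ^ 2 * (numPartitions n : ℝ) ^ 2 / M ^ 3 *
            (Real.exp (((3 : ℕ) : ℝ) * (x * t)) * Real.exp (-(x * t))) := by
          ring
      _ = _ := by
          rw [← Real.exp_add]
          congr 2
          push_cast
          ring

end LF

/-- **(Q5)** -/
theorem left : S_Q5 := by
  intro xs C n0 hS
  have hC1 := hS.C1
  obtain ⟨n₂, hn₂⟩ := LF.ev
  refine ⟨1579776 * C ^ 2, by positivity, ?_⟩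
  intro U hU
  refine ⟨max (max n0 n₂) 576, ?_⟩
  intro n M hn hM1 hM2 hxM hUM
  have hn0 : n0 ≤ n := (le_max_left _ _).trans ((le_max_left _ _).trans hn)
  have hn2 : n₂ ≤ n := (le_max_right _ _).trans ((le_max_left _ _).trans hn)
  have hn576 : 576 ≤ n := (le_max_right _ _).trans hn
  have hnr : (576 : ℝ) ≤ n := by exact_mod_cast hn576
  have hx := hS.pos n hn0
  have hxhi := hS.hi n hn0
  have hr := hS.up n
  set x := xs n with hxdef
  have hP : (0 : ℝ) < numPartitions n := by exact_mod_cast numPartitions_pos n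
  have hsq : 0 < √(n : ℝ) := Real.sqrt_pos.mpr (by linarith)
  have hsq24 : (24 : ℝ) ≤ √(n : ℝ) := by
    rw [show (24 : ℝ) = √(576 : ℝ) by
      rw [show (576 : ℝ) = 24 ^ 2 by norm_num, Real.sqrt_sq (by norm_num)]]
    exact Real.sqrt_le_sqrt hnr
  have hx1 : x ≤ 1 := hxhi.trans ((div_le_one hsq).mpr (by linarith))
  have hlog : 1 ≤ Real.log n := by
    rw [Real.le_log_iff_exp_le (by linarith)]
    have := Real.exp_one_lt_d9
    linarith
  have hMr : (24 : ℝ) ≤ M := hsq24.trans hM1
  have h24 : 24 ≤ M := by exact_mod_cast hMr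
  have hM0 : (0 : ℝ) < M := by linarith
  have hU0 : (0 : ℝ) < U := by linarith
  have h3 : 3 * M ≤ 2 * n := by
    have h1 : 3 * (M : ℝ) ≤ 2 * n := by
      have := hn₂ n hn2
      linarith
    exact_mod_cast h1
  have hbig : Real.exp (x * M) ≤ 2 * M / U := by
    rw [le_div_iff₀ hU0]
    rw [Real.exp_neg] at hUM
    have h6 := Real.exp_pos (x * M)
    have h7 : U / 2 * Real.exp (x * M) ≤ M := by
      calc U / 2 * Real.exp (x * M) ≤ (M * (Real.exp (x * M))⁻¹) * Real.exp (x * M) := by gcongr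
        _ = M := by field_simp
    linarith
  have hA1 : 1 ≤ 1 / x := by
    rw [le_div_iff₀ hx]
    linarith
  calc ∑ t ∈ Ico 1 M, (numCores t n : ℝ) * numPartitions (n - t)
      ≤ ∑ t ∈ Ico 1 M,
          (393216 * C ^ 2 * (numPartitions n : ℝ) ^ 2 / (U ^ 2 * M ^ 2) * Real.exp (-(x * t)) +
          216 * C ^ 2 * (numPartitions n : ℝ) ^ 2 / M ^ 3 * Real.exp (2 * x * t)) := by
        apply sum_le_sum
        intro t ht
        rw [mem_Ico] at ht
        exact LF.term_le hC1 hx hU (fun m hm => hr m hn0 hm) h3 h24 hbig ht.1 ht.2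
    _ = 393216 * C ^ 2 * (numPartitions n : ℝ) ^ 2 / (U ^ 2 * M ^ 2) *
          ∑ t ∈ Ico 1 M, Real.exp (-(x * t)) +
        216 * C ^ 2 * (numPartitions n : ℝ) ^ 2 / M ^ 3 *
          ∑ t ∈ Ico 1 M, Real.exp (2 * x * t) := by
        rw [sum_add_distrib, mul_sum, mul_sum]
    _ ≤ 393216 * C ^ 2 * (numPartitions n : ℝ) ^ 2 / (U ^ 2 * M ^ 2) * (1 / x) +
        216 * C ^ 2 * (numPartitions n : ℝ) ^ 2 / M ^ 3 *
          ((2 * M / U) ^ 2 * (1 / x + 1 / x)) := by
        gcongr
        · have h := LT.geo hx 0 M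
          rw [Nat.cast_zero, mul_zero, neg_zero, Real.exp_zero] at h
          refine le_trans (sum_le_sum_of_subset_of_nonneg ?_ fun _ _ _ => Real.exp_nonneg _) h
          intro t ht
          rw [mem_Ico] at ht
          rw [mem_Ioc]
          omega
        · refine le_trans (sum_le_sum_of_subset_of_nonneg (t := Icc 1 M) ?_
            fun _ _ _ => Real.exp_nonneg _) ?_
          · intro t ht
            rw [mem_Ico] at ht
            rw [mem_Icc]
            omega
          · refine (LT.geo_up (x := 2 * x) (by positivity) M).trans ?_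
            apply mul_le_mul _ _ (by positivity) (by positivity)
            · have h1 : Real.exp (2 * x * M) = Real.exp (x * M) ^ 2 := by
                rw [sq, ← Real.exp_add]
                congr 1
                ring
              rw [h1]
              exact pow_le_pow_left₀ (Real.exp_nonneg _) hbig 2
            · have h2 : 1 / (2 * x) ≤ 1 / x := by
                apply one_div_le_one_div_of_le hx
                linarith
              linarith
    _ = (393216 / M + 1728) * (C ^ 2 * (numPartitions n : ℝ) ^ 2 / (U ^ 2 * (x * M))) := by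
        field_simp
        ring
    _ ≤ (393216 + 1728) * (C ^ 2 * (numPartitions n : ℝ) ^ 2 / (U ^ 2 * (Real.log n / 4))) := by
        gcongr
        apply div_le_self (by norm_num)
        linarith
    _ = _ := by
        field_simp
        ring

end Pool.Agent.W5h11.TZ
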