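import Pool.Agent.W5h11.TZ.Iface2

/-! Task Q3: the Poisson limit for the number of the `t`-cores. -/

set_option autoImplicit false

namespace Pool.Agent.W5h11.TZ

open Finset Filter Topology Real Pool.Agent.H581R3.Core Pool.Agent.R721.PN

/-- The partial sums of `exp (-u)`. -/
theorem exp_partial (U ε : ℝ) (hε : 0 < ε) : ∃ K : ℕ, ∀ m : ℕ, K ≤ m →
    ∀ u : ℝ, 0 ≤ u → u ≤ U →
    |∑ i ∈ range m, (-1) ^ i * (u ^ i / (i.factorial : ℝ)) - exp (-u)| ≤ ε := by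
  have h1 : Tendsto (fun m : ℕ => U ^ m / (m.factorial : ℝ) * 2) atTop (𝓝 (0 * 2)) :=
    (FloorSemiring.tendsto_pow_div_factorial_atTop U).mul_const 2
  rw [zero_mul] at h1
  obtain ⟨K₁, hK₁⟩ := eventually_atTop.mp (h1.eventually (ge_mem_nhds hε))
  obtain ⟨K₂, hK₂⟩ := exists_nat_ge (2 * U)
  refine ⟨max K₁ K₂, fun m hm u hu0 huU => ?_⟩
  have h3 := hK₁ m (le_of_max_le_left hm)
  have hm2 : 2 * U ≤ (m : ℝ) := hK₂.trans (by exact_mod_cast le_of_max_le_right hm)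
  have h4 : ‖(-(u : ℂ))‖ = u := by
    rw [norm_neg, Complex.norm_real, Real.norm_eq_abs, abs_of_nonneg hu0]
  have h5 := Complex.exp_bound' (x := (-(u:ℂ))) (n := m) (by
    rw [h4, div_le_div_iff₀ (by positivity) (by norm_num)]
    push_cast
    linarith)
  rw [h4] at h5
  have h6 : Complex.exp (-(u : ℂ)) - ∑ i ∈ range m, (-(u : ℂ)) ^ i / (i.factorial : ℂ) =
      ((exp (-u) - ∑ i ∈ range m, (-1) ^ i * (u ^ i / (i.factorial : ℝ)) : ℝ) : ℂ) := by
    push_cast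
    congr 1
    refine sum_congr rfl fun i _ => ?_
    rw [neg_pow, mul_div_assoc]
  rw [h6, Complex.norm_real, Real.norm_eq_abs, abs_sub_comm] at h5
  refine h5.trans (le_trans ?_ h3)
  gcongr

theorem tend_eta (K : ℝ) :
    Tendsto (fun n : ℕ => K * Real.log n ^ 3 / (n : ℝ) ^ (1 / 4 : ℝ)) atTop (𝓝 0) := by
  have h1 := (isLittleO_log_rpow_rpow_atTop (s := 1 / 4) 3 (by norm_num)).tendsto_div_nhds_zero
  have h2 := (h1.const_mul K).comp tendsto_natCast_atTop_atTop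
  rw [mul_zero] at h2
  refine h2.congr fun n => ?_
  simp only [Function.comp]
  rw [mul_div_assoc]
  congr 2
  exact_mod_cast Real.rpow_natCast (Real.log n) 3

theorem tend_c (K : ℝ) : Tendsto (fun n : ℕ => K / √(n : ℝ)) atTop (𝓝 0) := by
  have h1 : Tendsto (fun n : ℕ => √(n : ℝ)) atTop atTop :=
    Real.tendsto_sqrt_atTop.comp tendsto_natCast_atTop_atTop
  exact h1.const_div_atTop K

theorem tend_log (U : ℝ) (hU : 0 < U) :
    Tendsto (fun n : ℕ => Real.log (√(n : ℝ) / U)) atTop atTop :=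
  Real.tendsto_log_atTop.comp
    ((Real.tendsto_sqrt_atTop.comp tendsto_natCast_atTop_atTop).atTop_div_const hU)

theorem tend_b (U : ℝ) (hU : 0 < U) :
    Tendsto (fun n : ℕ => 169 / Real.log (√(n : ℝ) / U) ^ 2) atTop (𝓝 0) :=
  ((tendsto_pow_atTop (two_ne_zero)).comp (tend_log U hU)).const_div_atTop 169

theorem choose_upper (t a i : ℕ) (ht : 1 ≤ t) (b : ℝ) (hb : (a : ℝ) / t ≤ b) :
    ((t + a).choose i : ℝ) ≤ (t : ℝ) ^ i / i.factorial * (1 + b) ^ i := by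
  refine (Nat.choose_le_pow_div i (t + a)).trans ?_
  rw [div_mul_eq_mul_div, ← mul_pow]
  have ht' : (0 : ℝ) < t := by exact_mod_cast ht
  have h1 : (a : ℝ) ≤ b * t := (div_le_iff₀ ht').mp hb
  gcongr
  push_cast
  linarith

theorem choose_lower (t i : ℕ) (ht : 1 ≤ t) :
    (t : ℝ) ^ i / i.factorial * (1 - (i : ℝ) ^ 2 / t) ≤ (t.choose i : ℝ) := by
  have ht' : (0 : ℝ) < t := by exact_mod_cast ht
  rcases le_or_gt i t with hi | hi
  · refine le_trans ?_ (Nat.pow_le_choose i t)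
    rw [div_mul_eq_mul_div]
    have hi' : (i : ℝ) ≤ t := by exact_mod_cast hi
    have h1 : (i : ℝ) / t ≤ 1 := (div_le_one ht').mpr hi'
    have h2 : 1 + (i : ℝ) * (-((i : ℝ) / t)) ≤ (1 + -((i : ℝ) / t)) ^ i :=
      one_add_mul_le_pow (by linarith) i
    have h3 : (1 - (i : ℝ) ^ 2 / t) = 1 + (i : ℝ) * (-((i : ℝ) / t)) := by ring
    have h4 : (t : ℝ) ^ i * (1 - (i : ℝ) ^ 2 / t) ≤ ((t + 1 - i : ℕ) : ℝ) ^ i := by
      rw [h3]
      refine (mul_le_mul_of_nonneg_left h2 (by positivity)).trans ?_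
      rw [← mul_pow]
      refine pow_le_pow_left₀ (mul_nonneg ht'.le (by linarith)) ?_ i
      rw [Nat.cast_sub (by omega)]
      push_cast
      have : (t : ℝ) * (1 + -((i : ℝ) / t)) = t - i := by field_simp; ring
      rw [this]
      linarith
    gcongr
  · have h1 : (i : ℝ) ≥ t + 1 := by exact_mod_cast hi
    have h2 : 1 - (i : ℝ) ^ 2 / t ≤ 0 := by
      rw [sub_nonpos, le_div_iff₀ ht']
      nlinarith
    have h3 : (t : ℝ) ^ i / i.factorial * (1 - (i : ℝ) ^ 2 / t) ≤ 0 :=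
      mul_nonpos_of_nonneg_of_nonpos (by positivity) h2
    exact h3.trans (by positivity)

/-- The pure inequality. -/
theorem real_bound {P Q e x t U η b c d δ : ℝ} {i : ℕ} (hP : 0 ≤ P) (ht : 0 ≤ t)
    (hQ : |Q * exp (x * (i * t)) - P| ≤ η * P) (hb : 0 ≤ 1 + b) (hc : 0 ≤ 1 - c)
    (hu : t * exp (-(x * t)) ≤ U) (hU : 0 ≤ U) (hd : 0 ≤ d) (hdδ : d * exp U ≤ δ)
    (h1 : (1 + η) * (1 + b) ^ i ≤ 1 + d) (h2 : 1 - d ≤ (1 - η) * (1 - c))
    (he1 : t ^ i / i.factorial * (1 - c) * Q ≤ e) (he2 : e ≤ t ^ i / i.factorial * (1 + b) ^ i * Q) :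
    |e - (t * exp (-(x * t))) ^ i / i.factorial * P| ≤ δ * P := by
  set u : ℝ := t * exp (-(x * t)) with hu_def
  have hu0 : 0 ≤ u := mul_nonneg ht (exp_pos _).le
  set w : ℝ := u ^ i / i.factorial with hw_def
  have hw0 : 0 ≤ w := by positivity
  have hw1 : w ≤ exp U := by
    refine le_trans ?_ (Real.pow_div_factorial_le_exp U hU i)
    rw [hw_def]
    gcongr
  have hR : t ^ i / i.factorial * Q = w * (Q * exp (x * (i * t))) := by
    rw [hw_def, hu_def, mul_pow, ← Real.exp_nat_mul]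
    have : exp ((i : ℝ) * -(x * t)) * exp (x * (i * t)) = 1 := by
      rw [← Real.exp_add]
      have : (i : ℝ) * -(x * t) + x * (i * t) = 0 := by ring
      rw [this, Real.exp_zero]
    calc t ^ i / i.factorial * Q = t ^ i / i.factorial * Q * 1 := (mul_one _).symm
      _ = _ := by rw [← this]; ring
  have h3 := abs_le.mp hQ
  have hwP : 0 ≤ w * P := mul_nonneg hw0 hP
  have hdw : d * (w * P) ≤ δ * P := by
    calc d * (w * P) ≤ d * (exp U * P) := by gcongr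
      _ = d * exp U * P := by ring
      _ ≤ δ * P := by gcongr
  have h4 : e ≤ (1 + d) * (w * P) := by
    calc e ≤ t ^ i / i.factorial * (1 + b) ^ i * Q := he2
      _ = (t ^ i / i.factorial * Q) * (1 + b) ^ i := by ring
      _ = w * (Q * exp (x * (i * t))) * (1 + b) ^ i := by rw [hR]
      _ ≤ w * ((1 + η) * P) * (1 + b) ^ i := by
          have : Q * exp (x * (i * t)) ≤ (1 + η) * P := by linarith [h3.2]
          gcongr
      _ = ((1 + η) * (1 + b) ^ i) * (w * P) := by ring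
      _ ≤ (1 + d) * (w * P) := mul_le_mul_of_nonneg_right h1 hwP
  have h5 : (1 - d) * (w * P) ≤ e := by
    calc (1 - d) * (w * P) ≤ ((1 - η) * (1 - c)) * (w * P) := mul_le_mul_of_nonneg_right h2 hwP
      _ = w * ((1 - η) * P) * (1 - c) := by ring
      _ ≤ w * (Q * exp (x * (i * t))) * (1 - c) := by
          have : (1 - η) * P ≤ Q * exp (x * (i * t)) := by linarith [h3.1]
          gcongr
      _ = (t ^ i / i.factorial * Q) * (1 - c) := by rw [hR]
      _ = t ^ i / i.factorial * (1 - c) * Q := by ring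
      _ ≤ e := he1
  rw [abs_le]
  constructor
  · linarith
  · linarith

/-- The moments. -/
theorem e_bound {xs : ℕ → ℝ} {C : ℝ} {n0 : ℕ} (h : Sad xs C n0) (U : ℝ) (hU : 0 < U) (i : ℕ)
    (δ : ℝ) (hδ : 0 < δ) : ∃ n₁ : ℕ, ∀ n t : ℕ, n₁ ≤ n → √(n : ℝ) ≤ t →
    (t : ℝ) ≤ √(n : ℝ) * Real.log n ^ 2 → t * exp (-(xs n * t)) ≤ U →
    1 ≤ t ∧ i * t ≤ n ∧ ∀ e : ℝ, (t.choose i : ℝ) * numPartitions (n - i * t) ≤ e →
      e ≤ ((t + n / t).choose i : ℝ) * numPartitions (n - i * t) →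
      |e - (t * exp (-(xs n * t))) ^ i / i.factorial * numPartitions n| ≤ δ * numPartitions n := by
  set d : ℝ := δ / exp U with hd_def
  have hd : 0 < d := by positivity
  have t1 := tend_eta (C * i)
  have t2 := tend_c ((i : ℝ) ^ 2)
  have t3 := tend_b U hU
  have t4 : Tendsto (fun n : ℕ => (1 + C * i * Real.log n ^ 3 / (n : ℝ) ^ (1 / 4 : ℝ)) *
      (1 + 169 / Real.log (√(n : ℝ) / U) ^ 2) ^ i) atTop (𝓝 ((1 + 0) * (1 + 0) ^ i)) :=
    (t1.const_add 1).mul ((t3.const_add 1).pow i)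
  have t5 : Tendsto (fun n : ℕ => (1 - C * i * Real.log n ^ 3 / (n : ℝ) ^ (1 / 4 : ℝ)) *
      (1 - (i : ℝ) ^ 2 / √(n : ℝ))) atTop (𝓝 ((1 - 0) * (1 - 0))) :=
    (t1.const_sub 1).mul (t2.const_sub 1)
  simp only [add_zero, one_pow, mul_one, sub_zero] at t4 t5
  have t6 : Tendsto (fun n : ℕ => (i : ℝ) * Real.log n ^ 2 / √(n : ℝ)) atTop (𝓝 0) := by
    have h1 := (isLittleO_log_rpow_rpow_atTop (s := 1 / 2) 2 (by norm_num)).tendsto_div_nhds_zero
    have h2 := (h1.const_mul (i : ℝ)).comp tendsto_natCast_atTop_atTop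
    rw [mul_zero] at h2
    refine h2.congr fun n => ?_
    simp only [Function.comp]
    rw [mul_div_assoc, Real.sqrt_eq_rpow]
    congr 2
    exact_mod_cast Real.rpow_natCast (Real.log n) 2
  have e1 := t1.eventually (ge_mem_nhds (show (0 : ℝ) < 1 by norm_num))
  have e2 := t2.eventually (ge_mem_nhds (show (0 : ℝ) < 1 by norm_num))
  have e4 := t4.eventually (ge_mem_nhds (show (1 : ℝ) < 1 + d by linarith))
  have e5 := t5.eventually (le_mem_nhds (show (1 : ℝ) - d < 1 by linarith))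
  have e6 := t6.eventually (ge_mem_nhds (show (0 : ℝ) < 1 by norm_num))
  have e7 := (tend_log U hU).eventually_ge_atTop 1
  have e8 : ∀ᶠ n : ℕ in atTop, max n0 1 ≤ n := eventually_ge_atTop _
  obtain ⟨n₁, hn₁⟩ := eventually_atTop.mp
    (e1.and (e2.and (e4.and (e5.and (e6.and (e7.and e8))))))
  refine ⟨n₁, fun n t hn ht1 ht2 htU => ?_⟩
  obtain ⟨g1, g2, g4, g5, g6, g7, g8⟩ := hn₁ n hn
  have hn0 : n0 ≤ n := (le_max_left _ _).trans g8
  have hn1 : 1 ≤ n := (le_max_right _ _).trans g8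
  have hn1' : (1 : ℝ) ≤ n := by exact_mod_cast hn1
  have hnpos : (0 : ℝ) < n := by linarith
  have hs1 : 1 ≤ √(n : ℝ) := Real.one_le_sqrt.mpr hn1'
  have hs0 : 0 < √(n : ℝ) := by linarith
  have htR : (0 : ℝ) < t := by linarith
  have ht : 1 ≤ t := by exact_mod_cast (show (0 : ℝ) < t from htR)
  have hsq : √(n : ℝ) * √(n : ℝ) = n := Real.mul_self_sqrt hnpos.le
  have hit : i * t ≤ n := by
    have h1 : (i : ℝ) * Real.log n ^ 2 ≤ √(n : ℝ) := by
      rwa [div_le_one hs0] at g6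
    have h2 : (i : ℝ) * t ≤ n := by
      calc (i : ℝ) * t ≤ i * (√(n : ℝ) * Real.log n ^ 2) := by gcongr
        _ = (i * Real.log n ^ 2) * √(n : ℝ) := by ring
        _ ≤ √(n : ℝ) * √(n : ℝ) := by gcongr
        _ = n := hsq
    exact_mod_cast h2
  refine ⟨ht, hit, fun e he1 he2 => ?_⟩
  have hlog : 0 ≤ Real.log n := Real.log_nonneg hn1'
  have hC : 0 ≤ C := by linarith [h.C1]
  have hx := h.pos n hn0
  have hP : (0 : ℝ) ≤ numPartitions n := Nat.cast_nonneg _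
  -- the local regularity
  have hloc := h.loc n (i * t) hn0 hit
  push_cast at hloc
  have hq : (n : ℝ) ^ (3 / 4 : ℝ) = (n : ℝ) ^ (1 / 4 : ℝ) * √(n : ℝ) := by
    rw [Real.sqrt_eq_rpow, ← Real.rpow_add hnpos]
    norm_num
  have hη : C * (i * t) * Real.log n / (n : ℝ) ^ (3 / 4 : ℝ) ≤
      C * i * Real.log n ^ 3 / (n : ℝ) ^ (1 / 4 : ℝ) := by
    rw [hq, div_le_div_iff₀ (by positivity) (by positivity)]
    calc C * (i * t) * Real.log n * (n : ℝ) ^ (1 / 4 : ℝ)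
        ≤ C * (i * (√(n : ℝ) * Real.log n ^ 2)) * Real.log n * (n : ℝ) ^ (1 / 4 : ℝ) := by gcongr
      _ = C * i * Real.log n ^ 3 * ((n : ℝ) ^ (1 / 4 : ℝ) * √(n : ℝ)) := by ring
  have hloc' := hloc.trans (mul_le_mul_of_nonneg_right hη hP)
  -- the lower bound for `t`
  have hxt : Real.log (√(n : ℝ) / U) ≤ xs n * t := by
    rw [Real.log_le_iff_le_exp (by positivity)]
    have h1 : (t : ℝ) ≤ U * exp (xs n * t) := by
      have h2 : (t : ℝ) * exp (-(xs n * t)) * exp (xs n * t) ≤ U * exp (xs n * t) := by gcongr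
      rwa [mul_assoc, ← Real.exp_add, neg_add_cancel, Real.exp_zero, mul_one] at h2
    rw [div_le_iff₀ hU, mul_comm]
    linarith
  have hxt2 : Real.log (√(n : ℝ) / U) * √(n : ℝ) ≤ 13 * t := by
    have h1 := h.hi n hn0
    have h2 : xs n * √(n : ℝ) ≤ 13 := (le_div_iff₀ hs0).mp h1
    calc Real.log (√(n : ℝ) / U) * √(n : ℝ) ≤ xs n * t * √(n : ℝ) := by gcongr
      _ = xs n * √(n : ℝ) * t := by ring
      _ ≤ 13 * t := by gcongr
  have hb : ((n / t : ℕ) : ℝ) / t ≤ 169 / Real.log (√(n : ℝ) / U) ^ 2 := by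
    have h1 : ((n / t : ℕ) : ℝ) ≤ (n : ℝ) / t := Nat.cast_div_le
    have h2 : ((n / t : ℕ) : ℝ) / t ≤ (n : ℝ) / t / t := by gcongr
    refine h2.trans ?_
    rw [div_div, div_le_div_iff₀ (by positivity) (by positivity)]
    have h3 : (Real.log (√(n : ℝ) / U) * √(n : ℝ)) ^ 2 ≤ (13 * t) ^ 2 := by
      refine pow_le_pow_left₀ (by positivity) hxt2 2
    have h4 : (Real.log (√(n : ℝ) / U) * √(n : ℝ)) ^ 2 =
        n * Real.log (√(n : ℝ) / U) ^ 2 := by
      rw [mul_pow, Real.sq_sqrt hnpos.le]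
      ring
    nlinarith
  have hc : (i : ℝ) ^ 2 / t ≤ (i : ℝ) ^ 2 / √(n : ℝ) := by gcongr
  have hch1 := choose_upper t (n / t) i ht _ hb
  have hch2 : (t : ℝ) ^ i / i.factorial * (1 - (i : ℝ) ^ 2 / √(n : ℝ)) ≤ (t.choose i : ℝ) := by
    refine le_trans ?_ (choose_lower t i ht)
    gcongr
  have hQ0 : (0 : ℝ) ≤ numPartitions (n - i * t) := Nat.cast_nonneg _
  refine real_bound (U := U) (η := C * i * Real.log n ^ 3 / (n : ℝ) ^ (1 / 4 : ℝ))
    (b := 169 / Real.log (√(n : ℝ) / U) ^ 2) (c := (i : ℝ) ^ 2 / √(n : ℝ)) (d := d)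
    hP htR.le hloc' (by positivity) (by linarith) htU hU.le hd.le ?_ g4 g5 ?_ ?_
  · rw [hd_def, div_mul_cancel₀ _ (exp_pos U).ne']
  · exact (mul_le_mul_of_nonneg_right hch2 hQ0).trans he1
  · exact he2.trans (mul_le_mul_of_nonneg_right hch1 hQ0)

/-- Task Q3. -/
theorem poi : S_Q3 := by
  intro hM xs C n0 h U ε hU hε
  obtain ⟨K, hK⟩ := exp_partial U (ε / 2) (half_pos hε)
  have hδ : 0 < ε / (2 * (2 * (K : ℝ) + 2)) := by positivity
  choose N hN using fun i : ℕ => e_bound h U hU i (ε / (2 * (2 * (K : ℝ) + 2))) hδ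
  refine ⟨(range (2 * K + 2)).sup N, fun n t hn ht1 ht2 htU => ?_⟩
  have hNi : ∀ i < 2 * K + 2, N i ≤ n := fun i hi =>
    (Finset.le_sup (f := N) (mem_range.mpr hi)).trans hn
  obtain ⟨ht, htn, -⟩ := hN 1 n t (hNi 1 (by omega)) ht1 ht2 htU
  rw [one_mul] at htn
  obtain ⟨E, -, hE, hk⟩ := hM n t ht htn
  obtain ⟨hk1, hk2⟩ := hk K
  set P : ℝ := (numPartitions n : ℝ) with hP_def
  have hP : 0 ≤ P := Nat.cast_nonneg _
  set u : ℝ := t * exp (-(xs n * t)) with hu_def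
  have hu0 : 0 ≤ u := mul_nonneg (Nat.cast_nonneg _) (exp_pos _).le
  have hterm : ∀ i < 2 * K + 2, |(E i : ℝ) - u ^ i / i.factorial * P| ≤
      ε / (2 * (2 * (K : ℝ) + 2)) * P := by
    intro i hi
    obtain ⟨-, hit, h3⟩ := hN i n t (hNi i hi) ht1 ht2 htU
    obtain ⟨h4, h5⟩ := hE i hit
    exact h3 (E i) (by exact_mod_cast h4) (by exact_mod_cast h5)
  have hsum : ∀ m ≤ 2 * K + 2, |∑ i ∈ range m, (-1) ^ i * (E i : ℝ) -
      (∑ i ∈ range m, (-1) ^ i * (u ^ i / (i.factorial : ℝ))) * P| ≤ ε / 2 * P := by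
    intro m hm
    have h1 : ∑ i ∈ range m, (-1) ^ i * (E i : ℝ) -
      (∑ i ∈ range m, (-1) ^ i * (u ^ i / (i.factorial : ℝ))) * P =
      ∑ i ∈ range m, (-1) ^ i * ((E i : ℝ) - u ^ i / (i.factorial : ℝ) * P) := by
      rw [sum_mul, ← sum_sub_distrib]
      exact sum_congr rfl fun i _ => by ring
    rw [h1]
    refine (abs_sum_le_sum_abs _ _).trans ?_
    have h2 : ∀ i ∈ range m, |(-1) ^ i * ((E i : ℝ) - u ^ i / (i.factorial : ℝ) * P)| ≤
        ε / (2 * (2 * (K : ℝ) + 2)) * P := by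
      intro i hi
      rw [abs_mul, abs_pow, abs_neg, abs_one, one_pow, one_mul]
      exact hterm i ((mem_range.mp hi).trans_le hm)
    refine (sum_le_sum h2).trans ?_
    rw [sum_const, card_range, nsmul_eq_mul, ← mul_assoc]
    have h3 : (m : ℝ) ≤ 2 * (K : ℝ) + 2 := by exact_mod_cast hm
    refine mul_le_mul_of_nonneg_right ?_ hP
    calc (m : ℝ) * (ε / (2 * (2 * (K : ℝ) + 2))) ≤
        (2 * (K : ℝ) + 2) * (ε / (2 * (2 * (K : ℝ) + 2))) := by gcongr
      _ = ε / 2 := by field_simp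
  have a1 := hsum (2 * K + 1) (by omega)
  have a2 := hsum (2 * K + 2) le_rfl
  have b1 := hK (2 * K + 1) (by omega) u hu0 htU
  have b2 := hK (2 * K + 2) (by omega) u hu0 htU
  have c1 : (numCores t n : ℝ) ≤ ∑ i ∈ range (2 * K + 1), (-1) ^ i * (E i : ℝ) := by
    exact_mod_cast hk1
  have c2 : ∑ i ∈ range (2 * K + 2), (-1) ^ i * (E i : ℝ) ≤ (numCores t n : ℝ) := by
    exact_mod_cast hk2
  have a1' := (abs_le.mp a1).2
  have a2' := (abs_le.mp a2).1
  have b1' := mul_le_mul_of_nonneg_right (abs_le.mp b1).2 hP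
  have b2' := mul_le_mul_of_nonneg_right (abs_le.mp b2).1 hP
  rw [abs_le]
  constructor
  · nlinarith
  · nlinarith

end Pool.Agent.W5h11.TZ
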