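import Pool.Agent.W5h11.TZ.Iface3
import Pool.Agent.W5h11.TZ.NC
import Pool.Agent.W5h11.TZ.Diff

/-! Task R2: the recursion for the numbers of the zeros detected in `k` steps. -/

set_option autoImplicit false

namespace Pool.Agent.W5h11.TZ

open Finset Pool.Agent.H581R3.Core Pool.Agent.R721.PN

theorem first_ne_zero {n : ℕ} {u : ℕ → ℕ} (hn : 1 ≤ n) (hu : IsPartition n u) : u 0 ≠ 0 := by
  intro h
  have h1 : ∑ i ∈ range n, u i = 0 := by
    refine sum_eq_zero fun i _ => ?_
    have := hu.1 (Nat.zero_le i)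
    omega
  have h2 := hu.2.2
  omega

/-- The pairs counted by `Wk`. -/
def WS (k n T : ℕ) : Set ((ℕ → ℕ) × (ℕ → ℕ)) :=
  {x | IsPartition n x.1 ∧ IsPartition n x.2 ∧ x.2 0 ≤ T ∧ Stuck k n x.1 x.2}

theorem WS_finite (k n T : ℕ) : (WS k n T).Finite :=
  ((finite_partitions n).prod (finite_partitions n)).subset fun _ hx => ⟨hx.1, hx.2.1⟩

/-- The pairs with first part `t` for which the first partition is not a `t`-core. -/
def AS (k n t : ℕ) : Set ((ℕ → ℕ) × (ℕ → ℕ)) :=
  {x | IsPartition n x.1 ∧ IsPartition n x.2 ∧ x.2 0 = t ∧ ¬ IsCore t x.1 ∧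
    Stuck (k + 1) n x.1 x.2}

theorem AS_finite (k n t : ℕ) : (AS k n t).Finite :=
  ((finite_partitions n).prod (finite_partitions n)).subset fun _ hx => ⟨hx.1, hx.2.1⟩

theorem AS_le (h : S_RH) {k n t : ℕ} (ht : 1 ≤ t) (htn : t ≤ n) :
    (AS k n t).ncard ≤ (t + n / t) * Wk k (n - t) t := by
  classical
  let P : Finset ((ℕ → ℕ) × (ℕ → ℕ)) := (WS_finite k (n - t) t).toFinset
  have hP : P.card = Wk k (n - t) t := by
    unfold Wk
    exact (Set.ncard_eq_toFinset_card _ (WS_finite k (n - t) t)).symm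
  have hPm : ∀ g, g ∈ P ↔ g ∈ WS k (n - t) t := fun g => Set.Finite.mem_toFinset _
  let S : Finset (Σ _ : (ℕ → ℕ) × (ℕ → ℕ), ℕ) := P.sigma fun x => addB t (beads n x.1)
  have hS : S.card ≤ (t + n / t) * Wk k (n - t) t := by
    change (P.sigma fun x => addB t (beads n x.1)).card ≤ _
    rw [card_sigma, ← hP]
    calc ∑ x ∈ P, (addB t (beads n x.1)).card ≤ ∑ _x ∈ P, (t + n / t) := by
          refine sum_le_sum fun x hx => ?_
          have hx' := ((hPm x).mp hx).1
          have h1 := addB_le t (beads n x.1)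
          have h2 : t * (remB t (beads n x.1)).card ≤ n - t :=
            remB_le (card_beads hx'.1) (sum_beads hx' (by omega))
          have h3 : (remB t (beads n x.1)).card ≤ n / t := by
            rw [Nat.le_div_iff_mul_le (by omega)]
            rw [mul_comm]
            omega
          omega
      _ = (t + n / t) * P.card := by rw [sum_const, smul_eq_mul, mul_comm]
  let Φ : (ℕ → ℕ) × (ℕ → ℕ) → Finset ℕ × (ℕ → ℕ) := fun x => (beads n x.1, fun i => x.2 (i + 1))
  let H : (Σ _ : (ℕ → ℕ) × (ℕ → ℕ), ℕ) → Finset ℕ × (ℕ → ℕ) := fun x =>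
    (insert (x.2 + t) ((beads n x.1.1).erase x.2), x.1.2)
  have hinj : Set.InjOn Φ (AS k n t) := by
    rintro ⟨f, u⟩ ⟨hf, hu, hu0, -, -⟩ ⟨f', u'⟩ ⟨hf', hu', hu0', -, -⟩ hff
    have h1 : beads n f = beads n f' := congrArg Prod.fst hff
    have h2 : (fun i => u (i + 1)) = fun i => u' (i + 1) := congrArg Prod.snd hff
    have e1 : f = f' := beads_inj le_rfl hf hf' h1
    have e2 : u = u' := by
      funext i
      cases i with
      | zero =>
        have a1 : u 0 = t := hu0
        have a2 : u' 0 = t := hu0'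
        rw [a1, a2]
      | succ i => exact congrFun h2 i
    rw [e1, e2]
  have hsub : Φ '' (AS k n t) ⊆ H '' (S : Set (Σ _ : (ℕ → ℕ) × (ℕ → ℕ), ℕ)) := by
    rintro _ ⟨⟨f, u⟩, ⟨hf, hu, hu0, hc, hst⟩, rfl⟩
    change IsPartition n f at hf
    change IsPartition n u at hu
    change u 0 = t at hu0
    change ¬ IsCore t f at hc
    change Stuck (k + 1) n f u at hst
    obtain ⟨h1, h2, -⟩ := h n t f ht hf
    obtain ⟨g, hg, hr⟩ := h2 hc
    obtain ⟨-, h3⟩ := h1 g hg hr
    obtain ⟨b, hb1, hb2, hb3, hb4⟩ := h3 n le_rfl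
    have hst2 := hst.2 g (by rw [hu0]; exact hg) (by rw [hu0]; exact hr)
    rw [hu0] at hst2
    have hu1 := hu.shift
    rw [hu0] at hu1
    have h5 : b - t ∉ (beads n f).erase b := fun h => hb3 (mem_of_mem_erase h)
    refine ⟨⟨(g, fun i => u (i + 1)), b - t⟩, ?_, ?_⟩
    · rw [mem_coe]
      change (⟨(g, fun i => u (i + 1)), b - t⟩ : Σ _ : (ℕ → ℕ) × (ℕ → ℕ), ℕ) ∈
        P.sigma fun x => addB t (beads n x.1)
      rw [mem_sigma]
      refine ⟨(hPm _).mpr ⟨hg, hu1, ?_, hst2⟩, ?_⟩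
      · have := hu.1 (Nat.zero_le 1)
        change u (0 + 1) ≤ t
        rw [zero_add]
        omega
      · unfold addB
        simp only
        rw [mem_filter, hb4, Nat.sub_add_cancel hb1]
        refine ⟨mem_insert_self _ _, ?_⟩
        rw [mem_insert, mem_erase]
        rintro (h | h)
        · omega
        · exact h.1 rfl
    · change (insert (b - t + t) ((beads n g).erase (b - t)), fun i => u (i + 1)) =
        (beads n f, fun i => u (i + 1))
      rw [hb4, erase_insert h5, Nat.sub_add_cancel hb1, insert_erase hb2]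
  calc (AS k n t).ncard = (Φ '' (AS k n t)).ncard := (hinj.ncard_image).symm
    _ ≤ (H '' (S : Set (Σ _ : (ℕ → ℕ) × (ℕ → ℕ), ℕ))).ncard :=
        Set.ncard_le_ncard hsub (S.finite_toSet.image _)
    _ ≤ (S : Set (Σ _ : (ℕ → ℕ) × (ℕ → ℕ), ℕ)).ncard := Set.ncard_image_le S.finite_toSet
    _ = S.card := Set.ncard_coe_finset _
    _ ≤ _ := hS

/-- Task R2. -/
theorem wrec (h : S_RH) : S_WREC := by
  refine ⟨?_, ?_, ?_⟩
  · rintro k n hn ⟨f, u⟩ ⟨hf, hu, hc⟩
    change IsPartition n f at hf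
    change IsPartition n u at hu
    change IsCore (u 0) f at hc
    have h0 := first_ne_zero hn hu
    refine ⟨hf, hu, h0, fun g hg hr => ?_⟩
    exact absurd ⟨g, hg, hr⟩ ((h n (u 0) f (by omega) hf).2.2 hc)
  · intro k n hn
    have hfI : (typeIZeros n).Finite :=
      ((finite_partitions n).prod (finite_partitions n)).subset fun _ hx => ⟨hx.1, hx.2.1⟩
    have hfB : (⋃ t ∈ Icc 1 n, AS k n t).Finite :=
      Set.Finite.biUnion (finite_toSet _) fun t _ => AS_finite k n t
    have hsub : stuckZeros (k + 1) n ⊆ typeIZeros n ∪ ⋃ t ∈ Icc 1 n, AS k n t := by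
      rintro ⟨f, u⟩ ⟨hf, hu, hst⟩
      change IsPartition n f at hf
      change IsPartition n u at hu
      have h0 := first_ne_zero hn hu
      by_cases hc : IsCore (u 0) f
      · exact Or.inl ⟨hf, hu, hc⟩
      · right
        simp only [Set.mem_iUnion, mem_Icc]
        exact ⟨u 0, ⟨by omega, hu.le 0⟩, hf, hu, rfl, hc, hst⟩
    refine (Set.ncard_le_ncard hsub (hfI.union hfB)).trans ?_
    refine (Set.ncard_union_le _ _).trans ?_
    refine Nat.add_le_add_left ?_ _
    refine (Finset.set_ncard_biUnion_le _ _).trans ?_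
    refine sum_le_sum fun t ht => ?_
    rw [mem_Icc] at ht
    exact AS_le h ht.1 ht.2
  · intro k n T hn
    let C : ℕ → Set ((ℕ → ℕ) × (ℕ → ℕ)) := fun t =>
      {f : ℕ → ℕ | IsPartition n f ∧ IsCore t f} ×ˢ {u : ℕ → ℕ | IsPartition n u ∧ u 0 = t}
    have hC : ∀ t, (C t).Finite := fun t =>
      ((finite_partitions n).subset fun f hf => hf.1).prod
        ((finite_partitions n).subset fun f hf => hf.1)
    have hfB : (⋃ t ∈ Icc 1 (min T n), (C t ∪ AS k n t)).Finite :=
      Set.Finite.biUnion (finite_toSet _) fun t _ => (hC t).union (AS_finite k n t)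
    have hsub : WS (k + 1) n T ⊆ ⋃ t ∈ Icc 1 (min T n), (C t ∪ AS k n t) := by
      rintro ⟨f, u⟩ ⟨hf, hu, huT, hst⟩
      change IsPartition n f at hf
      change IsPartition n u at hu
      change u 0 ≤ T at huT
      have h0 := first_ne_zero hn hu
      have h1 := hu.le 0
      simp only [Set.mem_iUnion, mem_Icc]
      refine ⟨u 0, ⟨by omega, by omega⟩, ?_⟩
      by_cases hc : IsCore (u 0) f
      · exact Or.inl ⟨⟨hf, hc⟩, hu, rfl⟩
      · exact Or.inr ⟨hf, hu, rfl, hc, hst⟩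
    change (WS (k + 1) n T).ncard ≤ _
    refine (Set.ncard_le_ncard hsub hfB).trans ?_
    refine (Finset.set_ncard_biUnion_le _ _).trans ?_
    refine sum_le_sum fun t ht => ?_
    rw [mem_Icc] at ht
    refine (Set.ncard_union_le _ _).trans (Nat.add_le_add ?_ (AS_le h ht.1 (by omega)))
    change ({f : ℕ → ℕ | IsPartition n f ∧ IsCore t f} ×ˢ
      {u : ℕ → ℕ | IsPartition n u ∧ u 0 = t}).ncard ≤ _
    rw [Set.ncard_prod]
    exact Nat.mul_le_mul le_rfl (card_first n t)

end Pool.Agent.W5h11.TZ
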