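import Pool.Agent.W5h11.TZ.Step
import Pool.Agent.W5h11.TZ.Wrec

/-! The zeros detected by the Murnaghan-Nakayama rule in a bounded number of steps. -/

set_option autoImplicit false

namespace Pool.Agent.W5h11.TZ

open Finset Filter Topology Real Pool.Agent.H581R3.Core Pool.Agent.R721.PN

theorem Wk_le (k n T : ℕ) : (Wk k n T : ℝ) ≤ (numPartitions n : ℝ) ^ 2 := by
  have h1 : Wk k n T ≤ numPartitions n * numPartitions n := by
    unfold Wk numPartitions
    rw [← Set.ncard_prod]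
    apply Set.ncard_le_ncard _ ((finite_partitions n).prod (finite_partitions n))
    rintro x ⟨h1, h2, -, -⟩
    exact ⟨h1, h2⟩
  calc (Wk k n T : ℝ) ≤ (numPartitions n : ℝ) * numPartitions n := by exact_mod_cast h1
    _ = _ := by ring

theorem Wk_zero (n T : ℕ) : Wk 0 n T = 0 := by
  unfold Wk
  have : {x : (ℕ → ℕ) × (ℕ → ℕ) | IsPartition n x.1 ∧ IsPartition n x.2 ∧ x.2 0 ≤ T ∧
      Stuck 0 n x.1 x.2} = ∅ := by
    ext x
    simp [Stuck]
  rw [this, Set.ncard_empty]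

theorem HW_all {xs : ℕ → ℝ} (hb : S_BASE xs) (hs : S_STEP xs) (hw : S_WREC) (k : ℕ) :
    HW xs (fun n T => (Wk k n T : ℝ)) := by
  induction k with
  | zero =>
    intro m
    refine ⟨1, one_pos, 1, fun n T hn => ?_⟩
    simp only [Wk_zero, Nat.cast_zero]
    have h1 := vv_nonneg xs hn T
    have h2 : 0 ≤ Real.log n := Real.log_nonneg (by exact_mod_cast hn)
    positivity
  | succ k ih =>
    intro m
    obtain ⟨K₁, hK₁, n₁, h1⟩ := hb m
    obtain ⟨K₂, hK₂, n₂, h2⟩ := hs (fun n T => (Wk k n T : ℝ)) (fun n T => Nat.cast_nonneg _)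
      (Wk_le k) ih m
    have hev : ∀ᶠ n : ℕ in atTop, n₁ ≤ n ∧ n₂ ≤ n ∧ 1 ≤ n ∧ 1 ≤ Real.log n :=
      (eventually_ge_atTop _).and ((eventually_ge_atTop _).and ((eventually_ge_atTop _).and
        (log_tendsto.eventually_ge_atTop _)))
    obtain ⟨n₃, h3⟩ := eventually_atTop.1 hev
    refine ⟨K₁ + K₂, by positivity, n₃, fun n T hn => ?_⟩
    obtain ⟨e1, e2, e3, e4⟩ := h3 n hn
    have hv := vv_nonneg xs e3 T
    have hr : (Wk (k + 1) n T : ℝ) ≤ ∑ t ∈ Icc 1 (min T n), ((numCores t n : ℝ) *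
        numPartitions (n - t) + ((t : ℝ) + (n / t : ℕ)) * (Wk k (n - t) t : ℝ)) := by
      exact_mod_cast hw.2.2 k n T e3
    rw [sum_add_distrib] at hr
    have ha := h1 n T e1
    have hb' := h2 n T e2
    have hc : K₂ / Real.log n ^ 2 * vv xs n T ^ m * (numPartitions n : ℝ) ^ 2 ≤
        K₂ / Real.log n * vv xs n T ^ m * (numPartitions n : ℝ) ^ 2 := by
      have : Real.log n ≤ Real.log n ^ 2 := by nlinarith
      gcongr
    calc (Wk (k + 1) n T : ℝ) ≤ _ := hr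
      _ ≤ K₁ / Real.log n * vv xs n T ^ m * (numPartitions n : ℝ) ^ 2 +
          K₂ / Real.log n * vv xs n T ^ m * (numPartitions n : ℝ) ^ 2 :=
          add_le_add ha (hb'.trans hc)
      _ = _ := by ring

theorem depth_of {xs : ℕ → ℝ} (hb : S_BASE xs) (hs : S_STEP xs) (hw : S_WREC) (k : ℕ) :
    ∃ K : ℝ, ∀ᶠ n : ℕ in atTop, zStuck (k + 1) n - zI n ≤ K / Real.log n ^ 2 := by
  obtain ⟨K, hK, n₁, h1⟩ := hs (fun n T => (Wk k n T : ℝ)) (fun n T => Nat.cast_nonneg _)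
    (Wk_le k) (HW_all hb hs hw k) 0
  refine ⟨K, ?_⟩
  filter_upwards [eventually_ge_atTop n₁, eventually_ge_atTop 1] with n e1 e2
  have hP : (0 : ℝ) < numPartitions n := by exact_mod_cast numPartitions_pos n
  have h2 : ((stuckZeros (k + 1) n).ncard : ℝ) ≤ ((typeIZeros n).ncard : ℝ) +
      ∑ t ∈ Icc 1 n, ((t : ℝ) + (n / t : ℕ)) * (Wk k (n - t) t : ℝ) := by
    exact_mod_cast hw.2.1 k n e2
  have h3 := h1 n n e1
  rw [min_self, pow_zero, mul_one] at h3
  unfold zStuck zI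
  rw [← sub_div, div_le_iff₀ (by positivity)]
  linarith

end Pool.Agent.W5h11.TZ
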