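import Pool.Agent.W5h11.TZ.Iface

set_option autoImplicit false

namespace Pool.Agent.W5h11.TZ

open Finset Filter Topology Pool.Agent.H581R3.Core Pool.Agent.R721.PN

/-- Task T6. -/
theorem fin_end : S_END := by
  rintro ⟨c, hc, n₁, h1⟩ ⟨C, n₂, h2⟩
  obtain ⟨D, hD⟩ := zII_bound
  have hlog : Tendsto (fun n : ℕ => Real.log n) atTop atTop :=
    Real.tendsto_log_atTop.comp tendsto_natCast_atTop_atTop
  -- everything holds eventually
  have hev : ∀ᶠ n : ℕ in atTop, 1 ≤ Real.log n ∧ c / Real.log n ≤ zI n ∧
      zII n - zI n ≤ C / Real.log n ^ 2 ∧ zI n ≤ zII n ∧ zII n ≤ D / Real.log n := by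
    filter_upwards [hlog.eventually_ge_atTop 1, eventually_ge_atTop n₁, eventually_ge_atTop n₂,
      eventually_ge_atTop 2] with n a1 a2 a3 a4
    exact ⟨a1, h1 n a2, h2 n a3, zI_le_zII n (by omega), hD n a4⟩
  have hpos : ∀ᶠ n : ℕ in atTop, 0 < zI n ∧ 0 < zII n := by
    filter_upwards [hev] with n ⟨a1, a2, a3, a4, a5⟩
    have : 0 < c / Real.log n := by positivity
    exact ⟨by linarith, by linarith⟩
  have hA : ∀ᶠ n : ℕ in atTop, |zI n / zII n - 1| ≤ (max C 1 / c) / Real.log n := by
    filter_upwards [hev, hpos] with n ⟨a1, a2, a3, a4, a5⟩ ⟨p1, p2⟩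
    have hl : 0 < Real.log n := by linarith
    have e1 : zI n / zII n - 1 = -((zII n - zI n) / zII n) := by
      field_simp
      ring
    rw [e1, abs_neg, abs_of_nonneg (div_nonneg (by linarith) p2.le), div_le_iff₀ p2]
    have e2 : C / Real.log n ^ 2 ≤ max C 1 / Real.log n ^ 2 := by
      gcongr
      exact le_max_left _ _
    have e3 : max C 1 / Real.log n ^ 2 = max C 1 / c / Real.log n * (c / Real.log n) := by
      field_simp
    have e4 : max C 1 / c / Real.log n * (c / Real.log n) ≤ max C 1 / c / Real.log n * zII n := by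
      apply mul_le_mul_of_nonneg_left (a2.trans a4)
      have : 0 < max C 1 := lt_max_of_lt_right one_pos
      positivity
    linarith
  have hB : Tendsto (fun n => zI n / zII n) atTop (𝓝 1) := by
    rw [tendsto_iff_dist_tendsto_zero]
    have hz : Tendsto (fun n : ℕ => (max C 1 / c) / Real.log n) atTop (𝓝 0) :=
      hlog.const_div_atTop _
    refine squeeze_zero' (Eventually.of_forall fun n => dist_nonneg) ?_ hz
    filter_upwards [hA] with n hn
    rwa [Real.dist_eq]
  have hB' : Tendsto (fun n => zII n / zI n) atTop (𝓝 1) := by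
    have := hB.inv₀ one_ne_zero
    rw [inv_one] at this
    refine this.congr fun n => ?_
    rw [inv_div]
  have hC : Tendsto (fun n => zI n / zTable n) atTop (𝓝 1) ↔
      Tendsto (fun n => zII n / zTable n) atTop (𝓝 1) := by
    constructor
    · intro h
      have h3 := hB'.mul h
      rw [one_mul] at h3
      refine h3.congr' ?_
      filter_upwards [hpos] with n ⟨p1, p2⟩
      rw [div_mul_div_comm, mul_comm (zII n), mul_div_mul_left _ _ p1.ne']
    · intro h
      have h3 := hB.mul h
      rw [one_mul] at h3
      refine h3.congr' ?_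
      filter_upwards [hpos] with n ⟨p1, p2⟩
      rw [div_mul_div_comm, mul_comm (zI n), mul_div_mul_left _ _ p2.ne']
  have hbd : ∀ᶠ n : ℕ in atTop, c ≤ zII n * Real.log n ∧ zII n * Real.log n ≤ D := by
    filter_upwards [hev] with n ⟨a1, a2, a3, a4, a5⟩
    have hl : 0 < Real.log n := by linarith
    rw [div_le_iff₀ hl] at a2
    rw [le_div_iff₀ hl] at a5
    refine ⟨a2.trans (mul_le_mul_of_nonneg_right a4 hl.le), a5⟩
  have hE : Tendsto (fun n => zII n / zTable n) atTop (𝓝 1) ↔
      Tendsto (fun n : ℕ => Real.log n * (zTable n - zII n)) atTop (𝓝 0) := by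
    constructor
    · intro h
      have h3 := h.inv₀ one_ne_zero
      rw [inv_one] at h3
      have h4 : Tendsto (fun n => |(zII n / zTable n)⁻¹ - 1|) atTop (𝓝 0) := by
        have := (h3.sub_const 1).abs
        simpa using this
      have h5 : Tendsto (fun n => |(zII n / zTable n)⁻¹ - 1| * D) atTop (𝓝 0) := by
        simpa using h4.mul_const D
      rw [tendsto_zero_iff_abs_tendsto_zero]
      refine squeeze_zero' (Eventually.of_forall fun n => abs_nonneg _) ?_ h5
      filter_upwards [hpos, hbd, hev] with n ⟨p1, p2⟩ ⟨q1, q2⟩ ⟨a1, _⟩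
      have hl : 0 < Real.log n := by linarith
      have e1 : Real.log n * (zTable n - zII n) =
          ((zII n / zTable n)⁻¹ - 1) * (zII n * Real.log n) := by
        rw [inv_div]
        field_simp
      simp only [Function.comp_apply]
      rw [e1, abs_mul, abs_of_nonneg (by positivity : 0 ≤ zII n * Real.log n)]
      exact mul_le_mul_of_nonneg_left q2 (abs_nonneg _)
    · intro h
      have h4 : Tendsto (fun n : ℕ => |Real.log n * (zTable n - zII n)| / c) atTop (𝓝 0) := by
        have := h.abs.div_const c
        simpa using this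
      have h5 : Tendsto (fun n => zTable n / zII n) atTop (𝓝 1) := by
        rw [tendsto_iff_dist_tendsto_zero]
        refine squeeze_zero' (Eventually.of_forall fun n => dist_nonneg) ?_ h4
        filter_upwards [hpos, hbd, hev] with n ⟨p1, p2⟩ ⟨q1, q2⟩ ⟨a1, _⟩
        have hl : 0 < Real.log n := by linarith
        have e1 : zTable n / zII n - 1 =
            Real.log n * (zTable n - zII n) / (zII n * Real.log n) := by
          field_simp
        rw [Real.dist_eq, e1, abs_div, abs_of_pos (by positivity : 0 < zII n * Real.log n)]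
        exact div_le_div_of_nonneg_left (abs_nonneg _) hc q1
      have := h5.inv₀ one_ne_zero
      rw [inv_one] at this
      refine this.congr fun n => ?_
      rw [inv_div]
  refine ⟨⟨max C 1 / c, ?_, hA⟩, hB, hC, hC.trans hE⟩
  have : 0 < max C 1 := lt_max_of_lt_right one_pos
  positivity

end Pool.Agent.W5h11.TZ
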