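import Pool.Agent.R721.PN.Tab

/-! Tasks for: type II zeros of the character table of `S_n` are almost all of type I. -/

set_option autoImplicit false

namespace Pool.Agent.W5h11.TZ

open Finset Filter Topology Pool.Agent.H581R3.Core Pool.Agent.R721.PN

/-- (T1) There are not many partitions of `n` which are not `t`-cores, if `t ^ 2 ≥ n`. -/
def S_NC : Prop := ∀ n t : ℕ, 1 ≤ t → t ≤ n → n ≤ t ^ 2 →
  numPartitions n ≤ numCores t n + 2 * t * numPartitions (n - t)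

/-- (T2) The zeros of type II which are not of type I. -/
def S_DIFF : Prop := ∀ n : ℕ, (typeIIZeros n).ncard ≤ (typeIZeros n).ncard +
  ∑ t ∈ Icc 1 n, ∑ s ∈ Ioc t (n - t), numCores t n * numPartitions (n - t - s)

/-- (T3) A lower bound for the number of the zeros of type I. -/
def S_LOW : Prop := ∀ (n : ℕ) (A : Finset ℕ), A ⊆ Icc 1 n →
  ∑ t ∈ A, (numCores t n : ℝ) * ((numPartitions (n - t) : ℝ) -
    ∑ s ∈ Ioc t (n - t), (numPartitions (n - t - s) : ℝ)) ≤ ((typeIZeros n).ncard : ℝ)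

/-- The threshold `t₀`: the last `t` with `p(n) ≤ 4 t p(n - t)`; it is about `√n log n`. -/
structure Thr (n t₀ : ℕ) (K : ℝ) : Prop where
  pos : 1 ≤ t₀
  le : 4 * t₀ ≤ n
  big : (numPartitions n : ℝ) ≤ 4 * (t₀ : ℝ) * numPartitions (n - t₀)
  small : ∀ t : ℕ, t₀ < t → t ≤ n → 4 * (t : ℝ) * numPartitions (n - t) ≤ numPartitions n
  lo : √(n : ℝ) * Real.log n / K ≤ t₀
  hi : (t₀ : ℝ) ≤ K * (√(n : ℝ) * Real.log n)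

/-- (T4a) -/
def S_THR : Prop := ∃ K : ℝ, 1 ≤ K ∧ ∃ n₁ : ℕ, ∀ n : ℕ, n₁ ≤ n → ∃ t₀ : ℕ, Thr n t₀ K

/-- (T4b) -/
def S_TAIL : Prop := ∀ K₀ : ℝ, 1 ≤ K₀ → ∃ K : ℝ, 1 ≤ K ∧ ∃ n₁ : ℕ, ∀ n t₀ : ℕ, n₁ ≤ n → Thr n t₀ K₀ →
  (∀ t : ℕ, t₀ < t → 2 * t ≤ n →
    ∑ s ∈ Ioc t (n - t), (numPartitions (n - t - s) : ℝ) ≤ K / Real.log n * numPartitions (n - t)) ∧
  ∑ t ∈ Ioc t₀ (n / 2), (numPartitions (n - t) : ℝ) ≤ K / Real.log n * numPartitions n ∧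
  ∀ t : ℕ, t₀ ≤ t → t ≤ t₀ + Nat.sqrt n → (numPartitions n : ℝ) / (K * t₀) ≤ numPartitions (n - t)

/-- (T5) The part of the sum with `t ≤ t₀`. -/
def S_LOWT : Prop := ∀ K₀ : ℝ, 1 ≤ K₀ → ∃ K : ℝ, ∃ n₁ : ℕ, ∀ n t₀ : ℕ, n₁ ≤ n → Thr n t₀ K₀ →
  ∑ t ∈ Icc 1 t₀, ∑ s ∈ Ioc t (n - t), (numCores t n : ℝ) * numPartitions (n - t - s) ≤
    K * (numPartitions n : ℝ) ^ 2 / Real.log n ^ 2

/-- lower bound for `z_I` -/
def S_ZI : Prop := ∃ c : ℝ, 0 < c ∧ ∃ n₁ : ℕ, ∀ n : ℕ, n₁ ≤ n → c / Real.log n ≤ zI n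

/-- upper bound for `z_II - z_I` -/
def S_ZD : Prop := ∃ C : ℝ, ∃ n₁ : ℕ, ∀ n : ℕ, n₁ ≤ n → zII n - zI n ≤ C / Real.log n ^ 2

/-- (T6) -/
def S_END : Prop := S_ZI → S_ZD →
  (∃ C : ℝ, 0 < C ∧ ∀ᶠ n : ℕ in atTop, |zI n / zII n - 1| ≤ C / Real.log n) ∧
  Tendsto (fun n => zI n / zII n) atTop (𝓝 1) ∧
  (Tendsto (fun n => zI n / zTable n) atTop (𝓝 1) ↔
    Tendsto (fun n => zII n / zTable n) atTop (𝓝 1)) ∧
  (Tendsto (fun n => zI n / zTable n) atTop (𝓝 1) ↔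
    Tendsto (fun n : ℕ => Real.log n * (zTable n - zII n)) atTop (𝓝 0))

end Pool.Agent.W5h11.TZ
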