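import Pool.Agent.W5h11.TZ.Iface

/-! Tasks for the sharp form: `log n * z_I → 2` and `log n * z_II → 2`. -/

set_option autoImplicit false

namespace Pool.Agent.W5h11.TZ

open Finset Filter Topology Real Pool.Agent.H581R3.Core Pool.Agent.R721.PN

/-- What is needed about the saddle points `xs n`. -/
structure Sad (xs : ℕ → ℝ) (C : ℝ) (n0 : ℕ) : Prop where
  C1 : 1 ≤ C
  n1 : 1 ≤ n0
  pos : ∀ n : ℕ, n0 ≤ n → 0 < xs n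
  lo : ∀ n : ℕ, n0 ≤ n → 1 / (4 * √(n : ℝ)) ≤ xs n
  hi : ∀ n : ℕ, n0 ≤ n → xs n ≤ 13 / √(n : ℝ)
  up : ∀ n m : ℕ, n0 ≤ n → m ≤ 3 * n →
    (numPartitions m : ℝ) ≤ C * exp (xs n * ((m : ℝ) - n)) * numPartitions n
  loc : ∀ n t : ℕ, n0 ≤ n → t ≤ n →
    |(numPartitions (n - t) : ℝ) * exp (xs n * t) - numPartitions n| ≤
      C * t * Real.log n / (n : ℝ) ^ (3 / 4 : ℝ) * numPartitions n

/-- (Q1) -/
def S_SAD : Prop := ∃ (xs : ℕ → ℝ) (C : ℝ) (n0 : ℕ), Sad xs C n0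

/-- (Q2) The factorial moments of the number of the removable `t`-hooks and the Bonferroni
inequalities: `E i` is the sum over the partitions of `n` of `binom(X, i)`, where `X` is the number
of the beads which can be moved down by `t`. -/
def S_MOM : Prop := ∀ n t : ℕ, 1 ≤ t → t ≤ n → ∃ E : ℕ → ℕ, E 0 = numPartitions n ∧
  (∀ i : ℕ, i * t ≤ n → t.choose i * numPartitions (n - i * t) ≤ E i ∧
    E i ≤ (t + n / t).choose i * numPartitions (n - i * t)) ∧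
  ∀ k : ℕ, (numCores t n : ℤ) ≤ ∑ i ∈ range (2 * k + 1), (-1) ^ i * (E i : ℤ) ∧
    ∑ i ∈ range (2 * k + 2), (-1) ^ i * (E i : ℤ) ≤ (numCores t n : ℤ)

/-- (Q3) The Poisson limit for the number of the `t`-cores. -/
def S_POI (xs : ℕ → ℝ) : Prop := ∀ U ε : ℝ, 0 < U → 0 < ε → ∃ n₁ : ℕ, ∀ n t : ℕ, n₁ ≤ n →
  √(n : ℝ) ≤ t → (t : ℝ) ≤ √(n : ℝ) * Real.log n ^ 2 → t * exp (-(xs n * t)) ≤ U →
  |(numCores t n : ℝ) - exp (-(t * exp (-(xs n * t)))) * numPartitions n| ≤ ε * numPartitions n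

/-- (Q3) task: `theorem poi (hM : S_MOM) {xs C n0} (h : Sad xs C n0) : S_POI xs` -/
def S_Q3 : Prop := S_MOM → ∀ (xs : ℕ → ℝ) (C : ℝ) (n0 : ℕ), Sad xs C n0 → S_POI xs

/-- (Q4) The main sum (real analysis only). -/
def S_SUM : Prop := ∀ a U η : ℝ, 0 < a → a < 1 → 1 < U → 0 < η → ∃ n₁ : ℕ, ∀ n : ℕ, n₁ ≤ n →
  ∀ x : ℝ, 1 / (4 * √(n : ℝ)) ≤ x → x ≤ 13 / √(n : ℝ) → ∃ M N : ℕ,
    √(n : ℝ) ≤ M ∧ M ≤ N ∧ (N : ℝ) ≤ √(n : ℝ) * Real.log n ^ 2 ∧ 4 * N ≤ n ∧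
    Real.log n / 4 ≤ x * M ∧
    (∀ t : ℕ, M ≤ t → t * exp (-(x * t)) ≤ U) ∧
    U / 2 ≤ M * exp (-(x * M)) ∧ N * exp (-(x * N)) ≤ a ∧
    (1 - η) * (2 * (exp (-a) - exp (-U))) ≤
      Real.log n * ∑ t ∈ Ico M N, exp (-(t * exp (-(x * t)))) * exp (-(x * t)) ∧
    Real.log n * ∑ t ∈ Ico M N, exp (-(t * exp (-(x * t)))) * exp (-(x * t)) ≤ (1 + η) * 2

/-- (Q5) The small `t`. -/
def S_LEFT (xs : ℕ → ℝ) : Prop := ∃ K : ℝ, 0 < K ∧ ∀ U : ℝ, 1 ≤ U → ∃ n₁ : ℕ, ∀ n M : ℕ, n₁ ≤ n →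
  √(n : ℝ) ≤ M → (M : ℝ) ≤ √(n : ℝ) * Real.log n ^ 2 → Real.log n / 4 ≤ xs n * M →
  U / 2 ≤ M * exp (-(xs n * M)) →
  ∑ t ∈ Ico 1 M, (numCores t n : ℝ) * numPartitions (n - t) ≤
    K / (U ^ 2 * Real.log n) * (numPartitions n : ℝ) ^ 2

/-- (Q5) task: `theorem left : S_Q5` -/
def S_Q5 : Prop := ∀ (xs : ℕ → ℝ) (C : ℝ) (n0 : ℕ), Sad xs C n0 → S_LEFT xs

end Pool.Agent.W5h11.TZ
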