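import Pool.Agent.W5h11.TZ.Iface2

/-! Tasks for the zeros which the Murnaghan-Nakayama rule detects in a bounded number of steps. -/

set_option autoImplicit false

namespace Pool.Agent.W5h11.TZ

open Finset Filter Topology Real Pool.Agent.H581R3.Core Pool.Agent.R721.PN

/-- `g` is obtained from `f` by the removal of a rim hook of length `t`, which lies in the rows
`a, …, b`: the other rows do not change, for `a ≤ i < b` the new row `i` is the old row `i + 1`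
without its last cell, and the new row `b` is shorter than the old one; `f a + (b - a) - g b` is the
number of the cells removed. -/
def RimHook (t : ℕ) (f g : ℕ → ℕ) : Prop := ∃ a b : ℕ, a ≤ b ∧ (∀ i, i < a → g i = f i) ∧
  (∀ i, b < i → g i = f i) ∧ (∀ i, a ≤ i → i < b → g i + 1 = f (i + 1)) ∧ g b < f b ∧
  f a + (b - a) = g b + t

/-- The Murnaghan-Nakayama recursion for the partitions `f`, `u` of `n`, the parts of `u` being
removed in decreasing order, stops within the first `k` steps: for `k ≥ 1`, `u` is not empty, and for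
every partition `g` obtained from `f` by the removal of a rim hook of length `u 0`, the recursion for
`g` and the rest of `u` stops within the first `k - 1` steps. -/
def Stuck : ℕ → ℕ → (ℕ → ℕ) → (ℕ → ℕ) → Prop
  | 0, _, _, _ => False
  | k + 1, n, f, u => u 0 ≠ 0 ∧ ∀ g, IsPartition (n - u 0) g → RimHook (u 0) f g →
      Stuck k (n - u 0) g (fun i => u (i + 1))

/-- The pairs of partitions of `n` for which the recursion stops within the first `k` steps. -/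
def stuckZeros (k n : ℕ) : Set ((ℕ → ℕ) × (ℕ → ℕ)) :=
  {x | IsPartition n x.1 ∧ IsPartition n x.2 ∧ Stuck k n x.1 x.2}

/-- The density of these pairs. -/
noncomputable def zStuck (k n : ℕ) : ℝ := ((stuckZeros k n).ncard : ℝ) / (numPartitions n : ℝ) ^ 2

/-- The number of these pairs with largest part of the second partition at most `T`. -/
noncomputable def Wk (k n T : ℕ) : ℕ :=
  {x : (ℕ → ℕ) × (ℕ → ℕ) | IsPartition n x.1 ∧ IsPartition n x.2 ∧ x.2 0 ≤ T ∧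
    Stuck k n x.1 x.2}.ncard

/-- (R1) rim hooks and beads -/
def S_RH : Prop := ∀ (n t : ℕ) (f : ℕ → ℕ), 1 ≤ t → IsPartition n f →
  (∀ g : ℕ → ℕ, IsPartition (n - t) g → RimHook t f g → t ≤ n ∧ ∀ N, n ≤ N →
    ∃ b, t ≤ b ∧ b ∈ beads N f ∧ b - t ∉ beads N f ∧
      beads N g = insert (b - t) ((beads N f).erase b)) ∧
  (¬ IsCore t f → ∃ g : ℕ → ℕ, IsPartition (n - t) g ∧ RimHook t f g) ∧
  (IsCore t f → ¬ ∃ g : ℕ → ℕ, IsPartition (n - t) g ∧ RimHook t f g)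

/-- (R2) the recursion -/
def S_WREC : Prop := (∀ k n : ℕ, 1 ≤ n → typeIZeros n ⊆ stuckZeros (k + 1) n) ∧
  (∀ k n : ℕ, 1 ≤ n → (stuckZeros (k + 1) n).ncard ≤ (typeIZeros n).ncard +
    ∑ t ∈ Icc 1 n, (t + n / t) * Wk k (n - t) t) ∧
  ∀ k n T : ℕ, 1 ≤ n → Wk (k + 1) n T ≤
    ∑ t ∈ Icc 1 (min T n), (numCores t n * numPartitions (n - t) + (t + n / t) * Wk k (n - t) t)

/-- the comparison function `v = min(1, e ^ (x T) / (√n log n))` -/
noncomputable def vv (xs : ℕ → ℝ) (n T : ℕ) : ℝ := min 1 (exp (xs n * T) / (√(n : ℝ) * Real.log n))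

/-- (R3) the base -/
def S_BASE (xs : ℕ → ℝ) : Prop := ∀ m : ℕ, ∃ K : ℝ, 0 < K ∧ ∃ n₁ : ℕ, ∀ n T : ℕ, n₁ ≤ n →
  ∑ t ∈ Icc 1 (min T n), (numCores t n : ℝ) * numPartitions (n - t) ≤
    K / Real.log n * vv xs n T ^ m * (numPartitions n : ℝ) ^ 2

/-- the induction hypothesis, for a function `W` of `n` and `T` -/
def HW (xs : ℕ → ℝ) (W : ℕ → ℕ → ℝ) : Prop := ∀ m : ℕ, ∃ K : ℝ, 0 < K ∧ ∃ n₁ : ℕ, ∀ n T : ℕ, n₁ ≤ n →
  W n T ≤ K / Real.log n * vv xs n T ^ m * (numPartitions n : ℝ) ^ 2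

/-- (R4) the step -/
def S_STEP (xs : ℕ → ℝ) : Prop := ∀ W : ℕ → ℕ → ℝ, (∀ n T, 0 ≤ W n T) →
  (∀ n T, W n T ≤ (numPartitions n : ℝ) ^ 2) → HW xs W → ∀ m : ℕ, ∃ K : ℝ, 0 < K ∧ ∃ n₁ : ℕ,
  ∀ n T : ℕ, n₁ ≤ n →
    ∑ t ∈ Icc 1 (min T n), ((t : ℝ) + (n / t : ℕ)) * W (n - t) t ≤
      K / Real.log n ^ 2 * vv xs n T ^ m * (numPartitions n : ℝ) ^ 2

/-- (R3) task: `theorem base : S_R3` -/
def S_R3 : Prop := ∀ (xs : ℕ → ℝ) (C : ℝ) (n0 : ℕ), Sad xs C n0 → S_BASE xs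

/-- (R4) task: `theorem step : S_R4` -/
def S_R4 : Prop := ∀ (xs : ℕ → ℝ) (C : ℝ) (n0 : ℕ), Sad xs C n0 → S_STEP xs

end Pool.Agent.W5h11.TZ
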