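import Pool.Agent.W5h11.TZ.Iface3
import Pool.Agent.W5h11.TZ.NC

/-! Tasks: zeros detected by the Murnaghan-Nakayama rule in at most `k` steps, in any order. -/

set_option autoImplicit false

namespace Pool.Agent.W5h11.TZ

open Finset Filter Topology Real Pool.Agent.H581R3.Core Pool.Agent.R721.PN

/-- It is impossible to remove successively rim hooks of the lengths in the list from the partition
`f` of `n`. -/
def Dead : ℕ → (ℕ → ℕ) → List ℕ → Prop
  | _, _, [] => False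
  | n, f, t :: l => ∀ g, IsPartition (n - t) g → RimHook t f g → Dead (n - t) g l

/-- The entries of the list are nonzero parts of the partition `u`, at distinct places. -/
def HasParts (u : ℕ → ℕ) (l : List ℕ) : Prop :=
  ∃ i : Fin l.length → ℕ, Function.Injective i ∧ ∀ j, u (i j) = l.get j ∧ l.get j ≠ 0

/-- The pairs `(f, u)` of partitions of `n` such that for at most `k` parts of `u`, taken in some
order, it is impossible to remove successively rim hooks of these lengths from `f`. By the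
Murnaghan-Nakayama rule the character of `f` vanishes at `u`. -/
def deadZeros (k n : ℕ) : Set ((ℕ → ℕ) × (ℕ → ℕ)) :=
  {x | IsPartition n x.1 ∧ IsPartition n x.2 ∧ ∃ l : List ℕ, l.length ≤ k ∧ HasParts x.2 l ∧
    Dead n x.1 l}

/-- The density of these pairs. -/
noncomputable def zDead (k n : ℕ) : ℝ := ((deadZeros k n).ncard : ℝ) / (numPartitions n : ℝ) ^ 2

/-- `f` has at most `K` removable rim hooks of length `t` -/
def XLe (n t : ℕ) (f : ℕ → ℕ) (K : ℕ) : Prop := ∀ N, n ≤ N → (remB t (beads N f)).card ≤ K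

/-- the number of the partitions with at most `K` removable rim hooks of length `t` -/
noncomputable def fewCount (K t n : ℕ) : ℕ := {f : ℕ → ℕ | IsPartition n f ∧ XLe n t f K}.ncard

/-- (V1) insertion of one more step -/
def S_INS : Prop := ∀ (n t : ℕ) (f : ℕ → ℕ) (l₁ l₂ : List ℕ), IsPartition n f → 1 ≤ t →
  (∀ s ∈ l₁, 1 ≤ s) → (∀ s ∈ l₂, 1 ≤ s) → Dead n f (l₁ ++ t :: l₂) → ¬ Dead n f (l₁ ++ l₂) →
  XLe n t f (4 * (l₁ ++ l₂).length)

/-- (V2) -/
def S_FEW : Prop := ∀ K t n w : ℕ, 1 ≤ t →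
  t.choose w * fewCount K t n ≤ (K + w).choose w * numPartitions (n + w * t)

/-- (V3) -/
def S_FEWC : Prop := ∀ K t n : ℕ, 1 ≤ t → ∃ m : ℕ, m ≤ n ∧
  fewCount K t n ≤ (4 * n + 4) ^ (4 * K + 4) * numCores t m

/-- (V4) -/
def S_PARTS : Prop := ∀ (n : ℕ) (l : List ℕ),
  (l.sum ≤ n → {u : ℕ → ℕ | IsPartition n u ∧ HasParts u l}.ncard ≤ numPartitions (n - l.sum)) ∧
  (n < l.sum → {u : ℕ → ℕ | IsPartition n u ∧ HasParts u l} = ∅)

/-- (V5) the sum -/
def S_FSUM (xs : ℕ → ℝ) : Prop := ∀ k K : ℕ, 1 ≤ k → ∃ D : ℝ, 0 < D ∧ ∃ n₁ : ℕ, ∀ n : ℕ, n₁ ≤ n →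
  ∑ t ∈ Icc 1 n, exp (-(xs n * t)) *
    ((fewCount K t n : ℝ) / numPartitions n) ^ (1 / k : ℝ) ≤ D / Real.log n

/-- (V5) task: `theorem fsum : S_V5` -/
def S_V5 : Prop := S_FEW → S_FEWC → ∀ (xs : ℕ → ℝ) (C : ℝ) (n0 : ℕ), Sad xs C n0 → S_FSUM xs

end Pool.Agent.W5h11.TZ
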