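import Pool.Agent.W5h11.TZ.Iface4

/-! Tasks: polynomial Murnaghan-Nakayama depth. -/

set_option autoImplicit false

namespace Pool.Agent.W5h11.TZ

open Finset Filter Topology Real Pool.Agent.H581R3.Core Pool.Agent.R721.PN

/-- `u(t) = t e ^ (- x t)` for `t ≥ √n`, and `√n` for `t < √n` -/
noncomputable def qq (xs : ℕ → ℝ) (n t : ℕ) : ℝ :=
  if (t : ℝ) < √(n : ℝ) then √(n : ℝ) else t * exp (-(xs n * t))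

/-- (X2) -/
def S_FEXP (xs : ℕ → ℝ) : Prop := ∀ ε : ℝ, 0 < ε → ε < 1 / 2 → ∃ c B D : ℝ, 0 < c ∧ 1 ≤ B ∧ 1 ≤ D ∧
  ∃ n₁ : ℕ, ∀ n j t : ℕ, n₁ ≤ n → 1 ≤ j → (j : ℝ) ≤ (n : ℝ) ^ (1 / 2 - ε) → 1 ≤ t → t ≤ n →
    (fewCount (4 * j) t n : ℝ) ≤ D * B ^ j * exp (-(c * qq xs n t)) * numPartitions n

/-- (X2) task: `theorem fexp : S_X2` -/
def S_X2 : Prop := S_FEW → S_FEWC → ∀ (xs : ℕ → ℝ) (C : ℝ) (n0 : ℕ), Sad xs C n0 → S_FEXP xs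

/-- (X3) -/
def S_AJ (xs : ℕ → ℝ) : Prop := ∀ ε c : ℝ, 0 < ε → ε < 1 / 2 → 0 < c → ∃ G : ℝ, 0 < G ∧
  ∃ n₁ : ℕ, ∀ n j : ℕ, n₁ ≤ n → 1 ≤ j → (j : ℝ) ≤ (n : ℝ) ^ (1 / 2 - ε) →
    (∀ t ∈ Icc 1 n, exp (-(xs n * t)) * exp (-(c * qq xs n t / j)) ≤ 1 / Real.log n ^ 2) ∧
    ∑ t ∈ Icc 1 n, exp (-(xs n * t)) * exp (-(c * qq xs n t / j)) ≤ G * j / Real.log n

/-- (X3) task: `theorem aj : S_X3` -/
def S_X3 : Prop := ∀ (xs : ℕ → ℝ) (C : ℝ) (n0 : ℕ), Sad xs C n0 → S_AJ xs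

/-- The multiplicity vectors with sum `j`: `v i` is the multiplicity of `i + 1`. -/
def MV (n j : ℕ) : Finset (Fin n → ℕ) :=
  (Fintype.piFinset fun _ : Fin n => range (j + 1)).filter fun v => ∑ i, v i = j

/-- (X4) task: `theorem hsum : S_HSUM` -/
def S_HSUM : Prop := ∀ (n j : ℕ) (a : Fin n → ℝ) (z : ℝ), 0 < z → (∀ i, 0 ≤ a i) →
  (∀ i, a i * z ≤ 1 / 2) → ∑ v ∈ MV n j, ∏ i, a i ^ v i ≤ exp (2 * z * ∑ i, a i) / z ^ j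

/-- partitions with at least `v i` parts equal to `i + 1` -/
def UM (n : ℕ) (v : Fin n → ℕ) : Set (ℕ → ℕ) := {u | IsPartition n u ∧ ∀ i : Fin n,
  ∃ S : Finset ℕ, v i ≤ S.card ∧ ∀ r ∈ S, u r = (i : ℕ) + 1}

/-- (X5) task: `theorem cntm (h : S_PARTS) : S_CNTM` -/
def S_CNTM : Prop := ∀ (n : ℕ) (v : Fin n → ℕ),
  (∑ i, v i * ((i : ℕ) + 1) ≤ n →
    (UM n v).ncard ≤ numPartitions (n - ∑ i, v i * ((i : ℕ) + 1))) ∧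
  (n < ∑ i, v i * ((i : ℕ) + 1) → UM n v = ∅)

end Pool.Agent.W5h11.TZ
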