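import Pool.Agent.W5h11.TZ.Iface5

/-! Tasks: depth up to `√n / (log n) ^ 2`, and arbitrarily many parts `≥ 16 √n log log n`. -/

set_option autoImplicit false

namespace Pool.Agent.W5h11.TZ

open Finset Filter Topology Real Pool.Agent.H581R3.Core Pool.Agent.R721.PN

/-- (Y0) -/
def S_FEXP2 (xs : ℕ → ℝ) : Prop := ∃ c B D : ℝ, 0 < c ∧ 1 ≤ B ∧ 1 ≤ D ∧
  ∃ n₁ : ℕ, ∀ n j t : ℕ, n₁ ≤ n → 1 ≤ j → (j : ℝ) ≤ √(n : ℝ) / Real.log n ^ 2 → 1 ≤ t → t ≤ n →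
    (fewCount (4 * j) t n : ℝ) ≤ D * B ^ j * exp (-(c * qq xs n t)) * numPartitions n

/-- (Y0) task: `theorem fexp2 : S_Y0` -/
def S_Y0 : Prop := S_FEW → S_FEWC → ∀ (xs : ℕ → ℝ) (C : ℝ) (n0 : ℕ), Sad xs C n0 → S_FEXP2 xs

/-- (Y1) -/
def S_AJ2 (xs : ℕ → ℝ) : Prop := ∀ c η : ℝ, 0 < c → 0 < η → ∃ n₁ : ℕ, ∀ n j : ℕ, n₁ ≤ n → 1 ≤ j →
  (j : ℝ) ≤ √(n : ℝ) / Real.log n ^ 2 →
    (∀ t ∈ Icc 1 n, exp (-(xs n * t)) * exp (-(c * qq xs n t / j)) ≤ η) ∧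
    ∑ t ∈ Icc 1 n, exp (-(xs n * t)) * exp (-(c * qq xs n t / j)) ≤ η * j

/-- (Y1) task: `theorem aj2 : S_Y1` -/
def S_Y1 : Prop := ∀ (xs : ℕ → ℝ) (C : ℝ) (n0 : ℕ), Sad xs C n0 → S_AJ2 xs

/-- the bound for the large parts -/
noncomputable def TT (n : ℕ) : ℝ := 16 * (√(n : ℝ) * Real.log (Real.log n))

/-- partitions with many large parts -/
def ML (n : ℕ) : Set (ℕ → ℕ) := {u | IsPartition n u ∧ ∃ l : List ℕ, (∀ t ∈ l, TT n ≤ t) ∧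
  √(n : ℝ) / (2 * Real.log n ^ 2) < l.length ∧ HasParts u l}

/-- (Y2) task: `theorem lp (hh : S_HSUM) (hc : S_CNTM) : S_Y2` -/
def S_Y2 : Prop := ∀ (xs : ℕ → ℝ) (C : ℝ) (n0 : ℕ), Sad xs C n0 → ∃ n₁ : ℕ, ∀ n : ℕ, n₁ ≤ n →
  ((ML n).ncard : ℝ) ≤ 1 / Real.log n ^ 2 * numPartitions n

end Pool.Agent.W5h11.TZ
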