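import Pool.Agent.W5h11.TZ.Iface6

/-! Tasks: the lower bound `z_II - z_I ≥ c / (log n) ^ 2`. -/

set_option autoImplicit false

namespace Pool.Agent.W5h11.TZ

open Finset Filter Topology Real Pool.Agent.H581R3.Core Pool.Agent.R721.PN

/-- `s`-cores which are not `t`-cores -/
def CN (n s t : ℕ) : Set (ℕ → ℕ) := {f | IsPartition n f ∧ IsCore s f ∧ ¬ IsCore t f}

/-- partitions with largest part `t` and a part `s` -/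
def LW (n s t : ℕ) : Set (ℕ → ℕ) := {u | IsPartition n u ∧ u 0 = t ∧ ∃ i, u i = s}

/-- (Z1) -/
def S_Z1 : Prop := ∀ n s t : ℕ, 1 ≤ s → s < t → 2 * t ≤ n →
  s * numCores s (n - t) ≤ (CN n s t).ncard + ((t - s) + 2 * (n / (t - s))) * numCores s (n - t) +
    (t + n / t).choose 2 * numPartitions (n - 2 * t)

/-- (Z2) -/
def S_Z2 : Prop := ∀ n s t : ℕ, 1 ≤ s → s < t → s + t ≤ n →
  numPartitions (n - (s + t)) ≤ (LW n s t).ncard +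
    ∑ r ∈ (Icc (t + 1) n).filter (fun r => s + t + r ≤ n), numPartitions (n - (s + t + r))

/-- (Z3) -/
def S_Z3 : Prop := ∀ (n : ℕ) (A B : Finset ℕ), (∀ s ∈ A, 1 ≤ s) → (∀ s ∈ A, ∀ t ∈ B, s < t) →
  (∀ s ∈ A, ∀ s' ∈ A, ∀ t ∈ B, s + s' + t ≤ n) →
  ∑ t ∈ B, ∑ s ∈ A, (CN n s t).ncard * (LW n s t).ncard ≤ (typeIIZeros n \ typeIZeros n).ncard +
    ∑ t ∈ B, ∑ s ∈ A, ∑ s' ∈ A, numPartitions n * numPartitions (n - (s + s' + t))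

/-- (Z4) the windows (real analysis only) -/
def S_Z4 : Prop := ∃ c : ℝ, 0 < c ∧ ∃ n₁ : ℕ, ∀ n : ℕ, n₁ ≤ n → ∀ x : ℝ,
  1 / (4 * √(n : ℝ)) ≤ x → x ≤ 13 / √(n : ℝ) → ∃ M N M' N' : ℕ,
    √(n : ℝ) ≤ M ∧ M ≤ N ∧ N < M' ∧ M' ≤ N' ∧ (N' : ℝ) ≤ √(n : ℝ) * Real.log n ^ 2 ∧
    Real.log n / 4 ≤ x * M ∧
    (∀ t ∈ Ico M N, 1 / 4 ≤ t * exp (-(x * t)) ∧ t * exp (-(x * t)) ≤ 1 / 2) ∧
    (∀ t ∈ Ico M' N', 1 / 40 ≤ t * exp (-(x * t)) ∧ t * exp (-(x * t)) ≤ 1 / 20) ∧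
    (∀ s ∈ Ico M N, ∀ t ∈ Ico M' N',
      99 / 100 * (t : ℝ) ≤ s - (((t - s : ℕ) : ℝ) + 2 * ((n / (t - s) : ℕ) : ℝ))) ∧
    c / Real.log n ≤ ∑ t ∈ Ico M N, exp (-(x * t)) ∧
    ∑ t ∈ Ico M (n + 1), exp (-(x * t)) ≤ 1 / (c * Real.log n) ∧
    c / Real.log n ≤ ∑ t ∈ Ico M' N', exp (-(x * t))

/-- (Z5) the cores; `s`, `t` as in the windows -/
def S_Z5 (xs : ℕ → ℝ) : Prop := ∃ n₁ : ℕ, ∀ n s t : ℕ, n₁ ≤ n → √(n : ℝ) ≤ s → s < t →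
  (t : ℝ) ≤ √(n : ℝ) * Real.log n ^ 2 → Real.log n / 4 ≤ xs n * s →
  s * exp (-(xs n * s)) ≤ 1 / 2 → 1 / 40 ≤ t * exp (-(xs n * t)) → t * exp (-(xs n * t)) ≤ 1 / 20 →
  99 / 100 * (t : ℝ) ≤ s - (((t - s : ℕ) : ℝ) + 2 * ((n / (t - s) : ℕ) : ℝ)) →
  1 / 200 * (numPartitions n : ℝ) ≤ (CN n s t).ncard

/-- (Z5) task: `theorem z5 (h : S_Z1) (hm : S_MOM) : S_Z5T` -/
def S_Z5T : Prop := ∀ (xs : ℕ → ℝ) (C : ℝ) (n0 : ℕ), Sad xs C n0 → S_Z5 xs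

/-- (Z6) the parts -/
def S_Z6 (xs : ℕ → ℝ) : Prop := ∀ c : ℝ, 0 < c → ∃ n₁ : ℕ, ∀ n s t : ℕ, n₁ ≤ n → √(n : ℝ) ≤ s →
  s < t → (t : ℝ) ≤ √(n : ℝ) * Real.log n ^ 2 →
  ∑ r ∈ Ico s (n + 1), exp (-(xs n * r)) ≤ 1 / (c * Real.log n) →
  1 / 2 * (numPartitions n : ℝ) * exp (-(xs n * s)) * exp (-(xs n * t)) ≤ (LW n s t).ncard

/-- (Z6) task: `theorem z6 (h : S_Z2) : S_Z6T` -/
def S_Z6T : Prop := ∀ (xs : ℕ → ℝ) (C : ℝ) (n0 : ℕ), Sad xs C n0 → S_Z6 xs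

end Pool.Agent.W5h11.TZ
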