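import Pool.Agent.W5h11.TZ.Tail

/-! Assembly of the bounds for `z_I` and for `z_II - z_I`. -/

set_option autoImplicit false

namespace Pool.Agent.W5h11.TZ

open Finset Filter Topology Real Pool.Agent.H581R3.Core Pool.Agent.R721.PN

theorem zi_of (hnc : S_NC) (hlow : S_LOW) : S_ZI := by
  obtain ⟨K₀, hK₀, n₀, hthr⟩ := thr
  obtain ⟨K, hK, n₁, htail⟩ := tailt K₀ hK₀
  have hlog : Tendsto (fun n : ℕ => Real.log n) atTop atTop :=
    Real.tendsto_log_atTop.comp tendsto_natCast_atTop_atTop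
  have hev : ∀ᶠ n : ℕ in atTop, n₀ ≤ n ∧ n₁ ≤ n ∧ 100 ≤ n ∧ 2 * K + K₀ ≤ Real.log n :=
    (eventually_ge_atTop _).and ((eventually_ge_atTop _).and ((eventually_ge_atTop 100).and
      (hlog.eventually_ge_atTop _)))
  obtain ⟨n₂, hn₂⟩ := eventually_atTop.1 hev
  refine ⟨1 / (8 * K * K₀), by positivity, n₂, fun n hn => ?_⟩
  obtain ⟨e1, e2, e3, e4⟩ := hn₂ n hn
  obtain ⟨t₀, ht⟩ := hthr n e1
  obtain ⟨ha, -, hc⟩ := htail n t₀ e2 ht
  have hlw := hlow n (Ioc t₀ (t₀ + Nat.sqrt n))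
  have hn4 : (100 : ℝ) ≤ n := by exact_mod_cast e3
  have hs2 : √(n : ℝ) * √(n : ℝ) = n := Real.mul_self_sqrt (by positivity)
  have hs : 10 ≤ √(n : ℝ) := by
    rw [Real.le_sqrt (by norm_num) (by positivity)]; linarith
  have hP : ∀ m, (0 : ℝ) < numPartitions m := fun m => by exact_mod_cast numPartitions_pos m
  set L := Real.log n with hL
  have hL0 : 0 < L := by linarith
  have ht₀ : (1 : ℝ) ≤ t₀ := by exact_mod_cast ht.pos
  have ht₀0 : (0 : ℝ) < t₀ := by linarith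
  have h4t := ht.le
  have hsq : (Nat.sqrt n : ℝ) ≤ √(n : ℝ) := Real.nat_sqrt_le_real_sqrt
  have hsq2 : √(n : ℝ) / 2 ≤ Nat.sqrt n := by
    have := Real.real_sqrt_lt_nat_sqrt_succ (a := n)
    linarith
  have h4t' : (4 : ℝ) * t₀ ≤ n := by exact_mod_cast h4t
  -- `√n ≤ t₀`
  have hst : √(n : ℝ) ≤ t₀ := by
    have := ht.lo
    refine le_trans ?_ this
    rw [le_div_iff₀ (by positivity)]
    gcongr
    linarith
  have hAn : t₀ + Nat.sqrt n ≤ n / 2 := by
    rw [Nat.le_div_iff_mul_le (by norm_num)]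
    have : ((t₀ : ℝ) + Nat.sqrt n) * 2 ≤ n := by nlinarith
    exact_mod_cast this
  have hsub : Ioc t₀ (t₀ + Nat.sqrt n) ⊆ Icc 1 n := by
    intro t htt
    rw [mem_Ioc] at htt
    rw [mem_Icc]
    omega
  have h1 := hlw hsub
  have hterm : ∀ t ∈ Ioc t₀ (t₀ + Nat.sqrt n), (numPartitions n : ℝ) ^ 2 / (4 * K * t₀) ≤
      (numCores t n : ℝ) * ((numPartitions (n - t) : ℝ) -
        ∑ s ∈ Ioc t (n - t), (numPartitions (n - t - s) : ℝ)) := by
    intro t htt
    rw [mem_Ioc] at htt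
    have htr : (t₀ : ℝ) ≤ t := by exact_mod_cast htt.1.le
    have ht2 : n ≤ t ^ 2 := by
      have : (n : ℝ) ≤ (t : ℝ) ^ 2 := by nlinarith
      exact_mod_cast this
    have hb1 := hnc n t (by omega) (by omega) ht2
    have hb1' : (numPartitions n : ℝ) ≤ numCores t n + 2 * t * numPartitions (n - t) := by
      exact_mod_cast hb1
    have hb2 := ht.small t htt.1 (by omega)
    have hb3 : (numPartitions n : ℝ) / 2 ≤ numCores t n := by linarith
    have hb4 := ha t htt.1 (by omega)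
    have hb5 : K / L ≤ 1 / 2 := by
      rw [div_le_div_iff₀ hL0 (by norm_num)]; linarith
    have hb6 : (numPartitions (n - t) : ℝ) / 2 ≤ (numPartitions (n - t) : ℝ) -
        ∑ s ∈ Ioc t (n - t), (numPartitions (n - t - s) : ℝ) := by
      have := mul_le_mul_of_nonneg_right hb5 (hP (n - t)).le
      linarith
    have hb7 := hc t htt.1.le htt.2
    have h0 := hP n
    calc (numPartitions n : ℝ) ^ 2 / (4 * K * t₀)
        = (numPartitions n : ℝ) / 2 * ((numPartitions n : ℝ) / (K * t₀) / 2) := by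
          field_simp; norm_num
      _ ≤ (numPartitions n : ℝ) / 2 * ((numPartitions (n - t) : ℝ) / 2) := by gcongr
      _ ≤ (numPartitions n : ℝ) / 2 * ((numPartitions (n - t) : ℝ) -
          ∑ s ∈ Ioc t (n - t), (numPartitions (n - t - s) : ℝ)) := by gcongr
      _ ≤ _ := by
          apply mul_le_mul_of_nonneg_right hb3
          have := hP (n - t)
          linarith
  have h2 := sum_le_sum hterm
  rw [sum_const, Nat.card_Ioc, nsmul_eq_mul, Nat.add_sub_cancel_left] at h2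
  have h3 := h2.trans h1
  unfold zI
  rw [le_div_iff₀ (by have := hP n; positivity)]
  refine le_trans ?_ h3
  have h5 : (t₀ : ℝ) ≤ K₀ * (√(n : ℝ) * L) := ht.hi
  have h0 := hP n
  calc 1 / (8 * K * K₀) / L * (numPartitions n : ℝ) ^ 2
      = (√(n : ℝ) / 2) * ((numPartitions n : ℝ) ^ 2 / (4 * K * (K₀ * (√(n : ℝ) * L)))) := by
        have : √(n : ℝ) ≠ 0 := by positivity
        field_simp
        norm_num
    _ ≤ (Nat.sqrt n : ℝ) * ((numPartitions n : ℝ) ^ 2 / (4 * K * t₀)) := by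
        gcongr

/-- the inner sums -/
noncomputable def G (n t : ℕ) : ℝ :=
  ∑ s ∈ Ioc t (n - t), (numCores t n : ℝ) * numPartitions (n - t - s)

theorem split_sum (g : ℕ → ℝ) (n t₀ : ℕ) (hg : ∀ t, n / 2 < t → g t = 0) (ht : 4 * t₀ ≤ n) :
    ∑ t ∈ Icc 1 n, g t ≤ ∑ t ∈ Icc 1 t₀, g t + ∑ t ∈ Ioc t₀ (n / 2), g t := by
  have h1 : ∑ t ∈ Icc 1 n, g t = ∑ t ∈ Icc 1 (n / 2), g t := by
    symm
    apply sum_subset
    · intro t htt; rw [mem_Icc] at htt ⊢; omega
    · intro t h1 h2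
      rw [mem_Icc] at h1 h2
      exact hg t (by omega)
  have h2 : Icc 1 (n / 2) = Icc 1 t₀ ∪ Ioc t₀ (n / 2) := by
    ext t
    rw [mem_union, mem_Icc, mem_Icc, mem_Ioc]
    omega
  rw [h1, h2, sum_union]
  rw [disjoint_left]
  intro t h3 h4
  rw [mem_Icc] at h3
  rw [mem_Ioc] at h4
  omega

theorem zd_of (hdiff : S_DIFF) (hlowt : S_LOWT) : S_ZD := by
  obtain ⟨K₀, hK₀, n₀, hthr⟩ := thr
  obtain ⟨K, hK, n₁, htail⟩ := tailt K₀ hK₀
  obtain ⟨K', n₂, hlt⟩ := hlowt K₀ hK₀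
  have hlog : Tendsto (fun n : ℕ => Real.log n) atTop atTop :=
    Real.tendsto_log_atTop.comp tendsto_natCast_atTop_atTop
  have hev : ∀ᶠ n : ℕ in atTop, n₀ ≤ n ∧ n₁ ≤ n ∧ n₂ ≤ n ∧ 100 ≤ n ∧ 1 ≤ Real.log n :=
    (eventually_ge_atTop _).and ((eventually_ge_atTop _).and ((eventually_ge_atTop _).and
      ((eventually_ge_atTop 100).and (hlog.eventually_ge_atTop _))))
  obtain ⟨n₃, hn₃⟩ := eventually_atTop.1 hev
  refine ⟨K' + K ^ 2, n₃, fun n hn => ?_⟩
  obtain ⟨e1, e2, e3, e4, e5⟩ := hn₃ n hn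
  obtain ⟨t₀, ht⟩ := hthr n e1
  obtain ⟨ha, hb, -⟩ := htail n t₀ e2 ht
  have hc := hlt n t₀ e3 ht
  have hP : ∀ m, (0 : ℝ) < numPartitions m := fun m => by exact_mod_cast numPartitions_pos m
  set L := Real.log n with hL
  have hL0 : 0 < L := by linarith
  have h4t := ht.le
  have hd : ((typeIIZeros n).ncard : ℝ) ≤ ((typeIZeros n).ncard : ℝ) +
      ∑ t ∈ Icc 1 n, ∑ s ∈ Ioc t (n - t), (numCores t n : ℝ) * numPartitions (n - t - s) := by
    exact_mod_cast hdiff n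
  have hsplit := split_sum (G n) n t₀ (fun t htn => by
    unfold G
    rw [Ioc_eq_empty (by omega), sum_empty]) (by omega)
  have hmid : ∑ t ∈ Ioc t₀ (n / 2), G n t ≤ K ^ 2 * (numPartitions n : ℝ) ^ 2 / L ^ 2 := by
    have h1 : ∀ t ∈ Ioc t₀ (n / 2), G n t ≤
        numPartitions n * (K / L * numPartitions (n - t)) := by
      intro t htt
      rw [mem_Ioc] at htt
      unfold G
      rw [← mul_sum]
      have h2 : (numCores t n : ℝ) ≤ numPartitions n := by exact_mod_cast numCores_le t n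
      have h3 := ha t htt.1 (by omega)
      have h0 := hP n
      exact mul_le_mul h2 h3 (sum_nonneg fun s _ => (hP _).le) h0.le
    refine (sum_le_sum h1).trans ?_
    rw [← mul_sum, ← mul_sum]
    have h0 := hP n
    calc (numPartitions n : ℝ) * (K / L * ∑ t ∈ Ioc t₀ (n / 2), (numPartitions (n - t) : ℝ))
        ≤ (numPartitions n : ℝ) * (K / L * (K / L * numPartitions n)) := by gcongr
      _ = _ := by field_simp
  have hd' : ((typeIIZeros n).ncard : ℝ) ≤ ((typeIZeros n).ncard : ℝ) + ∑ t ∈ Icc 1 n, G n t := hd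
  have hc' : ∑ t ∈ Icc 1 t₀, G n t ≤ K' * (numPartitions n : ℝ) ^ 2 / L ^ 2 := hc
  unfold zII zI
  rw [← sub_div, div_le_div_iff₀ (by have := hP n; positivity) (by positivity)]
  have h5 : ((typeIIZeros n).ncard : ℝ) - ((typeIZeros n).ncard : ℝ) ≤
      (K' + K ^ 2) * (numPartitions n : ℝ) ^ 2 / L ^ 2 := by
    calc ((typeIIZeros n).ncard : ℝ) - ((typeIZeros n).ncard : ℝ) ≤ ∑ t ∈ Icc 1 n, G n t := by linarith
      _ ≤ ∑ t ∈ Icc 1 t₀, G n t + ∑ t ∈ Ioc t₀ (n / 2), G n t := hsplit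
      _ ≤ K' * (numPartitions n : ℝ) ^ 2 / L ^ 2 + K ^ 2 * (numPartitions n : ℝ) ^ 2 / L ^ 2 :=
        add_le_add hc' hmid
      _ = _ := by ring
  rwa [le_div_iff₀ (by positivity)] at h5

end Pool.Agent.W5h11.TZ
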