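import Pool.Agent.W5h11.TZ.Poly2

/-! Few small parts and arbitrarily many large parts. -/

set_option autoImplicit false

namespace Pool.Agent.W5h11.TZ

open Finset Filter Topology Real Pool.Agent.H581R3.Core Pool.Agent.R721.PN

/-- The pairs `(f, u)` of partitions of `n` such that for some parts of `u`, at most `k` of which are
smaller than `T`, taken in some order, it is impossible to remove successively rim hooks of these
lengths from `f`. By the Murnaghan-Nakayama rule the character of `f` vanishes at `u`. -/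
def manyZeros (k T n : ℕ) : Set ((ℕ → ℕ) × (ℕ → ℕ)) :=
  {x | IsPartition n x.1 ∧ IsPartition n x.2 ∧ ∃ l : List ℕ, (l.filter (· < T)).length ≤ k ∧
    HasParts x.2 l ∧ Dead n x.1 l}

/-- The density of these pairs. -/
noncomputable def zMany (k T n : ℕ) : ℝ :=
  ((manyZeros k T n).ncard : ℝ) / (numPartitions n : ℝ) ^ 2

theorem dead_sub_many (k T n : ℕ) : deadZeros k n ⊆ manyZeros k T n := by
  rintro ⟨f, u⟩ ⟨hf, hu, l, hl, hp, hd⟩
  exact ⟨hf, hu, l, (List.length_filter_le _ _).trans hl, hp, hd⟩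

theorem manyZeros_finite (k T n : ℕ) : (manyZeros k T n).Finite :=
  ((finite_partitions n).prod (finite_partitions n)).subset fun _ hx => ⟨hx.1, hx.2.1⟩

theorem zDead_le_zMany (k T n : ℕ) : zDead k n ≤ zMany k T n := by
  unfold zDead zMany
  apply div_le_div_of_nonneg_right _ (by positivity)
  exact_mod_cast Set.ncard_le_ncard (dead_sub_many k T n) (manyZeros_finite k T n)

theorem many_sub {k T K n : ℕ} (hT : TT n ≤ T) (hk : (k : ℝ) ≤ √(n : ℝ) / (2 * Real.log n ^ 2))
    (hK : √(n : ℝ) / Real.log n ^ 2 < K + 1) :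
    manyZeros k T n ⊆ deadZeros K n ∪ {f | IsPartition n f} ×ˢ ML n := by
  rintro ⟨f, u⟩ ⟨hf, hu, l, hl, hp, hd⟩
  rcases le_or_gt l.length K with h1 | h1
  · left
    exact ⟨hf, hu, l, h1, hp, hd⟩
  · right
    refine ⟨hf, hu, l.filter (fun t => !decide (t < T)), ?_, ?_, hp.sub List.filter_sublist⟩
    · intro t ht
      rw [List.mem_filter] at ht
      have h2 : T ≤ t := by simpa using ht.2
      exact hT.trans (by exact_mod_cast h2)
    · have h2 : l.length = (l.filter (fun t => decide (t < T))).length +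
          (l.filter (fun t => !decide (t < T))).length := by
        rw [← List.length_append]
        exact (List.filter_append_perm (fun t => decide (t < T)) l).length_eq.symm
      have h3 : K + 1 ≤ k + (l.filter (fun t => !decide (t < T))).length := by omega
      have h4 : (K : ℝ) + 1 ≤ k + (l.filter (fun t => !decide (t < T))).length := by
        exact_mod_cast h3
      have h5 : √(n : ℝ) / Real.log n ^ 2 = 2 * (√(n : ℝ) / (2 * Real.log n ^ 2)) := by ring
      linarith

theorem ML_finite (n : ℕ) : (ML n).Finite := (finite_partitions n).subset fun _ hf => hf.1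

theorem zMany_le {k T K n : ℕ} (hT : TT n ≤ T) (hk : (k : ℝ) ≤ √(n : ℝ) / (2 * Real.log n ^ 2))
    (hK : √(n : ℝ) / Real.log n ^ 2 < K + 1)
    (hML : ((ML n).ncard : ℝ) ≤ 1 / Real.log n ^ 2 * numPartitions n) :
    zMany k T n ≤ zDead K n + 1 / Real.log n ^ 2 := by
  have hP : (0 : ℝ) < numPartitions n := by exact_mod_cast numPartitions_pos n
  have h1 : (manyZeros k T n).ncard ≤ (deadZeros K n).ncard + numPartitions n * (ML n).ncard := by
    refine (Set.ncard_le_ncard (many_sub hT hk hK) ((deadZeros_finite K n).union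
      ((finite_partitions n).prod (ML_finite n)))).trans ?_
    refine (Set.ncard_union_le _ _).trans ?_
    rw [Set.ncard_prod]
    rfl
  have h1' : ((manyZeros k T n).ncard : ℝ) ≤
      (deadZeros K n).ncard + numPartitions n * (ML n).ncard := by exact_mod_cast h1
  unfold zMany zDead
  rw [div_le_iff₀ (by positivity), add_mul, div_mul_cancel₀ _ (by positivity)]
  calc ((manyZeros k T n).ncard : ℝ) ≤
        (deadZeros K n).ncard + numPartitions n * (ML n).ncard := h1'
    _ ≤ (deadZeros K n).ncard + numPartitions n * (1 / Real.log n ^ 2 * numPartitions n) := by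
        gcongr
    _ = _ := by ring

/-- the estimate for `zMany` -/
theorem many_of {xs : ℕ → ℝ} {C : ℝ} {n0 : ℕ} (h : Sad xs C n0) (hrh : S_RH) (hzi : S_ZI)
    (hzd : S_ZD) (hy2 : S_Y2)
    (hd : ∃ K : ℝ, 0 ≤ K ∧ ∀ᶠ n : ℕ in atTop, ∀ k : ℕ, 1 ≤ k →
      (k : ℝ) ≤ √(n : ℝ) / Real.log n ^ 2 → zDead k n - zII n ≤ K / Real.log n ^ 2) :
    ∃ c C : ℝ, 0 < c ∧ ∀ᶠ n : ℕ in atTop, ∀ k T : ℕ, 1 ≤ k →
      (k : ℝ) ≤ √(n : ℝ) / (2 * Real.log n ^ 2) → TT n ≤ T →
      c / Real.log n ≤ zI n ∧ zI n ≤ zMany k T n ∧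
        zMany k T n ≤ (1 + C / Real.log n) * zI n := by
  obtain ⟨c, C', hc, hr⟩ := ratio_poly hrh hzi hzd
    (fun n k => (k : ℝ) ≤ √(n : ℝ) / Real.log n ^ 2) hd
  obtain ⟨n₁, hn₁⟩ := hy2 xs C n0 h
  refine ⟨c, C' + 1 / c, hc, ?_⟩
  filter_upwards [hr, eventually_ge_atTop n₁, log_tendsto.eventually_ge_atTop 1] with n h1 e1 e2
  intro k T hk hkn hT
  have hL : 0 < Real.log n := by linarith
  obtain ⟨K, hKd⟩ : ∃ K : ℕ, K = ⌊√(n : ℝ) / Real.log n ^ 2⌋₊ := ⟨_, rfl⟩
  have hK1 : (K : ℝ) ≤ √(n : ℝ) / Real.log n ^ 2 := by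
    rw [hKd]; exact Nat.floor_le (by positivity)
  have hK2 : √(n : ℝ) / Real.log n ^ 2 < K + 1 := by
    rw [hKd]; exact Nat.lt_floor_add_one _
  have hkK : k ≤ K := by
    rw [hKd]
    apply Nat.le_floor
    refine hkn.trans ?_
    apply div_le_div_of_nonneg_left (Real.sqrt_nonneg _) (by positivity)
    have : 0 < Real.log n ^ 2 := by positivity
    linarith
  obtain ⟨a1, a2, a3⟩ := h1 K (hk.trans hkK) hK1
  obtain ⟨-, b2, -⟩ := h1 k hk (le_trans (by exact_mod_cast hkK) hK1)
  have a4 := zMany_le hT hkn hK2 (hn₁ n e1)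
  refine ⟨a1, b2.trans (zDead_le_zMany k T n), ?_⟩
  have a5 : 1 / Real.log n ^ 2 ≤ 1 / c / Real.log n * zI n := by
    calc 1 / Real.log n ^ 2 = 1 / c / Real.log n * (c / Real.log n) := by
          field_simp
      _ ≤ _ := by gcongr
  calc zMany k T n ≤ zDead K n + 1 / Real.log n ^ 2 := a4
    _ ≤ (1 + C' / Real.log n) * zI n + 1 / c / Real.log n * zI n := add_le_add a3 a5
    _ = _ := by ring

/-- the ratios and the question, for any density -/
theorem question_gen (d : ℕ → ℝ) {c C : ℝ} (hc : 0 < c)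
    (h : ∀ᶠ n : ℕ in atTop, c / Real.log n ≤ zI n ∧ zI n ≤ d n ∧
      d n ≤ (1 + C / Real.log n) * zI n) :
    Tendsto (fun n => zI n / d n) atTop (𝓝 1) ∧
    (Tendsto (fun n => zI n / zTable n) atTop (𝓝 1) ↔
      Tendsto (fun n => d n / zTable n) atTop (𝓝 1)) := by
  have hlog := log_tendsto
  have hB' : Tendsto (fun n => d n / zI n) atTop (𝓝 1) := by
    have hz : Tendsto (fun n : ℕ => 1 + C / Real.log n) atTop (𝓝 1) := by
      have := (hlog.const_div_atTop C).const_add 1
      rwa [add_zero] at this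
    refine tendsto_of_tendsto_of_tendsto_of_le_of_le' tendsto_const_nhds hz ?_ ?_
    · filter_upwards [h, hlog.eventually_ge_atTop 1] with n ⟨a1, a2, a3⟩ a4
      have : 0 < c / Real.log n := by positivity
      rw [le_div_iff₀ (by linarith)]
      linarith
    · filter_upwards [h, hlog.eventually_ge_atTop 1] with n ⟨a1, a2, a3⟩ a4
      have : 0 < c / Real.log n := by positivity
      rw [div_le_iff₀ (by linarith)]
      exact a3
  have hB : Tendsto (fun n => zI n / d n) atTop (𝓝 1) := by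
    have := hB'.inv₀ one_ne_zero
    rw [inv_one] at this
    refine this.congr fun n => ?_
    rw [inv_div]
  have hpos : ∀ᶠ n : ℕ in atTop, zI n ≠ 0 ∧ d n ≠ 0 := by
    filter_upwards [h, hlog.eventually_ge_atTop 1] with n ⟨a1, a2, a3⟩ a4
    have : 0 < c / Real.log n := by positivity
    exact ⟨by linarith, by linarith⟩
  refine ⟨hB, fun ht => ?_, fun ht => ?_⟩
  · have h3 := hB'.mul ht
    rw [one_mul] at h3
    refine h3.congr' ?_
    filter_upwards [hpos] with n hn
    rw [div_mul_div_cancel₀ hn.1]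
  · have h3 := hB.mul ht
    rw [one_mul] at h3
    refine h3.congr' ?_
    filter_upwards [hpos] with n hn
    rw [div_mul_div_cancel₀ hn.2]

end Pool.Agent.W5h11.TZ
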