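import Pool.Agent.W5h11.TZ.Iface6
import Pool.Agent.W5h11.TZ.RatioP

/-! Assembly: depth up to `√n / (log n) ^ 2`. -/

set_option autoImplicit false

namespace Pool.Agent.W5h11.TZ

open Finset Filter Topology Real Pool.Agent.H581R3.Core Pool.Agent.R721.PN

theorem term_gen {xs : ℕ → ℝ} {C : ℝ} {n0 : ℕ} (h : Sad xs C n0) (hhs : S_HSUM) (hcnt : S_CNTM)
    {c B D z R : ℝ} (hc : 0 < c) (hB : 1 ≤ B) (hD : 1 ≤ D) (hz : 0 < z) {n j : ℕ} (hn : n0 ≤ n)
    (hj : 1 ≤ j) (h1 : ∀ t : ℕ, 1 ≤ t → t ≤ n → (fewCount (4 * j) t n : ℝ) ≤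
      D * B ^ j * exp (-(c * qq xs n t)) * numPartitions n)
    (h3 : ∀ t ∈ Icc 1 n, exp (-(xs n * t)) * exp (-(c * qq xs n t / j)) * z ≤ 1 / 2)
    (h4 : ∑ t ∈ Icc 1 n, exp (-(xs n * t)) * exp (-(c * qq xs n t / j)) ≤ R * j) :
    ∑ v ∈ MV n j, ((AM n j v).ncard : ℝ) * ((UM n v).ncard : ℝ) ≤
      C * D * (numPartitions n : ℝ) ^ 2 * (B * exp (2 * z * R) / z) ^ j := by
  have hC := h.C1
  have hP : (0 : ℝ) < numPartitions n := by exact_mod_cast numPartitions_pos n
  set a : Fin n → ℝ := fun i => exp (-(xs n * (((i : ℕ) + 1 : ℕ) : ℝ))) *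
    exp (-(c * qq xs n ((i : ℕ) + 1) / j)) with ha
  have ha0 : ∀ i, 0 ≤ a i := fun i => by rw [ha]; positivity
  have haz : ∀ i, a i * z ≤ 1 / 2 := by
    intro i
    exact h3 ((i : ℕ) + 1) (mem_Icc.2 ⟨by omega, by have := i.2; omega⟩)
  have hsa : ∑ i, a i ≤ R * j := by
    have h5 : ∑ i, a i = ∑ t ∈ Icc 1 n, exp (-(xs n * t)) * exp (-(c * qq xs n t / j)) := by
      rw [ha, Fin.sum_univ_eq_sum_range (fun i => exp (-(xs n * ((i + 1 : ℕ) : ℝ))) *
        exp (-(c * qq xs n (i + 1) / j))) n]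
      rw [Finset.range_eq_Ico, Finset.sum_Ico_add' (fun t : ℕ => exp (-(xs n * (t : ℝ))) *
        exp (-(c * qq xs n t / j))) 0 n 1]
      apply sum_congr
      · ext x; simp only [mem_Ico, mem_Icc]; omega
      · intro x _; rfl
    rw [h5]
    exact h4
  have hs := hhs n j a z hz ha0 haz
  have hs' : ∑ v ∈ MV n j, ∏ i, a i ^ v i ≤ (exp (2 * z * R) / z) ^ j := by
    refine hs.trans ?_
    rw [div_pow, ← Real.exp_nat_mul]
    have h9 : 2 * z * ∑ i, a i ≤ (j : ℝ) * (2 * z * R) := by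
      calc 2 * z * ∑ i, a i ≤ 2 * z * (R * j) := by gcongr
        _ = (j : ℝ) * (2 * z * R) := by ring
    exact div_le_div_of_nonneg_right (Real.exp_le_exp.2 h9) (by positivity)
  calc ∑ v ∈ MV n j, ((AM n j v).ncard : ℝ) * ((UM n v).ncard : ℝ)
      ≤ ∑ v ∈ MV n j, C * D * B ^ j * (numPartitions n : ℝ) ^ 2 * ∏ i, a i ^ v i := by
        apply sum_le_sum
        intro v hv
        have g1 := AM_le hc hB hD hj h1 v hv
        have g2 := UM_le h hcnt hn v
        have g3 : ∏ i, a i ^ v i = (∏ i : Fin n, exp (-(c * qq xs n ((i : ℕ) + 1) / j)) ^ v i) *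
            ∏ i : Fin n, exp (-(xs n * (((i : ℕ) + 1 : ℕ) : ℝ))) ^ v i := by
          rw [← prod_mul_distrib]
          apply prod_congr rfl
          intro i _
          rw [ha, mul_pow, mul_comm]
        rw [g3]
        calc ((AM n j v).ncard : ℝ) * ((UM n v).ncard : ℝ)
            ≤ (D * B ^ j * numPartitions n *
                ∏ i : Fin n, exp (-(c * qq xs n ((i : ℕ) + 1) / j)) ^ v i) *
              (C * numPartitions n *
                ∏ i : Fin n, exp (-(xs n * (((i : ℕ) + 1 : ℕ) : ℝ))) ^ v i) :=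
              mul_le_mul g1 g2 (by positivity) (le_trans (by positivity) g1)
          _ = _ := by ring
    _ = C * D * B ^ j * (numPartitions n : ℝ) ^ 2 * ∑ v ∈ MV n j, ∏ i, a i ^ v i := by
        rw [mul_sum]
    _ ≤ C * D * B ^ j * (numPartitions n : ℝ) ^ 2 * (exp (2 * z * R) / z) ^ j := by gcongr
    _ = _ := by
        rw [mul_div_assoc, mul_pow]
        ring

theorem poly2_of {xs : ℕ → ℝ} {C : ℝ} {n0 : ℕ} (h : Sad xs C n0) (hrh : S_RH) (hins : S_INS)
    (hfe : S_FEXP2 xs) (haj : S_AJ xs) (haj2 : S_AJ2 xs) (hhs : S_HSUM) (hcnt : S_CNTM) :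
    ∃ K : ℝ, 0 ≤ K ∧ ∀ᶠ n : ℕ in atTop, ∀ k : ℕ, 1 ≤ k →
      (k : ℝ) ≤ √(n : ℝ) / Real.log n ^ 2 → zDead k n - zII n ≤ K / Real.log n ^ 2 := by
  have hC := h.C1
  obtain ⟨c, B, D, hc, hB, hD, n₁, h1⟩ := hfe
  obtain ⟨G, hG, n₂, h2⟩ := haj (1 / 4) c (by norm_num) (by norm_num) hc
  obtain ⟨z, hzd⟩ : ∃ z : ℝ, z = 4 * exp 1 * B := ⟨_, rfl⟩
  have hz0 : 0 < z := by rw [hzd]; positivity
  obtain ⟨n₃, h3⟩ := haj2 c (1 / (2 * z)) hc (by positivity)
  set q : ℝ := B * exp 2 * G with hq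
  have hq0 : 0 < q := by positivity
  refine ⟨C * D * (2 * q ^ 2 + 1), by positivity, ?_⟩
  have hev : ∀ᶠ n : ℕ in atTop, exp (-((n : ℝ) ^ (1 / 4 : ℝ) / 2)) ≤ 1 / Real.log n ^ 2 := by
    have g1 : (fun x : ℝ => Real.log x) =o[atTop] fun x : ℝ => x ^ (1 / 4 : ℝ) :=
      isLittleO_log_rpow_atTop (by norm_num)
    have g2 := (g1.bound (show (0 : ℝ) < 1 / 8 by norm_num))
    have g3 := (tendsto_natCast_atTop_atTop (R := ℝ)).eventually g2
    filter_upwards [g3, eventually_ge_atTop 1, log_tendsto.eventually_ge_atTop 1] with n hn hn1 hn2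
    have hn1' : (1 : ℝ) ≤ n := by exact_mod_cast hn1
    rw [Real.norm_of_nonneg (Real.log_nonneg hn1'), Real.norm_of_nonneg (by positivity)] at hn
    have hL0 : 0 < Real.log n := by linarith
    rw [le_div_iff₀ (by positivity)]
    have g4 : Real.log n ^ 2 ≤ exp (2 * Real.log n) := by
      have := Real.add_one_le_exp (Real.log n)
      calc Real.log n ^ 2 ≤ exp (Real.log n) ^ 2 := pow_le_pow_left₀ hL0.le (by linarith) 2
        _ = exp (2 * Real.log n) := by rw [sq, ← Real.exp_add]; ring_nf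
    calc exp (-((n : ℝ) ^ (1 / 4 : ℝ) / 2)) * Real.log n ^ 2
        ≤ exp (-((n : ℝ) ^ (1 / 4 : ℝ) / 2)) * exp (2 * Real.log n) := by gcongr
      _ = exp (-((n : ℝ) ^ (1 / 4 : ℝ) / 2) + 2 * Real.log n) := (Real.exp_add _ _).symm
      _ ≤ 1 := by
          rw [Real.exp_le_one_iff]
          linarith
  filter_upwards [eventually_ge_atTop n₁, eventually_ge_atTop n0, eventually_ge_atTop n₂,
    eventually_ge_atTop n₃, log_tendsto.eventually_ge_atTop 1,
    log_tendsto.eventually_ge_atTop (2 * q),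
    log_tendsto.eventually_ge_atTop (2 / G), hev] with n e1 e2 e3 e3' e4 e5 e6 e7
  intro k hk hkn
  have hP : (0 : ℝ) < numPartitions n := by exact_mod_cast numPartitions_pos n
  have hL0 : 0 < Real.log n := by linarith
  set L : ℝ := Real.log n with hL
  have hcard : ((deadZeros k n).ncard : ℝ) ≤ ((typeIIZeros n).ncard : ℝ) +
      ∑ j ∈ Icc 2 k, ∑ v ∈ MV n j, ((AM n j v).ncard : ℝ) * ((UM n v).ncard : ℝ) := by
    exact_mod_cast dead_card_m hrh hins k n
  have hj : ∀ j ∈ Icc 2 k, ∑ v ∈ MV n j, ((AM n j v).ncard : ℝ) * ((UM n v).ncard : ℝ) ≤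
      C * D * (numPartitions n : ℝ) ^ 2 * ((q / L) ^ j + (1 / 2) ^ j * (1 / L ^ 2)) := by
    intro j hj
    rw [mem_Icc] at hj
    have hj1 : 1 ≤ j := by omega
    have hj0 : (0 : ℝ) < j := by exact_mod_cast hj1
    have hjn : (j : ℝ) ≤ √(n : ℝ) / L ^ 2 := le_trans (by exact_mod_cast hj.2) hkn
    have hfew := fun t ht1 ht2 => h1 n j t e1 hj1 hjn ht1 ht2
    rcases le_or_gt (j : ℝ) ((n : ℝ) ^ (1 / 2 - 1 / 4 : ℝ)) with hcase | hcase
    · obtain ⟨h5, h6⟩ := h2 n j e3 hj1 hcase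
      have h7 := term_gen h hhs hcnt (z := L / G) (R := G / L) hc hB hD (by positivity) e2 hj1
        hfew (fun t ht => by
          calc exp (-(xs n * t)) * exp (-(c * qq xs n t / j)) * (L / G)
              ≤ 1 / L ^ 2 * (L / G) := mul_le_mul_of_nonneg_right (h5 t ht) (by positivity)
            _ = 1 / (L * G) := by field_simp
            _ ≤ 1 / 2 := by
                apply one_div_le_one_div_of_le (by norm_num)
                rw [div_le_iff₀ hG] at e6
                linarith) (by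
          refine h6.trans (le_of_eq ?_)
          ring)
      have h8 : B * exp (2 * (L / G) * (G / L)) / (L / G) = q / L := by
        have : 2 * (L / G) * (G / L) = 2 := by field_simp
        rw [this, hq]
        field_simp
      rw [h8] at h7
      refine h7.trans ?_
      gcongr
      have : 0 ≤ (1 / 2 : ℝ) ^ j * (1 / L ^ 2) := by positivity
      linarith
    · obtain ⟨h5, h6⟩ := h3 n j e3' hj1 hjn
      have h7 := term_gen h hhs hcnt (z := z) (R := 1 / (2 * z)) hc hB hD hz0 e2 hj1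
        hfew (fun t ht => by
          calc exp (-(xs n * t)) * exp (-(c * qq xs n t / j)) * z
              ≤ 1 / (2 * z) * z := mul_le_mul_of_nonneg_right (h5 t ht) hz0.le
            _ = 1 / 2 := by field_simp) h6
      have h8 : B * exp (2 * z * (1 / (2 * z))) / z = 1 / 2 * (1 / 2) := by
        have : 2 * z * (1 / (2 * z)) = 1 := by field_simp
        rw [this, hzd]
        field_simp
        norm_num
      rw [h8, mul_pow] at h7
      refine h7.trans ?_
      have h9 : (1 / 2 : ℝ) ^ j ≤ 1 / L ^ 2 := by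
        have g1 := Real.add_one_le_exp (-(1 / 2) : ℝ)
        calc (1 / 2 : ℝ) ^ j ≤ exp (-(1 / 2)) ^ j := by
              apply pow_le_pow_left₀ (by norm_num)
              linarith
          _ = exp (j * (-(1 / 2))) := (Real.exp_nat_mul _ _).symm
          _ ≤ exp (-((n : ℝ) ^ (1 / 4 : ℝ) / 2)) := by
              apply Real.exp_le_exp.2
              have : (1 / 2 - 1 / 4 : ℝ) = 1 / 4 := by norm_num
              rw [this] at hcase
              linarith
          _ ≤ 1 / L ^ 2 := e7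
      have h10 : 0 ≤ (q / L) ^ j := by positivity
      gcongr
      calc (1 / 2 : ℝ) ^ j * (1 / 2) ^ j ≤ (1 / 2 : ℝ) ^ j * (1 / L ^ 2) := by gcongr
        _ ≤ _ := by linarith
  have hsum := sum_le_sum hj
  rw [← mul_sum, sum_add_distrib, ← sum_mul] at hsum
  have hgeo : ∀ r : ℝ, 0 ≤ r → r ≤ 1 / 2 → ∑ j ∈ Icc 2 k, r ^ j ≤ 2 * r ^ 2 := by
    intro r hr0 hr1
    have g1 : Icc 2 k = Ico 2 (k + 1) := by ext x; simp only [mem_Ico, mem_Icc]; omega
    rw [g1]
    refine (geom_sum_Ico_le_of_lt_one hr0 (by linarith)).trans ?_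
    rw [div_le_iff₀ (by linarith)]
    have : 0 ≤ r ^ 2 := by positivity
    nlinarith
  have hg1 := hgeo (q / L) (by positivity) (by rw [div_le_iff₀ hL0]; linarith)
  have hg2 := hgeo (1 / 2) (by norm_num) le_rfl
  have hg3 : (∑ j ∈ Icc 2 k, (1 / 2 : ℝ) ^ j) * (1 / L ^ 2) ≤ 1 * (1 / L ^ 2) := by
    gcongr
    linarith
  unfold zDead zII
  rw [← sub_div, div_le_iff₀ (by positivity)]
  calc ((deadZeros k n).ncard : ℝ) - ((typeIIZeros n).ncard : ℝ) ≤
        C * D * (numPartitions n : ℝ) ^ 2 * (∑ j ∈ Icc 2 k, (q / L) ^ j +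
          (∑ j ∈ Icc 2 k, (1 / 2 : ℝ) ^ j) * (1 / L ^ 2)) := by linarith
    _ ≤ C * D * (numPartitions n : ℝ) ^ 2 * (2 * (q / L) ^ 2 + 1 * (1 / L ^ 2)) := by gcongr
    _ = _ := by rw [div_pow]; ring

end Pool.Agent.W5h11.TZ
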