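import Pool.Agent.W5h11.TZ.Iface3
import Pool.Agent.W5h11.TZ.Sharp

/-! The induction step (R4). -/

set_option autoImplicit false

namespace Pool.Agent.W5h11.TZ

open Finset Filter Topology Real Pool.Agent.H581R3.Core Pool.Agent.R721.PN

theorem geo_up {x : ℝ} (hx : 0 < x) (k : ℕ) :
    ∑ t ∈ range (k + 1), exp (x * t) ≤ exp (x * k) * (1 + 1 / x) := by
  induction k with
  | zero => simp; positivity
  | succ k ih =>
    rw [sum_range_succ]
    have h1 : exp (x * ((k + 1 : ℕ) : ℝ)) = exp (x * k) * exp x := by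
      rw [← Real.exp_add]; congr 1; push_cast; ring
    have h2 := Real.add_one_le_exp x
    rw [h1]
    have h3 : exp (x * k) * (1 + 1 / x) ≤ exp (x * k) * exp x * (1 / x) := by
      rw [mul_assoc]
      apply mul_le_mul_of_nonneg_left _ (exp_pos _).le
      have : 1 + 1 / x = (x + 1) * (1 / x) := by field_simp
      rw [this]
      gcongr
    calc _ ≤ exp (x * k) * (1 + 1 / x) + exp (x * k) * exp x := by linarith
      _ ≤ exp (x * k) * exp x * (1 / x) + exp (x * k) * exp x := by linarith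
      _ = _ := by ring

theorem sum_up {x R : ℝ} (hx : 0 < x) (hR : 0 ≤ R) (A : Finset ℕ) (hA : ∀ t ∈ A, exp (x * t) ≤ R) :
    ∑ t ∈ A, exp (x * t) ≤ R * (1 + 1 / x) := by
  rcases A.eq_empty_or_nonempty with h | h
  · subst h; simp; positivity
  · have h1 : A ⊆ range (A.max' h + 1) := fun t ht => by
      rw [mem_range]
      have := A.le_max' t ht
      omega
    calc ∑ t ∈ A, exp (x * t) ≤ ∑ t ∈ range (A.max' h + 1), exp (x * t) :=
          sum_le_sum_of_subset_of_nonneg h1 fun t _ _ => (exp_pos _).le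
      _ ≤ exp (x * (A.max' h : ℕ)) * (1 + 1 / x) := geo_up hx _
      _ ≤ R * (1 + 1 / x) := by
          have := hA _ (A.max'_mem h)
          gcongr

theorem sum_down {x R : ℝ} (hx : 0 < x) (hR : 0 < R) (A : Finset ℕ) (hA : ∀ t ∈ A, R ≤ exp (x * t)) :
    ∑ t ∈ A, exp (-(x * t)) ≤ 1 / R * (1 + 1 / x) := by
  rcases A.eq_empty_or_nonempty with h | h
  · subst h; simp; positivity
  · set a := A.min' h with ha
    have h1 : A ⊆ insert a (Ioc a (A.max' h)) := fun t ht => by
      rw [mem_insert, mem_Ioc]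
      have h2 := A.le_max' t ht
      have h3 := A.min'_le t ht
      omega
    have h4 : exp (-(x * a)) ≤ 1 / R := by
      rw [Real.exp_neg, ← one_div]
      exact one_div_le_one_div_of_le hR (hA _ (A.min'_mem h))
    calc ∑ t ∈ A, exp (-(x * t)) ≤ ∑ t ∈ insert a (Ioc a (A.max' h)), exp (-(x * t)) :=
          sum_le_sum_of_subset_of_nonneg h1 fun t _ _ => (exp_pos _).le
      _ = exp (-(x * a)) + ∑ t ∈ Ioc a (A.max' h), exp (-(x * t)) := by
          rw [sum_insert]; simp
      _ ≤ exp (-(x * a)) + exp (-(x * a)) / x := by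
          have := geo' hx a (A.max' h)
          linarith
      _ = exp (-(x * a)) * (1 + 1 / x) := by ring
      _ ≤ _ := by gcongr

/-- `min (y, 1 / y)` where `y = exp (x t) / R` -/
noncomputable def mn (x R : ℝ) (t : ℕ) : ℝ := min (exp (x * t) / R) (R / exp (x * t))

theorem mn_nonneg {x R : ℝ} (hR : 0 < R) (t : ℕ) : 0 ≤ mn x R t := by unfold mn; positivity

theorem sum_mn {x R : ℝ} (hx : 0 < x) (hR : 0 < R) (A : Finset ℕ) :
    ∑ t ∈ A, mn x R t ≤ 2 * (1 + 1 / x) := by
  rw [← sum_filter_add_sum_filter_not A (fun t : ℕ => exp (x * t) ≤ R)]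
  have h1 : ∑ t ∈ A.filter (fun t : ℕ => exp (x * t) ≤ R), mn x R t ≤ 1 + 1 / x := by
    calc ∑ t ∈ A.filter (fun t : ℕ => exp (x * t) ≤ R), mn x R t
        ≤ ∑ t ∈ A.filter (fun t : ℕ => exp (x * t) ≤ R), 1 / R * exp (x * t) := by
          refine sum_le_sum fun t _ => ?_
          refine (min_le_left _ _).trans (le_of_eq ?_)
          ring
      _ = 1 / R * ∑ t ∈ A.filter (fun t : ℕ => exp (x * t) ≤ R), exp (x * t) := by rw [mul_sum]
      _ ≤ 1 / R * (R * (1 + 1 / x)) := by
          have := sum_up hx hR.le (A.filter (fun t : ℕ => exp (x * t) ≤ R))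
            (fun t ht => (mem_filter.1 ht).2)
          gcongr
      _ = 1 + 1 / x := by field_simp
  have h2 : ∑ t ∈ A.filter (fun t : ℕ => ¬ exp (x * t) ≤ R), mn x R t ≤ 1 + 1 / x := by
    calc ∑ t ∈ A.filter (fun t : ℕ => ¬ exp (x * t) ≤ R), mn x R t
        ≤ ∑ t ∈ A.filter (fun t : ℕ => ¬ exp (x * t) ≤ R), R * exp (-(x * t)) := by
          refine sum_le_sum fun t _ => ?_
          refine (min_le_right _ _).trans (le_of_eq ?_)
          rw [Real.exp_neg]; rfl
      _ = R * ∑ t ∈ A.filter (fun t : ℕ => ¬ exp (x * t) ≤ R), exp (-(x * t)) := by rw [mul_sum]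
      _ ≤ R * (1 / R * (1 + 1 / x)) := by
          have := sum_down hx hR (A.filter (fun t : ℕ => ¬ exp (x * t) ≤ R))
            (fun t ht => (not_le.1 (mem_filter.1 ht).2).le)
          gcongr
      _ = 1 + 1 / x := by field_simp
  linarith

theorem vv_nonneg (xs : ℕ → ℝ) {n : ℕ} (hn : 1 ≤ n) (T : ℕ) : 0 ≤ vv xs n T := by
  unfold vv
  have : 0 ≤ Real.log n := Real.log_nonneg (by exact_mod_cast hn)
  positivity

theorem vv_le_one (xs : ℕ → ℝ) (n T : ℕ) : vv xs n T ≤ 1 := min_le_left _ _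

/-- the pointwise bounds -/
theorem step_pt {xs : ℕ → ℝ} {C : ℝ} {n0 : ℕ} (h : Sad xs C n0) (W : ℕ → ℕ → ℝ)
    (hW0 : ∀ n T, 0 ≤ W n T) (hW1 : ∀ n T, W n T ≤ (numPartitions n : ℝ) ^ 2) (m : ℕ) (K' : ℝ)
    (hK' : 0 < K') (n' : ℕ) (hH : ∀ n T : ℕ, n' ≤ n →
      W n T ≤ K' / Real.log n * vv xs n T ^ (m + 6) * (numPartitions n : ℝ) ^ 2) :
    ∀ᶠ n : ℕ in atTop, ∀ T t : ℕ, t ∈ Icc 1 (min T n) →
      ((t : ℝ) + (n / t : ℕ)) * W (n - t) t ≤ (numPartitions n : ℝ) ^ 2 * vv xs n T ^ m *
        ((4 * K' * (4 * exp 26) ^ (m + 6) * C ^ 2 + 2 * C ^ 2) / (n * Real.log n ^ 2) +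
          32 * K' * (12 * C) ^ (m + 6) * C ^ 2 / (Real.log n * (√(n : ℝ) * Real.log n)) *
            mn (xs n) (√(n : ℝ) * Real.log n) t) := by
  have hC := h.C1
  have hcast : Tendsto (fun n : ℕ => (n : ℝ)) atTop atTop := tendsto_natCast_atTop_atTop
  have hlit : ∀ᶠ n : ℕ in atTop, 16 * (√(n : ℝ) * Real.log n) ≤ n := by
    have h1 : (fun x : ℝ => Real.log x) =o[atTop] fun x : ℝ => x ^ (1 / 2 : ℝ) :=
      isLittleO_log_rpow_atTop (by norm_num)
    have h2 := (h1.bound (show (0 : ℝ) < 1 / 16 by norm_num))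
    have h3 := hcast.eventually h2
    filter_upwards [h3, eventually_ge_atTop 1] with n hn hn1
    have hn1' : (1 : ℝ) ≤ n := by exact_mod_cast hn1
    rw [Real.norm_of_nonneg (Real.log_nonneg hn1'), Real.norm_of_nonneg (by positivity),
      ← Real.sqrt_eq_rpow] at hn
    have h4 : √(n : ℝ) * √(n : ℝ) = n := Real.mul_self_sqrt (by positivity)
    have h5 : 0 ≤ √(n : ℝ) := Real.sqrt_nonneg _
    nlinarith
  filter_upwards [eventually_ge_atTop (2 * n0), eventually_ge_atTop (2 * n'),
    eventually_ge_atTop 100, log_tendsto.eventually_ge_atTop 16, hlit,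
    loc_two h (show (0 : ℝ) < 1 / 2 by norm_num)] with n e1 e2 e3 e4 e5 e6 T t ht
  rw [mem_Icc, le_min_iff] at ht
  obtain ⟨ht1, htT, htn⟩ := ht
  have hn100 : (100 : ℝ) ≤ n := by exact_mod_cast e3
  have hn0 : (0 : ℝ) < n := by linarith
  have hP : ∀ m, (0 : ℝ) < numPartitions m := fun m => by exact_mod_cast numPartitions_pos m
  have hP0 := hP n
  have hs2 : √(n : ℝ) * √(n : ℝ) = n := Real.mul_self_sqrt (by positivity)
  have hs : 10 ≤ √(n : ℝ) := by
    rw [Real.le_sqrt (by norm_num) (by positivity)]; linarith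
  have hx0 : 0 < xs n := h.pos n (by omega)
  have hxlo := h.lo n (by omega)
  have hLn : Real.log n ≤ n := by
    have := Real.log_le_sub_one_of_pos hn0
    linarith
  have hexpL : exp (Real.log n) = n := Real.exp_log hn0
  have ht1' : (1 : ℝ) ≤ t := by exact_mod_cast ht1
  have ht0 : (0 : ℝ) < t := by linarith
  have htT' : (t : ℝ) ≤ T := by exact_mod_cast htT
  have htn' : (t : ℝ) ≤ n := by exact_mod_cast htn
  have hvn := vv_nonneg xs (n := n) (by omega) T
  have hup := h.up n (n - t) (by omega) (by omega)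
  have hupe : xs n * (((n - t : ℕ) : ℝ) - n) = -(xs n * t) := by
    rw [Nat.cast_sub htn]; ring
  rw [hupe] at hup
  have hdiv : ((n / t : ℕ) : ℝ) ≤ n / t := Nat.cast_div_le
  generalize hLdef : Real.log n = L at *
  have hL0 : 0 < L := by linarith
  obtain ⟨R, hRdef⟩ : ∃ R, R = √(n : ℝ) * L := ⟨_, rfl⟩
  rw [← hRdef] at e5 ⊢
  have hR0 : 0 < R := by rw [hRdef]; positivity
  have hR1 : 1 ≤ R := by rw [hRdef]; nlinarith
  have hRn : R ≤ n := by linarith
  have hvR : 1 / R ≤ vv xs n T := by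
    unfold vv
    rw [hLdef, ← hRdef]
    apply le_min
    · rw [div_le_one hR0]; exact hR1
    · gcongr
      exact Real.one_le_exp (by positivity)
  have hmn := mn_nonneg (x := xs n) hR0 t
  have hAB : 0 ≤ 32 * K' * (12 * C) ^ (m + 6) * C ^ 2 / (L * R) * mn (xs n) R t := by positivity
  have hPe : (numPartitions (n - t) : ℝ) ^ 2 ≤ C ^ 2 * exp (-(xs n * t)) ^ 2 *
      (numPartitions n : ℝ) ^ 2 := by
    calc (numPartitions (n - t) : ℝ) ^ 2 ≤ (C * exp (-(xs n * t)) * numPartitions n) ^ 2 :=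
          pow_le_pow_left₀ (hP _).le hup 2
      _ = _ := by ring
  rcases lt_or_ge (8 * R) t with hD | hD
  · -- case D
    have h1 : 2 * L ≤ xs n * t := by
      calc 2 * L = 1 / (4 * √(n : ℝ)) * (8 * R) := by
            rw [hRdef]; field_simp; norm_num
        _ ≤ xs n * t := by gcongr
    have hv1 : vv xs n T = 1 := by
      unfold vv
      rw [hLdef, ← hRdef]
      apply min_eq_left
      rw [le_div_iff₀ hR0, one_mul]
      have h2 : xs n * t ≤ xs n * T := by gcongr
      calc R ≤ n := hRn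
        _ = exp L := hexpL.symm
        _ ≤ exp (xs n * T) := Real.exp_le_exp.2 (by linarith)
    rw [hv1, one_pow, mul_one]
    have h2 : exp (-(xs n * t)) ≤ 1 / (n : ℝ) ^ 2 := by
      have h3 : exp (-(2 * L)) = 1 / (n : ℝ) ^ 2 := by
        rw [Real.exp_neg, two_mul, Real.exp_add, hexpL, one_div, sq]
      rw [← h3]
      exact Real.exp_le_exp.2 (by linarith)
    have h3 : (t : ℝ) + (n / t : ℕ) ≤ 2 * n := by
      have : (n : ℝ) / t ≤ n := div_le_self hn0.le ht1'
      linarith
    have h4 : W (n - t) t ≤ C ^ 2 * (1 / (n : ℝ) ^ 2) ^ 2 * (numPartitions n : ℝ) ^ 2 := by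
      refine (hW1 _ _).trans (hPe.trans ?_)
      gcongr
    have h5 : (t + (n / t : ℕ)) * W (n - t) t ≤
        (numPartitions n : ℝ) ^ 2 * (2 * C ^ 2 / (n * L ^ 2)) := by
      calc ((t : ℝ) + (n / t : ℕ)) * W (n - t) t
          ≤ (2 * n) * (C ^ 2 * (1 / (n : ℝ) ^ 2) ^ 2 * (numPartitions n : ℝ) ^ 2) :=
            mul_le_mul h3 h4 (hW0 _ _) (by positivity)
        _ = (numPartitions n : ℝ) ^ 2 * (2 * C ^ 2 / (n * (n : ℝ) ^ 2)) := by
            field_simp
        _ ≤ _ := by gcongr
    refine h5.trans ?_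
    apply mul_le_mul_of_nonneg_left _ (by positivity)
    have h6 : 2 * C ^ 2 / (n * L ^ 2) ≤
        (4 * K' * (4 * exp 26) ^ (m + 6) * C ^ 2 + 2 * C ^ 2) / (n * L ^ 2) := by
      gcongr
      have : 0 ≤ 4 * K' * (4 * exp 26) ^ (m + 6) * C ^ 2 := by positivity
      linarith
    linarith
  · -- common facts for `t ≤ 8 R`
    have h2t : 2 * t ≤ n := by
      have : (2 : ℝ) * t ≤ n := by linarith
      exact_mod_cast this
    have hnt : (n : ℝ) / 2 ≤ ((n - t : ℕ) : ℝ) := by
      rw [Nat.cast_sub htn]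
      have : (2 : ℝ) * t ≤ n := by exact_mod_cast h2t
      linarith
    have hsq : √(n : ℝ) / 2 ≤ √((n - t : ℕ) : ℝ) := by
      apply Real.le_sqrt_of_sq_le
      nlinarith
    have hlg : L / 2 ≤ Real.log ((n - t : ℕ) : ℝ) := by
      have h1 : Real.log ((n : ℝ) / 2) ≤ Real.log ((n - t : ℕ) : ℝ) :=
        Real.log_le_log (by positivity) hnt
      rw [Real.log_div (by positivity) (by norm_num), hLdef] at h1
      have h2 : Real.log 2 ≤ 1 := by
        have := Real.log_two_lt_d9
        linarith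
      linarith
    have hWb := hH (n - t) t (by omega)
    have hvvb : vv xs (n - t) t ≤ 4 * exp (xs (n - t) * t) / R := by
      unfold vv
      refine (min_le_right _ _).trans ?_
      have h1 : R / 4 ≤ √((n - t : ℕ) : ℝ) * Real.log ((n - t : ℕ) : ℝ) := by
        calc R / 4 = (√(n : ℝ) / 2) * (L / 2) := by rw [hRdef]; ring
          _ ≤ _ := by gcongr
      calc exp (xs (n - t) * t) / (√((n - t : ℕ) : ℝ) * Real.log ((n - t : ℕ) : ℝ))
          ≤ exp (xs (n - t) * t) / (R / 4) := by gcongr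
        _ = _ := by ring
    have hv0 := vv_nonneg xs (n := n - t) (by omega) t
    have hWc : W (n - t) t ≤ 2 * K' / L * vv xs (n - t) t ^ (m + 6) *
        (numPartitions (n - t) : ℝ) ^ 2 := by
      refine hWb.trans ?_
      have : K' / Real.log ((n - t : ℕ) : ℝ) ≤ 2 * K' / L := by
        calc K' / Real.log ((n - t : ℕ) : ℝ) ≤ K' / (L / 2) := by gcongr
          _ = _ := by field_simp
      gcongr
    rcases le_or_gt (t : ℝ) (√(n : ℝ)) with hA | hA
    · -- case A
      have h1 : xs (n - t) * t ≤ 26 := by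
        have h2 := h.hi (n - t) (by omega)
        calc xs (n - t) * t ≤ 13 / √((n - t : ℕ) : ℝ) * √(n : ℝ) := by gcongr
          _ ≤ 13 / (√(n : ℝ) / 2) * √(n : ℝ) := by gcongr
          _ = 26 := by field_simp; norm_num
      have h2 : vv xs (n - t) t ≤ 4 * exp 26 / R := by
        refine hvvb.trans ?_
        gcongr
      have h3 : (t : ℝ) + (n / t : ℕ) ≤ 2 * n := by
        have : (n : ℝ) / t ≤ n := div_le_self hn0.le ht1'
        linarith
      have h4 : (numPartitions (n - t) : ℝ) ^ 2 ≤ C ^ 2 * (numPartitions n : ℝ) ^ 2 := by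
        refine hPe.trans ?_
        have h5 : exp (-(xs n * t)) ^ 2 ≤ 1 := by
          apply pow_le_one₀ (exp_pos _).le
          rw [Real.exp_le_one_iff]
          have : 0 < xs n * t := by positivity
          linarith
        calc C ^ 2 * exp (-(xs n * t)) ^ 2 * (numPartitions n : ℝ) ^ 2
            ≤ C ^ 2 * 1 * (numPartitions n : ℝ) ^ 2 := by gcongr
          _ = _ := by ring
      have h5 : ((t : ℝ) + (n / t : ℕ)) * W (n - t) t ≤
          (2 * n) * (2 * K' / L * (4 * exp 26 / R) ^ (m + 6) *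
            (C ^ 2 * (numPartitions n : ℝ) ^ 2)) := by
        refine mul_le_mul h3 (hWc.trans ?_) (hW0 _ _) (by positivity)
        gcongr
      have hR6 : (n : ℝ) ^ 2 * L ≤ R ^ 6 := by
        have : R ^ 6 = (n : ℝ) ^ 3 * L ^ 6 := by
          rw [hRdef, mul_pow]
          congr 1
          calc √(n : ℝ) ^ 6 = (√(n : ℝ) * √(n : ℝ)) ^ 3 := by ring
            _ = _ := by rw [hs2]
        rw [this]
        have h6 : (n : ℝ) ^ 2 ≤ (n : ℝ) ^ 3 := pow_le_pow_right₀ (by linarith) (by norm_num)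
        have h7 : L ≤ L ^ 6 := le_self_pow₀ (by linarith) (by norm_num)
        gcongr
      have h6 : (2 * n) * (2 * K' / L * (4 * exp 26 / R) ^ (m + 6) *
            (C ^ 2 * (numPartitions n : ℝ) ^ 2)) ≤
          (numPartitions n : ℝ) ^ 2 * (1 / R) ^ m *
            (4 * K' * (4 * exp 26) ^ (m + 6) * C ^ 2 / (n * L ^ 2)) := by
        have h7 : (2 * n) * (2 * K' / L * (4 * exp 26 / R) ^ (m + 6) *
            (C ^ 2 * (numPartitions n : ℝ) ^ 2)) = (numPartitions n : ℝ) ^ 2 * (1 / R) ^ m *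
            (4 * K' * (4 * exp 26) ^ (m + 6) * C ^ 2 * (((n : ℝ) ^ 2 * L) / R ^ 6) /
              (n * L ^ 2)) := by
          rw [div_pow, one_div_pow, pow_add R m 6]
          field_simp
          norm_num
        rw [h7]
        have h8 : ((n : ℝ) ^ 2 * L) / R ^ 6 ≤ 1 := by
          rw [div_le_one (by positivity)]; exact hR6
        have h9 : 4 * K' * (4 * exp 26) ^ (m + 6) * C ^ 2 * (((n : ℝ) ^ 2 * L) / R ^ 6) ≤
            4 * K' * (4 * exp 26) ^ (m + 6) * C ^ 2 :=
          mul_le_of_le_one_right (by positivity) h8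
        gcongr
      refine h5.trans (h6.trans ?_)
      have h10 : (1 / R) ^ m ≤ vv xs n T ^ m := pow_le_pow_left₀ (by positivity) hvR m
      have h11 : 4 * K' * (4 * exp 26) ^ (m + 6) * C ^ 2 / (n * L ^ 2) ≤
          (4 * K' * (4 * exp 26) ^ (m + 6) * C ^ 2 + 2 * C ^ 2) / (n * L ^ 2) +
            32 * K' * (12 * C) ^ (m + 6) * C ^ 2 / (L * R) * mn (xs n) R t := by
        have : 4 * K' * (4 * exp 26) ^ (m + 6) * C ^ 2 / (n * L ^ 2) ≤
          (4 * K' * (4 * exp 26) ^ (m + 6) * C ^ 2 + 2 * C ^ 2) / (n * L ^ 2) := by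
          gcongr
          have : 0 ≤ 2 * C ^ 2 := by positivity
          linarith
        linarith
      gcongr
    · -- cases B and C
      have h3 : (t : ℝ) + (n / t : ℕ) ≤ 2 * (8 * R) := by
        have h4 : (n : ℝ) / t ≤ t := by
          rw [div_le_iff₀ ht0]; nlinarith
        linarith
      have h4 : exp (xs (n - t) * t) ≤ 3 * C * exp (xs n * t) := by
        have htL : (t : ℝ) ≤ √(n : ℝ) * L ^ 2 := by
          calc (t : ℝ) ≤ 8 * R := hD
            _ = √(n : ℝ) * L * 8 := by rw [hRdef]; ring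
            _ ≤ √(n : ℝ) * L * L := by gcongr; linarith
            _ = _ := by ring
        have htL2 : ((2 * t : ℕ) : ℝ) ≤ √(n : ℝ) * L ^ 2 := by
          push_cast
          calc 2 * (t : ℝ) ≤ 16 * R := by linarith
            _ = √(n : ℝ) * L * 16 := by rw [hRdef]; ring
            _ ≤ √(n : ℝ) * L * L := by gcongr
            _ = _ := by ring
        have h5 := (e6 t htn htL).2
        have h6 := (e6 (2 * t) h2t htL2).1
        have h7 := h.up (n - t) (n - 2 * t) (by omega) (by omega)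
        have h8 : xs (n - t) * (((n - 2 * t : ℕ) : ℝ) - ((n - t : ℕ) : ℝ)) = -(xs (n - t) * t) := by
          rw [Nat.cast_sub h2t, Nat.cast_sub htn]; push_cast; ring
        rw [h8] at h7
        have h9 : exp (-(xs n * ((2 * t : ℕ) : ℝ))) = exp (-(xs n * t)) * exp (-(xs n * t)) := by
          rw [← Real.exp_add]; congr 1; push_cast; ring
        rw [h9] at h6
        have h10 : (1 - 1 / 2) * (exp (-(xs n * t)) * exp (-(xs n * t)) * numPartitions n) ≤
            C * exp (-(xs (n - t) * t)) * ((1 + 1 / 2) * (exp (-(xs n * t)) * numPartitions n)) :=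
          h6.trans (h7.trans (by gcongr))
        have h11 : 0 < exp (-(xs n * t)) * numPartitions n := by positivity
        have h12 : exp (-(xs n * t)) ≤ 3 * C * exp (-(xs (n - t) * t)) := by
          have h13 : (1 - 1 / 2) * exp (-(xs n * t)) * (exp (-(xs n * t)) * numPartitions n) ≤
            (C * exp (-(xs (n - t) * t)) * (1 + 1 / 2)) * (exp (-(xs n * t)) * numPartitions n) := by
            linarith
          have := le_of_mul_le_mul_right h13 h11
          linarith
        rw [Real.exp_neg, Real.exp_neg] at h12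
        have h14 : (exp (xs n * t))⁻¹ ≤ 3 * C / exp (xs (n - t) * t) := by
          rw [div_eq_mul_inv]; exact h12
        rw [inv_eq_one_div, div_le_div_iff₀ (exp_pos _) (exp_pos _)] at h14
        linarith
      have h5 : vv xs (n - t) t ≤ 12 * C * (exp (xs n * t) / R) := by
        refine hvvb.trans ?_
        calc 4 * exp (xs (n - t) * t) / R ≤ 4 * (3 * C * exp (xs n * t)) / R := by gcongr
          _ = _ := by ring
      obtain ⟨y, hy⟩ : ∃ y, y = exp (xs n * t) / R := ⟨_, rfl⟩
      have hy0 : 0 < y := by rw [hy]; positivity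
      rw [← hy] at h5
      have hyR : exp (-(xs n * t)) = 1 / (y * R) := by
        rw [hy, Real.exp_neg]; field_simp
      have hmny : mn (xs n) R t = min y (1 / y) := by
        unfold mn
        rw [hy, one_div_div]
      -- the main bound
      have key : W (n - t) t ≤ 2 * K' / L * (12 * C) ^ (m + 6) * C ^ 2 * (min y 1) ^ (m + 6) *
          (1 / (y * R)) ^ 2 * (numPartitions n : ℝ) ^ 2 := by
        refine hWc.trans ?_
        have h6 : vv xs (n - t) t ≤ 12 * C * min y 1 := by
          rcases le_total y 1 with h7 | h7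
          · rw [min_eq_left h7]; exact h5
          · rw [min_eq_right h7]
            refine (vv_le_one _ _ _).trans ?_
            linarith
        have hm0 : 0 ≤ min y 1 := by positivity
        rw [hyR] at hPe
        calc 2 * K' / L * vv xs (n - t) t ^ (m + 6) * (numPartitions (n - t) : ℝ) ^ 2
            ≤ 2 * K' / L * (12 * C * min y 1) ^ (m + 6) *
              (C ^ 2 * (1 / (y * R)) ^ 2 * (numPartitions n : ℝ) ^ 2) := by gcongr
          _ = _ := by rw [mul_pow]; ring
      have hfin : (min y 1) ^ (m + 6) * (1 / (y * R)) ^ 2 ≤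
          vv xs n T ^ m * (min y (1 / y)) / R ^ 2 := by
        rw [div_pow, one_pow, mul_pow]
        rcases le_total y 1 with h7 | h7
        · rw [min_eq_left h7, min_eq_left (by rw [le_div_iff₀ hy0]; nlinarith)]
          have h8 : y ≤ vv xs n T := by
            unfold vv
            rw [hLdef, ← hRdef]
            apply le_min h7
            rw [hy]
            gcongr
          have h9 : y ^ (m + 6) * (1 / (y ^ 2 * R ^ 2)) = y ^ m * y ^ 4 / R ^ 2 := by
            rw [pow_add]; field_simp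
          rw [h9]
          have h10 : y ^ 4 ≤ y := by
            calc y ^ 4 ≤ y ^ 1 := pow_le_pow_of_le_one hy0.le h7 (by norm_num)
              _ = y := pow_one y
          gcongr
        · rw [min_eq_right h7, min_eq_right (by rw [div_le_iff₀ hy0]; nlinarith)]
          have h8 : vv xs n T = 1 := by
            unfold vv
            rw [hLdef, ← hRdef]
            apply min_eq_left
            refine h7.trans ?_
            rw [hy]
            gcongr
          rw [h8, one_pow, one_pow, one_mul, one_mul, div_div]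
          apply one_div_le_one_div_of_le (by positivity)
          have : y ≤ y ^ 2 := by nlinarith
          gcongr
      have h6 : ((t : ℝ) + (n / t : ℕ)) * W (n - t) t ≤ (numPartitions n : ℝ) ^ 2 *
          vv xs n T ^ m * (32 * K' * (12 * C) ^ (m + 6) * C ^ 2 / (L * R) * mn (xs n) R t) := by
        rw [hmny]
        calc ((t : ℝ) + (n / t : ℕ)) * W (n - t) t
            ≤ (2 * (8 * R)) * (2 * K' / L * (12 * C) ^ (m + 6) * C ^ 2 * (min y 1) ^ (m + 6) *
              (1 / (y * R)) ^ 2 * (numPartitions n : ℝ) ^ 2) :=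
              mul_le_mul h3 key (hW0 _ _) (by positivity)
          _ = (2 * (8 * R)) * (2 * K' / L * (12 * C) ^ (m + 6) * C ^ 2 *
              (numPartitions n : ℝ) ^ 2) * ((min y 1) ^ (m + 6) * (1 / (y * R)) ^ 2) := by ring
          _ ≤ (2 * (8 * R)) * (2 * K' / L * (12 * C) ^ (m + 6) * C ^ 2 *
              (numPartitions n : ℝ) ^ 2) * (vv xs n T ^ m * (min y (1 / y)) / R ^ 2) := by
              apply mul_le_mul_of_nonneg_left hfin (by positivity)
          _ = _ := by field_simp; norm_num; ring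
      refine h6.trans ?_
      apply mul_le_mul_of_nonneg_left _ (by positivity)
      have : 0 ≤ (4 * K' * (4 * exp 26) ^ (m + 6) * C ^ 2 + 2 * C ^ 2) / (n * L ^ 2) := by
        positivity
      linarith

theorem step : S_R4 := by
  intro xs C n0 h W hW0 hW1 hH m
  obtain ⟨K', hK', n', hH'⟩ := hH (m + 6)
  have hpt := step_pt h W hW0 hW1 m K' hK' n' hH'
  have hC := h.C1
  have hev : ∀ᶠ n : ℕ in atTop, ∀ T : ℕ,
      ∑ t ∈ Icc 1 (min T n), ((t : ℝ) + (n / t : ℕ)) * W (n - t) t ≤
      ((4 * K' * (4 * exp 26) ^ (m + 6) * C ^ 2 + 2 * C ^ 2) +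
        10 * (32 * K' * (12 * C) ^ (m + 6) * C ^ 2)) / Real.log n ^ 2 * vv xs n T ^ m *
        (numPartitions n : ℝ) ^ 2 := by
    filter_upwards [hpt, eventually_ge_atTop n0, eventually_ge_atTop 1,
      log_tendsto.eventually_ge_atTop 1] with n h1 h2 h3 h4 T
    have hn1 : (1 : ℝ) ≤ n := by exact_mod_cast h3
    have hs1 : 1 ≤ √(n : ℝ) := Real.one_le_sqrt.2 hn1
    have hx0 := h.pos n h2
    have hxlo := h.lo n h2
    have hvn := vv_nonneg xs (n := n) h3 T
    have hL0 : 0 < Real.log n := by linarith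
    have hR0 : 0 < √(n : ℝ) * Real.log n := by positivity
    refine (sum_le_sum (h1 T)).trans ?_
    rw [← mul_sum, sum_add_distrib, sum_const, ← mul_sum, nsmul_eq_mul, Nat.card_Icc,
      Nat.add_sub_cancel]
    have h5 : 2 * (1 + 1 / xs n) ≤ 10 * √(n : ℝ) := by
      have h6 : 1 / xs n ≤ 4 * √(n : ℝ) := by
        rw [one_div, inv_le_comm₀ hx0 (by positivity), ← one_div]; exact hxlo
      linarith
    have h7 := (sum_mn hx0 hR0 (Icc 1 (min T n))).trans h5
    have h8 : ((min T n : ℕ) : ℝ) ≤ n := by exact_mod_cast min_le_right T n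
    calc (numPartitions n : ℝ) ^ 2 * vv xs n T ^ m *
        (((min T n : ℕ) : ℝ) * ((4 * K' * (4 * exp 26) ^ (m + 6) * C ^ 2 + 2 * C ^ 2) /
          (n * Real.log n ^ 2)) + 32 * K' * (12 * C) ^ (m + 6) * C ^ 2 /
          (Real.log n * (√(n : ℝ) * Real.log n)) *
            ∑ t ∈ Icc 1 (min T n), mn (xs n) (√(n : ℝ) * Real.log n) t)
        ≤ (numPartitions n : ℝ) ^ 2 * vv xs n T ^ m *
        ((n : ℝ) * ((4 * K' * (4 * exp 26) ^ (m + 6) * C ^ 2 + 2 * C ^ 2) /
          (n * Real.log n ^ 2)) + 32 * K' * (12 * C) ^ (m + 6) * C ^ 2 /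
          (Real.log n * (√(n : ℝ) * Real.log n)) * (10 * √(n : ℝ))) := by gcongr
      _ = _ := by field_simp
  obtain ⟨n₁, hn₁⟩ := eventually_atTop.1 hev
  exact ⟨_, by positivity, n₁, fun n T hn => hn₁ n hn T⟩

end Pool.Agent.W5h11.TZ
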