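import Pool.Agent.W5h11.TZ.Thr

/-! The tails beyond the threshold. -/

set_option autoImplicit false

namespace Pool.Agent.W5h11.TZ

open Finset Filter Topology Real Pool.Agent.H581R3.Core Pool.Agent.R721.PN

theorem tailt : S_TAIL := by
  obtain ⟨C, hC, n0, hreg⟩ := reg
  intro K₀ hK₀
  have hlog : Tendsto (fun n : ℕ => Real.log n) atTop atTop :=
    Real.tendsto_log_atTop.comp tendsto_natCast_atTop_atTop
  have hev : ∀ᶠ n : ℕ in atTop, 4 * n0 ≤ n ∧ 100 ≤ n ∧ 1 ≤ Real.log n :=
    (eventually_ge_atTop (4 * n0)).and ((eventually_ge_atTop 100).and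
      (hlog.eventually_ge_atTop _))
  obtain ⟨n₁, hn₁⟩ := eventually_atTop.1 hev
  refine ⟨4 * C ^ 2 * K₀ * exp 26, ?_, n₁, fun n t₀ hn hthr => ?_⟩
  · have h1 : 1 ≤ C ^ 2 := one_le_pow₀ hC
    have h2 : 1 ≤ exp (26 : ℝ) := Real.one_le_exp (by norm_num)
    have h3 : 1 ≤ C ^ 2 * K₀ := by nlinarith
    have h4 : 1 ≤ C ^ 2 * K₀ * exp 26 := by nlinarith
    linarith
  obtain ⟨e1, e2, e3⟩ := hn₁ n hn
  have hn4 : (100 : ℝ) ≤ n := by exact_mod_cast e2
  have hs2 : √(n : ℝ) * √(n : ℝ) = n := Real.mul_self_sqrt (by positivity)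
  have hs : 10 ≤ √(n : ℝ) := by
    rw [Real.le_sqrt (by norm_num) (by positivity)]; linarith
  have hP : ∀ m, (0 : ℝ) < numPartitions m := fun m => by exact_mod_cast numPartitions_pos m
  set L := Real.log n with hL
  have hL0 : 0 < L := by linarith
  have ht₀ : (1 : ℝ) ≤ t₀ := by exact_mod_cast hthr.pos
  have ht₀0 : (0 : ℝ) < t₀ := by linarith
  have hexp : 1 ≤ exp (26 : ℝ) := Real.one_le_exp (by norm_num)
  -- `√n ≤ (K₀ / L) t₀`
  have hq : √(n : ℝ) ≤ K₀ / L * t₀ := by
    have := hthr.lo
    rw [div_le_iff₀ (by positivity)] at this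
    rw [div_mul_eq_mul_div, le_div_iff₀ hL0]
    linarith
  have h4t := hthr.le
  refine ⟨?_, ?_, ?_⟩
  · intro t ht htn
    have htt : (t₀ : ℝ) ≤ t := by exact_mod_cast ht.le
    have ht0 : (0 : ℝ) < t := by linarith
    obtain ⟨x, hx0, hxl, hxu, hx⟩ := hreg (n - t) (by omega)
    have h1 := hx n (by omega)
    have h2 : ((n : ℝ) - ((n - t : ℕ) : ℝ)) = t := by
      rw [Nat.cast_sub (by omega)]; ring
    rw [h2] at h1
    have h3 := hthr.small t ht (by omega)
    -- `exp (- x t) ≤ C / (4 t)`
    have h4 : exp (-(x * t)) ≤ C / (4 * t) := by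
      rw [Real.exp_neg, inv_le_comm₀ (exp_pos _) (by positivity), inv_div, div_le_iff₀ (by positivity)]
      have h5 : 4 * (t : ℝ) * numPartitions (n - t) ≤
          C * exp (x * t) * numPartitions (n - t) := h3.trans h1
      have := le_of_mul_le_mul_right h5 (hP _)
      linarith
    have h5 : 1 / x ≤ 4 * √(n : ℝ) := by
      have h6 : √((n - t : ℕ) : ℝ) ≤ √(n : ℝ) := by
        apply Real.sqrt_le_sqrt
        exact_mod_cast Nat.sub_le n t
      have h7 : 0 < √((n - t : ℕ) : ℝ) := by
        apply Real.sqrt_pos.2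
        exact_mod_cast (by omega : 0 < n - t)
      rw [one_div, inv_le_comm₀ hx0 (by positivity)]
      refine le_trans ?_ hxl
      rw [one_div]
      gcongr
    calc ∑ s ∈ Ioc t (n - t), (numPartitions (n - t - s) : ℝ)
        ≤ ∑ s ∈ Ioc t (n - t), C * numPartitions (n - t) * exp (-(x * s)) := by
          refine sum_le_sum fun s hs => ?_
          rw [mem_Ioc] at hs
          have h8 := hx (n - t - s) (by omega)
          have h9 : x * (((n - t - s : ℕ) : ℝ) - ((n - t : ℕ) : ℝ)) = -(x * s) := by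
            rw [Nat.cast_sub hs.2]; ring
          rw [h9] at h8
          linarith
      _ = C * numPartitions (n - t) * ∑ s ∈ Ioc t (n - t), exp (-(x * s)) := by rw [mul_sum]
      _ ≤ C * numPartitions (n - t) * (exp (-(x * t)) / x) := by
          have := geo' hx0 t (n - t)
          gcongr
      _ = C * numPartitions (n - t) * (exp (-(x * t)) * (1 / x)) := by ring
      _ ≤ C * numPartitions (n - t) * (C / (4 * t) * (4 * √(n : ℝ))) := by
          gcongr
      _ = C ^ 2 * (√(n : ℝ) / t) * numPartitions (n - t) := by field_simp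
      _ ≤ C ^ 2 * ((K₀ / L * t) / t) * numPartitions (n - t) := by
          gcongr
          exact hq.trans (by gcongr)
      _ = (C ^ 2 * K₀) / L * numPartitions (n - t) := by field_simp
      _ ≤ _ := by
          have h10 : C ^ 2 * K₀ ≤ 4 * C ^ 2 * K₀ * exp 26 := by
            calc C ^ 2 * K₀ ≤ C ^ 2 * K₀ * (4 * exp 26) := by
                  apply le_mul_of_one_le_right (by positivity); linarith
              _ = _ := by ring
          exact mul_le_mul_of_nonneg_right (div_le_div_of_nonneg_right h10 hL0.le) (hP _).le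
  · obtain ⟨x, hx0, hxl, hxu, hx⟩ := hreg (n - (t₀ + 1)) (by omega)
    have h3 := hthr.small (t₀ + 1) (by omega) (by omega)
    have h5 : 1 / x ≤ 4 * √(n : ℝ) := by
      have h6 : √((n - (t₀ + 1) : ℕ) : ℝ) ≤ √(n : ℝ) := by
        apply Real.sqrt_le_sqrt
        exact_mod_cast Nat.sub_le n _
      have h7 : 0 < √((n - (t₀ + 1) : ℕ) : ℝ) := by
        apply Real.sqrt_pos.2
        exact_mod_cast (by omega : 0 < n - (t₀ + 1))
      rw [one_div, inv_le_comm₀ hx0 (by positivity)]
      refine le_trans ?_ hxl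
      rw [one_div]
      gcongr
    have hx1 : x ≤ 2 := by
      refine hxu.trans ?_
      have h7 : √(n : ℝ) * (7 / 10) ≤ √((n - (t₀ + 1) : ℕ) : ℝ) := by
        apply Real.le_sqrt_of_sq_le
        rw [Nat.cast_sub (by omega)]
        have h8 : (4 : ℝ) * t₀ ≤ n := by exact_mod_cast h4t
        push_cast
        nlinarith
      have h9 : 0 < √((n - (t₀ + 1) : ℕ) : ℝ) := by linarith
      rw [div_le_iff₀ h9]
      linarith
    have hPle : (numPartitions (n - (t₀ + 1)) : ℝ) ≤ numPartitions n / (4 * t₀) := by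
      rw [le_div_iff₀ (by positivity)]
      push_cast at h3
      have := hP (n - (t₀ + 1))
      nlinarith
    calc ∑ t ∈ Ioc t₀ (n / 2), (numPartitions (n - t) : ℝ)
        ≤ ∑ t ∈ Ioc t₀ (n / 2), C * numPartitions (n - (t₀ + 1)) * exp (x * (t₀ + 1)) *
            exp (-(x * t)) := by
          refine sum_le_sum fun t ht => ?_
          rw [mem_Ioc] at ht
          have h8 := hx (n - t) (by omega)
          have h9 : exp (x * (((n - t : ℕ) : ℝ) - ((n - (t₀ + 1) : ℕ) : ℝ))) =
              exp (x * (t₀ + 1)) * exp (-(x * t)) := by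
            rw [← Real.exp_add, Nat.cast_sub (by omega), Nat.cast_sub (by omega)]
            congr 1; push_cast; ring
          rw [h9] at h8
          linarith
      _ = C * numPartitions (n - (t₀ + 1)) * exp (x * (t₀ + 1)) *
            ∑ t ∈ Ioc t₀ (n / 2), exp (-(x * t)) := by rw [mul_sum]
      _ ≤ C * numPartitions (n - (t₀ + 1)) * exp (x * (t₀ + 1)) * (exp (-(x * t₀)) / x) := by
          have := geo' hx0 t₀ (n / 2)
          gcongr
      _ = C * numPartitions (n - (t₀ + 1)) * (exp x * (1 / x)) := by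
          have : exp x = exp (x * (t₀ + 1)) * exp (-(x * t₀)) := by
            rw [← Real.exp_add]; congr 1; ring
          rw [this]; ring
      _ ≤ C * (numPartitions n / (4 * t₀)) * (exp 2 * (4 * √(n : ℝ))) := by
          have := Real.exp_le_exp.2 hx1
          gcongr
      _ ≤ C * (numPartitions n / (4 * t₀)) * (exp 2 * (4 * (K₀ / L * t₀))) := by gcongr
      _ = C * K₀ * exp 2 / L * numPartitions n := by field_simp
      _ ≤ _ := by
          have h10 : exp 2 ≤ exp (26 : ℝ) := Real.exp_le_exp.2 (by norm_num)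
          refine mul_le_mul_of_nonneg_right (div_le_div_of_nonneg_right ?_ hL0.le) (hP _).le
          calc C * K₀ * exp 2 ≤ C * K₀ * exp 26 := by gcongr
            _ ≤ C * K₀ * exp 26 * (4 * C) := by
                apply le_mul_of_one_le_right (by positivity); linarith
            _ = _ := by ring
  · intro t ht htn
    have hsq : (Nat.sqrt n : ℝ) ≤ √(n : ℝ) := Real.nat_sqrt_le_real_sqrt
    have h4t' : (4 : ℝ) * t₀ ≤ n := by exact_mod_cast h4t
    have htt : (t : ℝ) ≤ t₀ + Nat.sqrt n := by exact_mod_cast htn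
    have htt' : (t₀ : ℝ) ≤ t := by exact_mod_cast ht
    have ht2 : 2 * t ≤ n := by
      have : (2 : ℝ) * t ≤ n := by nlinarith
      exact_mod_cast this
    obtain ⟨x, hx0, hxl, hxu, hx⟩ := hreg (n - t) (by omega)
    have h1 := hx (n - t₀) (by omega)
    have h3 : √(n : ℝ) / 2 ≤ √((n - t : ℕ) : ℝ) := by
      apply Real.le_sqrt_of_sq_le
      have : (n : ℝ) / 2 ≤ ((n - t : ℕ) : ℝ) := by
        rw [Nat.cast_sub (by omega)]
        have : (2 : ℝ) * t ≤ n := by exact_mod_cast ht2
        linarith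
      nlinarith
    have h4 : x ≤ 26 / √(n : ℝ) := by
      refine hxu.trans ?_
      calc 13 / √((n - t : ℕ) : ℝ) ≤ 13 / (√(n : ℝ) / 2) := by gcongr
        _ = _ := by ring
    have h5 : x * (((n - t₀ : ℕ) : ℝ) - ((n - t : ℕ) : ℝ)) ≤ 26 := by
      rw [Nat.cast_sub (by omega), Nat.cast_sub (by omega)]
      calc x * ((n : ℝ) - t₀ - (n - t)) = x * (t - t₀) := by ring
        _ ≤ 26 / √(n : ℝ) * √(n : ℝ) := by
            apply mul_le_mul h4 (by linarith) (by linarith) (by positivity)
        _ = 26 := by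
            have : √(n : ℝ) ≠ 0 := by positivity
            field_simp
    have h6 := hthr.big
    rw [div_le_iff₀ (by positivity)]
    calc (numPartitions n : ℝ) ≤ 4 * t₀ * numPartitions (n - t₀) := h6
      _ ≤ 4 * t₀ * (C * exp 26 * numPartitions (n - t)) := by
          gcongr
          refine h1.trans ?_
          gcongr
      _ = numPartitions (n - t) * (4 * C * exp 26 * t₀) := by ring
      _ ≤ _ := by
          have h10 : 4 * C * exp 26 ≤ 4 * C ^ 2 * K₀ * exp 26 := by
            calc 4 * C * exp 26 ≤ 4 * C * exp 26 * (C * K₀) := by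
                  apply le_mul_of_one_le_right (by positivity); nlinarith
              _ = 4 * C ^ 2 * K₀ * exp 26 := by ring
          exact mul_le_mul_of_nonneg_left (mul_le_mul_of_nonneg_right h10 ht₀0.le) (hP _).le

end Pool.Agent.W5h11.TZ
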